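import Mathlib

/-!
# Cycles (TC1): existence

Indices are `0, …, m - 1`; the successor of `i` is `(i + 1) % m`. The long cofactors are `A (m - 1)` and `B (m - 1)`.
`Cyc h m A B al be e t`: all of `e i`, `t i` (`i < m`) are positive and
`e i * A i - t i * be i = h`, `e i * B i - t (i + 1) * al (i + 1) = h`.
`Sm A B al be k = ∑_{j<k} (al j - be j) ∏_{l<j} al l A l ∏_{j<l<k} be l B (l - 1)`.
-/

set_option autoImplicit false

open Finset

namespace Pool.Agent.Lib.TTC

/-- the cycle system: `e_i A_i - t_i β_i = h`, `e_i B_i - t_{i+1} α_{i+1} = h` -/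
structure Cyc (h : ℤ) (m : ℕ) (A B al be e t : ℕ → ℕ) : Prop where
  E : ∀ i < m, (e i : ℤ) * A i = h + t i * be i
  F : ∀ i < m, (e i : ℤ) * B i = h + t ((i + 1) % m) * al ((i + 1) % m)
  e0 : ∀ i < m, 0 < e i
  t0 : ∀ i < m, 0 < t i

/-- the integer `S` of a cycle -/
def Sm (A B al be : ℕ → ℕ) : ℕ → ℕ
  | 0 => 0
  | (k + 1) => Sm A B al be k * (be k * B (k - 1)) + (al k - be k) * ∏ l ∈ range k, al l * A l

/-- `B (i - 1)`, cyclically -/
def Bp (m : ℕ) (B : ℕ → ℕ) (i : ℕ) : ℕ := if i = 0 then B (m - 1) else B (i - 1)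

theorem prod_Bp {m : ℕ} (hm : 0 < m) (B : ℕ → ℕ) : ∏ i ∈ range m, Bp m B i = ∏ i ∈ range m, B i := by
  obtain ⟨k, rfl⟩ : ∃ k, m = k + 1 := ⟨m - 1, by omega⟩
  rw [prod_range_succ', prod_range_succ B]
  simp [Bp]

/-- a rational number with two coprime multipliers into the integers is an integer -/
theorem int_of_two {q : ℚ} {a b : ℕ} (h : a.Coprime b) (ha : ∃ z : ℤ, (z : ℚ) = a * q) (hb : ∃ z : ℤ, (z : ℚ) = b * q) :
    ∃ z : ℤ, (z : ℚ) = q := by
  obtain ⟨x, hx⟩ := ha
  obtain ⟨y, hy⟩ := hb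
  have hB : (1 : ℤ) = a * a.gcdA b + b * a.gcdB b := by
    have := Nat.gcd_eq_gcd_ab a b
    rw [Nat.Coprime] at h
    rw [h] at this
    exact_mod_cast this
  refine ⟨x * a.gcdA b + y * a.gcdB b, ?_⟩
  push_cast
  rw [hx, hy]
  have hB' : (1 : ℚ) = a * (a.gcdA b : ℤ) + b * (a.gcdB b : ℤ) := by exact_mod_cast hB
  calc (a : ℚ) * q * (a.gcdA b : ℤ) + b * q * (a.gcdB b : ℤ) = q * (a * (a.gcdA b : ℤ) + b * (a.gcdB b : ℤ)) := by ring
    _ = q := by rw [← hB', mul_one]

theorem Sm_pos {A B al be : ℕ → ℕ} : ∀ k, 0 < k → (∀ i < k, 0 < A i) → (∀ i < k, be i < al i) → 0 < Sm A B al be k := by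
  intro k hk hA hba
  obtain ⟨j, rfl⟩ : ∃ j, k = j + 1 := ⟨k - 1, by omega⟩
  simp only [Sm]
  have h1 : 0 < al j - be j := by have := hba j (by omega); omega
  have h2 : 0 < ∏ l ∈ range j, al l * A l := by
    apply prod_pos
    intro l hl
    rw [mem_range] at hl
    have := hba l (by omega)
    have h3 := hA l (by omega)
    exact Nat.mul_pos (by omega) h3
  have h3 := Nat.mul_pos h1 h2
  omega

/-- the rational sequence of the cycle: `gq (i + 1) = e_i` -/
noncomputable def gq (h : ℤ) (m : ℕ) (A B al be : ℕ → ℕ) (g0 : ℚ) : ℕ → ℚ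
  | 0 => g0
  | (i + 1) => (((al i : ℚ) - be i) * h + be i * Bp m B i * gq h m A B al be g0 i) / (al i * A i)

theorem gq_inv {h : ℤ} {m : ℕ} {A B al be : ℕ → ℕ} (g0 : ℚ) (hA : ∀ i < m, 0 < A i) (hba : ∀ i < m, be i < al i) :
    ∀ i ≤ m, (∏ l ∈ range i, ((al l : ℚ) * A l)) * gq h m A B al be g0 i =
      h * Sm A B al be i + (∏ l ∈ range i, ((be l : ℚ) * Bp m B l)) * g0 := by
  intro i
  induction i with
  | zero => intro _; simp [gq, Sm]
  | succ i ih =>
    intro hi
    have ih := ih (by omega)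
    have h1 : (al i : ℚ) ≠ 0 := by
      have := hba i (by omega)
      have h' : 0 < al i := by omega
      exact_mod_cast h'.ne'
    have h2 : (A i : ℚ) ≠ 0 := by
      have := hA i (by omega)
      exact_mod_cast this.ne'
    have hsub : ((al i - be i : ℕ) : ℚ) = (al i : ℚ) - be i := by
      rw [Nat.cast_sub (hba i (by omega)).le]
    have hBS : (Sm A B al be i : ℚ) * ((be i : ℚ) * (B (i - 1) : ℕ)) = Sm A B al be i * ((be i : ℚ) * Bp m B i) := by
      rcases Nat.eq_zero_or_pos i with h0 | h0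
      · subst h0; simp [Sm]
      · simp [Bp, h0.ne']
    rw [prod_range_succ, prod_range_succ (fun l => (be l : ℚ) * Bp m B l)]
    have e1 : (∏ l ∈ range i, ((al l : ℚ) * A l)) * ((al i : ℚ) * A i) * gq h m A B al be g0 (i + 1)
        = (∏ l ∈ range i, ((al l : ℚ) * A l)) * (((al i : ℚ) - be i) * (h : ℚ)) +
          be i * Bp m B i * ((∏ l ∈ range i, ((al l : ℚ) * A l)) * gq h m A B al be g0 i) := by
      rw [gq]
      field_simp
    rw [e1, ih]
    simp only [Sm]
    push_cast
    rw [hsub, hBS]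
    ring

/-- `S_i Th_n ≤ S_n Th_i` for `1 ≤ i ≤ n` -/
theorem Sm_mono {m : ℕ} {A B al be : ℕ → ℕ} {i : ℕ} (hi : 1 ≤ i) : ∀ n, i ≤ n →
    Sm A B al be i * ∏ l ∈ range n, (be l * Bp m B l) ≤ Sm A B al be n * ∏ l ∈ range i, (be l * Bp m B l) := by
  intro n hn
  induction n, hn using Nat.le_induction with
  | base => exact le_rfl
  | succ n hn ih =>
    have h1 : Bp m B n = B (n - 1) := by
      unfold Bp
      rw [if_neg (by omega)]
    rw [prod_range_succ, Sm, h1]
    calc Sm A B al be i * ((∏ l ∈ range n, (be l * Bp m B l)) * (be n * B (n - 1))) =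
        (Sm A B al be i * ∏ l ∈ range n, (be l * Bp m B l)) * (be n * B (n - 1)) := by ring
      _ ≤ (Sm A B al be n * ∏ l ∈ range i, (be l * Bp m B l)) * (be n * B (n - 1)) := Nat.mul_le_mul_right _ ih
      _ = (Sm A B al be n * (be n * B (n - 1))) * ∏ l ∈ range i, (be l * Bp m B l) := by ring
      _ ≤ _ := Nat.mul_le_mul_right _ (Nat.le_add_right _ _)

/-- **Existence of the cycle.** `g_{i+1} = ((al i - be i) h + be i * Bp i * g_i) / (al i * A i)`, `g_0 = g0 = Sm / D`. Positivity: `Th_i = ∏_{l<i} be l Bp l`, `Pi_i = ∏_{l<i} al l A l`,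
`Y = Th_m`: for `i ≥ 1`: `Sm m * Th_i ≥ Sm i * Y` (`Sm_mono`), so `D Pi_i g_i = D h Sm i + Th_i Sm m ≥ Sm i (Y + D h)`. As `Sm i ≥ (al (i-1) - be (i-1)) Pi_{i-1}` and `al - be ≥ al/3`:
`3 D A_{i-1} g_i ≥ Y + D h > 3 D |h|`, so `t_{i-1} be_{i-1} = g_i A_{i-1} - h > 0`. -/
theorem cyc_exists {h : ℤ} {m : ℕ} {A B al be : ℕ → ℕ} {D : ℕ} (hm : 0 < m) (hD : 0 < D)
    (hA : ∀ i < m, 0 < A i) (hB : ∀ i < m, 0 < B i) (hb : ∀ i < m, 0 < be i) (hba : ∀ i < m, 3 * be i ≤ 2 * al i)
    (hXY : ((∏ i ∈ range m, (al i * A i) : ℕ) : ℤ) = ((∏ i ∈ range m, (be i * B i) : ℕ) : ℤ) + D * h)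
    (hY : 4 * (D * h.natAbs) < ∏ i ∈ range m, (be i * B i))
    (hS : D ∣ Sm A B al be m)
    (hcop : ((∏ i ∈ range m, al i) * ∏ i ∈ range (m - 1), A i).Coprime
      ((∏ i ∈ range m, be i) * ∏ i ∈ range (m - 1), B i)) :
    ∃ e t : ℕ → ℕ, Cyc h m A B al be e t ∧ D * e (m - 1) = Sm A B al be m ∧
      ∀ i ≤ m, ((∏ l ∈ range i, (al l * A l) : ℕ) : ℤ) * (if i = 0 then e (m - 1) else e (i - 1) : ℕ) =
        h * Sm A B al be i + ((∏ l ∈ range i, (be l * Bp m B l) : ℕ) : ℤ) * e (m - 1) := by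
  classical
  obtain ⟨g0, hg0⟩ := hS
  have hba3 := hba
  have hba : ∀ i < m, be i < al i := fun i hi => by have := hba3 i hi; have := hb i hi; omega
  have hal : ∀ i < m, 0 < al i := fun i hi => by have := hba i hi; omega
  set g : ℕ → ℚ := gq h m A B al be (g0 : ℚ) with hg
  have hgz : g 0 = g0 := rfl
  have hinv := gq_inv (h := h) (m := m) (A := A) (B := B) (al := al) (be := be) (g0 : ℚ) hA hba
  have hBpos : ∀ i < m, 0 < Bp m B i := by
    intro i hi
    unfold Bp
    split_ifs
    · exact hB _ (by omega)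
    · exact hB _ (by omega)
  have hrec : ∀ i < m, (al i : ℚ) * A i * g (i + 1) = ((al i : ℚ) - be i) * h + be i * Bp m B i * g i := by
    intro i hi
    have h1 : (al i : ℚ) ≠ 0 := by exact_mod_cast (hal i hi).ne'
    have h2 : (A i : ℚ) ≠ 0 := by exact_mod_cast (hA i hi).ne'
    rw [hg, gq]
    field_simp
  -- closure
  have hclose : g m = g0 := by
    have h1 := hinv m le_rfl
    have hX : (∏ l ∈ range m, ((al l : ℚ) * A l)) = (∏ l ∈ range m, ((be l : ℚ) * B l)) + D * h := by
      have := congrArg (fun z : ℤ => (z : ℚ)) hXY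
      push_cast at this
      exact this
    have hY : (∏ l ∈ range m, ((be l : ℚ) * Bp m B l)) = ∏ l ∈ range m, ((be l : ℚ) * B l) := by
      rw [prod_mul_distrib, prod_mul_distrib]
      congr 1
      have := prod_Bp hm B
      exact_mod_cast this
    have hSD : (Sm A B al be m : ℚ) = D * g0 := by exact_mod_cast hg0
    rw [hY, hSD] at h1
    have hXpos : (0 : ℚ) < ∏ l ∈ range m, ((al l : ℚ) * A l) := by
      apply prod_pos
      intro l hl
      rw [mem_range] at hl
      have h1 : (0 : ℚ) < al l := by exact_mod_cast hal l hl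
      have h2 : (0 : ℚ) < A l := by exact_mod_cast hA l hl
      positivity
    have h2 : (∏ l ∈ range m, ((al l : ℚ) * A l)) * g m = (∏ l ∈ range m, ((al l : ℚ) * A l)) * g0 := by
      rw [h1, hX]; ring
    exact mul_left_cancel₀ hXpos.ne' h2
  have hg0pos : 0 < g0 := by
    have := Sm_pos (A := A) (B := B) (al := al) (be := be) m hm hA hba
    rw [hg0] at this
    exact Nat.pos_of_mul_pos_left this |> fun h => by
      rcases Nat.eq_zero_or_pos g0 with h0 | h0
      · subst h0; simp at this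
      · exact h0
  -- the lower bound
  obtain ⟨Y, hYd⟩ : ∃ Y : ℕ, Y = ∏ i ∈ range m, (be i * B i) := ⟨_, rfl⟩
  have hThm : ∏ l ∈ range m, (be l * Bp m B l) = Y := by
    rw [hYd, prod_mul_distrib, prod_mul_distrib, prod_Bp hm B]
  have hDq : (0 : ℚ) < D := by exact_mod_cast hD
  have hDh : 4 * ((D : ℚ) * |(h : ℚ)|) < Y := by
    have h1 : 4 * (D * h.natAbs) < Y := by rw [hYd]; exact hY
    have h2 : ((4 * (D * h.natAbs) : ℕ) : ℚ) < (Y : ℚ) := by exact_mod_cast h1
    push_cast at h2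
    rw [Nat.cast_natAbs] at h2
    push_cast at h2
    exact h2
  have hDabs : -((D : ℚ) * |(h : ℚ)|) ≤ D * h := by
    have := neg_abs_le (h : ℚ)
    nlinarith
  have habs0 : 0 ≤ (D : ℚ) * |(h : ℚ)| := by positivity
  have hXq : 3 * ((D : ℚ) * |(h : ℚ)|) < Y + D * h := by linarith
  have hlow : ∀ i, 1 ≤ i → i ≤ m → (Sm A B al be i : ℚ) * (Y + D * h) ≤ D * ((∏ l ∈ range i, ((al l : ℚ) * A l)) * g i) := by
    intro i h1 hi
    rw [hinv i hi]
    have h2 := Sm_mono (m := m) (A := A) (B := B) (al := al) (be := be) h1 m hi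
    rw [hThm, hg0] at h2
    have h3 : (Sm A B al be i : ℚ) * Y ≤ D * g0 * ∏ l ∈ range i, ((be l : ℚ) * Bp m B l) := by exact_mod_cast h2
    nlinarith
  have hkey : ∀ j < m, Y + D * (h : ℚ) ≤ 3 * (D * (A j * g (j + 1))) := by
    intro j hj
    have h1 := hlow (j + 1) (by omega) (by omega)
    have hPpos : (0 : ℚ) < ∏ l ∈ range j, ((al l : ℚ) * A l) := by
      apply prod_pos
      intro l hl
      rw [mem_range] at hl
      have h1 : (0 : ℚ) < al l := by exact_mod_cast hal l (by omega)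
      have h2 : (0 : ℚ) < A l := by exact_mod_cast hA l (by omega)
      positivity
    have halj : (0 : ℚ) < al j := by exact_mod_cast hal j hj
    have h2 : ((al j : ℚ) - be j) * ∏ l ∈ range j, ((al l : ℚ) * A l) ≤ Sm A B al be (j + 1) := by
      have h3 : (al j - be j) * ∏ l ∈ range j, al l * A l ≤ Sm A B al be (j + 1) := by
        rw [Sm]
        exact Nat.le_add_left _ _
      have h4 : (((al j - be j) * ∏ l ∈ range j, al l * A l : ℕ) : ℚ) ≤ Sm A B al be (j + 1) := by exact_mod_cast h3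
      push_cast at h4
      rw [Nat.cast_sub (hba j hj).le] at h4
      exact h4
    have h5 : (al j : ℚ) / 3 ≤ (al j : ℚ) - be j := by
      have h6 : (3 * be j : ℚ) ≤ 2 * al j := by exact_mod_cast hba3 j hj
      linarith
    have hX0 : (0 : ℚ) < Y + D * h := by linarith
    have h7 : (al j : ℚ) / 3 * (∏ l ∈ range j, ((al l : ℚ) * A l)) * (Y + D * h) ≤
        D * (((∏ l ∈ range j, ((al l : ℚ) * A l)) * (al j * A j)) * g (j + 1)) := by
      rw [prod_range_succ] at h1
      refine le_trans ?_ h1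
      refine mul_le_mul_of_nonneg_right ?_ hX0.le
      exact (mul_le_mul_of_nonneg_right h5 hPpos.le).trans h2
    have h8 : ((al j : ℚ) * ∏ l ∈ range j, ((al l : ℚ) * A l)) * (Y + D * h) ≤
        ((al j : ℚ) * ∏ l ∈ range j, ((al l : ℚ) * A l)) * (3 * (D * (A j * g (j + 1)))) := by
      nlinarith
    exact le_of_mul_le_mul_left h8 (mul_pos halj hPpos)
  have hgpos : ∀ i ≤ m, 0 < g i := by
    intro i hi
    rcases Nat.eq_zero_or_pos i with h0 | h0
    · rw [h0, hgz]
      exact_mod_cast hg0pos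
    · obtain ⟨j, rfl⟩ : ∃ j, i = j + 1 := ⟨i - 1, by omega⟩
      have h1 := hkey j (by omega)
      have h3 : (0 : ℚ) < A j := by exact_mod_cast hA j (by omega)
      have h2 : 0 < (3 * D * A j : ℚ) * g (j + 1) := by nlinarith
      exact pos_of_mul_pos_right h2 (by positivity)
  -- the numbers t
  set tq : ℕ → ℚ := fun i => (Bp m B i * g i - h) / al i with htq
  have hF : ∀ i < m, tq i * al i = Bp m B i * g i - h := by
    intro i hi
    have h1 : (al i : ℚ) ≠ 0 := by exact_mod_cast (hal i hi).ne'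
    rw [htq]
    field_simp
  have hE : ∀ i < m, tq i * be i = A i * g (i + 1) - h := by
    intro i hi
    have h1 : (al i : ℚ) ≠ 0 := by exact_mod_cast (hal i hi).ne'
    have h2 := hrec i hi
    have h3 := hF i hi
    have h4 : (al i : ℚ) * (tq i * be i) = al i * (A i * g (i + 1) - h) := by
      linear_combination (be i : ℚ) * h3 - h2
    exact mul_left_cancel₀ h1 h4
  -- positivity of t : minimum of w = al t
  have hnext : ∀ j < m, tq ((j + 1) % m) * al ((j + 1) % m) = B j * g (j + 1) - h := by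
    intro j hj
    have h0 : (j + 1) % m < m := Nat.mod_lt _ hm
    rw [hF _ h0]
    rcases Nat.lt_or_ge (j + 1) m with h | h
    · rw [Nat.mod_eq_of_lt h]
      simp [Bp]
    · have h2 : j + 1 = m := by omega
      rw [h2, Nat.mod_self, hclose, hgz]
      have : j = m - 1 := by omega
      simp [Bp, this]
  have htpos : ∀ i < m, 0 < tq i := by
    intro i hi
    have h1 := hkey i hi
    have h2 : (0 : ℚ) < be i := by exact_mod_cast hb i hi
    have h3 : 0 < tq i * be i := by
      rw [hE i hi]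
      have h4 : (D : ℚ) * |(h : ℚ)| < D * (A i * g (i + 1)) := by linarith
      have h5 := lt_of_mul_lt_mul_left h4 hDq.le
      have h6 := le_abs_self (h : ℚ)
      linarith
    exact pos_of_mul_pos_left h3 h2.le
  -- integrality of g
  have hP : ∀ i ≤ m, ∃ z : ℤ, (z : ℚ) = ((∏ l ∈ range i, (al l * A l) : ℕ) : ℚ) * g i := by
    intro i hi
    have h1 := hinv i hi
    refine ⟨h * Sm A B al be i + (∏ l ∈ range i, (be l * Bp m B l) : ℕ) * g0, ?_⟩
    push_cast
    rw [h1]
  have hQ : ∀ d ≤ m, ∃ z : ℤ, (z : ℚ) = ((∏ l ∈ Ico (m - d) m, (be l * Bp m B l) : ℕ) : ℚ) * g (m - d) := by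
    intro d
    induction d with
    | zero =>
      intro _
      refine ⟨g0, ?_⟩
      simp [hclose]
    | succ d ih =>
      intro hd
      obtain ⟨z, hz⟩ := ih (by omega)
      set i := m - (d + 1) with hi
      have him : i < m := by omega
      have hid : m - d = i + 1 := by omega
      rw [hid] at hz
      have hspl : (∏ l ∈ Ico i m, (be l * Bp m B l) : ℕ) = (be i * Bp m B i) * ∏ l ∈ Ico (i + 1) m, (be l * Bp m B l) :=
        prod_eq_prod_Ico_succ_bot him _
      have h1 := hrec i him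
      refine ⟨(al i * A i : ℕ) * z - (∏ l ∈ Ico (i + 1) m, (be l * Bp m B l) : ℕ) * (((al i : ℤ) - be i) * h), ?_⟩
      rw [hspl]
      push_cast
      rw [hz]
      push_cast
      have : (be i : ℚ) * Bp m B i * g i = al i * A i * g (i + 1) - ((al i : ℚ) - be i) * h := by rw [h1]; ring
      calc (al i : ℚ) * A i * ((∏ l ∈ Ico (i + 1) m, ((be l : ℚ) * Bp m B l)) * g (i + 1)) -
            (∏ l ∈ Ico (i + 1) m, ((be l : ℚ) * Bp m B l)) * (((al i : ℚ) - be i) * h)
          = (∏ l ∈ Ico (i + 1) m, ((be l : ℚ) * Bp m B l)) * (al i * A i * g (i + 1) - ((al i : ℚ) - be i) * h) := by ring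
        _ = (∏ l ∈ Ico (i + 1) m, ((be l : ℚ) * Bp m B l)) * (be i * Bp m B i * g i) := by rw [this]
        _ = _ := by ring
  have hgint : ∀ i ≤ m, ∃ z : ℤ, (z : ℚ) = g i := by
    intro i hi
    rcases Nat.eq_zero_or_pos i with h0 | h0
    · subst h0; exact ⟨g0, by rw [hgz]; norm_num⟩
    rcases Nat.lt_or_ge i m with h | h
    swap
    · have : i = m := by omega
      subst this
      exact ⟨g0, by rw [hclose]; norm_num⟩
    -- 1 ≤ i ≤ m - 1
    refine int_of_two (a := ∏ l ∈ range i, (al l * A l)) (b := ∏ l ∈ Ico i m, (be l * Bp m B l)) ?_ (hP i hi) ?_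
    · refine Nat.Coprime.of_dvd ?_ ?_ hcop
      · rw [prod_mul_distrib]
        exact mul_dvd_mul (prod_dvd_prod_of_subset _ _ _ (range_subset_range.2 hi))
          (prod_dvd_prod_of_subset _ _ _ (range_subset_range.2 (by omega)))
      · rw [prod_mul_distrib]
        refine mul_dvd_mul (prod_dvd_prod_of_subset _ _ _ ?_) ?_
        · intro l hl
          rw [mem_Ico] at hl
          rw [mem_range]
          exact hl.2
        · have h1 : ∏ l ∈ Ico i m, Bp m B l = ∏ l ∈ Ico (i - 1) (m - 1), B l := by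
            have h2 : ∏ l ∈ Ico i m, Bp m B l = ∏ l ∈ Ico i m, B (l - 1) := by
              refine prod_congr rfl fun l hl => ?_
              rw [mem_Ico] at hl
              simp [Bp, show l ≠ 0 by omega]
            rw [h2]
            refine prod_bij (fun l _ => l - 1) ?_ ?_ ?_ ?_
            · intro l hl
              rw [mem_Ico] at hl ⊢
              omega
            · intro a ha b hb' hab
              rw [mem_Ico] at ha hb'
              omega
            · intro b hb'
              rw [mem_Ico] at hb'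
              exact ⟨b + 1, by rw [mem_Ico]; omega, by simp⟩
            · intro l hl
              rfl
          rw [h1]
          refine prod_dvd_prod_of_subset _ _ _ ?_
          intro l hl
          rw [mem_Ico] at hl
          rw [mem_range]
          exact hl.2
    · have := hQ (m - i) (by omega)
      rwa [show m - (m - i) = i by omega] at this
  have htint : ∀ i < m, ∃ z : ℤ, (z : ℚ) = tq i := by
    intro i hi
    obtain ⟨u, hu⟩ := hgint i hi.le
    obtain ⟨v, hv⟩ := hgint (i + 1) hi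
    refine int_of_two (a := al i) (b := be i) ?_ ⟨Bp m B i * u - h, ?_⟩ ⟨A i * v - h, ?_⟩
    · refine Nat.Coprime.of_dvd ?_ ?_ hcop
      · exact Dvd.dvd.mul_right (dvd_prod_of_mem _ (mem_range.2 hi)) _
      · exact Dvd.dvd.mul_right (dvd_prod_of_mem _ (mem_range.2 hi)) _
    · push_cast
      rw [hu, mul_comm (al i : ℚ), hF i hi]
    · push_cast
      rw [hv, mul_comm (be i : ℚ), hE i hi]
  -- natural numbers
  have hgnat : ∀ i, i ≤ m → ∃ z : ℕ, (z : ℚ) = g i ∧ 0 < z := by
    intro i hi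
    obtain ⟨z, hz⟩ := hgint i hi
    have h1 := hgpos i hi
    rw [← hz] at h1
    have h2 : 0 < z := by exact_mod_cast h1
    refine ⟨z.toNat, ?_, by omega⟩
    rw [← hz]
    have : ((z.toNat : ℕ) : ℤ) = z := Int.toNat_of_nonneg h2.le
    exact_mod_cast this
  have htnat : ∀ i, i < m → ∃ z : ℕ, (z : ℚ) = tq i ∧ 0 < z := by
    intro i hi
    obtain ⟨z, hz⟩ := htint i hi
    have h1 := htpos i hi
    rw [← hz] at h1
    have h2 : 0 < z := by exact_mod_cast h1
    refine ⟨z.toNat, ?_, by omega⟩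
    rw [← hz]
    have : ((z.toNat : ℕ) : ℤ) = z := Int.toNat_of_nonneg h2.le
    exact_mod_cast this
  choose! ge hge hgep using hgnat
  choose! te hte htep using htnat
  have hgem : ge m = g0 := by
    have := hge m le_rfl
    rw [hclose] at this
    exact_mod_cast this
  have hge0 : ge 0 = g0 := by
    have := hge 0 (by omega)
    rw [hgz] at this
    exact_mod_cast this
  refine ⟨fun i => ge (i + 1), te, ⟨?_, ?_, ?_, ?_⟩, ?_, ?_⟩
  · intro i hi
    have h1 := hE i hi
    rw [← hte i hi, ← hge (i + 1) hi] at h1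
    have : ((ge (i + 1) : ℤ) * A i : ℤ) = ((h + te i * be i : ℤ) : ℤ) := by
      have h2 : (((ge (i + 1) : ℤ) * A i : ℤ) : ℚ) = ((h + te i * be i : ℤ) : ℚ) := by
        push_cast
        linarith
      exact_mod_cast h2
    exact this
  · intro i hi
    have h1 := hnext i hi
    rw [← hte _ (Nat.mod_lt _ hm), ← hge (i + 1) hi] at h1
    have h2 : (((ge (i + 1) : ℤ) * B i : ℤ) : ℚ) = ((h + te ((i + 1) % m) * al ((i + 1) % m) : ℤ) : ℚ) := by
      push_cast
      linarith
    exact_mod_cast h2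
  · intro i hi
    exact hgep (i + 1) hi
  · intro i hi
    exact htep i hi
  · simp only [Nat.sub_add_cancel hm, hgem, hg0]
  · intro i hi
    have h1 := hinv i hi
    simp only [Nat.sub_add_cancel hm, hgem]
    rw [show (if i = 0 then g0 else ge (i - 1 + 1)) = ge i by
      split_ifs with h
      · rw [h, hge0]
      · rw [Nat.sub_add_cancel (by omega)]]
    have h3 : ((((∏ l ∈ range i, (al l * A l) : ℕ) : ℤ) * (ge i : ℕ) : ℤ) : ℚ) =
        ((h * Sm A B al be i + ((∏ l ∈ range i, (be l * Bp m B l) : ℕ) : ℤ) * g0 : ℤ) : ℚ) := by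
      push_cast
      rw [hge i hi]
      exact h1
    exact_mod_cast h3

end Pool.Agent.Lib.TTC
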