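import Pool.Agent.Lib.MP_7b7e48_nt.GT.FundLemma

/-!
# Module FLM: the Brun-Hooley fundamental lemma for a general multiplicative density of dimension `κ`

The weights `up`, `lo` are functions on the finite sets `d ⊆ P` (`P` a finite set of primes `≤ z`), supported on sets with product `≤ z^(12 b)`.
-/

set_option autoImplicit false

open Finset

namespace Pool.Agent.Lib.TTC

open Pool.Agent.Lib.GT (lev NJ PJ mJ fam cm ct bonf_lower bonf_upper prod_sub_le even_mJ abs_cm_le abs_ct_le sum_level_le prod_PJ biUnion_PJ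
  lev_lt_NJ lev_pow_le PJ_disjoint sum_geo_le NJ_le)

/-- the upper weights -/
noncomputable def flUp (b z : ℕ) (P d : Finset ℕ) : ℝ := ∏ j : Fin (NJ z), cm b j (d ∩ PJ z P j)

/-- the lower weights -/
noncomputable def flLo (b z : ℕ) (P d : Finset ℕ) : ℝ :=
  flUp b z P d - ∑ l : Fin (NJ z), ct b l (d ∩ PJ z P l) * ∏ j ∈ Finset.univ.erase l, cm b j (d ∩ PJ z P j)

/-- sums over subsets factor over the levels -/
theorem sum_powerset_levels {z : ℕ} {P : Finset ℕ} (hP : ∀ r ∈ P, r.Prime ∧ r ≤ z) {B : Finset ℕ} (hB : B ⊆ P)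
    (F : Fin (NJ z) → Finset ℕ → ℝ) :
    ∑ d ∈ B.powerset, ∏ j : Fin (NJ z), F j (d ∩ PJ z P j) =
      ∏ j : Fin (NJ z), ∑ e ∈ (B ∩ PJ z P j).powerset, F j e := by
  classical
  rw [Finset.prod_univ_sum]
  refine Finset.sum_bij' (fun d _ => fun j : Fin (NJ z) => d ∩ PJ z P j) (fun E _ => Finset.univ.biUnion E) ?_ ?_ ?_ ?_ ?_
  · intro d hd
    rw [Fintype.mem_piFinset]
    intro j
    rw [mem_powerset] at hd ⊢
    exact Finset.inter_subset_inter hd (Finset.Subset.refl _)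
  · intro E hE
    rw [Fintype.mem_piFinset] at hE
    rw [mem_powerset]
    intro r hr
    rw [mem_biUnion] at hr
    obtain ⟨j, -, hj⟩ := hr
    exact (mem_inter.mp (mem_powerset.mp (hE j) hj)).1
  · intro d hd
    rw [mem_powerset] at hd
    ext r
    rw [mem_biUnion]
    constructor
    · rintro ⟨j, -, hj⟩; exact (mem_inter.mp hj).1
    · intro hr
      have hrP := hB (hd hr)
      exact ⟨⟨lev z r, lev_lt_NJ (hP r hrP).1.two_le⟩, mem_univ _, mem_inter.mpr ⟨hr, mem_filter.mpr ⟨hrP, rfl⟩⟩⟩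
  · intro E hE
    rw [Fintype.mem_piFinset] at hE
    funext j
    ext r
    rw [mem_inter, mem_biUnion]
    constructor
    · rintro ⟨⟨i, -, hi⟩, hr⟩
      have h3 := (mem_filter.mp (mem_inter.mp (mem_powerset.mp (hE i) hi)).2).2
      have h4 := (mem_filter.mp hr).2
      have h5 : i = j := Fin.ext (h3.symm.trans h4)
      rwa [h5] at hi
    · intro hr
      exact ⟨⟨j, mem_univ _, hr⟩, (mem_inter.mp (mem_powerset.mp (hE j) hr)).2⟩
  · intro d hd
    rfl

/-- products over a subset factor over the levels -/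
theorem prod_levels {z : ℕ} {P : Finset ℕ} (hP : ∀ r ∈ P, r.Prime ∧ r ≤ z) {d : Finset ℕ} (hd : d ⊆ P) (g : ℕ → ℝ) :
    ∏ r ∈ d, g r = ∏ j : Fin (NJ z), ∏ r ∈ d ∩ PJ z P j, g r := by
  classical
  have h : (Finset.univ : Finset (Fin (NJ z))).biUnion (fun j => d ∩ PJ z P j) = d := by
    ext r
    rw [mem_biUnion]
    constructor
    · rintro ⟨j, -, hj⟩; exact (mem_inter.mp hj).1
    · intro hr
      have hrP := hd hr
      exact ⟨⟨lev z r, lev_lt_NJ (hP r hrP).1.two_le⟩, mem_univ _, mem_inter.mpr ⟨hr, mem_filter.mpr ⟨hrP, rfl⟩⟩⟩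
  conv_lhs => rw [← h]
  rw [Finset.prod_biUnion]
  intro i _ j _ hij
  exact Disjoint.mono Finset.inter_subset_right Finset.inter_subset_right (PJ_disjoint z P (fun h => hij (Fin.ext h)))

/-- the law of a random subset -/
theorem sum_law (Q : Finset ℕ) (g : ℕ → ℝ) (d : Finset ℕ) (hd : d ⊆ Q) :
    ∑ B ∈ Q.powerset with d ⊆ B, ((∏ r ∈ B, g r) * ∏ r ∈ Q \ B, (1 - g r)) = ∏ r ∈ d, g r := by
  classical
  have h1 : ∏ r ∈ Q \ d, (g r + (1 - g r)) = 1 := by
    refine Finset.prod_eq_one fun r _ => by ring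
  rw [Finset.prod_add] at h1
  have h2 : ∑ B ∈ Q.powerset with d ⊆ B, ((∏ r ∈ B, g r) * ∏ r ∈ Q \ B, (1 - g r)) =
      ∑ t ∈ (Q \ d).powerset, (∏ r ∈ d, g r) * ((∏ r ∈ t, g r) * ∏ r ∈ (Q \ d) \ t, (1 - g r)) := by
    refine Finset.sum_bij' (fun B _ => B \ d) (fun t _ => d ∪ t) ?_ ?_ ?_ ?_ ?_
    · intro B hB
      rw [mem_filter, mem_powerset] at hB
      rw [mem_powerset]
      exact Finset.sdiff_subset_sdiff hB.1 (Finset.Subset.refl _)
    · intro t ht
      rw [mem_powerset] at ht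
      rw [mem_filter, mem_powerset]
      exact ⟨Finset.union_subset hd (ht.trans Finset.sdiff_subset), Finset.subset_union_left⟩
    · intro B hB
      rw [mem_filter, mem_powerset] at hB
      exact Finset.union_sdiff_of_subset hB.2
    · intro t ht
      rw [mem_powerset] at ht
      rw [Finset.union_sdiff_cancel_left]
      rw [Finset.disjoint_left]
      intro r hr hr2
      exact (mem_sdiff.mp (ht hr2)).2 hr
    · intro B hB
      rw [mem_filter, mem_powerset] at hB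
      rw [← mul_assoc]
      congr 1
      · rw [mul_comm, Finset.prod_sdiff hB.2]
      · congr 1
        ext r
        simp only [mem_sdiff]
        constructor
        · rintro ⟨h1, h2⟩
          exact ⟨⟨h1, fun h => h2 (hB.2 h)⟩, fun h => h2 h.1⟩
        · rintro ⟨⟨h1, h2⟩, h3⟩
          exact ⟨h1, fun h => h3 ⟨h, h2⟩⟩
  rw [h2, ← Finset.mul_sum, h1, mul_one]

/-- averages over random subsets of sums over subsets -/
theorem sum_law_sum (Q : Finset ℕ) (g : ℕ → ℝ) (q : Finset ℕ → Prop) [DecidablePred q] (s : Finset ℕ → ℝ) :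
    ∑ B ∈ Q.powerset, ((∏ r ∈ B, g r) * ∏ r ∈ Q \ B, (1 - g r)) * ∑ d ∈ B.powerset with q d, s d =
      ∑ d ∈ Q.powerset with q d, s d * ∏ r ∈ d, g r := by
  classical
  have h1 : ∀ B ∈ Q.powerset, ((∏ r ∈ B, g r) * ∏ r ∈ Q \ B, (1 - g r)) * ∑ d ∈ B.powerset with q d, s d =
      ∑ d ∈ Q.powerset with q d, if d ⊆ B then s d * ((∏ r ∈ B, g r) * ∏ r ∈ Q \ B, (1 - g r)) else 0 := by
    intro B hB
    rw [mem_powerset] at hB
    rw [← Finset.sum_filter, Finset.filter_filter, Finset.mul_sum]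
    refine Finset.sum_congr ?_ fun d _ => by ring
    ext d
    simp only [mem_filter, mem_powerset]
    constructor
    · rintro ⟨h1, h2⟩; exact ⟨h1.trans hB, h2, h1⟩
    · rintro ⟨h1, h2, h3⟩; exact ⟨h3, h2⟩
  rw [Finset.sum_congr rfl h1, Finset.sum_comm]
  refine Finset.sum_congr rfl fun d hd => ?_
  rw [mem_filter, mem_powerset] at hd
  rw [← Finset.sum_filter, ← Finset.mul_sum, sum_law Q g d hd.1]

/-- Bonferroni for a general density -/
theorem level_bounds_gen (Q : Finset ℕ) (g : ℕ → ℝ) (hg : ∀ r ∈ Q, 0 ≤ g r ∧ g r ≤ 1) (m : ℕ) (hm : Even m) :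
    ∏ r ∈ Q, (1 - g r) ≤ ∑ d ∈ Q.powerset with d.card ≤ m, ((-1 : ℝ) ^ d.card * ∏ r ∈ d, g r) ∧
    ∑ d ∈ Q.powerset with d.card ≤ m, ((-1 : ℝ) ^ d.card * ∏ r ∈ d, g r) ≤
      ∏ r ∈ Q, (1 - g r) + ∑ d ∈ Q.powerset with d.card = m + 1, ∏ r ∈ d, g r := by
  classical
  have hw : ∀ B ∈ Q.powerset, 0 ≤ (∏ r ∈ B, g r) * ∏ r ∈ Q \ B, (1 - g r) := by
    intro B hB
    rw [mem_powerset] at hB
    exact mul_nonneg (Finset.prod_nonneg fun r hr => (hg r (hB hr)).1)
      (Finset.prod_nonneg fun r hr => by have := (hg r (mem_sdiff.mp hr).1).2; linarith)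
  have e1 := sum_law_sum Q g (fun d => d.card ≤ m) (fun d => (-1 : ℝ) ^ d.card)
  have e2 := sum_law_sum Q g (fun d => d.card = m + 1) (fun _ => (1 : ℝ))
  have e3 : ∑ B ∈ Q.powerset, ((∏ r ∈ B, g r) * ∏ r ∈ Q \ B, (1 - g r)) * (if B = ∅ then (1 : ℝ) else 0) =
      ∏ r ∈ Q, (1 - g r) := by
    simp_rw [mul_ite, mul_one, mul_zero]
    rw [Finset.sum_ite_eq' Q.powerset ∅, if_pos (Finset.empty_mem_powerset Q)]
    simp
  simp only [one_mul] at e2
  rw [← e1, ← e2, ← e3]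
  constructor
  · refine Finset.sum_le_sum fun B hB => mul_le_mul_of_nonneg_left (bonf_lower B m hm) (hw B hB)
  · rw [← Finset.sum_add_distrib]
    refine Finset.sum_le_sum fun B hB => ?_
    rw [← mul_add]
    refine mul_le_mul_of_nonneg_left ?_ (hw B hB)
    have := bonf_upper B m hm
    linarith

theorem top_le_gen (Q : Finset ℕ) (g : ℕ → ℝ) (hg : ∀ r ∈ Q, 0 ≤ g r) (k : ℕ) (G : ℝ) (hG : ∑ r ∈ Q, g r ≤ G) :
    ∑ d ∈ Q.powerset with d.card = k, ∏ r ∈ d, g r ≤ Real.exp (4 * G) / 4 ^ k := by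
  classical
  rw [le_div_iff₀ (by positivity), Finset.sum_mul]
  have h1 : ∏ r ∈ Q, (1 + 4 * g r) ≤ Real.exp (4 * G) := by
    calc ∏ r ∈ Q, (1 + 4 * g r) ≤ ∏ r ∈ Q, Real.exp (4 * g r) := by
          refine Finset.prod_le_prod (fun r hr => by have := hg r hr; linarith) fun r _ => ?_
          have := Real.add_one_le_exp (4 * g r)
          linarith
      _ = Real.exp (4 * ∑ r ∈ Q, g r) := by rw [← Real.exp_sum, ← Finset.mul_sum]
      _ ≤ Real.exp (4 * G) := Real.exp_le_exp.mpr (by linarith)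
  refine le_trans ?_ h1
  rw [Finset.prod_one_add]
  calc ∑ d ∈ Q.powerset with d.card = k, (∏ r ∈ d, g r) * 4 ^ k
      = ∑ d ∈ Q.powerset with d.card = k, ∏ r ∈ d, (4 * g r) := by
        refine Finset.sum_congr rfl fun d hd => ?_
        rw [Finset.prod_mul_distrib, Finset.prod_const, (mem_filter.mp hd).2, mul_comm]
    _ ≤ ∑ d ∈ Q.powerset, ∏ r ∈ d, (4 * g r) :=
        Finset.sum_le_sum_of_subset_of_nonneg (Finset.filter_subset _ _)
          (fun d hd _ => Finset.prod_nonneg fun r hr => by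
            have := hg r (mem_powerset.mp hd hr); linarith)

theorem exp_le_density_gen (Q : Finset ℕ) (g : ℕ → ℝ) (hg : ∀ r ∈ Q, 0 ≤ g r ∧ g r ≤ 2 / 3) :
    Real.exp (-(2 * ∑ r ∈ Q, g r)) ≤ ∏ r ∈ Q, (1 - g r) := by
  rw [Finset.mul_sum, ← Finset.sum_neg_distrib, Real.exp_sum]
  refine Finset.prod_le_prod (fun _ _ => (Real.exp_pos _).le) fun r hr => ?_
  obtain ⟨h0, h1⟩ := hg r hr
  generalize g r = x at h0 h1
  have hconv : ConvexOn ℝ Set.univ Real.exp := convexOn_exp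
  have h2 : Real.exp (-(2 * x)) ≤ (1 - x * (3 / 2)) * Real.exp 0 + (x * (3 / 2)) * Real.exp (-(4 / 3)) := by
    have := hconv.2 (Set.mem_univ (0 : ℝ)) (Set.mem_univ (-(4 / 3) : ℝ))
      (show (0 : ℝ) ≤ 1 - x * (3 / 2) by linarith) (show (0 : ℝ) ≤ x * (3 / 2) by linarith) (by ring)
    simp only [smul_eq_mul] at this
    have e : (1 - x * (3 / 2)) * 0 + x * (3 / 2) * -(4 / 3) = -(2 * x) := by ring
    rwa [e] at this
  have h3 : Real.exp (-(4 / 3)) ≤ 1 / 3 := by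
    rw [Real.exp_neg, inv_le_comm₀ (Real.exp_pos _) (by norm_num)]
    have h4 := Real.quadratic_le_exp_of_nonneg (show (0 : ℝ) ≤ 4 / 3 by norm_num)
    have : (1 / 3 : ℝ)⁻¹ = 3 := by norm_num
    rw [this]
    linarith
  rw [Real.exp_zero] at h2
  nlinarith [mul_le_mul_of_nonneg_left h3 (show (0 : ℝ) ≤ x * (3 / 2) by linarith)]

/-- the constant controlling one level -/
noncomputable def flk (κ : ℝ) : ℝ := Real.exp (36 * κ)

/-- relative error of level `j` -/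
noncomputable def fleta (κ : ℝ) (b j : ℕ) : ℝ := flk κ * (1 / 2) ^ b * ((1 / 2) ^ (j + 1))

theorem flk_pos (κ : ℝ) : 0 < flk κ := Real.exp_pos _

theorem fleta_nonneg (κ : ℝ) (b j : ℕ) : 0 ≤ fleta κ b j := by
  unfold fleta
  have := flk_pos κ
  positivity

theorem sum_fleta_le (κ : ℝ) (b J : ℕ) : ∑ j : Fin J, fleta κ b j ≤ flk κ * (1 / 2) ^ b := by
  have h : ∀ J : ℕ, ∑ j ∈ range J, fleta κ b j = flk κ * (1 / 2) ^ b * (1 - (1 / 2) ^ J) := by
    intro J
    induction J with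
    | zero => simp
    | succ n ih =>
      rw [Finset.sum_range_succ, ih]
      unfold fleta
      ring
  rw [← Finset.sum_range (fun j => fleta κ b j), h]
  have h1 : (0 : ℝ) ≤ (1 / 2) ^ J := by positivity
  have h2 : 0 ≤ flk κ * (1 / 2 : ℝ) ^ b := by have := flk_pos κ; positivity
  nlinarith

section lev

variable {κ : ℝ} (hκ : 0 ≤ κ) {z : ℕ} {P : Finset ℕ} (hP : ∀ r ∈ P, r.Prime ∧ r ≤ z) (hz : 2 ≤ z)
  {g : ℕ → ℝ} (hg : ∀ r ∈ P, 0 ≤ g r ∧ g r ≤ κ / r ∧ g r ≤ 2 / 3)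

include hκ hP hz hg

theorem level_gen (b : ℕ) (j : ℕ) :
    0 < ∏ r ∈ PJ z P j, (1 - g r) ∧
    ∏ r ∈ PJ z P j, (1 - g r) ≤ ∑ e ∈ (PJ z P j).powerset, cm b j e * ∏ r ∈ e, g r ∧
    ∑ e ∈ (PJ z P j).powerset, cm b j e * ∏ r ∈ e, g r ≤ (∏ r ∈ PJ z P j, (1 - g r)) * (1 + fleta κ b j) ∧
    ∑ e ∈ (PJ z P j).powerset, ct b j e * ∏ r ∈ e, g r ≤ (∏ r ∈ PJ z P j, (1 - g r)) * fleta κ b j ∧
    0 ≤ ∑ e ∈ (PJ z P j).powerset, ct b j e * ∏ r ∈ e, g r := by
  classical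
  have hsub : ∀ r ∈ PJ z P j, r ∈ P := fun r hr => (mem_filter.mp hr).1
  have hG : ∑ r ∈ PJ z P j, g r ≤ 6 * κ := by
    have h1 : ∀ r ∈ PJ z P j, g r ≤ κ * (1 / r) := by
      intro r hr
      have := (hg r (hsub r hr)).2.1
      rw [mul_one_div]
      exact this
    refine (Finset.sum_le_sum h1).trans ?_
    rw [← Finset.mul_sum]
    have := sum_level_le hP hz j
    nlinarith
  have hG0 : 0 ≤ ∑ r ∈ PJ z P j, g r := Finset.sum_nonneg fun r hr => (hg r (hsub r hr)).1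
  have hV := exp_le_density_gen (PJ z P j) g (fun r hr => ⟨(hg r (hsub r hr)).1, (hg r (hsub r hr)).2.2⟩)
  have hVpos : 0 < ∏ r ∈ PJ z P j, (1 - g r) := lt_of_lt_of_le (Real.exp_pos _) hV
  have hVge : Real.exp (-(12 * κ)) ≤ ∏ r ∈ PJ z P j, (1 - g r) :=
    le_trans (Real.exp_le_exp.mpr (by linarith)) hV
  obtain ⟨hb1, hb2⟩ := level_bounds_gen (PJ z P j) g
    (fun r hr => ⟨(hg r (hsub r hr)).1, by linarith [(hg r (hsub r hr)).2.2]⟩) (mJ b j) (even_mJ b j)
  have htop := top_le_gen (PJ z P j) g (fun r hr => (hg r (hsub r hr)).1) (mJ b j + 1) (6 * κ) hG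
  have hT : ∑ e ∈ (PJ z P j).powerset, cm b j e * ∏ r ∈ e, g r = ∑ d ∈ (PJ z P j).powerset with d.card ≤ mJ b j,
      ((-1 : ℝ) ^ d.card * ∏ r ∈ d, g r) := by
    rw [Finset.sum_filter]
    refine Finset.sum_congr rfl fun d _ => ?_
    unfold cm
    split_ifs <;> simp
  have hE : ∑ e ∈ (PJ z P j).powerset, ct b j e * ∏ r ∈ e, g r = ∑ d ∈ (PJ z P j).powerset with d.card = mJ b j + 1,
      ∏ r ∈ d, g r := by
    rw [Finset.sum_filter]
    refine Finset.sum_congr rfl fun d _ => ?_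
    unfold ct
    split_ifs <;> simp
  have he : ∑ e ∈ (PJ z P j).powerset, ct b j e * ∏ r ∈ e, g r ≤ (∏ r ∈ PJ z P j, (1 - g r)) * fleta κ b j := by
    rw [hE]
    refine htop.trans ?_
    have h1 : Real.exp (4 * (6 * κ)) / 4 ^ (mJ b j + 1) ≤ Real.exp (-(12 * κ)) * fleta κ b j := by
      unfold fleta flk mJ
      have h2 : Real.exp (-(12 * κ)) * (Real.exp (36 * κ) * (1 / 2) ^ b * (1 / 2) ^ (j + 1)) =
          Real.exp (4 * (6 * κ)) * ((1 / 2) ^ b * (1 / 2) ^ (j + 1)) := by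
        rw [← mul_assoc, ← mul_assoc, ← Real.exp_add, mul_assoc]
        congr 2
        ring
      rw [h2, div_eq_mul_inv]
      refine mul_le_mul_of_nonneg_left ?_ (Real.exp_pos _).le
      have h3 : ((4 : ℝ) ^ (2 * (b + j) + 1))⁻¹ = (1 / 2) ^ (2 * (2 * (b + j) + 1)) := by
        rw [pow_mul (1 / 2 : ℝ) 2, one_div, inv_pow, inv_pow]
        norm_num
      rw [h3, ← pow_add]
      exact pow_le_pow_of_le_one (by norm_num) (by norm_num) (by omega)
    refine h1.trans ?_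
    exact mul_le_mul_of_nonneg_right hVge (fleta_nonneg κ b j)
  refine ⟨hVpos, ?_, ?_, he, ?_⟩
  · rw [hT]; exact hb1
  · rw [hT]
    refine hb2.trans ?_
    rw [← hE, mul_add, mul_one]
    linarith
  · rw [hE]
    exact Finset.sum_nonneg fun d hd => Finset.prod_nonneg fun r hr =>
      (hg r (hsub r (mem_powerset.mp (mem_filter.mp hd).1 hr))).1

omit hκ hz hg in
theorem sum_flUp (b : ℕ) {B : Finset ℕ} (hB : B ⊆ P) (g : ℕ → ℝ) :
    ∑ d ∈ B.powerset, flUp b z P d * ∏ r ∈ d, g r =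
      ∏ j : Fin (NJ z), ∑ e ∈ (B ∩ PJ z P j).powerset, cm b j e * ∏ r ∈ e, g r := by
  rw [← sum_powerset_levels hP hB (fun j e => cm b j e * ∏ r ∈ e, g r)]
  refine Finset.sum_congr rfl fun d hd => ?_
  rw [Finset.prod_mul_distrib, ← prod_levels hP ((mem_powerset.mp hd).trans hB)]
  rfl

omit hκ hz hg in
theorem sum_flE (b : ℕ) {B : Finset ℕ} (hB : B ⊆ P) (g : ℕ → ℝ) (l : Fin (NJ z)) :
    ∑ d ∈ B.powerset, (ct b l (d ∩ PJ z P l) * ∏ j ∈ Finset.univ.erase l, cm b j (d ∩ PJ z P j)) * ∏ r ∈ d, g r =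
      (∑ e ∈ (B ∩ PJ z P l).powerset, ct b l e * ∏ r ∈ e, g r) *
      ∏ j ∈ Finset.univ.erase l, ∑ e ∈ (B ∩ PJ z P j).powerset, cm b j e * ∏ r ∈ e, g r := by
  classical
  have h := sum_powerset_levels hP hB
    (fun j e => (if j = l then ct b j e else cm b j e) * ∏ r ∈ e, g r)
  have h1 : ∀ F : Fin (NJ z) → ℝ, ∏ j, F j = F l * ∏ j ∈ Finset.univ.erase l, F j := fun F =>
    (Finset.mul_prod_erase Finset.univ F (mem_univ l)).symm
  rw [h1] at h
  simp only [↓reduceIte] at h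
  have h2 : ∏ j ∈ Finset.univ.erase l, ∑ e ∈ (B ∩ PJ z P j).powerset, (if j = l then ct b j e else cm b j e) * ∏ r ∈ e, g r =
      ∏ j ∈ Finset.univ.erase l, ∑ e ∈ (B ∩ PJ z P j).powerset, cm b j e * ∏ r ∈ e, g r := by
    refine Finset.prod_congr rfl fun j hj => ?_
    have hjl : j ≠ l := (mem_erase.mp hj).1
    refine Finset.sum_congr rfl fun e _ => ?_
    rw [if_neg hjl]
  simp only [h2] at h
  rw [← h]
  refine Finset.sum_congr rfl fun d hd => ?_
  rw [Finset.prod_mul_distrib, ← prod_levels hP ((mem_powerset.mp hd).trans hB), h1, if_pos rfl]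
  congr 2
  refine Finset.prod_congr rfl fun j hj => ?_
  rw [if_neg (mem_erase.mp hj).1]

omit hκ hz hg in
theorem sum_flLo (b : ℕ) {B : Finset ℕ} (hB : B ⊆ P) (g : ℕ → ℝ) :
    ∑ d ∈ B.powerset, flLo b z P d * ∏ r ∈ d, g r =
      ∏ j : Fin (NJ z), ∑ e ∈ (B ∩ PJ z P j).powerset, cm b j e * ∏ r ∈ e, g r -
      ∑ l : Fin (NJ z), (∑ e ∈ (B ∩ PJ z P l).powerset, ct b l e * ∏ r ∈ e, g r) *
      ∏ j ∈ Finset.univ.erase l, ∑ e ∈ (B ∩ PJ z P j).powerset, cm b j e * ∏ r ∈ e, g r := by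
  unfold flLo
  simp_rw [sub_mul]
  rw [Finset.sum_sub_distrib, sum_flUp hP b hB g]
  congr 1
  rw [Finset.sum_congr rfl (fun d _ => Finset.sum_mul _ _ _), Finset.sum_comm]
  refine Finset.sum_congr rfl fun l _ => ?_
  exact sum_flE hP b hB g l

omit hκ hz hg in
/-- the upper weights are upper weights -/
theorem le_sum_flUp (b : ℕ) {B : Finset ℕ} (hB : B ⊆ P) :
    (if B = ∅ then (1 : ℝ) else 0) ≤ ∑ d ∈ B.powerset, flUp b z P d := by
  classical
  have h := sum_flUp hP b hB (fun _ => 1)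
  simp only [Finset.prod_const_one, mul_one] at h
  rw [h]
  have h1 : ∀ j : Fin (NJ z), (if B ∩ PJ z P j = ∅ then (1 : ℝ) else 0) ≤ ∑ e ∈ (B ∩ PJ z P j).powerset, cm b j e := by
    intro j
    refine (bonf_lower (B ∩ PJ z P j) (mJ b j) (even_mJ b j)).trans (le_of_eq ?_)
    rw [Finset.sum_filter]
    refine Finset.sum_congr rfl fun d _ => ?_
    unfold cm
    rfl
  have h2 : (if B = ∅ then (1 : ℝ) else 0) ≤ ∏ j : Fin (NJ z), (if B ∩ PJ z P j = ∅ then (1 : ℝ) else 0) := by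
    by_cases hBe : B = ∅
    · rw [if_pos hBe]
      refine le_of_eq (Finset.prod_eq_one fun j _ => ?_).symm
      rw [hBe, Finset.empty_inter, if_pos rfl]
    · rw [if_neg hBe]
      refine Finset.prod_nonneg fun j _ => ?_
      split_ifs <;> norm_num
  refine h2.trans (Finset.prod_le_prod (fun j _ => ?_) fun j _ => h1 j)
  split_ifs <;> norm_num

omit hκ hz hg in
/-- the lower weights are lower weights -/
theorem sum_flLo_le (b : ℕ) {B : Finset ℕ} (hB : B ⊆ P) :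
    ∑ d ∈ B.powerset, flLo b z P d ≤ (if B = ∅ then (1 : ℝ) else 0) := by
  classical
  have h := sum_flLo hP b hB (fun _ => 1)
  simp only [Finset.prod_const_one, mul_one] at h
  rw [h]
  set X : Fin (NJ z) → ℝ := fun j => if B ∩ PJ z P j = ∅ then (1 : ℝ) else 0 with hX
  set U : Fin (NJ z) → ℝ := fun j => ∑ e ∈ (B ∩ PJ z P j).powerset, cm b j e with hU
  have hX0 : ∀ j, 0 ≤ X j := by
    intro j
    simp only [hX]
    split_ifs <;> norm_num
  have h1 : ∀ j : Fin (NJ z), X j ≤ U j := by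
    intro j
    refine (bonf_lower (B ∩ PJ z P j) (mJ b j) (even_mJ b j)).trans (le_of_eq ?_)
    rw [Finset.sum_filter]
    refine Finset.sum_congr rfl fun d _ => ?_
    unfold cm
    rfl
  have h2 : ∀ j : Fin (NJ z), U j - X j ≤ ∑ e ∈ (B ∩ PJ z P j).powerset, ct b j e := by
    intro j
    refine le_trans (le_of_eq ?_) ((bonf_upper (B ∩ PJ z P j) (mJ b j) (even_mJ b j)).trans (le_of_eq ?_))
    · simp only [hU, hX]
      congr 1
      rw [Finset.sum_filter]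
      refine Finset.sum_congr rfl fun d _ => ?_
      unfold cm
      rfl
    · rw [Finset.sum_filter]
      refine Finset.sum_congr rfl fun d _ => ?_
      unfold ct
      rfl
  have h3 := prod_sub_le Finset.univ X U (fun i _ => hX0 i) (fun i _ => h1 i)
  have h4 : ∑ l : Fin (NJ z), (U l - X l) * ∏ i ∈ Finset.univ.erase l, U i ≤
      ∑ l : Fin (NJ z), (∑ e ∈ (B ∩ PJ z P l).powerset, ct b l e) * ∏ i ∈ Finset.univ.erase l, U i := by
    refine Finset.sum_le_sum fun l _ => mul_le_mul_of_nonneg_right (h2 l) ?_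
    exact Finset.prod_nonneg fun i _ => (hX0 i).trans (h1 i)
  have h5 : ∏ j : Fin (NJ z), X j = if B = ∅ then (1 : ℝ) else 0 := by
    by_cases hBe : B = ∅
    · rw [if_pos hBe]
      refine Finset.prod_eq_one fun j _ => ?_
      simp only [hX]
      rw [hBe, Finset.empty_inter, if_pos rfl]
    · rw [if_neg hBe]
      obtain ⟨r, hr⟩ := Finset.nonempty_of_ne_empty hBe
      refine Finset.prod_eq_zero (mem_univ (⟨lev z r, lev_lt_NJ (hP r (hB hr)).1.two_le⟩ : Fin (NJ z))) ?_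
      simp only [hX]
      rw [if_neg]
      intro h6
      have : r ∈ B ∩ PJ z P (lev z r) := mem_inter.mpr ⟨hr, mem_filter.mpr ⟨hB hr, rfl⟩⟩
      rw [h6] at this
      exact Finset.notMem_empty _ this
  rw [← h5]
  linarith

/-- the total constant -/
noncomputable def flK (κ : ℝ) : ℝ := flk κ * Real.exp (flk κ) * 2

omit hκ hP hz hg in
theorem prod_le_exp_sum (b : ℕ) : ∏ j : Fin (NJ z), (1 + fleta κ b j) ≤ Real.exp (flk κ * (1 / 2) ^ b) := by
  calc ∏ j : Fin (NJ z), (1 + fleta κ b j) ≤ ∏ j : Fin (NJ z), Real.exp (fleta κ b j) := by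
        refine Finset.prod_le_prod (fun j _ => by have := fleta_nonneg κ b j; linarith) fun j _ => ?_
        have := Real.add_one_le_exp (fleta κ b j)
        linarith
    _ = Real.exp (∑ j : Fin (NJ z), fleta κ b j) := (Real.exp_sum _ _).symm
    _ ≤ _ := Real.exp_le_exp.mpr (sum_fleta_le κ b (NJ z))

omit hκ hP hz hg in
theorem exp_bound (κ : ℝ) (b : ℕ) : Real.exp (flk κ * (1 / 2) ^ b) ≤ 1 + flk κ * Real.exp (flk κ) * (1 / 2) ^ b := by
  have hk := flk_pos κ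
  have h1 : (0 : ℝ) ≤ (1 / 2 : ℝ) ^ b := by positivity
  have h2 : (1 / 2 : ℝ) ^ b ≤ 1 := pow_le_one₀ (by norm_num) (by norm_num)
  set x := flk κ * (1 / 2 : ℝ) ^ b with hx
  have hx0 : 0 ≤ x := by positivity
  have hxk : x ≤ flk κ := by nlinarith
  -- `exp x - 1 ≤ x exp x`
  have h3 : Real.exp x - 1 ≤ x * Real.exp x := by
    have := Real.add_one_le_exp (-x)
    have h4 : Real.exp (-x) * Real.exp x = 1 := by rw [← Real.exp_add]; simp
    nlinarith [Real.exp_pos x]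
  have h5 : x * Real.exp x ≤ x * Real.exp (flk κ) :=
    mul_le_mul_of_nonneg_left (Real.exp_le_exp.mpr hxk) hx0
  calc Real.exp x ≤ 1 + x * Real.exp (flk κ) := by linarith
    _ = _ := by rw [hx]; ring

theorem flUp_dens (b : ℕ) :
    ∏ r ∈ P, (1 - g r) ≤ ∑ d ∈ P.powerset, flUp b z P d * ∏ r ∈ d, g r ∧
    ∑ d ∈ P.powerset, flUp b z P d * ∏ r ∈ d, g r ≤ (1 + flK κ * (1 / 2) ^ b) * ∏ r ∈ P, (1 - g r) := by
  classical
  rw [sum_flUp hP b (Finset.Subset.refl P) g, prod_PJ hP (fun r => 1 - g r)]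
  have hPP : ∀ j : Fin (NJ z), P ∩ PJ z P j = PJ z P j := fun j =>
    Finset.inter_eq_right.mpr (Finset.filter_subset _ _)
  simp only [hPP]
  have hlev := fun j : Fin (NJ z) => level_gen hκ hP hz hg b j
  constructor
  · exact Finset.prod_le_prod (fun j _ => (hlev j).1.le) fun j _ => (hlev j).2.1
  · have h1 : ∏ j : Fin (NJ z), ∑ e ∈ (PJ z P j).powerset, cm b j e * ∏ r ∈ e, g r ≤
        ∏ j : Fin (NJ z), ((∏ r ∈ PJ z P j, (1 - g r)) * (1 + fleta κ b j)) :=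
      Finset.prod_le_prod (fun j _ => (hlev j).1.le.trans (hlev j).2.1) fun j _ => (hlev j).2.2.1
    rw [Finset.prod_mul_distrib, mul_comm] at h1
    refine h1.trans ?_
    refine mul_le_mul_of_nonneg_right ?_ (Finset.prod_nonneg fun j _ => (hlev j).1.le)
    refine (prod_le_exp_sum (κ := κ) (z := z) b).trans ((exp_bound κ b).trans ?_)
    unfold flK
    have hk := flk_pos κ
    have h2 : 0 ≤ flk κ * Real.exp (flk κ) * (1 / 2 : ℝ) ^ b := by positivity
    nlinarith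

theorem flLo_dens (b : ℕ) :
    (1 - flK κ * (1 / 2) ^ b) * ∏ r ∈ P, (1 - g r) ≤ ∑ d ∈ P.powerset, flLo b z P d * ∏ r ∈ d, g r ∧
    ∑ d ∈ P.powerset, flLo b z P d * ∏ r ∈ d, g r ≤ (1 + flK κ * (1 / 2) ^ b) * ∏ r ∈ P, (1 - g r) := by
  classical
  have hU := flUp_dens hκ hP hz hg b
  rw [sum_flUp hP b (Finset.Subset.refl P) g] at hU
  rw [sum_flLo hP b (Finset.Subset.refl P) g]
  have hPP : ∀ j : Fin (NJ z), P ∩ PJ z P j = PJ z P j := fun j =>
    Finset.inter_eq_right.mpr (Finset.filter_subset _ _)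
  simp only [hPP] at hU ⊢
  have hlev := fun j : Fin (NJ z) => level_gen hκ hP hz hg b j
  set V : Fin (NJ z) → ℝ := fun j => ∏ r ∈ PJ z P j, (1 - g r) with hV
  set T : Fin (NJ z) → ℝ := fun j => ∑ e ∈ (PJ z P j).powerset, cm b j e * ∏ r ∈ e, g r with hT
  set E : Fin (NJ z) → ℝ := fun j => ∑ e ∈ (PJ z P j).powerset, ct b j e * ∏ r ∈ e, g r with hE
  have hV0 : ∀ j, 0 < V j := fun j => (hlev j).1
  have hT0 : ∀ j, 0 ≤ T j := fun j => (hlev j).1.le.trans (hlev j).2.1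
  have hE0 : ∀ j, 0 ≤ E j := fun j => (hlev j).2.2.2.2
  have hVT : ∏ r ∈ P, (1 - g r) = ∏ j, V j := prod_PJ hP (fun r => 1 - g r)
  rw [hVT] at hU ⊢
  have hprodV : 0 < ∏ j, V j := Finset.prod_pos fun j _ => hV0 j
  -- the error term
  have herr : ∑ l : Fin (NJ z), E l * ∏ j ∈ Finset.univ.erase l, T j ≤ flk κ * Real.exp (flk κ) * (1 / 2) ^ b * ∏ j, V j := by
    have h1 : ∀ l : Fin (NJ z), E l * ∏ j ∈ Finset.univ.erase l, T j ≤
        fleta κ b l * (Real.exp (flk κ) * ∏ j, V j) := by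
      intro l
      have h2 : ∏ j ∈ Finset.univ.erase l, T j ≤ ∏ j ∈ Finset.univ.erase l, (V j * (1 + fleta κ b j)) :=
        Finset.prod_le_prod (fun j _ => hT0 j) fun j _ => (hlev j).2.2.1
      rw [Finset.prod_mul_distrib] at h2
      have h3 : ∏ j ∈ Finset.univ.erase l, (1 + fleta κ b j) ≤ ∏ j : Fin (NJ z), (1 + fleta κ b j) := by
        rw [← Finset.mul_prod_erase Finset.univ (fun j : Fin (NJ z) => 1 + fleta κ b j) (mem_univ l)]
        have h4 : 0 ≤ ∏ j ∈ Finset.univ.erase l, (1 + fleta κ b j) :=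
          Finset.prod_nonneg fun j _ => by have := fleta_nonneg κ b j; linarith
        have := fleta_nonneg κ b l
        nlinarith
      have h5 : Real.exp (flk κ * (1 / 2) ^ b) ≤ Real.exp (flk κ) := by
        apply Real.exp_le_exp.mpr
        have h6 : (1 / 2 : ℝ) ^ b ≤ 1 := pow_le_one₀ (by norm_num) (by norm_num)
        have := flk_pos κ
        nlinarith
      have h6 := h3.trans ((prod_le_exp_sum (κ := κ) (z := z) b).trans h5)
      have hVe : 0 ≤ ∏ j ∈ Finset.univ.erase l, V j := Finset.prod_nonneg fun j _ => (hV0 j).le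
      have h7 : ∏ j ∈ Finset.univ.erase l, T j ≤ (∏ j ∈ Finset.univ.erase l, V j) * Real.exp (flk κ) :=
        h2.trans (mul_le_mul_of_nonneg_left h6 hVe)
      have h8 : E l ≤ V l * fleta κ b l := (hlev l).2.2.2.1
      have hprod : V l * ∏ j ∈ Finset.univ.erase l, V j = ∏ j, V j := Finset.mul_prod_erase Finset.univ V (mem_univ l)
      calc E l * ∏ j ∈ Finset.univ.erase l, T j ≤ (V l * fleta κ b l) * ((∏ j ∈ Finset.univ.erase l, V j) * Real.exp (flk κ)) :=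
            mul_le_mul h8 h7 (Finset.prod_nonneg fun j _ => hT0 j)
              (mul_nonneg (hV0 l).le (fleta_nonneg κ b l))
        _ = fleta κ b l * (Real.exp (flk κ) * (V l * ∏ j ∈ Finset.univ.erase l, V j)) := by ring
        _ = _ := by rw [hprod]
    refine (Finset.sum_le_sum fun l _ => h1 l).trans ?_
    rw [← Finset.sum_mul]
    have h2 := sum_fleta_le κ b (NJ z)
    have h3 : 0 ≤ Real.exp (flk κ) * ∏ j, V j := by positivity
    calc (∑ l : Fin (NJ z), fleta κ b l) * (Real.exp (flk κ) * ∏ j, V j) ≤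
        (flk κ * (1 / 2) ^ b) * (Real.exp (flk κ) * ∏ j, V j) := mul_le_mul_of_nonneg_right h2 h3
      _ = _ := by ring
  have herr0 : 0 ≤ ∑ l : Fin (NJ z), E l * ∏ j ∈ Finset.univ.erase l, T j :=
    Finset.sum_nonneg fun l _ => mul_nonneg (hE0 l) (Finset.prod_nonneg fun j _ => hT0 j)
  have hk := flk_pos κ
  have hc : 0 ≤ flk κ * Real.exp (flk κ) * (1 / 2 : ℝ) ^ b * ∏ j, V j := by positivity
  constructor
  · have h1 : (1 - flK κ * (1 / 2) ^ b) * ∏ j, V j ≤ ∏ j, V j - flk κ * Real.exp (flk κ) * (1 / 2) ^ b * ∏ j, V j := by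
      unfold flK
      linarith
    linarith [hU.1]
  · linarith [hU.2]

end lev

theorem abs_flUp_le (b z : ℕ) (P d : Finset ℕ) : |flUp b z P d| ≤ 1 := by
  unfold flUp
  rw [Finset.abs_prod]
  exact Finset.prod_le_one (fun _ _ => abs_nonneg _) fun j _ => abs_cm_le b j _

theorem abs_flLo_le (b z : ℕ) (P d : Finset ℕ) : |flLo b z P d| ≤ NJ z + 1 := by
  unfold flLo
  have h1 := abs_flUp_le b z P d
  have h2 : |∑ l : Fin (NJ z), ct b l (d ∩ PJ z P l) * ∏ j ∈ Finset.univ.erase l, cm b j (d ∩ PJ z P j)| ≤ NJ z := by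
    refine (Finset.abs_sum_le_sum_abs _ _).trans ?_
    refine (Finset.sum_le_sum (g := fun _ => (1 : ℝ)) fun l _ => ?_).trans ?_
    · rw [abs_mul, Finset.abs_prod]
      exact mul_le_one₀ (abs_ct_le b l _) (Finset.prod_nonneg fun _ _ => abs_nonneg _)
        (Finset.prod_le_one (fun _ _ => abs_nonneg _) fun j _ => abs_cm_le b j _)
    · simp
  calc _ ≤ |flUp b z P d| + |∑ l : Fin (NJ z), ct b l (d ∩ PJ z P l) * ∏ j ∈ Finset.univ.erase l, cm b j (d ∩ PJ z P j)| :=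
        abs_sub _ _
    _ ≤ _ := by linarith

theorem prod_le_of_fam {z b : ℕ} {P : Finset ℕ} (hP : ∀ r ∈ P, r.Prime ∧ r ≤ z) (hz : 2 ≤ z) (hb : 1 ≤ b) {d : Finset ℕ}
    (hd : d ⊆ P) (h : ∀ j : Fin (NJ z), (d ∩ PJ z P j).card ≤ mJ b j + 1) :
    ((∏ r ∈ d, r : ℕ) : ℝ) ≤ (z : ℝ) ^ (12 * b) := by
  classical
  have h1 : (fun j : Fin (NJ z) => d ∩ PJ z P j) ∈ Fintype.piFinset (fun j : Fin (NJ z) => fam z b P j) := by
    rw [Fintype.mem_piFinset]
    intro j
    exact mem_filter.mpr ⟨mem_powerset.mpr Finset.inter_subset_right, h j⟩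
  have h2 := Pool.Agent.Lib.GT.prod_un_le hP hz hb _ h1
  have h3 : Pool.Agent.Lib.GT.un (fun j : Fin (NJ z) => d ∩ PJ z P j) = d := by
    ext r
    rw [Pool.Agent.Lib.GT.un, mem_biUnion]
    constructor
    · rintro ⟨j, -, hj⟩; exact (mem_inter.mp hj).1
    · intro hr
      have hrP := hd hr
      exact ⟨⟨lev z r, lev_lt_NJ (hP r hrP).1.two_le⟩, mem_univ _, mem_inter.mpr ⟨hr, mem_filter.mpr ⟨hrP, rfl⟩⟩⟩
  rwa [h3] at h2

theorem flUp_support {z b : ℕ} {P : Finset ℕ} (hP : ∀ r ∈ P, r.Prime ∧ r ≤ z) (hz : 2 ≤ z) (hb : 1 ≤ b) {d : Finset ℕ}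
    (hd : d ⊆ P) (h : flUp b z P d ≠ 0) : ((∏ r ∈ d, r : ℕ) : ℝ) ≤ (z : ℝ) ^ (12 * b) := by
  refine prod_le_of_fam hP hz hb hd fun j => ?_
  unfold flUp at h
  have h1 := Finset.prod_ne_zero_iff.mp h j (mem_univ j)
  unfold cm at h1
  by_contra h2
  exact h1 (if_neg (by omega))

theorem flLo_support {z b : ℕ} {P : Finset ℕ} (hP : ∀ r ∈ P, r.Prime ∧ r ≤ z) (hz : 2 ≤ z) (hb : 1 ≤ b) {d : Finset ℕ}
    (hd : d ⊆ P) (h : flLo b z P d ≠ 0) : ((∏ r ∈ d, r : ℕ) : ℝ) ≤ (z : ℝ) ^ (12 * b) := by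
  classical
  by_cases h0 : flUp b z P d = 0
  · unfold flLo at h
    rw [h0, zero_sub, neg_ne_zero] at h
    obtain ⟨l, -, hl⟩ := Finset.exists_ne_zero_of_sum_ne_zero h
    refine prod_le_of_fam hP hz hb hd fun j => ?_
    by_cases hjl : j = l
    · subst hjl
      have h1 := left_ne_zero_of_mul hl
      unfold ct at h1
      by_contra h2
      exact h1 (if_neg (by omega))
    · have h1 := Finset.prod_ne_zero_iff.mp (right_ne_zero_of_mul hl) j (mem_erase.mpr ⟨hjl, mem_univ _⟩)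
      unfold cm at h1
      by_contra h2
      exact h1 (if_neg (by omega))
  · exact flUp_support hP hz hb hd h0

end Pool.Agent.Lib.TTC
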