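import Pool.Agent.Lib.MP_092512_nt.TT.C.U01

/-!
# U02: divisibility by `p` modulo `p^(a+1)`

`D = p^a u`, `p ∤ u`. For a natural number `z` and a unit `w` of `ZMod (p^(a+1))`: `D (w z) = 0` in `ZMod (p^(a+1))` iff `p^(a+1) ∣ D z` iff `p ∣ z`
(`U02_iff`; `w` can be cancelled; then `ZMod.natCast_eq_zero_iff`, `Nat.pow_dvd_pow_iff`-type argument: `p^(a+1) ∣ p^a u z ↔ p ∣ u z ↔ p ∣ z`). Apply it to `U01` with `R = ZMod (p^(a+1))`.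
`U02_n`: `D (e B) = n D` in `ZMod (p^(a+1))` iff `e B = n` in `ZMod p` (`D (e B - n) = 0`, with integers).
`U02_iffr`, `U02_nr`: the same with `p^(a+r)` and `p^r` in place of `p^(a+1)` and `p`.
-/

set_option autoImplicit false

open Finset

open Pool.Agent.Lib.TTC.Loc

namespace Pool.Agent.Lib.TTC

theorem U02_iffr {p a u D : ℕ} (r : ℕ) (hp : p.Prime) (hD : D = p ^ a * u) (hu : ¬ p ∣ u) (w : (ZMod (p ^ (a + r)))ˣ) (z : ℤ) :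
    (D : ZMod (p ^ (a + r))) * ((w : ZMod (p ^ (a + r))) * (z : ZMod (p ^ (a + r)))) = 0 ↔ (p : ℤ) ^ r ∣ z := by
  have h1 : (D : ZMod (p ^ (a + r))) * ((w : ZMod (p ^ (a + r))) * (z : ZMod (p ^ (a + r)))) =
      (w : ZMod (p ^ (a + r))) * (((D * z : ℤ)) : ZMod (p ^ (a + r))) := by
    push_cast
    ring
  rw [h1, Units.mul_right_eq_zero, ZMod.intCast_zmod_eq_zero_iff_dvd, hD]
  push_cast
  have hp0 : (p : ℤ) ^ a ≠ 0 := pow_ne_zero _ (by exact_mod_cast hp.ne_zero)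
  rw [pow_add, mul_assoc, mul_dvd_mul_iff_left hp0]
  have hc : IsCoprime ((p : ℤ) ^ r) (u : ℤ) := by
    rw [← Nat.cast_pow, Nat.isCoprime_iff_coprime]
    exact Nat.Coprime.pow_left r ((Nat.Prime.coprime_iff_not_dvd hp).2 hu)
  exact ⟨fun h => hc.dvd_of_dvd_mul_left h, fun h => Dvd.dvd.mul_left h _⟩

theorem U02_iff {p a u D : ℕ} (hp : p.Prime) (hD : D = p ^ a * u) (hu : ¬ p ∣ u) (w : (ZMod (p ^ (a + 1)))ˣ) (z : ℤ) :
    (D : ZMod (p ^ (a + 1))) * ((w : ZMod (p ^ (a + 1))) * (z : ZMod (p ^ (a + 1)))) = 0 ↔ (p : ℤ) ∣ z := by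
  have h := U02_iffr 1 hp hD hu w z
  rwa [pow_one] at h

theorem U02_nr {p a r u : ℕ} {N : ℤ} {m D : ℕ} (hp : p.Prime) (hD : D = p ^ a * u) (hu : ¬ p ∣ u) (hm : 1 ≤ m) {A B al be e t : ℕ → ℕ}
    (h : Cyc N m A B al be e t) (hab : ∀ i < m, be i < al i) (hS : D * e (m - 1) = Sm A B al be m)
    (α β ca cb x : ℕ → (ZMod (p ^ (a + r)))ˣ)
    (ha : ∀ i < m, (α i : ZMod (p ^ (a + r))) = al i) (hb : ∀ i < m, (β i : ZMod (p ^ (a + r))) = be i)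
    (hA : ∀ i < m - 1, (ca i : ZMod (p ^ (a + r))) = A i) (hB : ∀ i < m - 1, (cb i : ZMod (p ^ (a + r))) = B i)
    (hx : ∀ i < m - 1, x i = α (i + 1) * ca i * (β i)⁻¹ * (cb i)⁻¹) (n : ℕ) :
    ((e (m - 1) : ZMod (p ^ r)) * B (m - 1) = n) ↔
      (α 0 : ZMod (p ^ (a + r))) * (∏ l ∈ range m, ((be l : ZMod (p ^ (a + r))) * B l)) * Sg m α β (pk x) = (n : ZMod (p ^ (a + r))) * D := by
  have h1 := U01_G (R := ZMod (p ^ (a + r))) hm h hab hS α β ca cb x ha hb hA hB hx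
  rw [← h1]
  have h3 := U02_iffr r hp hD hu (1 : (ZMod (p ^ (a + r)))ˣ) (((e (m - 1) * B (m - 1) : ℕ) : ℤ) - (n : ℤ))
  have h4 : ((D : ZMod (p ^ (a + r))) * ((e (m - 1) : ZMod (p ^ (a + r))) * (B (m - 1) : ZMod (p ^ (a + r)))) = (n : ZMod (p ^ (a + r))) * D) ↔
      (D : ZMod (p ^ (a + r))) * (((1 : (ZMod (p ^ (a + r)))ˣ) : ZMod (p ^ (a + r))) *
        (((((e (m - 1) * B (m - 1) : ℕ) : ℤ) - (n : ℤ) : ℤ)) : ZMod (p ^ (a + r)))) = 0 := by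
    push_cast
    rw [one_mul, mul_sub, sub_eq_zero, mul_comm (n : ZMod (p ^ (a + r)))]
  rw [h4, h3, ← Nat.cast_pow, ← ZMod.intCast_zmod_eq_zero_iff_dvd]
  push_cast
  rw [sub_eq_zero]

end Pool.Agent.Lib.TTC
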