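import Pool.Agent.Lib.MP_092512_nt.TT.C.L0
import Pool.Agent.Lib.MP_092512_nt.TT.C.U02

/-!
# L5, L6: the slot variables of a pair of tuples are the residues of `α_{l+1} A_l/(β_l B_l)`; `D ∣ S`

* `L5_cop`, `L5_AA`: for `l < k` the short cofactors are products of marks (`MS.AA`, `MS.BB` with `if_pos`), coprime to `q`;
  `toU q (AA l) = fX (toU q) l * oX (toU q) l`, `toU q (BB l) = fY (toU q) l * oY (toU q) l` (`L0_mul`, `L0_prod`).
* `L5`: the product over `e : FE n0` with `c e = l.castSucc` of `fr e` splits into the `inl` part `fX (toU q)` and the `inr` part, the inverse of `fY (toU q)`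
  (`Fintype.prod_sum_type`, `Finset.prod_filter`; `c e = l.castSucc` iff `(c e : ℕ) = l`).
* `L5_pk`: for `j ≤ k`: `S.pq … j = Loc.pk x j` with `x l = aq α (l+1) toU (A l)/(aq β l toU (B l))`.
* `L5_SI`: `(SI : ZMod q) = unit * Sg …`: `U01_S` with `R = ZMod q`, `a = aq q μ.1`, `b = aq q ν.1`, `ca i = toU q (AA i)`, `cb i = toU q (BB i)` (`Sg_congr`, `L5_pk`;
  `SI` is `Sm` of `AA … 0`, `BB … 0`; `ext1 μ.1 i` is coprime to `q`).
* `L5_dvd`: `p^b ∣ Sg` in `ZMod (p^(a+1))`, `b ≤ a + 1`, iff `p^b ∣ SI`.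
* `L6`: LL gives `D ∣ SI`: for every prime `p ∣ D` (so `p ≤ y0`, `p ∈ base`), `a = v_p(D)`: `p ≥ p0`: `cD`, so `p^a ∣ SI` (`v_p(E) = a`). `p < p0`: `al_0 yc Sg = np D` and `al_0`, `yc` units
  (`p ∤ yc`), `p^a ∣ D`: `p^a ∣ Sg`. Then `p^(v_p D) ∣ SI` for all primes `p ∣ D`: `D ∣ SI` (`Nat.dvd_of_forall_prime_pow…`/`Nat.factorization_prime_le_iff_dvd` if `SI ≠ 0`;
  `SI > 0` by `Sm_pos`, or treat `SI = 0` separately).
-/

set_option autoImplicit false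

open Finset

namespace Pool.Agent.Lib.TTC

/-- all marks are coprime to `q` -/
def MS.CopM (S : MS) (q : ℕ) (μ : S.TX) (ν : S.TY) : Prop :=
  (∀ i, (μ.1 i).Coprime q ∧ (ν.1 i).Coprime q) ∧ (∀ f, (μ.2.1 f).Coprime q ∧ (ν.2.1 f).Coprime q) ∧
    (∀ e, (μ.2.2 e).Coprime q) ∧ ∀ e, (ν.2.2 e).Coprime q

private theorem L5_AA (S : MS) {N q : ℕ} {c : S.Col} {μ : S.TX} {ν : S.TY} (h : S.CopM q μ ν) (X : ℕ) {l : ℕ} (hl : l < S.k) :
    (S.AA N c μ ν X l).Coprime q ∧ toU q (S.AA N c μ ν X l) = S.fX (toU q) c μ l * S.oX N (toU q) c μ ν l := by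
  unfold MS.AA
  rw [if_pos hl]
  unfold MS.fX MS.oX
  have h1 : (∏ f ∈ univ.filter (fun f => (c (Sum.inl f) : ℕ) = l), id (μ.2.1 f)).Coprime q :=
    Nat.Coprime.prod_left fun f _ => (h.2.1 f).1
  have h2 : (∏ e ∈ univ.filter (fun e => (S.kX N c μ ν e : ℕ) = l), id (μ.2.2 e)).Coprime q :=
    Nat.Coprime.prod_left fun e _ => h.2.2.1 e
  refine ⟨Nat.Coprime.mul_left h1 h2, ?_⟩
  rw [L0_mul h1 h2]
  simp only [id]
  rw [L0_prod _ _ fun f _ => (h.2.1 f).1, L0_prod _ _ fun e _ => h.2.2.1 e]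

private theorem L5_BB (S : MS) {N q : ℕ} {c : S.Col} {μ : S.TX} {ν : S.TY} (h : S.CopM q μ ν) (Y : ℕ) {l : ℕ} (hl : l < S.k) :
    (S.BB N c μ ν Y l).Coprime q ∧ toU q (S.BB N c μ ν Y l) = S.fY (toU q) c ν l * S.oY N (toU q) c μ ν l := by
  unfold MS.BB
  rw [if_pos hl]
  unfold MS.fY MS.oY
  have h1 : (∏ f ∈ univ.filter (fun f => (c (Sum.inr f) : ℕ) = l), id (ν.2.1 f)).Coprime q :=
    Nat.Coprime.prod_left fun f _ => (h.2.1 f).2
  have h2 : (∏ e ∈ univ.filter (fun e => (S.kY N c μ ν e : ℕ) = l), id (ν.2.2 e)).Coprime q :=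
    Nat.Coprime.prod_left fun e _ => h.2.2.2 e
  refine ⟨Nat.Coprime.mul_left h1 h2, ?_⟩
  rw [L0_mul h1 h2]
  simp only [id]
  rw [L0_prod _ _ fun f _ => (h.2.1 f).2, L0_prod _ _ fun e _ => h.2.2.2 e]

theorem L5_cop (S : MS) {N q : ℕ} {c : S.Col} {μ : S.TX} {ν : S.TY} (h : S.CopM q μ ν) (X Y : ℕ) {l : ℕ} (hl : l < S.k) :
    (S.AA N c μ ν X l).Coprime q ∧ (S.BB N c μ ν Y l).Coprime q :=
  ⟨(L5_AA S h X hl).1, (L5_BB S h Y hl).1⟩

theorem L5 (S : MS) {N q : ℕ} {c : S.Col} {μ : S.TX} {ν : S.TY} (h : S.CopM q μ ν) (X Y : ℕ) (l : Fin S.k) :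
    rs q μ.1 l.succ * Loc.sl c (S.yy N q c μ ν) (S.fr q μ ν) l =
      toU q (μ.1 l.succ) * toU q (S.AA N c μ ν X l) * (toU q (ν.1 l.castSucc))⁻¹ * (toU q (S.BB N c μ ν Y l))⁻¹ := by
  rw [(L5_AA S h X l.2).2, (L5_BB S h Y l.2).2]
  have h0 : ∀ e : FE S.n0, c e = l.castSucc ↔ (c e : ℕ) = (l : ℕ) := fun e => by
    rw [Fin.ext_iff]; rfl
  have h1 : (∏ e : FE S.n0, if c e = l.castSucc then S.fr q μ ν e else 1) =
      S.fX (toU q) c μ l * (S.fY (toU q) c ν l)⁻¹ := by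
    rw [Fintype.prod_sum_type]
    unfold MS.fX MS.fY MS.fr
    rw [prod_filter, prod_filter, ← prod_inv_distrib]
    congr 1
    · refine prod_congr rfl fun f _ => ?_
      simp only [h0, Sum.elim_inl]
    · refine prod_congr rfl fun f _ => ?_
      simp only [h0, Sum.elim_inr]
      split_ifs
      · rfl
      · rw [inv_one]
  unfold Loc.sl rs MS.yy
  rw [h1, mul_inv]
  set x1 := toU q (μ.1 l.succ)
  set x2 := (toU q (ν.1 l.castSucc))⁻¹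
  set x3 := S.oX N (toU q) c μ ν l
  set x4 := (S.oY N (toU q) c μ ν l)⁻¹
  set x5 := S.fX (toU q) c μ l
  set x6 := (S.fY (toU q) c ν l)⁻¹
  simp only [mul_comm, mul_left_comm, mul_assoc]

/-- the slot values of a pair of tuples -/
noncomputable def MS.xs (S : MS) (N q : ℕ) (c : S.Col) (μ : S.TX) (ν : S.TY) (l : ℕ) : (ZMod q)ˣ :=
  aq q μ.1 (l + 1) * toU q (S.AA N c μ ν 0 l) * (aq q ν.1 l)⁻¹ * (toU q (S.BB N c μ ν 0 l))⁻¹

theorem L5_pk (S : MS) {N q : ℕ} {c : S.Col} {μ : S.TX} {ν : S.TY} (h : S.CopM q μ ν) {j : ℕ} (hj : j ≤ S.k) :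
    S.pq N q c μ ν j = Loc.pk (S.xs N q c μ ν) j := by
  unfold MS.pq pj Loc.pr Loc.pk
  refine prod_congr rfl fun l hl => ?_
  rw [mem_range] at hl
  have hlk : l < S.k := by omega
  rw [Loc.ex_lt _ hlk]
  have h1 := L5 S (N := N) (c := c) h 0 0 ⟨l, hlk⟩
  rw [h1]
  unfold MS.xs aq
  rw [Loc.ex_lt _ (show l + 1 < S.k + 1 by omega), Loc.ex_lt _ (show l < S.k + 1 by omega)]
  rfl

private theorem L5_ext {q n : ℕ} {α : Fin n → ℕ} (h : ∀ i, (α i).Coprime q) {i : ℕ} (hi : i < n) :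
    ((aq q α i : (ZMod q)ˣ) : ZMod q) = (ext1 α i : ℕ) := by
  unfold aq ext1
  rw [Loc.ex_lt _ hi, dif_pos hi]
  exact L0_val (h _)

theorem L5_SI (S : MS) {N q : ℕ} {c : S.Col} {μ : S.TX} {ν : S.TY} (h : S.CopM q μ ν) (hab : ∀ i, ν.1 i < μ.1 i) :
    ∃ w : (ZMod q)ˣ, (S.SI N c μ ν : ZMod q) = (w : ZMod q) * Loc.Sg (S.k + 1) (aq q μ.1) (aq q ν.1) (S.pq N q c μ ν) := by
  have h1 := U01_S (R := ZMod q) (m := S.k + 1) (by omega) (A := S.AA N c μ ν 0) (B := S.BB N c μ ν 0)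
    (al := ext1 μ.1) (be := ext1 ν.1) (fun i hi => by
      unfold ext1
      rw [dif_pos hi, dif_pos hi]
      exact hab _)
    (aq q μ.1) (aq q ν.1) (fun i => toU q (S.AA N c μ ν 0 i)) (fun i => toU q (S.BB N c μ ν 0 i))
    (S.xs N q c μ ν) (fun i hi => L5_ext (fun j => (h.1 j).1) hi) (fun i hi => L5_ext (fun j => (h.1 j).2) hi)
    (fun i hi => L0_val (L5_cop S h 0 0 (by omega)).1) (fun i hi => L0_val (L5_cop S h 0 0 (by omega)).2)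
    (fun i hi => rfl)
  have h2 : Loc.Sg (S.k + 1) (aq q μ.1) (aq q ν.1) (Loc.pk (S.xs N q c μ ν)) =
      Loc.Sg (S.k + 1) (aq q μ.1) (aq q ν.1) (S.pq N q c μ ν) :=
    Loc.Sg_congr (fun _ _ => rfl) (fun _ _ => rfl) fun j hj => (L5_pk S h (by omega)).symm
  rw [h2] at h1
  have h3 : (∏ l ∈ range (S.k + 1), ((ext1 ν.1 l : ℕ) : ZMod q)) =
      ((∏ l ∈ range (S.k + 1), aq q ν.1 l : (ZMod q)ˣ) : ZMod q) := by
    rw [Units.coe_prod]
    exact prod_congr rfl fun l hl => (L5_ext (fun j => (h.1 j).2) (mem_range.1 hl)).symm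
  have h4 : (∏ l ∈ range (S.k + 1 - 1), ((S.BB N c μ ν 0 l : ℕ) : ZMod q)) =
      ((∏ l ∈ range (S.k + 1 - 1), toU q (S.BB N c μ ν 0 l) : (ZMod q)ˣ) : ZMod q) := by
    rw [Units.coe_prod]
    refine prod_congr rfl fun l hl => ?_
    rw [mem_range] at hl
    exact (L0_val (L5_cop S h 0 0 (by omega)).2).symm
  rw [h3, h4] at h1
  refine ⟨aq q μ.1 0 * (∏ l ∈ range (S.k + 1), aq q ν.1 l) *
    ∏ l ∈ range (S.k + 1 - 1), toU q (S.BB N c μ ν 0 l), ?_⟩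
  rw [Units.val_mul, Units.val_mul]
  exact h1

theorem L5_dvd (S : MS) {N p a b : ℕ} (hp : p.Prime) (hb : b ≤ a + 1) {c : S.Col} {μ : S.TX} {ν : S.TY} (h : S.CopM p μ ν) (hab : ∀ i, ν.1 i < μ.1 i) :
    (p : ZMod (p ^ (a + 1))) ^ b ∣ Loc.Sg (S.k + 1) (aq (p ^ (a + 1)) μ.1) (aq (p ^ (a + 1)) ν.1) (S.pq N (p ^ (a + 1)) c μ ν) ↔ p ^ b ∣ S.SI N c μ ν := by
  have hc : S.CopM (p ^ (a + 1)) μ ν :=
    ⟨fun i => ⟨(h.1 i).1.pow_right _, (h.1 i).2.pow_right _⟩,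
      fun f => ⟨(h.2.1 f).1.pow_right _, (h.2.1 f).2.pow_right _⟩,
      fun e => (h.2.2.1 e).pow_right _, fun e => (h.2.2.2 e).pow_right _⟩
  obtain ⟨w, hw⟩ := L5_SI S (N := N) (c := c) hc hab
  have h1 : (p : ZMod (p ^ (a + 1))) ^ b ∣ Loc.Sg (S.k + 1) (aq (p ^ (a + 1)) μ.1) (aq (p ^ (a + 1)) ν.1) (S.pq N (p ^ (a + 1)) c μ ν) ↔
      (p : ZMod (p ^ (a + 1))) ^ b ∣ ((S.SI N c μ ν : ℕ) : ZMod (p ^ (a + 1))) := by
    rw [hw]
    exact (Units.isUnit w).dvd_mul_left.symm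
  rw [h1]
  constructor
  · rintro ⟨z, hz⟩
    have h2 : p ^ b ∣ p ^ (a + 1) := pow_dvd_pow p hb
    have h3 := congrArg (ZMod.castHom h2 (ZMod (p ^ b))) hz
    rw [map_natCast, map_mul, map_pow, map_natCast] at h3
    have h4 : ((p : ZMod (p ^ b)) ^ b) = 0 := by
      have := ZMod.natCast_self (p ^ b)
      rwa [Nat.cast_pow] at this
    rw [h4, zero_mul] at h3
    exact (ZMod.natCast_eq_zero_iff _ _).1 h3
  · rintro ⟨z, hz⟩
    refine ⟨(z : ZMod (p ^ (a + 1))), ?_⟩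
    rw [hz]
    push_cast
    rfl

theorem L6 (S : MS) (T : Dat) {W0 : ℕ} (hT : T.OK W0) {c : S.Col} {μ : S.TX} {ν : S.TY} {X : ℤ} (hLL : S.LL T c μ ν X)
    (hc : ∀ p : ℕ, p.Prime → p ∣ T.D → S.CopM p μ ν) (hab : ∀ i, ν.1 i < μ.1 i) : T.D ∣ S.SI T.N c μ ν := by
  rw [Nat.dvd_iff_prime_pow_dvd_dvd]
  intro p b hp hb
  rcases Nat.eq_zero_or_pos b with h0 | h0
  · rw [h0, pow_zero]
    exact one_dvd _
  have hpD : p ∣ T.D := (dvd_pow_self p h0.ne').trans hb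
  have hfact : Fact p.Prime := ⟨hp⟩
  have hba : b ≤ padicValNat p T.D := (padicValNat_dvd_iff_le hT.D_pos.ne').1 hb
  refine (pow_dvd_pow p hba).trans ?_
  have hvE : padicValNat p T.D ≤ padicValNat p T.E := by
    rw [hT.E_mul hp]
    exact Nat.le_add_right _ _
  set a := padicValNat p T.E with ha
  have hpb : p ∈ T.base := by
    unfold Dat.base
    rw [mem_filter, mem_range]
    exact ⟨by have := (Nat.le_of_dvd hT.D_pos hpD).trans hT.D_le; omega, hp, Or.inr hpD⟩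
  have h1 := hLL p hpb
  refine (L5_dvd S (N := T.N) (a := a) (b := padicValNat p T.D) hp (by omega) (hc p hp hpD) hab).1 ?_
  unfold cP at h1
  split_ifs at h1 with hlt
  · have h2 := h1.2
    have hyn : IsUnit ((T.yc : ℕ) : ZMod (p ^ (a + 1))) := by
      rw [ZMod.isUnit_iff_coprime]
      refine Nat.Coprime.pow_right _ ?_
      rw [Nat.coprime_comm, Nat.Prime.coprime_iff_not_dvd hp]
      exact hT.yc p hp hlt
    have hu : IsUnit (((aq (p ^ (a + 1)) μ.1 0 : (ZMod (p ^ (a + 1)))ˣ) : ZMod (p ^ (a + 1))) * ((T.yc : ℕ) : ZMod (p ^ (a + 1)))) :=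
      (Units.isUnit _).mul hyn
    have h5 : (p : ZMod (p ^ (a + 1))) ^ padicValNat p T.D ∣ (T.np p : ZMod (p ^ (a + 1))) * (T.D : ZMod (p ^ (a + 1))) := by
      obtain ⟨z, hz⟩ : p ^ padicValNat p T.D ∣ T.D := pow_padicValNat_dvd
      refine Dvd.dvd.mul_left ⟨(z : ZMod (p ^ (a + 1))), ?_⟩ _
      have h6 := congrArg (fun n : ℕ => (n : ZMod (p ^ (a + 1)))) hz
      simp only [Nat.cast_mul, Nat.cast_pow] at h6
      exact h6
    rw [← h2] at h5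
    exact (hu.dvd_mul_left).1 h5
  · have h3 : padicValNat p T.D = a := (hT.vE hp (not_lt.1 hlt)).symm
    rw [h3]
    exact h1

end Pool.Agent.Lib.TTC
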