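import Pool.Agent.Lib.MP_092512_nt.TT.C.KDef
import Pool.Agent.Lib.MP_092512_nt.TT.C.L5
import Pool.Agent.Lib.MP_092512_nt.TT.C.U03

/-!
# K3: the small primes

`a = v_p(D)`, `q = p^(a+r)`, `r = T.r`; all marks are coprime to `p`, hence to `q`. `aq q μ.1 i` has value `α_i` (`L0_val`), `toU q (AA l)`, `toU q (BB l)` have values `A_l`, `B_l` for `l < k` (`L5_cop`; the short
cofactors do not depend on `X`, `Y`: `MS.AA` with `if_pos`). `S.pq = Loc.pk xs` on the indices `≤ k` (`L5_pk`).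
* `cS`: `p^r ∣ P_j - 1` for `j ≤ k`; for `l < k`: `P_{l+1} = P_l xs_l`, so `xs_l ≡ 1` modulo `p^r`, i.e. `α_{l+1} A_l ≡ β_l B_l`, and with `α, β ≡ 1`: `A_l ≡ B_l` modulo `p^r` (in `ZMod (p^r)`: apply
  `castHom : ZMod q → ZMod (p^r)`).
* `al_0 yc Sg = np D` with `yc ≡ Y` modulo `p^r`, `p ∤ yc`, so `yc` is a unit and `p^a ∣ D` gives `p^a ∣ Sg`; then `(Y - yc) Sg = 0` in `ZMod q`, so `al_0 Y Sg = np D`, `Y = ∏ β_l B_l` (`prodB`).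
  `U02_nr`: `e_k B_k = np p` in `ZMod (p^r)`.
* `U03`: `t_i = np p - h`, all marks `= 1` in `ZMod (p^r)`; `e_i A_i = e_i B_i = np p`: the class of the numbers of the cycle is prescribed.
-/

set_option autoImplicit false

open Finset

namespace Pool.Agent.Lib.TTC

private theorem K3_ext {q n : ℕ} {α : Fin n → ℕ} (h : ∀ i, (α i).Coprime q) {i : ℕ} (hi : i < n) :
    ((aq q α i : (ZMod q)ˣ) : ZMod q) = (ext1 α i : ℕ) := by
  unfold aq ext1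
  rw [Loc.ex_lt _ hi, dif_pos hi]
  exact L0_val (h _)

private theorem K3_one {p n : ℕ} {α : Fin n → ℕ} (h : ∀ i, α i ≡ 1 [MOD p]) {i : ℕ} (hi : i < n) :
    ((ext1 α i : ℕ) : ZMod p) = 1 := by
  unfold ext1
  rw [dif_pos hi]
  have h1 := (ZMod.natCast_eq_natCast_iff _ _ _).2 (h ⟨i, hi⟩)
  rwa [Nat.cast_one] at h1

private theorem K3_Sm {A B A' B' al be : ℕ → ℕ} : ∀ n : ℕ, (∀ l, l + 1 < n → A' l = A l) →
    (∀ l, l + 1 < n → B' l = B l) → Sm A B al be n = Sm A' B' al be n := by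
  intro n
  induction n with
  | zero => intro _ _; rfl
  | succ n ih =>
    intro hA hB
    have h1 := ih (fun l hl => hA l (by omega)) (fun l hl => hB l (by omega))
    have h2 : ∏ l ∈ range n, al l * A l = ∏ l ∈ range n, al l * A' l :=
      prod_congr rfl fun l hl => by
        rw [mem_range] at hl
        rw [hA l (by omega)]
    have h3 : Sm A' B' al be n * (be n * B (n - 1)) = Sm A' B' al be n * (be n * B' (n - 1)) := by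
      rcases Nat.eq_zero_or_pos n with h0 | h0
      · subst h0
        simp [Sm]
      · rw [hB (n - 1) (by omega)]
    simp only [Sm]
    rw [h1, h2, h3]

private theorem K3_aux {S : MS} {T : Dat} {c : S.Col} {μ : S.TX} {ν : S.TY} {X : ℕ} {e t : ℕ → ℕ}
    (h : S.CF T c μ ν X e t) {p a u n : ℕ} (hn : n = a + T.r) (hp : p.Prime) (hDu : T.D = p ^ a * u) (hu : ¬ p ∣ u)
    (hyc : ¬ p ∣ T.yc) (hYc : T.Y X ≡ T.yc [MOD p ^ T.r]) (hc : S.CopM p μ ν)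
    (hab : ∀ i, ν.1 i < μ.1 i) (h1 : ∀ i, μ.1 i ≡ 1 [MOD p ^ T.r] ∧ ν.1 i ≡ 1 [MOD p ^ T.r])
    (hS1 : ∀ j ≤ S.k, (p : ZMod (p ^ n)) ^ T.r ∣
      ((S.pq T.N (p ^ n) c μ ν j : (ZMod (p ^ n))ˣ) : ZMod (p ^ n)) - 1)
    (hS2 : ((aq (p ^ n) μ.1 0 : (ZMod (p ^ n))ˣ) : ZMod (p ^ n)) *
      (T.yc : ℕ) * Loc.Sg (S.k + 1) (aq (p ^ n) μ.1) (aq (p ^ n) ν.1)
        (S.pq T.N (p ^ n) c μ ν) =
      (T.np p : ZMod (p ^ n)) * (T.D : ZMod (p ^ n))) {i : ℕ} (hi : i ≤ S.k) :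
    (t i : ZMod (p ^ T.r)) = (T.np p : ZMod (p ^ T.r)) - T.h ∧ ((e i * S.AA T.N c μ ν X i : ℕ) : ZMod (p ^ T.r)) = (T.np p : ZMod (p ^ T.r)) ∧
      ((e i * S.BB T.N c μ ν (T.Y X) i : ℕ) : ZMod (p ^ T.r)) = (T.np p : ZMod (p ^ T.r)) := by
  subst hn
  have hcq : S.CopM (p ^ (a + T.r)) μ ν :=
    ⟨fun i => ⟨(hc.1 i).1.pow_right _, (hc.1 i).2.pow_right _⟩,
      fun f => ⟨(hc.2.1 f).1.pow_right _, (hc.2.1 f).2.pow_right _⟩,
      fun e => (hc.2.2.1 e).pow_right _, fun e => (hc.2.2.2 e).pow_right _⟩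
  obtain ⟨A, hA⟩ : ∃ A : ℕ → ℕ, A = S.AA T.N c μ ν X := ⟨_, rfl⟩
  obtain ⟨B, hB⟩ : ∃ B : ℕ → ℕ, B = S.BB T.N c μ ν (T.Y X) := ⟨_, rfl⟩
  have hA0 : ∀ l < S.k, S.AA T.N c μ ν 0 l = A l := by
    intro l hl
    rw [hA]
    unfold MS.AA
    rw [if_pos hl, if_pos hl]
  have hB0 : ∀ l < S.k, S.BB T.N c μ ν 0 l = B l := by
    intro l hl
    rw [hB]
    unfold MS.BB
    rw [if_pos hl, if_pos hl]
  have hcop : ∀ l < S.k, (A l).Coprime (p ^ (a + T.r)) ∧ (B l).Coprime (p ^ (a + T.r)) := by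
    intro l hl
    rw [hA, hB]
    exact L5_cop S hcq _ _ hl
  have hα : ∀ i < S.k + 1, ((aq (p ^ (a + T.r)) μ.1 i : (ZMod (p ^ (a + T.r)))ˣ) :
      ZMod (p ^ (a + T.r))) = (ext1 μ.1 i : ℕ) := fun i hi => K3_ext (fun j => (hcq.1 j).1) hi
  have hβ : ∀ i < S.k + 1, ((aq (p ^ (a + T.r)) ν.1 i : (ZMod (p ^ (a + T.r)))ˣ) :
      ZMod (p ^ (a + T.r))) = (ext1 ν.1 i : ℕ) := fun i hi => K3_ext (fun j => (hcq.1 j).2) hi
  have hx : ∀ l < S.k, S.xs T.N (p ^ (a + T.r)) c μ ν l =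
      aq (p ^ (a + T.r)) μ.1 (l + 1) * toU (p ^ (a + T.r)) (A l) * (aq (p ^ (a + T.r)) ν.1 l)⁻¹ *
        (toU (p ^ (a + T.r)) (B l))⁻¹ := by
    intro l hl
    unfold MS.xs
    rw [hA0 l hl, hB0 l hl]
  have hal1 : ∀ i < S.k + 1, ((ext1 μ.1 i : ℕ) : ZMod (p ^ T.r)) = 1 :=
    fun i hi => K3_one (fun j => (h1 j).1) hi
  have hbe1 : ∀ i < S.k + 1, ((ext1 ν.1 i : ℕ) : ZMod (p ^ T.r)) = 1 :=
    fun i hi => K3_one (fun j => (h1 j).2) hi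
  -- reduction modulo `p`
  have hpq : p ^ T.r ∣ p ^ (a + T.r) := pow_dvd_pow p (Nat.le_add_left _ _)
  obtain ⟨φ, hφ⟩ : ∃ φ : ZMod (p ^ (a + T.r)) →+* ZMod (p ^ T.r), φ = ZMod.castHom hpq (ZMod (p ^ T.r)) := ⟨_, rfl⟩
  have hφp : ∀ z : ZMod (p ^ (a + T.r)), (p : ZMod (p ^ (a + T.r))) ^ T.r ∣ z → φ z = 0 := by
    rintro z ⟨w, rfl⟩
    rw [map_mul, map_pow, map_natCast, ← Nat.cast_pow, ZMod.natCast_self, zero_mul]
  have hP1 : ∀ j ≤ S.k, φ ((Loc.pk (S.xs T.N (p ^ (a + T.r)) c μ ν) j : (ZMod (p ^ (a + T.r)))ˣ) :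
      ZMod (p ^ (a + T.r))) = 1 := by
    intro j hj
    have h2 := hφp _ (hS1 j hj)
    rw [L5_pk S hcq hj, map_sub, map_one, sub_eq_zero] at h2
    exact h2
  have hx1 : ∀ l < S.k, φ ((S.xs T.N (p ^ (a + T.r)) c μ ν l : (ZMod (p ^ (a + T.r)))ˣ) :
      ZMod (p ^ (a + T.r))) = 1 := by
    intro l hl
    have h2 := hP1 (l + 1) (by omega)
    rw [Loc.pk_succ, Units.val_mul, map_mul, hP1 l (by omega), one_mul] at h2
    exact h2
  have hAB : ∀ l < S.k + 1 - 1, (A l : ZMod (p ^ T.r)) = B l := by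
    intro l hl
    have hl' : l < S.k := by omega
    have h2 : S.xs T.N (p ^ (a + T.r)) c μ ν l * aq (p ^ (a + T.r)) ν.1 l * toU (p ^ (a + T.r)) (B l) =
        aq (p ^ (a + T.r)) μ.1 (l + 1) * toU (p ^ (a + T.r)) (A l) := by
      rw [hx l hl', mul_right_comm (_ * _ * _) _ (aq (p ^ (a + T.r)) ν.1 l), inv_mul_cancel_right,
        inv_mul_cancel_right]
    have h3 := congrArg (fun w : (ZMod (p ^ (a + T.r)))ˣ => φ (w : ZMod (p ^ (a + T.r)))) h2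
    simp only [Units.val_mul, map_mul] at h3
    rw [hx1 l hl', hβ l (by omega), hα (l + 1) (by omega), L0_val (hcop l hl').1,
      L0_val (hcop l hl').2, map_natCast, map_natCast, map_natCast, map_natCast,
      hbe1 l (by omega), hal1 (l + 1) (by omega), one_mul, one_mul, one_mul] at h3
    exact h3.symm
  -- the last equation
  have hSg : Loc.Sg (S.k + 1) (aq (p ^ (a + T.r)) μ.1) (aq (p ^ (a + T.r)) ν.1)
      (S.pq T.N (p ^ (a + T.r)) c μ ν) = Loc.Sg (S.k + 1) (aq (p ^ (a + T.r)) μ.1)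
      (aq (p ^ (a + T.r)) ν.1) (Loc.pk (S.xs T.N (p ^ (a + T.r)) c μ ν)) :=
    Loc.Sg_congr (fun _ _ => rfl) (fun _ _ => rfl) fun j hj => L5_pk S hcq (by omega)
  rw [hSg] at hS2
  obtain ⟨G, hG⟩ : ∃ G : ZMod (p ^ (a + T.r)), G = Loc.Sg (S.k + 1) (aq (p ^ (a + T.r)) μ.1)
      (aq (p ^ (a + T.r)) ν.1) (Loc.pk (S.xs T.N (p ^ (a + T.r)) c μ ν)) := ⟨_, rfl⟩
  rw [← hG] at hS2
  -- `yc` and `Y`
  have hYn : ((p ^ T.r : ℕ) : ℤ) ∣ ((T.Y X : ℕ) : ℤ) - (T.yc : ℕ) :=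
    Int.modEq_iff_dvd.1 (Int.natCast_modEq_iff.2 hYc).symm
  have hyn : IsUnit ((T.yc : ℕ) : ZMod (p ^ (a + T.r))) := by
    rw [ZMod.isUnit_iff_coprime]
    refine Nat.Coprime.pow_right _ ?_
    rw [Nat.coprime_comm, Nat.Prime.coprime_iff_not_dvd hp]
    exact hyc
  have hpG : (p : ZMod (p ^ (a + T.r))) ^ a ∣ G := by
    have h5 : (p : ZMod (p ^ (a + T.r))) ^ a ∣
        (T.np p : ZMod (p ^ (a + T.r))) * (T.D : ZMod (p ^ (a + T.r))) := by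
      refine Dvd.dvd.mul_left ⟨(u : ZMod (p ^ (a + T.r))), ?_⟩ _
      rw [hDu]
      push_cast
      rfl
    rw [← hS2] at h5
    exact (((Units.isUnit _).mul hyn).dvd_mul_left).1 h5
  have hYG : (((T.Y X : ℕ) : ZMod (p ^ (a + T.r))) - (T.yc : ℕ)) * G = 0 := by
    obtain ⟨z, hz⟩ := hYn
    obtain ⟨g, hg⟩ := hpG
    have h2 := congrArg (fun n : ℤ => (n : ZMod (p ^ (a + T.r)))) hz
    push_cast at h2
    have h2' : ((T.Y X : ℕ) : ZMod (p ^ (a + T.r))) - (T.yc : ℕ) =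
        (p : ZMod (p ^ (a + T.r))) ^ T.r * (z : ZMod (p ^ (a + T.r))) := by
      rw [← h2]
    rw [h2', hg]
    have h3 : (p : ZMod (p ^ (a + T.r))) ^ (a + T.r) = 0 := by
      have := ZMod.natCast_self (p ^ (a + T.r))
      rwa [Nat.cast_pow] at this
    calc (p : ZMod (p ^ (a + T.r))) ^ T.r * z * ((p : ZMod (p ^ (a + T.r))) ^ a * g) =
        ((p : ZMod (p ^ (a + T.r))) ^ a * (p : ZMod (p ^ (a + T.r))) ^ T.r) * (z * g) := by ring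
      _ = (p : ZMod (p ^ (a + T.r))) ^ (a + T.r) * (z * g) := by rw [← pow_add]
      _ = 0 := by rw [h3, zero_mul]
  have hprod : (∏ l ∈ range (S.k + 1), (((ext1 ν.1 l : ℕ) : ZMod (p ^ (a + T.r))) * (B l : ℕ))) =
      ((T.Y X : ℕ) : ZMod (p ^ (a + T.r))) := by
    have h2 := congrArg (fun n : ℕ => (n : ZMod (p ^ (a + T.r)))) h.prodB
    simp only [Nat.cast_prod, Nat.cast_mul] at h2
    rw [hB]
    exact h2
  have hcyc := h.cyc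
  rw [← hA, ← hB] at hcyc
  have hlast : T.D * e (S.k + 1 - 1) = Sm A B (ext1 μ.1) (ext1 ν.1) (S.k + 1) := by
    have h2 : T.D * e S.k = S.SI T.N c μ ν := h.last
    rw [Nat.add_sub_cancel, h2]
    unfold MS.SI
    exact (K3_Sm (S.k + 1) (fun l hl => hA0 l (by omega)) fun l hl => hB0 l (by omega)).symm
  have hn := (U02_nr hp hDu hu (by omega : 1 ≤ S.k + 1) hcyc (fun i hi => by
      unfold ext1
      rw [dif_pos hi, dif_pos hi]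
      exact hab _) hlast (aq (p ^ (a + T.r)) μ.1) (aq (p ^ (a + T.r)) ν.1)
    (fun i => toU (p ^ (a + T.r)) (A i)) (fun i => toU (p ^ (a + T.r)) (B i))
    (S.xs T.N (p ^ (a + T.r)) c μ ν) hα hβ (fun i hi => L0_val (hcop i (by omega)).1)
    (fun i hi => L0_val (hcop i (by omega)).2) (fun i hi => hx i (by omega)) (T.np p)).2 (by
      rw [hprod, ← hG, ← hS2]
      linear_combination ((aq (p ^ (a + T.r)) μ.1 0 : (ZMod (p ^ (a + T.r)))ˣ) :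
        ZMod (p ^ (a + T.r))) * hYG)
  obtain ⟨k1, k2, k3⟩ := U03 (by omega : 1 ≤ S.k + 1) hcyc hal1 hbe1 hAB _ hn (by omega : i < S.k + 1)
  rw [← hA, ← hB]
  refine ⟨k1, ?_, ?_⟩
  · rw [Nat.cast_mul]
    exact k2
  · rw [Nat.cast_mul]
    exact k3

theorem K3 {S : MS} {T : Dat} {c : S.Col} {μ : S.TX} {ν : S.TY} {X : ℕ} {e t : ℕ → ℕ} (h : S.CF T c μ ν X e t) {p : ℕ} (hp : p.Prime)
    (hD : T.D ≠ 0) (hr : 1 ≤ T.r) (hE : padicValNat p T.E + 1 = padicValNat p T.D + T.r) (hyc : ¬ p ∣ T.yc) (hYc : T.Y X ≡ T.yc [MOD p ^ T.r])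
    (hc : S.CopM p μ ν) (hab : ∀ i, ν.1 i < μ.1 i)
    (h1 : ∀ i, μ.1 i ≡ 1 [MOD p ^ T.r] ∧ ν.1 i ≡ 1 [MOD p ^ T.r]) (hnh : ¬ (p : ℤ) ∣ T.np p - T.h)
    (hcS : cS T S.k p (aq _ μ.1) (aq _ ν.1) (S.pq T.N _ c μ ν)) :
    (∀ i ≤ S.k, ¬ (p : ℤ) ∣ S.fv μ ν t (i, false, 0)) ∧
      ∀ i ≤ S.k, e i * S.AA T.N c μ ν X i ≡ T.np p [MOD p ^ T.r] ∧ e i * S.BB T.N c μ ν (T.Y X) i ≡ T.np p [MOD p ^ T.r] := by
  have hfact : Fact p.Prime := ⟨hp⟩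
  obtain ⟨u, hu⟩ : p ^ padicValNat p T.D ∣ T.D := pow_padicValNat_dvd
  have hu1 : ¬ p ∣ u := by
    rintro ⟨v, rfl⟩
    have h3 : p ^ (padicValNat p T.D + 1) ∣ T.D := ⟨v, by
      rw [pow_succ, mul_assoc]
      exact hu⟩
    exact pow_succ_padicValNat_not_dvd hD h3
  have key := fun i (hi : i ≤ S.k) => K3_aux h hE hp hu hu1 hyc hYc hc hab h1 hcS.1 hcS.2 hi
  refine ⟨fun i hi => ?_, fun i hi => ⟨(ZMod.natCast_eq_natCast_iff _ _ _).1 (key i hi).2.1,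
    (ZMod.natCast_eq_natCast_iff _ _ _).1 (key i hi).2.2⟩⟩
  have ht := (key i hi).1
  have hγ : ((ext1 ν.1 i : ℕ) : ZMod (p ^ T.r)) = 1 := K3_one (fun j => (h1 j).2) (by omega)
  have hv : ((S.fv μ ν t (i, false, 0) : ℤ) : ZMod (p ^ T.r)) = (T.np p : ZMod (p ^ T.r)) - T.h := by
    unfold MS.fv
    simp only [Bool.false_eq_true, if_false]
    rw [Int.cast_add, Int.cast_mul, Int.cast_natCast, Int.cast_natCast, ht, hγ, mul_one, Int.cast_zero, add_zero]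
  intro h3
  apply hnh
  have h4 : ((S.fv μ ν t (i, false, 0) : ℤ) : ZMod (p ^ T.r)) = (((T.np p : ℤ) - T.h : ℤ) : ZMod (p ^ T.r)) := by
    rw [hv]
    push_cast
    rfl
  have h5 : ((p ^ T.r : ℕ) : ℤ) ∣ ((T.np p : ℤ) - T.h) - S.fv μ ν t (i, false, 0) :=
    Int.modEq_iff_dvd.1 ((ZMod.intCast_eq_intCast_iff _ _ _).1 h4)
  have h6 : (p : ℤ) ∣ ((T.np p : ℤ) - T.h) - S.fv μ ν t (i, false, 0) := by
    refine dvd_trans ?_ h5
    rw [Nat.cast_pow]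
    exact dvd_pow_self _ (by omega)
  have h7 := dvd_add h6 h3
  rwa [sub_add_cancel] at h7

end Pool.Agent.Lib.TTC
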