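import Pool.Agent.Lib.MP_092512_nt.TT.C.KC

/-!
# K4: the primes of the small sieve

`a = v_p(D) = v_p(E)`, `q = p^(a+1)`, `D = p^a u`. `KC_f`, `U02_iff`: `p` divides the form `f` iff `Fk … = 0` in `ZMod q`, `p ∣ e_i A_i` iff `Ei … = 0`, with `Y = X - D h`. By `hcD` `p^a ∣ Sg`, and
`yn = ycl T p X ≡ Y` modulo `p`, so `Y Sg = yn Sg` in `ZMod q` and `Y` may be replaced by `yn`. Then `¬ bP`.
-/

set_option autoImplicit false

open Finset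

namespace Pool.Agent.Lib.TTC

theorem K4 {S : MS} {T : Dat} {c : S.Col} {μ : S.TX} {ν : S.TY} {X : ℕ} {e t : ℕ → ℕ} (h : S.CF T c μ ν X e t) {p : ℕ} (hp : p.Prime)
    (hD : T.D ≠ 0) (hvE : padicValNat p T.E = padicValNat p T.D) (hX : (T.D : ℤ) * T.h < X) (hc : S.CopM p μ ν) (hab : ∀ i, ν.1 i < μ.1 i)
    (hcD : cD T S.k p (aq _ μ.1) (aq _ ν.1) (S.pq T.N _ c μ ν))
    (hb : ¬ bP T S.k p (ycl T p X) (aq _ μ.1) (aq _ ν.1) (S.pq T.N _ c μ ν)) (hpY : ¬ p ∣ T.Y X) (hpX : ¬ p ∣ X ∨ p = T.l) :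
    (∀ f ∈ T.Fs S.k, ¬ (p : ℤ) ∣ S.fv μ ν t f) ∧ (p ≤ T.y → ∀ i ≤ S.k, ¬ p ∣ e i * S.AA T.N c μ ν X i) := by
  set a := padicValNat p T.E with ha
  obtain ⟨u, hu⟩ : p ^ a ∣ T.D := by
    rw [hvE]
    exact pow_padicValNat_dvd
  have hpu : ¬ p ∣ u := by
    intro hd
    have : p ^ (a + 1) ∣ T.D := by
      rw [hu, pow_succ]
      exact Nat.mul_dvd_mul_left _ hd
    rw [hvE] at this
    exact pow_succ_padicValNat_not_dvd (hp := Fact.mk hp) hD this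
  have hcq : S.CopM (p ^ (a + 1)) μ ν :=
    ⟨fun i => ⟨Nat.Coprime.pow_right _ (hc.1 i).1, Nat.Coprime.pow_right _ (hc.1 i).2⟩,
      fun f => ⟨Nat.Coprime.pow_right _ (hc.2.1 f).1, Nat.Coprime.pow_right _ (hc.2.1 f).2⟩,
      fun f => Nat.Coprime.pow_right _ (hc.2.2.1 f), fun f => Nat.Coprime.pow_right _ (hc.2.2.2 f)⟩
  -- the class of `Y`
  have hyn : ((ycl T p X : ℕ) : ℤ) = ((X : ℤ) - T.D * T.h) % p := by
    unfold ycl
    exact Int.toNat_of_nonneg (Int.emod_nonneg _ (by exact_mod_cast hp.ne_zero))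
  have hyn2 : (p : ℤ) ∣ ((X : ℤ) - T.D * T.h) - (ycl T p X : ℕ) := by
    rw [hyn]
    exact Int.dvd_self_sub_emod
  have hYS : ((X : ZMod (p ^ (a + 1))) - (T.D : ZMod (p ^ (a + 1))) * (T.h : ZMod (p ^ (a + 1)))) *
      Loc.Sg (S.k + 1) (aq (p ^ (a + 1)) μ.1) (aq (p ^ (a + 1)) ν.1) (S.pq T.N (p ^ (a + 1)) c μ ν) =
      (ycl T p X : ZMod (p ^ (a + 1))) * Loc.Sg (S.k + 1) (aq (p ^ (a + 1)) μ.1) (aq (p ^ (a + 1)) ν.1) (S.pq T.N (p ^ (a + 1)) c μ ν) := by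
    obtain ⟨w, hw⟩ := hcD
    obtain ⟨v, hv⟩ := hyn2
    have h1 : ((X : ZMod (p ^ (a + 1))) - (T.D : ZMod (p ^ (a + 1))) * (T.h : ZMod (p ^ (a + 1)))) =
        (ycl T p X : ZMod (p ^ (a + 1))) + (p : ZMod (p ^ (a + 1))) * (v : ZMod (p ^ (a + 1))) := by
      have h2 : ((X : ℤ) - T.D * T.h) = (ycl T p X : ℕ) + p * v := by linarith
      have h3 := congrArg (fun z : ℤ => (z : ZMod (p ^ (a + 1)))) h2
      push_cast at h3
      exact h3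
    rw [h1, add_mul]
    have h4 : (p : ZMod (p ^ (a + 1))) * (v : ZMod (p ^ (a + 1))) *
        Loc.Sg (S.k + 1) (aq (p ^ (a + 1)) μ.1) (aq (p ^ (a + 1)) ν.1) (S.pq T.N (p ^ (a + 1)) c μ ν) = 0 := by
      have hw' : Loc.Sg (S.k + 1) (aq (p ^ (a + 1)) μ.1) (aq (p ^ (a + 1)) ν.1) (S.pq T.N (p ^ (a + 1)) c μ ν) =
        (p : ZMod (p ^ (a + 1))) ^ a * w := hw
      rw [hw']
      have h5 : (p : ZMod (p ^ (a + 1))) ^ (a + 1) = 0 := by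
        have := ZMod.natCast_self (p ^ (a + 1))
        push_cast at this
        exact this
      calc (p : ZMod (p ^ (a + 1))) * (v : ZMod (p ^ (a + 1))) * ((p : ZMod (p ^ (a + 1))) ^ a * w) =
          (p : ZMod (p ^ (a + 1))) ^ (a + 1) * (v * w) := by ring
        _ = 0 := by rw [h5, zero_mul]
    rw [h4, add_zero]
  have hEi : ∀ i, Loc.Ei (S.k + 1) (aq (p ^ (a + 1)) μ.1) (aq (p ^ (a + 1)) ν.1) (S.pq T.N (p ^ (a + 1)) c μ ν) ((T.D : ZMod (p ^ (a + 1))) * T.h)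
      ((X : ZMod (p ^ (a + 1))) - T.D * T.h) i =
      Loc.Ei (S.k + 1) (aq (p ^ (a + 1)) μ.1) (aq (p ^ (a + 1)) ν.1) (S.pq T.N (p ^ (a + 1)) c μ ν) ((T.D : ZMod (p ^ (a + 1))) * T.h)
      (ycl T p X : ZMod (p ^ (a + 1))) i := by
    intro i
    unfold Loc.Ei
    rw [hYS]
  have ht : ∀ f ∈ T.Fs S.k, ((p : ℤ) ∣ S.fv μ ν t f → Loc.Fk (S.k + 1) (aq (p ^ (a + 1)) μ.1) (aq (p ^ (a + 1)) ν.1) (S.pq T.N (p ^ (a + 1)) c μ ν)
      (T.D : ZMod (p ^ (a + 1))) (ycl T p X : ZMod (p ^ (a + 1))) (T.h : ZMod (p ^ (a + 1))) f = 0) := by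
    intro f hf hd
    have hf1 : f.1 ≤ S.k := by
      have := (mem_product.1 hf).1
      rw [mem_range] at this
      omega
    have h1 := KC_f h hX hcq hab hf1
    obtain ⟨γ, hγ⟩ : ∃ γ : (ZMod (p ^ (a + 1)))ˣ, (γ : ZMod (p ^ (a + 1))) = ((if f.2.1 then ext1 μ.1 f.1 else ext1 ν.1 f.1 : ℕ) : ZMod (p ^ (a + 1))) := by
      split_ifs
      · exact ⟨_, aq_val (fun j => (hcq.1 j).1) (show f.1 < S.k + 1 by omega)⟩
      · exact ⟨_, aq_val (fun j => (hcq.1 j).2) (show f.1 < S.k + 1 by omega)⟩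
    have h2 : ((-(S.fv μ ν t f) : ℤ) : ZMod (p ^ (a + 1))) =
        -((t f.1 : ZMod (p ^ (a + 1))) * ((if f.2.1 then ext1 μ.1 f.1 else ext1 ν.1 f.1 : ℕ) : ZMod (p ^ (a + 1))) + (f.2.2 : ZMod (p ^ (a + 1)))) := by
      unfold MS.fv
      push_cast
      rfl
    rw [← h2, (U02_iff hp hu hpu (S.pq T.N (p ^ (a + 1)) c μ ν f.1) (-(S.fv μ ν t f))).2 ((dvd_neg).2 hd), ← hγ] at h1
    have h3 := (Units.mul_right_eq_zero _).1 h1.symm
    unfold Loc.Fk at h3 ⊢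
    rw [hYS] at h3
    exact h3
  have he : ∀ i ≤ S.k, (p ∣ e i * S.AA T.N c μ ν X i ↔ Loc.Ei (S.k + 1) (aq (p ^ (a + 1)) μ.1) (aq (p ^ (a + 1)) ν.1) (S.pq T.N (p ^ (a + 1)) c μ ν)
      ((T.D : ZMod (p ^ (a + 1))) * T.h) (ycl T p X : ZMod (p ^ (a + 1))) i = 0) := by
    intro i hi
    have h1 := (KC h hX hcq hab hi).2
    rw [hEi i] at h1
    have h2 := U02_iff hp hu hpu (S.pq T.N (p ^ (a + 1)) c μ ν i) ((e i * S.AA T.N c μ ν X i : ℕ) : ℤ)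
    rw [Int.cast_natCast, Int.natCast_dvd_natCast] at h2
    push_cast at h2
    rw [h1] at h2
    rw [← h2]
    constructor
    · intro h3
      exact (Units.mul_right_eq_zero _).1 h3
    · intro h3
      rw [h3, mul_zero]
  have hYY : ¬ p ∣ ycl T p X := by
    intro h2
    apply hpY
    have h3 : (p : ℤ) ∣ (ycl T p X : ℕ) := by exact_mod_cast h2
    have h5 : (p : ℤ) ∣ (X : ℤ) - T.D * T.h := by
      have := dvd_add hyn2 h3
      simpa using this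
    rw [← T.Y_cast hX] at h5
    exact_mod_cast h5
  have hXY : ¬ (p : ℤ) ∣ (ycl T p X : ℕ) + T.D * T.h ∨ p = T.l := by
    rcases hpX with h1 | h1
    · left
      intro h3
      apply h1
      have h4 : (X : ℤ) = (((X : ℤ) - T.D * T.h) - (ycl T p X : ℕ)) + ((ycl T p X : ℕ) + T.D * T.h) := by ring
      have h5 : (p : ℤ) ∣ X := by rw [h4]; exact dvd_add hyn2 h3
      exact_mod_cast h5
    · exact Or.inr h1
  unfold bP at hb
  constructor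
  · intro f hf hd
    exact hb ⟨hcD, hYY, hXY, Or.inl ⟨f, hf, ht f hf hd⟩⟩
  · intro hy i hi hd
    exact hb ⟨hcD, hYY, hXY, Or.inr ⟨hy, i, hi, (he i hi).1 hd⟩⟩

end Pool.Agent.Lib.TTC
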