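import Pool.Agent.Lib.MP_092512_nt.TT.C.KC

/-!
# K5: the primes of the large sieve

`p` prime, `p ∤ D`, `p` coprime to all marks: `KC_f` with `q = p`; `D`, `p_i`, `γ` are units of `ZMod p`, so a form vanishes iff `p` divides its value.
-/

set_option autoImplicit false

open Finset

namespace Pool.Agent.Lib.TTC

theorem K5 {S : MS} {T : Dat} {c : S.Col} {μ : S.TX} {ν : S.TY} {X : ℕ} {e t : ℕ → ℕ} (h : S.CF T c μ ν X e t) {p : ℕ} (hp : p.Prime)
    (hpD : ¬ p ∣ T.D) (hX : (T.D : ℤ) * T.h < X) (hc : S.CopM p μ ν) (hab : ∀ i, ν.1 i < μ.1 i) :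
    S.hit T c μ ν X p ↔ ∃ f ∈ T.Fs S.k, (p : ℤ) ∣ S.fv μ ν t f := by
  haveI := Fact.mk hp
  have hD : (T.D : ZMod p) ≠ 0 := fun h0 => hpD ((ZMod.natCast_eq_zero_iff _ _).1 h0)
  have key : ∀ f : ℕ × Bool × ℤ, f ∈ T.Fs S.k → (Loc.Fk (S.k + 1) (aq p μ.1) (aq p ν.1) (S.pq T.N p c μ ν) (T.D : ZMod p)
      (((X : ℤ) : ZMod p) - T.D * T.h) (T.h : ZMod p) f = 0 ↔ (p : ℤ) ∣ S.fv μ ν t f) := by
    intro f hf
    have hf1 : f.1 ≤ S.k := by
      have := (mem_product.1 hf).1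
      rw [mem_range] at this
      omega
    have h1 := KC_f h hX hc hab hf1
    have hγ : (((if f.2.1 then ext1 μ.1 f.1 else ext1 ν.1 f.1 : ℕ)) : ZMod p) ≠ 0 := by
      split_ifs
      · rw [← aq_val (fun j => (hc.1 j).1) (show f.1 < S.k + 1 by omega)]
        exact Units.ne_zero _
      · rw [← aq_val (fun j => (hc.1 j).2) (show f.1 < S.k + 1 by omega)]
        exact Units.ne_zero _
    have h2 : ((S.fv μ ν t f : ℤ) : ZMod p) =
        (t f.1 : ZMod p) * ((if f.2.1 then ext1 μ.1 f.1 else ext1 ν.1 f.1 : ℕ) : ZMod p) + (f.2.2 : ZMod p) := by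
      unfold MS.fv
      push_cast
      rfl
    rw [← h2] at h1
    rw [Int.cast_natCast, ← CharP.intCast_eq_zero_iff (ZMod p) p]
    constructor
    · intro h3
      rw [h3, mul_zero, mul_eq_zero, mul_eq_zero, neg_eq_zero] at h1
      rcases h1 with h4 | h4 | h4
      · exact absurd h4 hD
      · exact absurd h4 (Units.ne_zero _)
      · exact h4
    · intro h3
      rw [h3, neg_zero, mul_zero, mul_zero] at h1
      exact (mul_eq_zero.1 h1.symm).resolve_left hγ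
  unfold MS.hit
  constructor
  · rintro ⟨f, hf, h2⟩
    exact ⟨f, hf, (key f hf).1 h2⟩
  · rintro ⟨f, hf, h2⟩
    exact ⟨f, hf, (key f hf).2 h2⟩

end Pool.Agent.Lib.TTC
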