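import Pool.Agent.Lib.MP_092512_nt.TT.C.POK

/-!
# KDef: the cycle facts of a pair of tuples
-/

set_option autoImplicit false

open Finset

namespace Pool.Agent.Lib.TTC

/-- the cycle facts of a pair of tuples (conclusion of `tI_facts`) -/
structure MS.CF (S : MS) (T : Dat) (c : S.Col) (μ : S.TX) (ν : S.TY) (X : ℕ) (e t : ℕ → ℕ) : Prop where
  cyc : Cyc T.h (S.k + 1) (S.AA T.N c μ ν X) (S.BB T.N c μ ν (T.Y X)) (ext1 μ.1) (ext1 ν.1) e t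
  last : T.D * e S.k = S.SI T.N c μ ν
  prodA : ∏ i ∈ range (S.k + 1), ext1 μ.1 i * S.AA T.N c μ ν X i = X
  prodB : ∏ i ∈ range (S.k + 1), ext1 ν.1 i * S.BB T.N c μ ν (T.Y X) i = T.Y X

/-- the value `t_i γ + w` of the form `f = (i, b, w)` -/
def MS.fv (S : MS) (μ : S.TX) (ν : S.TY) (t : ℕ → ℕ) (f : ℕ × Bool × ℤ) : ℤ :=
  t f.1 * ((if f.2.1 then ext1 μ.1 f.1 else ext1 ν.1 f.1 : ℕ) : ℤ) + f.2.2

theorem MS.fI_eq (S : MS) (T : Dat) (c : S.Col) (μ : S.TX) (ν : S.TY) (X : ℕ) (f : ℕ × Bool × ℤ) :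
    S.fI T c μ ν X f = S.fv μ ν (S.tI T c μ ν X) f := rfl

end Pool.Agent.Lib.TTC
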