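import Pool.Agent.Lib.MP_092512_nt.TT.C.POK

/-!
# LocK: the coefficients of the forms, nondegenerate forms

`Mk f = p_i Kk f - h ∑_{j<i} p_j et_j`, `Bk f = Kk f + h et_i`. `FOK h f`: `f = (i, false, 0)` or `w, h - w ≠ 0` (a field of characteristic `≥ p0`).
-/

set_option autoImplicit false

open Finset

namespace Pool.Agent.Lib.TTC.Loc

variable {R : Type*} [CommRing R]

/-- the coefficient `h/α_i - w/γ` of `p_i` in `Mk f` -/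
def Kk (al be : ℕ → Rˣ) (h : R) (f : ℕ × Bool × ℤ) : R :=
  h * (((al f.1)⁻¹ : Rˣ) : R) - (f.2.2 : R) * (if f.2.1 then (((al f.1)⁻¹ : Rˣ) : R) else (((be f.1)⁻¹ : Rˣ) : R))

/-- `h/β_i - w/γ` (`= Kk f + h et_i`) -/
def Bk (al be : ℕ → Rˣ) (h : R) (f : ℕ × Bool × ℤ) : R :=
  h * (((be f.1)⁻¹ : Rˣ) : R) - (f.2.2 : R) * (if f.2.1 then (((al f.1)⁻¹ : Rˣ) : R) else (((be f.1)⁻¹ : Rˣ) : R))

theorem Bk_eq (al be : ℕ → Rˣ) (h : R) (f : ℕ × Bool × ℤ) : Bk al be h f = Kk al be h f + h * et al be f.1 := by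
  unfold Bk Kk et
  ring

theorem Mk_eq (al be p : ℕ → Rˣ) (h : R) (f : ℕ × Bool × ℤ) :
    Mk al be p h f = (p f.1 : R) * Kk al be h f - h * ∑ j ∈ range f.1, (p j : R) * et al be j := rfl

theorem Mk_congr {f : ℕ × Bool × ℤ} {al be al' be' p p' : ℕ → Rˣ} (h1 : ∀ j ≤ f.1, al j = al' j) (h2 : ∀ j ≤ f.1, be j = be' j)
    (h3 : ∀ j ≤ f.1, p j = p' j) (h : R) : Mk al be p h f = Mk al' be' p' h f := by
  unfold Mk et
  rw [h1 f.1 le_rfl, h2 f.1 le_rfl, h3 f.1 le_rfl]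
  congr 2
  refine sum_congr rfl fun j hj => ?_
  rw [mem_range] at hj
  rw [h1 j hj.le, h2 j hj.le, h3 j hj.le]

/-- nondegenerate forms -/
def FOK (h : R) (f : ℕ × Bool × ℤ) : Prop := (f.2.1 = false ∧ (f.2.2 : R) = 0) ∨ ((f.2.2 : R) ≠ 0 ∧ h - (f.2.2 : R) ≠ 0)

end Pool.Agent.Lib.TTC.Loc

namespace Pool.Agent.Lib.TTC

variable {T : Dat} {W0 k p : ℕ}

theorem cast_ne_zero {p0 : ℕ} (hp : p0 ≤ p) {n : ℤ} (hn : n ≠ 0) (hl : n.natAbs < p0) : (n : ZMod p) ≠ 0 := by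
  intro h
  rw [ZMod.intCast_zmod_eq_zero_iff_dvd] at h
  have h1 := Int.natCast_dvd.1 h
  have h2 := Nat.le_of_dvd (Int.natAbs_pos.2 hn) h1
  omega

theorem Fs_le {f : ℕ × Bool × ℤ} (hf : f ∈ T.Fs k) : f.1 ≤ k := by
  unfold Dat.Fs at hf
  rw [mem_product, mem_range] at hf
  omega

theorem Js_cases {f : ℕ × Bool × ℤ} (hf : f ∈ T.Fs k) : (f.2.1 = false ∧ f.2.2 = 0) ∨ ∃ g ∈ T.G, f.2.2 = T.h + g := by
  unfold Dat.Fs Dat.Js at hf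
  rw [mem_product, mem_insert, mem_product, mem_image] at hf
  rcases hf.2 with h | ⟨-, g, hg, h⟩
  · rw [h]
    exact Or.inl ⟨rfl, rfl⟩
  · exact Or.inr ⟨g, hg, h.symm⟩

theorem FOK_of (hT : T.OK W0) (hp0 : T.p0 ≤ p) {f : ℕ × Bool × ℤ} (hf : f ∈ T.Fs k) : Loc.FOK (T.h : ZMod p) f := by
  rcases Js_cases hf with h | ⟨g, hg, h⟩
  · refine Or.inl ⟨h.1, ?_⟩
    rw [h.2, Int.cast_zero]
  · refine Or.inr ?_
    rw [h]
    refine ⟨cast_ne_zero hp0 (hT.G_ne g hg).2 (hT.G_lt g hg).2, ?_⟩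
    have h1 : (T.h : ZMod p) - ((T.h + g : ℤ) : ZMod p) = -(g : ZMod p) := by
      push_cast
      ring
    rw [h1]
    exact neg_ne_zero.2 (cast_ne_zero hp0 (hT.G_ne g hg).1 (hT.G_lt g hg).1)

/-- two forms with the same `γ` have different `w` -/
theorem FOK_ne (hT : T.OK W0) (hp0 : T.p0 ≤ p) {f f' : ℕ × Bool × ℤ} (hf : f ∈ T.Fs k) (hf' : f' ∈ T.Fs k) (h : f.2.2 ≠ f'.2.2) :
    (f.2.2 : ZMod p) ≠ (f'.2.2 : ZMod p) := by
  intro h1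
  have h2 : ((f.2.2 - f'.2.2 : ℤ) : ZMod p) = 0 := by
    push_cast
    rw [h1, sub_self]
  refine cast_ne_zero hp0 (sub_ne_zero.2 h) ?_ h2
  rcases Js_cases hf with h3 | ⟨g, hg, h3⟩
  · rcases Js_cases hf' with h4 | ⟨g', hg', h4⟩
    · rw [h3.2, h4.2] at h
      exact absurd rfl h
    · rw [h3.2, h4, zero_sub, Int.natAbs_neg]
      exact (hT.G_lt g' hg').2
  · rcases Js_cases hf' with h4 | ⟨g', hg', h4⟩
    · rw [h3, h4.2, sub_zero]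
      exact (hT.G_lt g hg).2
    · rw [h3, h4]
      have h5 : T.h + g - (T.h + g') = g - g' := by ring
      rw [h5]
      exact hT.G_dd g hg g' hg'

theorem h_ne (hT : T.OK W0) (hp0 : T.p0 ≤ p) : (T.h : ZMod p) ≠ 0 := cast_ne_zero hp0 hT.h_ne hT.h_lt

end Pool.Agent.Lib.TTC
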