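import Pool.Agent.Lib.MP_092512_nt.TT.C.U06
import Pool.Agent.Lib.MP_092512_nt.TT.C.LocK

/-!
# U07: the bad event (3.3)(ii)

`R = ZMod (p^(a+1))`, `D = p^a u`, `p ∤ u`, `X = Y + D h`, `p ∤ Y`. `k`, the units `al`, `be` with THREE indices `≤ k` for which `et` is a unit. `p ≥ 5`. `Fs` a finite set of forms `f = (i, b, w)`.
Claim: `#{p^a ∣ Sg and Bad} p ≤ 2 (|Fs| + k + 1) #{p^a ∣ Sg}`, if `p ∤ X`, or if `p > y` and the coefficients `Bk f = h/β_i - w/γ` are units (no event `EV`).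
* `U07_a` (`a = 0`). The coefficient of `p_j` in `Fk f = D Mk f - Y Sg` is `-X et_j` for `j < i`, `-Y et_j` for `j > i`, and for `X = 0` it is `D Bk f` for `j = i`. `X, Y ≠ 0`: among the three
  indices with unit `et` one is `≥ 1` and `≠ i`. `X = 0`: for `i ≥ 1` take `j = i`, for `i = 0` take a good `j ≥ 1` (coefficient `-Y et_j`). `Ei i`: coefficient `X et_j` or `Y et_j`.
* `U07_b` (`a ≥ 1`, digits). `F` a function of `P` depending only on the residues modulo `p` (`hF`). Then `#{P : p^a ∣ Sg, Sg = F P} p ≤ #{p^a ∣ Sg}`.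
* `a ≥ 1`: `Fk f = 0` iff `Sg = D Mk f/Y`, `D = p^a u`: depends only on `Mk f` modulo `p`; `Ei i = 0` iff `Sg = - D h (∑_{j≤i} p_j et_j)/Y`.
-/

set_option autoImplicit false

open Finset

open Pool.Agent.Lib.TTC.Loc

namespace Pool.Agent.Lib.TTC

/-- three indices `≤ k` with a unit `et` -/
def Good3 {R : Type*} [CommRing R] (k : ℕ) (al be : ℕ → Rˣ) : Prop :=
  ∃ j₁ j₂ j₃ : ℕ, j₁ < j₂ ∧ j₂ < j₃ ∧ j₃ ≤ k ∧ IsUnit (et al be j₁) ∧ IsUnit (et al be j₂) ∧ IsUnit (et al be j₃)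

section lin

variable {R : Type*} [CommRing R]

private theorem U07_lin {k : ℕ} (c : ℕ → R) (P : Fin k → Rˣ) :
    ∑ j ∈ range (k + 1), c j * ((pp k P j : Rˣ) : R) = c 0 + ∑ j : Fin k, c (j + 1) * (P j : R) := by
  rw [sum_range_succ', add_comm, sum_range]
  congr 1
  · simp [pp]
  · refine sum_congr rfl fun j _ => ?_
    rw [pp_succ P j.2]
private theorem U07_Fk {k : ℕ} {f : ℕ × Bool × ℤ} (hi : f.1 ≤ k) (al be q : ℕ → Rˣ) (D Y h : R) :
    Fk (k + 1) al be q D Y h f = ∑ j ∈ range (k + 1),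
      (D * ((if j = f.1 then Kk al be h f else 0) - (if j < f.1 then h * et al be j else 0)) - Y * et al be j) *
        (q j : R) := by
  have h1 : ∑ j ∈ range f.1, (q j : R) * et al be j =
      ∑ j ∈ range (k + 1), if j < f.1 then (q j : R) * et al be j else 0 := by
    rw [← sum_filter]
    apply sum_congr _ fun _ _ => rfl
    ext j
    rw [mem_filter, mem_range, mem_range]
    constructor
    · intro h
      exact ⟨by omega, h⟩
    · rintro ⟨_, h⟩
      exact h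
  have h2 : (q f.1 : R) * Kk al be h f =
      ∑ j ∈ range (k + 1), if j = f.1 then (q j : R) * Kk al be h f else 0 := by
    rw [Finset.sum_ite_eq' (range (k + 1)) f.1 (fun j => (q j : R) * Kk al be h f),
      if_pos (mem_range.2 (by omega))]
  have h3 : Mk al be q h f = (q f.1 : R) * Kk al be h f - h * ∑ j ∈ range f.1, (q j : R) * et al be j := rfl
  unfold Fk Sg
  rw [h3, h1, h2, mul_sum, ← sum_sub_distrib, mul_sum, mul_sum, ← sum_sub_distrib]
  refine sum_congr rfl fun j _ => ?_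
  split_ifs <;> ring

private theorem U07_Ei {k i : ℕ} (hi : i ≤ k) (al be q : ℕ → Rˣ) (DN Y : R) :
    Ei (k + 1) al be q DN Y i = ∑ j ∈ range (k + 1),
      (DN * (if j < i + 1 then et al be j else 0) + Y * et al be j) * (q j : R) := by
  have h1 : ∑ j ∈ range (i + 1), (q j : R) * et al be j =
      ∑ j ∈ range (k + 1), if j < i + 1 then (q j : R) * et al be j else 0 := by
    rw [← sum_filter]
    apply sum_congr _ fun _ _ => rfl
    ext j
    rw [mem_filter, mem_range, mem_range]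
    constructor
    · intro h
      exact ⟨by omega, h⟩
    · rintro ⟨_, h⟩
      exact h
  unfold Ei Sg
  rw [h1, mul_sum, mul_sum, ← sum_add_distrib]
  refine sum_congr rfl fun j _ => ?_
  split_ifs <;> ring
end lin

private theorem U07_cnt {p k j : ℕ} [Fact p.Prime] (c : ℕ → ZMod p) (h1 : 1 ≤ j) (h2 : j ≤ k) (hc : c j ≠ 0) :
    ((univ : Finset (Fin k → (ZMod p)ˣ)).filter fun P => ∑ j ∈ range (k + 1), c j * ((pp k P j : (ZMod p)ˣ) : ZMod p) = 0).card ≤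
      (p - 1) ^ (k - 1) := by
  obtain ⟨l, rfl⟩ : ∃ l, j = l + 1 := ⟨j - 1, by omega⟩
  have h3 := T12_p (fun j : Fin k => c (j + 1)) (- c 0) ⟨l, by omega⟩ hc
  refine le_trans (le_of_eq ?_) h3
  congr 1
  apply filter_congr
  intro P _
  rw [U07_lin, add_comm, add_eq_zero_iff_eq_neg]

private theorem U07_good {R : Type*} [CommRing R] {k : ℕ} {al be : ℕ → Rˣ} (hg : Good3 k al be) (i : ℕ) :
    ∃ j, 1 ≤ j ∧ j ≤ k ∧ j ≠ i ∧ IsUnit (et al be j) := by
  obtain ⟨j₁, j₂, j₃, h12, h23, h3, _, u2, u3⟩ := hg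
  by_cases h : j₂ = i
  · exact ⟨j₃, by omega, h3, by omega, u3⟩
  · exact ⟨j₂, by omega, by omega, h, u2⟩

theorem U07_a {p k : ℕ} [Fact p.Prime] (al be : ℕ → (ZMod p)ˣ) (hg : Good3 k al be) (D Y h : ZMod p) (hY : Y ≠ 0)
    {f : ℕ × Bool × ℤ} (hi : f.1 ≤ k) (hX : D * h + Y ≠ 0 ∨ (D ≠ 0 ∧ Bk al be h f ≠ 0)) :
    ((univ : Finset (Fin k → (ZMod p)ˣ)).filter fun P => Fk (k + 1) al be (pp k P) D Y h f = 0).card ≤ (p - 1) ^ (k - 1) := by
  have hT : ((univ : Finset (Fin k → (ZMod p)ˣ)).filter fun P => Fk (k + 1) al be (pp k P) D Y h f = 0) =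
      ((univ : Finset (Fin k → (ZMod p)ˣ)).filter fun P => ∑ j ∈ range (k + 1),
      (D * ((if j = f.1 then Kk al be h f else 0) - (if j < f.1 then h * et al be j else 0)) -
        Y * et al be j) * ((pp k P j : (ZMod p)ˣ) : ZMod p) = 0) := by
    apply filter_congr
    intro P _
    rw [U07_Fk hi]
  rw [hT]
  by_cases hX0 : D * h + Y = 0
  · obtain ⟨hD, hB⟩ := hX.resolve_left (fun h1 => h1 hX0)
    by_cases hi0 : f.1 = 0
    · obtain ⟨j, j1, j2, _, j4⟩ := U07_good hg f.1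
      refine U07_cnt _ j1 j2 ?_
      rw [if_neg (by omega), if_neg (by omega), sub_zero, mul_zero, zero_sub]
      exact neg_ne_zero.2 (mul_ne_zero hY j4.ne_zero)
    · refine U07_cnt _ (Nat.one_le_iff_ne_zero.2 hi0) hi ?_
      rw [if_pos rfl, if_neg (lt_irrefl f.1)]
      have h1 : D * (Kk al be h f - 0) - Y * et al be f.1 = D * Bk al be h f := by
        rw [Bk_eq]
        linear_combination (-(et al be f.1)) * hX0
      rw [h1]
      exact mul_ne_zero hD hB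
  · obtain ⟨j, j1, j2, j3, j4⟩ := U07_good hg f.1
    refine U07_cnt _ j1 j2 ?_
    rw [if_neg j3]
    by_cases hji : j < f.1
    · rw [if_pos hji]
      have h1 : D * (0 - h * et al be j) - Y * et al be j = - ((D * h + Y) * et al be j) := by ring
      rw [h1]
      exact neg_ne_zero.2 (mul_ne_zero hX0 j4.ne_zero)
    · rw [if_neg hji, sub_zero, mul_zero, zero_sub]
      exact neg_ne_zero.2 (mul_ne_zero hY j4.ne_zero)

theorem U07_aE {p k : ℕ} [Fact p.Prime] (al be : ℕ → (ZMod p)ˣ) (hg : Good3 k al be) (DN Y : ZMod p) {i : ℕ} (hi : i ≤ k)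
    (hY : Y ≠ 0) (hX : DN + Y ≠ 0) :
    ((univ : Finset (Fin k → (ZMod p)ˣ)).filter fun P => Ei (k + 1) al be (pp k P) DN Y i = 0).card ≤ (p - 1) ^ (k - 1) := by
  have hE : ((univ : Finset (Fin k → (ZMod p)ˣ)).filter fun P => Ei (k + 1) al be (pp k P) DN Y i = 0) =
      ((univ : Finset (Fin k → (ZMod p)ˣ)).filter fun P => ∑ j ∈ range (k + 1),
      (DN * (if j < i + 1 then et al be j else 0) + Y * et al be j) * ((pp k P j : (ZMod p)ˣ) : ZMod p) = 0) := by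
    apply filter_congr
    intro P _
    rw [U07_Ei hi]
  obtain ⟨j, j1, j2, _, j4⟩ := U07_good hg i
  rw [hE]
  refine U07_cnt _ j1 j2 ?_
  by_cases hji : j < i + 1
  · rw [if_pos hji, ← add_mul]
    exact mul_ne_zero hX j4.ne_zero
  · rw [if_neg hji, mul_zero, zero_add]
    exact mul_ne_zero hY j4.ne_zero

private theorem U07_ann {p a : ℕ} [Fact p.Prime] (x : ZMod (p ^ (a + 1))) :
    (p : ZMod (p ^ (a + 1))) ^ a * x = 0 ↔ rd p a x = 0 := by
  have hp := (Fact.out : p.Prime)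
  have : NeZero (p ^ (a + 1)) := ⟨pow_ne_zero _ hp.ne_zero⟩
  obtain ⟨n, rfl⟩ : ∃ n : ℕ, (n : ZMod (p ^ (a + 1))) = x := ⟨x.val, ZMod.natCast_zmod_val x⟩
  rw [map_natCast, ← Nat.cast_pow, ← Nat.cast_mul, ZMod.natCast_eq_zero_iff, ZMod.natCast_eq_zero_iff, pow_succ]
  exact Nat.mul_dvd_mul_iff_left (pow_pos hp.pos a)

private theorem U07_unit {p a : ℕ} (ha : 1 ≤ a) (x : (ZMod (p ^ (a + 1)))ˣ) (s : ℕ) :
    IsUnit ((x : ZMod (p ^ (a + 1))) + (p : ZMod (p ^ (a + 1))) ^ a * s) := by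
  refine IsNilpotent.isUnit_add_left_of_commute ?_ x.isUnit (Commute.all _ _)
  refine ⟨a + 1, ?_⟩
  have h1 : (p : ZMod (p ^ (a + 1))) ^ (a + 1) = 0 := by
    rw [← Nat.cast_pow]
    exact ZMod.natCast_self _
  rw [mul_pow, ← pow_mul, mul_comm a (a + 1), pow_mul, h1, zero_pow (by omega), zero_mul]

private theorem U07_upd {R : Type*} [CommRing R] {k : ℕ} (al be : ℕ → Rˣ) (P : Fin k → Rˣ) (j : Fin k) (v : Rˣ) :
    Sg (k + 1) al be (pp k (Function.update P j v)) =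
      Sg (k + 1) al be (pp k P) + ((v : R) - P j) * et al be (j + 1) := by
  classical
  have h1 : ∀ Q : Fin k → Rˣ, Sg (k + 1) al be (pp k Q) =
      et al be 0 + ∑ l : Fin k, et al be (l + 1) * (Q l : R) := by
    intro Q
    rw [← U07_lin]
    exact sum_congr rfl fun _ _ => mul_comm _ _
  rw [h1, h1, Fintype.sum_eq_add_sum_subtype_ne _ j, Fintype.sum_eq_add_sum_subtype_ne (fun l : Fin k => et al be (l + 1) * (P l : R)) j,
    Function.update_self]
  have h2 : ∑ l : {l : Fin k // l ≠ j}, et al be ((l.1 : ℕ) + 1) * ((Function.update P j v l.1 : Rˣ) : R) =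
      ∑ l : {l : Fin k // l ≠ j}, et al be ((l.1 : ℕ) + 1) * ((P l.1 : Rˣ) : R) :=
    sum_congr rfl fun l _ => by rw [Function.update_of_ne l.2]
  rw [h2]
  ring

private theorem U07_prod {α β : Type*} (S : Finset α) (T : Finset β) (n : ℕ) (f : α → ℕ → β)
    (h1 : ∀ x ∈ S, ∀ s < n, f x s ∈ T)
    (h2 : ∀ x ∈ S, ∀ s < n, ∀ y ∈ S, ∀ t < n, f x s = f y t → x = y ∧ s = t) : S.card * n ≤ T.card := by
  have h3 : S.card * n = (S ×ˢ range n).card := by rw [card_product, card_range]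
  rw [h3]
  refine card_le_card_of_injOn (fun x => f x.1 x.2) ?_ ?_
  · intro x hx
    rw [mem_coe, mem_product, mem_range] at hx
    exact h1 _ hx.1 _ hx.2
  · rintro ⟨x, s⟩ hx ⟨y, t⟩ hy hxy
    rw [mem_coe, mem_product, mem_range] at hx hy
    obtain ⟨e1, e2⟩ := h2 x hx.1 s hx.2 y hy.1 t hy.2 hxy
    rw [e1, e2]

theorem U07_b {p a k : ℕ} [Fact p.Prime] [NeZero (p ^ (a + 1))] (ha : 1 ≤ a) (al be : ℕ → (ZMod (p ^ (a + 1)))ˣ) {j₁ : ℕ} (h1 : 1 ≤ j₁) (h2 : j₁ ≤ k)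
    (hu1 : IsUnit (et al be j₁)) (F : (Fin k → (ZMod (p ^ (a + 1)))ˣ) → ZMod (p ^ (a + 1)))
    (hF : ∀ P P', (∀ j, rdu p a (P j) = rdu p a (P' j)) → F P = F P') :
    open Classical in ((univ : Finset (Fin k → (ZMod (p ^ (a + 1)))ˣ)).filter fun P =>
      (p : ZMod (p ^ (a + 1))) ^ a ∣ Sg (k + 1) al be (pp k P) ∧ Sg (k + 1) al be (pp k P) = F P).card * p ≤
    ((univ : Finset (Fin k → (ZMod (p ^ (a + 1)))ˣ)).filter fun P => (p : ZMod (p ^ (a + 1))) ^ a ∣ Sg (k + 1) al be (pp k P)).card := by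
  classical
  have hp := (Fact.out : p.Prime)
  obtain ⟨l, rfl⟩ : ∃ l, j₁ = l + 1 := ⟨j₁ - 1, by omega⟩
  obtain ⟨j0, hj0⟩ : ∃ j0 : Fin k, (j0 : ℕ) = l := ⟨⟨l, by omega⟩, rfl⟩
  subst hj0
  obtain ⟨act, hact⟩ : ∃ act : (Fin k → (ZMod (p ^ (a + 1)))ˣ) → ℕ → (ZMod (p ^ (a + 1)))ˣ,
      ∀ P s, ((act P s : (ZMod (p ^ (a + 1)))ˣ) : ZMod (p ^ (a + 1))) =
        ((P j0 : (ZMod (p ^ (a + 1)))ˣ) : ZMod (p ^ (a + 1))) + (p : ZMod (p ^ (a + 1))) ^ a * s :=
    ⟨fun P s => (U07_unit ha (P j0) s).unit, fun P s => IsUnit.unit_spec _⟩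
  have hrd : ∀ P s, ∀ j, rdu p a (Function.update P j0 (act P s) j) = rdu p a (P j) := by
    intro P s j
    by_cases hj : j = j0
    · subst hj
      rw [Function.update_self]
      apply Units.ext
      show rd p a (act P s : ZMod (p ^ (a + 1))) = rd p a (P j : ZMod (p ^ (a + 1)))
      rw [hact, map_add, map_mul, map_pow, map_natCast, ZMod.natCast_self, zero_pow (by omega), zero_mul, add_zero]
    · rw [Function.update_of_ne hj]
  have hSg : ∀ P s, Sg (k + 1) al be (pp k (Function.update P j0 (act P s))) =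
      Sg (k + 1) al be (pp k P) + (p : ZMod (p ^ (a + 1))) ^ a * (s * et al be (j0 + 1)) := by
    intro P s
    rw [U07_upd, hact]
    ring
  refine U07_prod _ _ p (fun P s => Function.update P j0 (act P s)) ?_ ?_
  · intro P hx s _
    rw [mem_filter] at hx
    rw [mem_filter]
    refine ⟨mem_univ _, ?_⟩
    rw [hSg]
    exact dvd_add hx.2.1 (Dvd.intro _ rfl)
  · intro P hx s hs P' hy s' hs' hxy
    rw [mem_filter] at hx hy
    have e1 : ∀ j, rdu p a (P j) = rdu p a (P' j) := by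
      intro j
      rw [← hrd P s j, ← hrd P' s' j, hxy]
    have e2 := hF P P' e1
    have e3 := hSg P s
    rw [hxy, hSg, hx.2.2, hy.2.2, e2, add_right_inj] at e3
    have e4 : (p : ZMod (p ^ (a + 1))) ^ a * (((s : ZMod (p ^ (a + 1))) - s') * et al be (j0 + 1)) = 0 := by
      linear_combination - e3
    rw [U07_ann, map_mul] at e4
    have e5 : rd p a ((s : ZMod (p ^ (a + 1))) - s') = 0 :=
      (mul_eq_zero.1 e4).resolve_right (hu1.map (rd p a)).ne_zero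
    rw [map_sub, map_natCast, map_natCast, sub_eq_zero, ZMod.natCast_eq_natCast_iff] at e5
    have e6 : s = s' := Nat.ModEq.eq_of_lt_of_lt e5 hs hs'
    subst e6
    have e7 : P = P' := by
      funext j
      by_cases hj : j = j0
      · subst hj
        have e8 := congrFun hxy j
        rw [Function.update_self, Function.update_self] at e8
        have e9 := congrArg (fun v : (ZMod (p ^ (a + 1)))ˣ => (v : ZMod (p ^ (a + 1)))) e8
        rw [hact, hact, add_left_inj] at e9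
        exact Units.ext e9
      · have e8 := congrFun hxy j
        rwa [Function.update_of_ne hj, Function.update_of_ne hj] at e8
    exact ⟨e7, rfl⟩

private theorem U07_union {α ι κ : Type*} (B : Finset α) (s : Finset ι) (t : Finset κ) (c p : ℕ) (f : ι → Finset α) (g : κ → Finset α)
    (hB : ∀ x ∈ B, (∃ i ∈ s, x ∈ f i) ∨ ∃ i ∈ t, x ∈ g i) (hf : ∀ i ∈ s, (f i).card * p ≤ c) (hg : ∀ i ∈ t, (g i).card * p ≤ c) :
    B.card * p ≤ (s.card + t.card) * c := by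
  classical
  have h1 : B ⊆ s.biUnion f ∪ t.biUnion g := by
    intro x hx
    rw [mem_union, mem_biUnion, mem_biUnion]
    exact hB x hx
  have h2 : B.card ≤ ∑ i ∈ s, (f i).card + ∑ i ∈ t, (g i).card :=
    (card_le_card h1).trans ((card_union_le _ _).trans (Nat.add_le_add card_biUnion_le card_biUnion_le))
  have h7 := Nat.mul_le_mul_right p h2
  rw [add_mul, sum_mul, sum_mul] at h7
  refine h7.trans ?_
  rw [add_mul]
  refine Nat.add_le_add ((sum_le_sum hf).trans ?_) ((sum_le_sum hg).trans ?_)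
  · rw [sum_const, smul_eq_mul]
  · rw [sum_const, smul_eq_mul]

private theorem U07_pow {p k : ℕ} (hp : 5 ≤ p) (hk : 1 ≤ k) : (p - 1) ^ (k - 1) * p ≤ 2 * (p - 1) ^ k := by
  obtain ⟨l, rfl⟩ : ∃ l, k = l + 1 := ⟨k - 1, by omega⟩
  rw [Nat.add_sub_cancel, pow_succ]
  have h1 : p ≤ 2 * (p - 1) := by omega
  calc (p - 1) ^ l * p ≤ (p - 1) ^ l * (2 * (p - 1)) := Nat.mul_le_mul_left _ h1
    _ = 2 * ((p - 1) ^ l * (p - 1)) := by ring

private theorem U07_F {p a D u : ℕ} [Fact p.Prime] (hD : D = p ^ a * u) {x x' : ZMod (p ^ (a + 1))}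
    (h : rd p a x = rd p a x') :
    (D : ZMod (p ^ (a + 1))) * x = (D : ZMod (p ^ (a + 1))) * x' := by
  have h1 : (p : ZMod (p ^ (a + 1))) ^ a * (x - x') = 0 := by
    rw [U07_ann, map_sub, h, sub_self]
  have h2 : (D : ZMod (p ^ (a + 1))) = (p : ZMod (p ^ (a + 1))) ^ a * u := by
    rw [hD]
    push_cast
    rfl
  rw [h2]
  linear_combination (u : ZMod (p ^ (a + 1))) * h1

private theorem U07_rdpp {p a k : ℕ} (P P' : Fin k → (ZMod (p ^ (a + 1)))ˣ) (h : ∀ j, rdu p a (P j) = rdu p a (P' j))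
    (j : ℕ) : rd p a (pp k P j : (ZMod (p ^ (a + 1)))ˣ) = rd p a (pp k P' j : (ZMod (p ^ (a + 1)))ˣ) := by
  cases j with
  | zero => rfl
  | succ l =>
    by_cases hl : l < k
    · rw [pp_succ P hl, pp_succ P' hl]
      exact congrArg Units.val (h ⟨l, hl⟩)
    · have e : ∀ Q : Fin k → (ZMod (p ^ (a + 1)))ˣ, pp k Q (l + 1) = 1 := fun Q => ex_ge Q (Nat.not_lt.1 hl)
      rw [e, e]

private theorem U07_rdS {p a k : ℕ} (al be : ℕ → (ZMod (p ^ (a + 1)))ˣ) (P P' : Fin k → (ZMod (p ^ (a + 1)))ˣ)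
    (h : ∀ j, rdu p a (P j) = rdu p a (P' j)) (i : ℕ) :
    rd p a (∑ j ∈ range i, ((pp k P j : (ZMod (p ^ (a + 1)))ˣ) : ZMod (p ^ (a + 1))) * et al be j) =
      rd p a (∑ j ∈ range i, ((pp k P' j : (ZMod (p ^ (a + 1)))ˣ) : ZMod (p ^ (a + 1))) * et al be j) := by
  rw [map_sum, map_sum]
  refine sum_congr rfl fun j _ => ?_
  rw [map_mul, map_mul, U07_rdpp P P' h]

private theorem U07_rdM {p a k : ℕ} (al be : ℕ → (ZMod (p ^ (a + 1)))ˣ) (P P' : Fin k → (ZMod (p ^ (a + 1)))ˣ)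
    (h : ∀ j, rdu p a (P j) = rdu p a (P' j)) (hh : ZMod (p ^ (a + 1))) (f : ℕ × Bool × ℤ) :
    rd p a (Mk al be (pp k P) hh f) = rd p a (Mk al be (pp k P') hh f) := by
  unfold Mk
  rw [map_sub, map_sub, map_mul _ hh, map_mul _ hh, U07_rdS al be P P' h, map_mul, map_mul, U07_rdpp P P' h]

theorem U07 {p a k D u Yn y : ℕ} {h : ℤ} {Fs : Finset (ℕ × Bool × ℤ)} [Fact p.Prime] [NeZero (p ^ (a + 1))] (hp : 5 ≤ p) (hD : D = p ^ a * u) (hu : ¬ p ∣ u)
    (al be : ℕ → (ZMod (p ^ (a + 1)))ˣ) (hg : Good3 k al be) (hY : ¬ p ∣ Yn) (hF : ∀ f ∈ Fs, f.1 ≤ k)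
    (hX : ¬ (p : ℤ) ∣ Yn + D * h ∨ (¬ p ≤ y ∧ ∀ f ∈ Fs, IsUnit (Bk al be (h : ZMod (p ^ (a + 1))) f))) :
    open Classical in ((univ : Finset (Fin k → (ZMod (p ^ (a + 1)))ˣ)).filter fun P =>
      (p : ZMod (p ^ (a + 1))) ^ a ∣ Sg (k + 1) al be (pp k P) ∧
        ((∃ f ∈ Fs, Fk (k + 1) al be (pp k P) (D : ZMod (p ^ (a + 1))) Yn (h : ZMod (p ^ (a + 1))) f = 0) ∨
          (p ≤ y ∧ ∃ i ≤ k, Ei (k + 1) al be (pp k P) ((D : ZMod (p ^ (a + 1))) * (h : ZMod (p ^ (a + 1)))) Yn i = 0))).card * p ≤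
    2 * (Fs.card + (k + 1)) * ((univ : Finset (Fin k → (ZMod (p ^ (a + 1)))ˣ)).filter fun P =>
      (p : ZMod (p ^ (a + 1))) ^ a ∣ Sg (k + 1) al be (pp k P)).card := by
  classical
  have hpp := (Fact.out : p.Prime)
  obtain ⟨B, hB⟩ : ∃ B : Finset (Fin k → (ZMod (p ^ (a + 1)))ˣ), B = (univ : Finset (Fin k → (ZMod (p ^ (a + 1)))ˣ)).filter fun P =>
      (p : ZMod (p ^ (a + 1))) ^ a ∣ Sg (k + 1) al be (pp k P) ∧
        ((∃ f ∈ Fs, Fk (k + 1) al be (pp k P) (D : ZMod (p ^ (a + 1))) Yn (h : ZMod (p ^ (a + 1))) f = 0) ∨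
          (p ≤ y ∧ ∃ i ≤ k, Ei (k + 1) al be (pp k P) ((D : ZMod (p ^ (a + 1))) * (h : ZMod (p ^ (a + 1)))) Yn i = 0)) := ⟨_, rfl⟩
  have hBm : ∀ P ∈ B, (p : ZMod (p ^ (a + 1))) ^ a ∣ Sg (k + 1) al be (pp k P) ∧
        ((∃ f ∈ Fs, Fk (k + 1) al be (pp k P) (D : ZMod (p ^ (a + 1))) Yn (h : ZMod (p ^ (a + 1))) f = 0) ∨
          (p ≤ y ∧ ∃ i ≤ k, Ei (k + 1) al be (pp k P) ((D : ZMod (p ^ (a + 1))) * (h : ZMod (p ^ (a + 1)))) Yn i = 0)) := by
    intro P hP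
    rw [hB, mem_filter] at hP
    exact hP.2
  rw [← hB]
  clear hB
  obtain ⟨A, hA⟩ : ∃ A : Finset (Fin k → (ZMod (p ^ (a + 1)))ˣ), A = (univ : Finset (Fin k → (ZMod (p ^ (a + 1)))ˣ)).filter fun P =>
      (p : ZMod (p ^ (a + 1))) ^ a ∣ Sg (k + 1) al be (pp k P) := ⟨_, rfl⟩
  rw [← hA]
  rcases Nat.eq_zero_or_pos a with ha | ha
  · subst ha
    have hq : (p ^ (0 + 1)).Prime := by simpa using hpp
    have : Fact (p ^ (0 + 1)).Prime := ⟨hq⟩
    have hpe : p ^ (0 + 1) = p := by rw [zero_add, pow_one]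
    have hq5 : 5 ≤ p ^ (0 + 1) := by rw [hpe]; exact hp
    have hAc : A.card = (p ^ (0 + 1) - 1) ^ k := by
      rw [hA, filter_true_of_mem, card_univ, Fintype.card_fun, ZMod.card_units, Fintype.card_fin]
      intro P _
      rw [pow_zero]
      exact one_dvd _
    have e1 : ∀ n : ℕ, ¬ p ∣ n → (n : ZMod (p ^ (0 + 1))) ≠ 0 := by
      intro n hn h
      rw [ZMod.natCast_eq_zero_iff, hpe] at h
      exact hn h
    have e2 : ∀ n : ℤ, ¬ (p : ℤ) ∣ n → (n : ZMod (p ^ (0 + 1))) ≠ 0 := by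
      intro n hn h
      rw [ZMod.intCast_zmod_eq_zero_iff_dvd, hpe] at h
      exact hn h
    have hD0 : (D : ZMod (p ^ (0 + 1))) ≠ 0 := by
      rw [hD, pow_zero, one_mul]
      exact e1 u hu
    have hX1 : ¬ (p : ℤ) ∣ Yn + D * h → (D : ZMod (p ^ (0 + 1))) * (h : ZMod (p ^ (0 + 1))) + (Yn : ZMod (p ^ (0 + 1))) ≠ 0 := by
      intro h1 h2
      have h3 : ((Yn + D * h : ℤ) : ZMod (p ^ (0 + 1))) = 0 := by
        push_cast
        rw [add_comm]
        exact h2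
      exact e2 _ h1 h3
    obtain ⟨j, j1, j2, _, _⟩ := U07_good hg 0
    have hpw := U07_pow hq5 (show 1 ≤ k by omega)
    have h1 := U07_union B Fs (range (k + 1)) (2 * A.card) (p ^ (0 + 1))
      (fun f => (univ : Finset (Fin k → (ZMod (p ^ (0 + 1)))ˣ)).filter fun P =>
        Fk (k + 1) al be (pp k P) (D : ZMod (p ^ (0 + 1))) Yn (h : ZMod (p ^ (0 + 1))) f = 0)
      (fun i => if p ≤ y then (univ : Finset (Fin k → (ZMod (p ^ (0 + 1)))ˣ)).filter fun P =>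
        Ei (k + 1) al be (pp k P) ((D : ZMod (p ^ (0 + 1))) * (h : ZMod (p ^ (0 + 1)))) Yn i = 0 else ∅) ?_ ?_ ?_
    · have h2 : B.card * p ^ (0 + 1) = B.card * p := congrArg _ hpe
      rw [h2, card_range] at h1
      refine h1.trans (le_of_eq ?_)
      ring
    · intro P hP
      rcases (hBm P hP).2 with ⟨f, hf, h2⟩ | ⟨hy, i, hi, h2⟩
      · exact Or.inl ⟨f, hf, mem_filter.2 ⟨mem_univ _, h2⟩⟩
      · refine Or.inr ⟨i, mem_range.2 (by omega), ?_⟩
        rw [if_pos hy]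
        exact mem_filter.2 ⟨mem_univ _, h2⟩
    · intro f hf
      rw [hAc]
      refine (Nat.mul_le_mul_right _ (U07_a al be hg (D : ZMod (p ^ (0 + 1))) (Yn : ZMod (p ^ (0 + 1))) (h : ZMod (p ^ (0 + 1)))
        (e1 Yn hY) (hF f hf) ?_)).trans hpw
      rcases hX with h2 | ⟨-, h2⟩
      · exact Or.inl (hX1 h2)
      · exact Or.inr ⟨hD0, (h2 f hf).ne_zero⟩
    · intro i hi
      rw [mem_range] at hi
      rw [hAc]
      split_ifs with hy
      · refine (Nat.mul_le_mul_right _ (U07_aE al be hg _ (Yn : ZMod (p ^ (0 + 1))) (show i ≤ k by omega) (e1 Yn hY) ?_)).trans hpw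
        rcases hX with h2 | ⟨h2, -⟩
        · exact hX1 h2
        · exact absurd hy h2
      · rw [card_empty, zero_mul]
        exact Nat.zero_le _
  · obtain ⟨j, j1, j2, _, j4⟩ := U07_good hg 0
    have hb : ∀ (F : (Fin k → (ZMod (p ^ (a + 1)))ˣ) → ZMod (p ^ (a + 1))) (C : Finset (Fin k → (ZMod (p ^ (a + 1)))ˣ)),
        (∀ P P', (∀ j, rdu p a (P j) = rdu p a (P' j)) → F P = F P') →
        (∀ P ∈ C, (p : ZMod (p ^ (a + 1))) ^ a ∣ Sg (k + 1) al be (pp k P) ∧ Sg (k + 1) al be (pp k P) = F P) →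
        C.card * p ≤ A.card := by
      intro F C hF hC
      have h1 := U07_b ha al be j1 j2 j4 F hF
      rw [hA]
      refine le_trans (Nat.mul_le_mul_right p (card_le_card ?_)) h1
      intro P hP
      rw [mem_filter]
      exact ⟨mem_univ _, hC P hP⟩
    obtain ⟨Yu, hYu⟩ : ∃ Yu : (ZMod (p ^ (a + 1)))ˣ, (Yu : ZMod (p ^ (a + 1))) = Yn := by
      have h1 : Nat.Coprime Yn (p ^ (a + 1)) := Nat.Coprime.pow_right _ ((Nat.Prime.coprime_iff_not_dvd hpp).2 hY).symm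
      exact ⟨ZMod.unitOfCoprime Yn h1, ZMod.coe_unitOfCoprime Yn h1⟩
    have hYi : ∀ x z : ZMod (p ^ (a + 1)), (Yn : ZMod (p ^ (a + 1))) * x = z →
        x = ((Yu⁻¹ : (ZMod (p ^ (a + 1)))ˣ) : ZMod (p ^ (a + 1))) * z := by
      intro x z h
      rw [← h, ← hYu, Units.inv_mul_cancel_left]
    have h1 := U07_union B Fs (range (k + 1)) A.card p
      (fun f => (univ : Finset (Fin k → (ZMod (p ^ (a + 1)))ˣ)).filter fun P =>
        (p : ZMod (p ^ (a + 1))) ^ a ∣ Sg (k + 1) al be (pp k P) ∧ Sg (k + 1) al be (pp k P) =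
          ((Yu⁻¹ : (ZMod (p ^ (a + 1)))ˣ) : ZMod (p ^ (a + 1))) * ((D : ZMod (p ^ (a + 1))) *
            Mk al be (pp k P) (h : ZMod (p ^ (a + 1))) f))
      (fun i => (univ : Finset (Fin k → (ZMod (p ^ (a + 1)))ˣ)).filter fun P =>
        (p : ZMod (p ^ (a + 1))) ^ a ∣ Sg (k + 1) al be (pp k P) ∧ Sg (k + 1) al be (pp k P) =
          ((Yu⁻¹ : (ZMod (p ^ (a + 1)))ˣ) : ZMod (p ^ (a + 1))) * ((D : ZMod (p ^ (a + 1))) * (- ((h : ZMod (p ^ (a + 1))) *
            ∑ j ∈ range (i + 1), ((pp k P j : (ZMod (p ^ (a + 1)))ˣ) : ZMod (p ^ (a + 1))) * et al be j)))) ?_ ?_ ?_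
    · refine h1.trans ?_
      rw [card_range]
      exact Nat.mul_le_mul_right _ (by omega)
    · intro P hP
      obtain ⟨e1, e2⟩ := hBm P hP
      rcases e2 with ⟨f, hf, h2⟩ | ⟨_, i, hi, h2⟩
      · refine Or.inl ⟨f, hf, ?_⟩
        rw [mem_filter]
        refine ⟨mem_univ _, e1, hYi _ _ ?_⟩
        unfold Fk at h2
        linear_combination - h2
      · refine Or.inr ⟨i, mem_range.2 (by omega), ?_⟩
        rw [mem_filter]
        refine ⟨mem_univ _, e1, hYi _ _ ?_⟩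
        unfold Ei at h2
        linear_combination h2
    · intro f hf
      refine hb (fun P => ((Yu⁻¹ : (ZMod (p ^ (a + 1)))ˣ) : ZMod (p ^ (a + 1))) *
        ((D : ZMod (p ^ (a + 1))) * Mk al be (pp k P) (h : ZMod (p ^ (a + 1))) f)) _ ?_ ?_
      · intro P P' h2
        rw [U07_F hD (U07_rdM al be P P' h2 (h : ZMod (p ^ (a + 1))) f)]
      · intro P hP
        rw [mem_filter] at hP
        exact hP.2
    · intro i hi
      refine hb (fun P => ((Yu⁻¹ : (ZMod (p ^ (a + 1)))ˣ) : ZMod (p ^ (a + 1))) * ((D : ZMod (p ^ (a + 1))) * (- ((h : ZMod (p ^ (a + 1))) *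
            ∑ j ∈ range (i + 1), ((pp k P j : (ZMod (p ^ (a + 1)))ˣ) : ZMod (p ^ (a + 1))) * et al be j)))) _ ?_ ?_
      · intro P P' h2
        refine congrArg _ (U07_F hD ?_)
        rw [map_neg, map_neg, map_mul, map_mul, U07_rdS al be P P' h2 (i + 1)]
      · intro P hP
        rw [mem_filter] at hP
        exact hP.2

end Pool.Agent.Lib.TTC
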