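import Pool.Agent.Lib.MP_092512_nt.TT.C.LocP
import Pool.Agent.Lib.MP_092512_nt.TT.C.U07

/-!
# L0: residues of natural numbers, three good indices

* `L0_val`: `toU q n` is the class of `n` if `n` is coprime to `q` (`ZMod.coe_unitOfCoprime`).
* `L0_mul`: `toU q` is multiplicative on numbers coprime to `q` (`Units.ext`, `L0_val`). `L0_prod`: for finite products.
* `L0_unit`: `p` prime, `α`, `β` coprime to `p`, `α ≢ β` modulo `p`: `1/β - 1/α` is a unit modulo `p^e` (`e ≥ 1`): times the unit `αβ` it is `α - β`, and the class of an integer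
  in `ZMod (p^e)` is a unit iff `p` does not divide it (`ZMod.isUnit_iff_coprime` for natural numbers: take `|α - β|`).
* `L0`: at least three indices `i` with `α_i ≢ β_i` modulo `p`; order them; `aq q α i = toU q (α i)` for `i ≤ k` (`Loc.ex_lt`).
-/

set_option autoImplicit false

open Finset

namespace Pool.Agent.Lib.TTC

theorem L0_val {q n : ℕ} (h : n.Coprime q) : ((toU q n : (ZMod q)ˣ) : ZMod q) = n := by
  unfold toU
  rw [dif_pos h]
  exact ZMod.coe_unitOfCoprime n h

theorem L0_mul {q n n' : ℕ} (h : n.Coprime q) (h' : n'.Coprime q) : toU q (n * n') = toU q n * toU q n' := by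
  apply Units.ext
  rw [L0_val (Nat.Coprime.mul_left h h'), Units.val_mul, L0_val h, L0_val h']
  push_cast
  rfl

theorem L0_prod {q : ℕ} {ι : Type*} (s : Finset ι) (f : ι → ℕ) (h : ∀ i ∈ s, (f i).Coprime q) : toU q (∏ i ∈ s, f i) = ∏ i ∈ s, toU q (f i) := by
  classical
  apply Units.ext
  rw [L0_val (Nat.Coprime.prod_left h)]
  push_cast
  exact prod_congr rfl fun i hi => (L0_val (h i hi)).symm

end Pool.Agent.Lib.TTC
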