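import Mathlib

/-!
# T10: pairs of colourings which are functions of each other, and the move

`T10_card`: `c' = ψ ∘ c`: at most `(k+1)^(k+1)` maps `ψ` and `(k+1)^{|E|}` colourings `c`.
`T10_move`: if `c'` is not a function of `c` then there are `e₁, e₂` with `c e₁ = c e₂`, `c' e₁ < c' e₂`.
(If `c e₁ = c e₂ → c' e₁ = c' e₂` for all `e₁, e₂` then `ψ` exists: `ψ x = c' e` for some `e` with `c e = x`, arbitrary if there is none.)
-/

set_option autoImplicit false

open Finset

namespace Pool.Agent.Lib.TTC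

theorem T10_card (k : ℕ) {E : Type*} [Fintype E] [DecidableEq E] :
    open Classical in ((univ : Finset ((E → Fin (k + 1)) × (E → Fin (k + 1)))).filter
      fun q => ∃ ψ : Fin (k + 1) → Fin (k + 1), q.2 = ψ ∘ q.1).card ≤ (k + 1) ^ (k + 1) * (k + 1) ^ Fintype.card E := by
  classical
  have h1 : ((univ : Finset ((E → Fin (k + 1)) × (E → Fin (k + 1)))).filter
      fun q => ∃ ψ : Fin (k + 1) → Fin (k + 1), q.2 = ψ ∘ q.1) ⊆
      (univ : Finset ((Fin (k + 1) → Fin (k + 1)) × (E → Fin (k + 1)))).image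
        (fun r => (r.2, r.1 ∘ r.2)) := by
    intro q hq
    rw [mem_filter] at hq
    obtain ⟨ψ, hψ⟩ := hq.2
    rw [mem_image]
    exact ⟨(ψ, q.1), mem_univ _, Prod.ext rfl hψ.symm⟩
  refine (card_le_card h1).trans (card_image_le.trans ?_)
  rw [card_univ, Fintype.card_prod, Fintype.card_fun, Fintype.card_fun, Fintype.card_fin]

theorem T10_move (k : ℕ) {E : Type*} (c c' : E → Fin (k + 1)) (h : ¬ ∃ ψ : Fin (k + 1) → Fin (k + 1), c' = ψ ∘ c) :
    ∃ e₁ e₂, c e₁ = c e₂ ∧ c' e₁ < c' e₂ := by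
  classical
  by_contra hc
  push Not at hc
  apply h
  refine ⟨fun x => if hx : ∃ e, c e = x then c' hx.choose else 0, ?_⟩
  funext e
  have hx : ∃ e', c e' = c e := ⟨e, rfl⟩
  show c' e = if hx : ∃ e', c e' = c e then c' hx.choose else 0
  rw [dif_pos hx]
  exact le_antisymm (hc _ _ hx.choose_spec) (hc _ _ hx.choose_spec.symm)

end Pool.Agent.Lib.TTC
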