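import Pool.Agent.Lib.MP_092512_nt.TT.C.Loc

/-!
# U13: the dependence on `α_0` and on the last `α` of a sum

`q : ℕ → Rˣ` with `q 0 = 1`; `al` is replaced by `Function.update al 0 u`.
* `U13_Sg`: `Sg m (update al 0 u) be q = s - 1/u` with `s = 1/be 0 + ∑_{1 ≤ j < m} q j et j` (`m ≥ 1`).
* `U13_Mi`: `Mi (update al 0 u) be q i = t + 1/u` with `t` independent of `u` (`i = 0`: `t = 0`; `i ≥ 1`: the term `j = 0` of the sum is `1/be 0 - 1/u`).
* `U13_one`: at most one `u` with `Sg = 0`; `U13_k0`: at most one `u` with `Mi i = k₀ Sg` if `1 + k₀` is a unit.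
* `U13_aff`: let `w = al_k₂` be a variable unit and `q j` (`j < k₂`) independent of `w`, `q k₂ = w r`. Then
  `∑_{k₁ < j ≤ k₂} q j et j = w (r/be k₂) + (∑_{k₁<j<k₂} q j et j - r)` (`r`, `be k₂` units).
-/

set_option autoImplicit false

open Finset

open Pool.Agent.Lib.TTC.Loc

namespace Pool.Agent.Lib.TTC

theorem U13_Sg {R : Type*} [CommRing R] {m : ℕ} (hm : 1 ≤ m) (al be q : ℕ → Rˣ) (hq : q 0 = 1) (u : Rˣ) :
    Sg m (Function.update al 0 u) be q = ((((be 0)⁻¹ : Rˣ) : R) + ∑ j ∈ Ico 1 m, (q j : R) * et al be j) - ((u⁻¹ : Rˣ) : R) := by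
  unfold Sg
  rw [range_eq_Ico, sum_eq_sum_Ico_succ_bot (by omega : 0 < m)]
  have h1 : ∑ j ∈ Ico (0 + 1) m, (q j : R) * et (Function.update al 0 u) be j = ∑ j ∈ Ico 1 m, (q j : R) * et al be j := by
    refine sum_congr rfl fun j hj => ?_
    have hj1 : j ≠ 0 := by
      have := (mem_Ico.1 hj).1
      omega
    unfold et
    rw [Function.update_of_ne hj1]
  rw [h1, hq]
  unfold et
  rw [Function.update_self, Units.val_one]
  ring

theorem U13_Mi {R : Type*} [CommRing R] (al be q : ℕ → Rˣ) (hq : q 0 = 1) (i : ℕ) :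
    ∃ t : R, ∀ u : Rˣ, Mi (Function.update al 0 u) be q i = t + ((u⁻¹ : Rˣ) : R) := by
  rcases Nat.eq_zero_or_pos i with h0 | h0
  · subst h0
    refine ⟨0, fun u => ?_⟩
    unfold Mi
    rw [hq, Function.update_self, sum_range_zero, Units.val_one]
    ring
  · refine ⟨(q i : R) * (((al i)⁻¹ : Rˣ) : R) - ((((be 0)⁻¹ : Rˣ) : R) + ∑ j ∈ Ico 1 i, (q j : R) * et al be j), fun u => ?_⟩
    have h1 := U13_Sg (m := i) h0 al be q hq u
    unfold Sg at h1
    unfold Mi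
    rw [h1, Function.update_of_ne h0.ne']
    ring

theorem U13_one {R : Type*} [CommRing R] {m : ℕ} (hm : 1 ≤ m) (al be q : ℕ → Rˣ) (hq : q 0 = 1) {u u' : Rˣ}
    (h : Sg m (Function.update al 0 u) be q = 0) (h' : Sg m (Function.update al 0 u') be q = 0) : u = u' := by
  rw [U13_Sg hm al be q hq] at h h'
  have h1 : ((u⁻¹ : Rˣ) : R) = ((u'⁻¹ : Rˣ) : R) := by linear_combination h' - h
  exact inv_injective (Units.ext h1)

theorem U13_aff {R : Type*} [CommRing R] {k₁ k₂ : ℕ} (h12 : k₁ < k₂) (al be q : ℕ → Rˣ) (r w : Rˣ) (hw : al k₂ = w) (hr : q k₂ = w * r) :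
    ∑ j ∈ Ioc k₁ k₂, (q j : R) * et al be j =
      (w : R) * ((r * (be k₂)⁻¹ : Rˣ) : R) + (∑ j ∈ Ioo k₁ k₂, (q j : R) * et al be j - (r : R)) := by
  rw [← Ioo_insert_right h12, sum_insert right_notMem_Ioo, hr]
  unfold et
  rw [hw]
  have h1 : (w : R) * ((w⁻¹ : Rˣ) : R) = 1 := Units.mul_inv w
  push_cast
  linear_combination (-(r : R)) * h1

end Pool.Agent.Lib.TTC
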