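import Pool.Agent.Lib.MP_092512_nt.TT.C.U10
import Pool.Agent.Lib.MP_092512_nt.TT.C.U13
import Pool.Agent.Lib.MP_092512_nt.TT.C.T10
import Pool.Agent.Lib.MP_092512_nt.TT.C.LocK

/-!
# U12: coinciding roots modulo a prime (8.3), forms

`c'` is not a function of `c`, `c'` uses all colours `< k`; `p` prime, `H = (ZMod p)ˣ`, `h ≠ 0`, `f = (i, ..)`, `f' = (j, ..)` nondegenerate forms, `i, j ≤ k`. Number of `(al, s) ∈ H^(k+1) × H^E` with
`M_f(c) Sg(c') = M_f'(c') Sg(c)`: at most `4 (p-1)^(k + |E|)` (`U12`). Two different forms of ONE colouring (`U12_one`): `M_f = M_f'` for at most `2 (p-1)^(k+|E|)`.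

Proof. `T10_move`: `f₁, f₂`, `k₁ = c' f₁ < k₂ = c' f₂`. Put `P₂ = ∑_{k₁ < l ≤ k₂} p'_l et l` and `G` = the part of `M_f'(c')` which is multiplied by `g` under the move:
`G = [k₁ < j ≤ k₂] p'_j Kk f' - h ∑_{k₁ < l ≤ k₂, l < j} p'_l et l`. For `s · mv g` the difference is `a₀ + g a₁`, `a₁ = M_f(c) P₂ - Sg(c) G`. It is enough that `a₁ = 0` for at most
`3 (p-1)^(k+|E|)` pairs `(al, s)`: as a function of `al 0 = u`: `Sg(c) = s₀ - 1/u`, `M_f(c) = t₀ + τ/u`, `τ = h` or (`i = 0`, `γ = α`) `τ = h - w`, `τ ≠ 0`; `P₂` and `G` do not contain `al 0`.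
* `j > k₂`, `τ = h`: `G = -h P₂`, `a₁ = (M_f(c) + h Sg(c)) P₂`. `P₂ = 0` for at most one `al k₂`, `M_f + h Sg = p_i Bk f + h ∑_{i<l≤k} p_l et l` is zero for at most one `al k`.
* otherwise let `Hh = τ P₂ + G`; if `Hh ≠ 0` then `a₁ = 0` for at most one `al 0`. `j ≤ k₁`: `Hh = τ P₂`; `j > k₂`: `Hh = (τ - h) P₂`, `h - τ = w ≠ 0`. `k₁ < j ≤ k₂`: the coefficient of `p'_{k₂}` in `Hh` is
  `C = τ et_{k₂} + [j = k₂] Kk f' = A + B/α_{k₂}`, not `A = B = 0`: zero for at most one `al k₂`; if `C ≠ 0` then `Hh = 0` for at most one `s e₀`, `e₀` of colour `k₂ - 1`.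
-/

set_option autoImplicit false

open Finset

open Pool.Agent.Lib.TTC.Loc

namespace Pool.Agent.Lib.TTC

section ring

variable {R : Type*} [CommRing R]

/-- the part `k₁ < h ≤ k₂` of the sum -/
private def U12_P (k₁ k₂ : ℕ) (al be q : ℕ → Rˣ) : R := ∑ h ∈ Ioc k₁ k₂, (q h : R) * et al be h

/-- the part of `Mk` with `k₁ < l ≤ k₂` -/
private def U12_G (k₁ k₂ : ℕ) (h : R) (f : ℕ × Bool × ℤ) (al be q : ℕ → Rˣ) : R :=
  (if k₁ < f.1 ∧ f.1 ≤ k₂ then (q f.1 : R) * Kk al be h f else 0) -
    h * ∑ l ∈ (range f.1).filter (fun l => k₁ < l ∧ l ≤ k₂), (q l : R) * et al be l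

private theorem U12_Sg {k k₁ k₂ : ℕ} (hk : k₂ ≤ k) (al be q qg : ℕ → Rˣ) (g : Rˣ)
    (h : ∀ j ≤ k, qg j = (if k₁ < j ∧ j ≤ k₂ then g else 1) * q j) :
    Sg (k + 1) al be qg = Sg (k + 1) al be q + ((g : R) - 1) * U12_P k₁ k₂ al be q := by
  unfold Sg U12_P
  have h1 : Ioc k₁ k₂ = (range (k + 1)).filter (fun h => k₁ < h ∧ h ≤ k₂) := by
    ext x
    rw [mem_Ioc, mem_filter, mem_range]
    omega
  rw [h1, sum_filter, mul_sum, ← sum_add_distrib]
  refine sum_congr rfl fun j hj => ?_
  rw [mem_range] at hj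
  rw [h j (by omega)]
  split_ifs
  · rw [Units.val_mul]
    ring
  · rw [one_mul]
    ring

private theorem U12_Mk {k k₁ k₂ : ℕ} {f : ℕ × Bool × ℤ} (hj : f.1 ≤ k) (hh : R) (al be q qg : ℕ → Rˣ) (g : Rˣ)
    (h : ∀ j ≤ k, qg j = (if k₁ < j ∧ j ≤ k₂ then g else 1) * q j) :
    Mk al be qg hh f = Mk al be q hh f + ((g : R) - 1) * U12_G k₁ k₂ hh f al be q := by
  have h1 : ∑ l ∈ range f.1, (qg l : R) * et al be l = ∑ l ∈ range f.1, (q l : R) * et al be l +
      ((g : R) - 1) * ∑ l ∈ (range f.1).filter (fun l => k₁ < l ∧ l ≤ k₂), (q l : R) * et al be l := by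
    rw [sum_filter, mul_sum, ← sum_add_distrib]
    refine sum_congr rfl fun l hl => ?_
    rw [mem_range] at hl
    rw [h l (by omega)]
    split_ifs
    · rw [Units.val_mul]
      ring
    · rw [one_mul]
      ring
  rw [Mk_eq, Mk_eq]
  unfold U12_G
  rw [h1, h f.1 hj]
  split_ifs
  · rw [Units.val_mul]
    ring
  · rw [one_mul]
    ring

end ring

section tup

variable {H : Type*} [CommGroup H]

private theorem U12_ex {k : ℕ} (al : Fin (k + 1) → H) (m : Fin (k + 1)) (w : H) :
    ex (k + 1) (Function.update al m w) = Function.update (ex (k + 1) al) m w := by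
  funext l
  by_cases hl : l < k + 1
  · rw [ex_lt _ hl]
    by_cases h : l = m
    · subst h
      have e : (⟨(m : ℕ), hl⟩ : Fin (k + 1)) = m := rfl
      rw [e, Function.update_self, Function.update_self]
    · rw [Function.update_of_ne h, ex_lt _ hl, Function.update_of_ne]
      intro h'
      exact h (congrArg Fin.val h')
  · have h : l ≠ m := by
      have := m.2
      omega
    rw [Function.update_of_ne h, ex_ge _ (by omega), ex_ge _ (by omega)]

private theorem U12_pr {k : ℕ} (al : Fin (k + 1) → H) (x : Fin k → H) (m : Fin (k + 1)) (w : H)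
    {h : ℕ} (hk : h ≤ k) (hm : h < m) :
    pr k (xa (Function.update al m w) x) h = pr k (xa al x) h := by
  rw [U10_pr _ _ hk, U10_pr _ _ hk]
  congr 1
  refine prod_congr rfl fun l hl => ?_
  rw [mem_range] at hl
  rw [U12_ex, Function.update_of_ne]
  omega

private theorem U12_pr0 {k : ℕ} (al : Fin (k + 1) → H) (x : Fin k → H) (w : H) :
    xa (Function.update al 0 w) x = xa al x := by
  funext l
  unfold xa
  rw [Function.update_of_ne (Fin.succ_ne_zero l)]

end tup

section ring2

variable {R : Type*} [CommRing R]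

private theorem U12_et {k : ℕ} (al : Fin (k + 1) → Rˣ) (be : ℕ → Rˣ) (m : Fin (k + 1)) (w : Rˣ)
    {h : ℕ} (hm : h ≠ m) :
    (et (ex (k + 1) (Function.update al m w)) be h : R) = et (ex (k + 1) al) be h := by
  unfold et
  rw [U12_ex, Function.update_of_ne hm]

private theorem U12_aff {k : ℕ} (al : Fin (k + 1) → Rˣ) (be : ℕ → Rˣ) (x : Fin k → Rˣ) {k₁ : ℕ}
    (m : Fin (k + 1)) (h12 : k₁ < m) : ∃ (a : Rˣ) (b : R), ∀ w : Rˣ,
    U12_P k₁ m (ex (k + 1) (Function.update al m w)) be
      (pr k (xa (Function.update al m w) x)) = (w : R) * a + b := by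
  obtain ⟨n, hn⟩ : ∃ n : ℕ, (m : ℕ) = n + 1 := ⟨m - 1, by omega⟩
  have hmk : (m : ℕ) ≤ k := by
    have := m.2
    omega
  obtain ⟨r, hr⟩ : ∃ r : Rˣ, r = (∏ l ∈ range n, ex (k + 1) al (l + 1)) * pr k x (n + 1) := ⟨_, rfl⟩
  refine ⟨r * (be m)⁻¹, ∑ h ∈ Ioo k₁ (m : ℕ), ((pr k (xa al x) h : Rˣ) : R) *
    et (ex (k + 1) al) be h - r, fun w => ?_⟩
  have h1 : ex (k + 1) (Function.update al m w) m = w := by
    rw [U12_ex, Function.update_self]
  have h2 : pr k (xa (Function.update al m w) x) m = w * r := by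
    rw [U10_pr _ _ hmk, hn, prod_range_succ]
    rw [← hn, h1, hr]
    have h3 : ∏ l ∈ range n, ex (k + 1) (Function.update al m w) (l + 1) =
        ∏ l ∈ range n, ex (k + 1) al (l + 1) := by
      refine prod_congr rfl fun l hl => ?_
      rw [mem_range] at hl
      rw [U12_ex, Function.update_of_ne]
      omega
    rw [h3, ← hn]
    rw [mul_comm _ w, mul_assoc]
  have h3 := U13_aff h12 (ex (k + 1) (Function.update al m w)) be
    (pr k (xa (Function.update al m w) x)) r w h1 h2
  unfold U12_P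
  rw [h3]
  congr 1
  congr 1
  refine sum_congr rfl fun h hh => ?_
  rw [mem_Ioo] at hh
  rw [U12_pr al x m w (by omega) hh.2, U12_et al be m w (by omega)]

end ring2

/-- at most one value of one coordinate -/
private theorem U12_coord {H E : Type*} [Fintype H] [Fintype E] [DecidableEq E] {k : ℕ}
    (m : Fin (k + 1)) (Q : (Fin (k + 1) → H) × (E → H) → Prop) [DecidablePred Q]
    (hQ : ∀ al s u u', Q (Function.update al m u, s) → Q (Function.update al m u', s) → u = u') :
    ((univ : Finset ((Fin (k + 1) → H) × (E → H))).filter Q).card ≤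
      Fintype.card H ^ (k + Fintype.card E) := by
  classical
  have h1 : ((univ : Finset ((Fin (k + 1) → H) × (E → H))).filter Q).card ≤
      (univ : Finset ((Fin k → H) × (E → H))).card := by
    refine card_le_card_of_injOn (fun w => (Fin.removeNth m w.1, w.2)) (fun _ _ => mem_univ _) ?_
    rintro ⟨al, s⟩ h ⟨al', s'⟩ h' he
    simp only [Prod.mk.injEq] at he
    obtain ⟨e1, e2⟩ := he
    subst e2
    rw [Finset.mem_coe, mem_filter] at h h'
    have k1 : al = Function.update al m (al m) := (Function.update_eq_self _ _).symm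
    have k2 : al' = Function.update al m (al' m) := by
      rw [← Fin.insertNth_removeNth, e1, Fin.insertNth_self_removeNth]
    have k3 : al m = al' m := by
      refine hQ al s (al m) (al' m) ?_ ?_
      · rw [← k1]
        exact h.2
      · rw [← k2]
        exact h'.2
    rw [k2, ← k3, ← k1]
  refine h1.trans (le_of_eq ?_)
  rw [card_univ, Fintype.card_prod, Fintype.card_fun, Fintype.card_fun, Fintype.card_fin, pow_add]

/-- the dependence of a partial product on one element `s e` -/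
private theorem U12_prs {k : ℕ} {E H : Type*} [Fintype E] [DecidableEq E] [CommGroup H] (c : E → Fin (k + 1)) (y : Fin k → H) (s : E → H) (e : E) (u : H)
    {j : ℕ} (hj : j ≤ k) :
    pr k (sl c y (Function.update s e u)) j = (if (c e).val < j then u * (s e)⁻¹ else 1) * pr k (sl c y s) j := by
  have h1 : ∀ l : Fin k, sl c y (Function.update s e u) l = sl c y s l * (if c e = l.castSucc then u * (s e)⁻¹ else 1) := by
    intro l
    unfold sl
    rw [mul_assoc]
    congr 1
    by_cases hc : c e = l.castSucc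
    · rw [if_pos hc, ← mul_prod_erase univ _ (mem_univ e), ← mul_prod_erase univ (fun e => if c e = l.castSucc then s e else 1) (mem_univ e),
        if_pos hc, if_pos hc, Function.update_self]
      have h2 : ∏ x ∈ univ.erase e, (if c x = l.castSucc then Function.update s e u x else 1) =
          ∏ x ∈ univ.erase e, (if c x = l.castSucc then s x else 1) := by
        refine prod_congr rfl fun x hx => ?_
        rw [Function.update_of_ne (ne_of_mem_erase hx)]
      rw [h2]
      generalize ∏ x ∈ univ.erase e, (if c x = l.castSucc then s x else 1) = Q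
      rw [mul_comm u (s e)⁻¹, ← mul_assoc, mul_right_comm (s e) Q, mul_inv_cancel, one_mul, mul_comm]
    · rw [if_neg hc, mul_one]
      refine prod_congr rfl fun x _ => ?_
      by_cases hx : x = e
      · rw [hx, if_neg hc, if_neg hc]
      · rw [Function.update_of_ne hx]
  induction j with
  | zero => simp [pr_zero]
  | succ j ih =>
    have hjk : j < k := hj
    rw [pr_succ, pr_succ, ih hjk.le, ex_lt _ hjk, ex_lt _ hjk, h1]
    have h2 : (if (c e).val < j + 1 then u * (s e)⁻¹ else 1) =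
        (if (c e).val < j then u * (s e)⁻¹ else 1) * (if c e = (⟨j, hjk⟩ : Fin k).castSucc then u * (s e)⁻¹ else 1) := by
      have h3 : (c e = (⟨j, hjk⟩ : Fin k).castSucc) ↔ (c e).val = j := by
        rw [Fin.ext_iff]
        rfl
      by_cases a1 : (c e).val < j
      · rw [if_pos a1, if_pos (by omega), if_neg (by rw [h3]; omega), mul_one]
      · rw [if_neg a1, one_mul]
        by_cases a2 : (c e).val = j
        · rw [if_pos (by omega), if_pos (h3.2 a2)]
        · rw [if_neg (by omega), if_neg (fun hh => a2 (h3.1 hh))]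
    rw [h2]
    simp only [mul_comm, mul_left_comm, mul_assoc]

/-- at most one value of one element `s e` -/
private theorem U12_coordS {H E : Type*} [Fintype H] [Fintype E] [DecidableEq E] {k : ℕ}
    (e : E) (Q : (Fin (k + 1) → H) × (E → H) → Prop) [DecidablePred Q]
    (hQ : ∀ al s u u', Q (al, Function.update s e u) → Q (al, Function.update s e u') → u = u') :
    ((univ : Finset ((Fin (k + 1) → H) × (E → H))).filter Q).card ≤
      Fintype.card H ^ (k + Fintype.card E) := by
  classical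
  have h1 : ((univ : Finset ((Fin (k + 1) → H) × (E → H))).filter Q).card ≤
      (univ : Finset ((Fin (k + 1) → H) × ({x : E // x ≠ e} → H))).card := by
    refine card_le_card_of_injOn (fun w => (w.1, fun x => w.2 x.1)) (fun _ _ => mem_univ _) ?_
    rintro ⟨al, s⟩ h ⟨al', s'⟩ h' he
    simp only [Prod.mk.injEq] at he
    obtain ⟨e1, e2⟩ := he
    subst e1
    rw [Finset.mem_coe, mem_filter] at h h'
    have k1 : s = Function.update s e (s e) := (Function.update_eq_self _ _).symm
    have k2 : s' = Function.update s e (s' e) := by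
      funext x
      by_cases hx : x = e
      · rw [hx, Function.update_self]
      · rw [Function.update_of_ne hx]
        exact (congrFun e2 ⟨x, hx⟩).symm
    have k3 : s e = s' e := by
      refine hQ al s (s e) (s' e) ?_ ?_
      · rw [← k1]
        exact h.2
      · rw [← k2]
        exact h'.2
    rw [k2, ← k3, ← k1]
  refine h1.trans (le_of_eq ?_)
  have h2 : Fintype.card {x : E // x ≠ e} = Fintype.card E - 1 := by
    rw [Fintype.card_subtype_compl, Fintype.card_subtype_eq]
  have h3 : 0 < Fintype.card E := Fintype.card_pos_iff.2 ⟨e⟩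
  rw [card_univ, Fintype.card_prod, Fintype.card_fun, Fintype.card_fun, Fintype.card_fin, h2, ← pow_add]
  congr 1
  omega

section count

variable {p k : ℕ} [Fact p.Prime] {E : Type*} [Fintype E] [DecidableEq E]

private theorem U12_uniq {a : (ZMod p)ˣ} {b : ZMod p} {u u' : (ZMod p)ˣ}
    (h : (u : ZMod p) * a + b = 0) (h' : (u' : ZMod p) * a + b = 0) : u = u' := by
  have h1 : (u : ZMod p) * a = (u' : ZMod p) * a := by
    linear_combination h - h'
  exact Units.ext (a.mul_left_inj.mp h1)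

private theorem U12_ne (a b : (ZMod p)ˣ) : (a : ZMod p) * ((b⁻¹ : (ZMod p)ˣ) : ZMod p) ≠ 0 :=
  mul_ne_zero a.ne_zero (b⁻¹).ne_zero

private theorem U12_uq {A B : ZMod p} (hAB : A ≠ 0 ∨ B ≠ 0) {u u' : (ZMod p)ˣ}
    (h : A + B * ((u⁻¹ : (ZMod p)ˣ) : ZMod p) = 0) (h' : A + B * ((u'⁻¹ : (ZMod p)ˣ) : ZMod p) = 0) : u = u' := by
  by_cases hB : B = 0
  · rw [hB, zero_mul, add_zero] at h
    rcases hAB with h1 | h1
    · exact absurd h h1
    · exact absurd hB h1
  · have h1 : B * (((u⁻¹ : (ZMod p)ˣ) : ZMod p) - ((u'⁻¹ : (ZMod p)ˣ) : ZMod p)) = 0 := by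
      linear_combination h - h'
    exact inv_injective (Units.ext (sub_eq_zero.1 ((mul_eq_zero.1 h1).resolve_left hB)))

private theorem U12_pr_s (c : E → Fin (k + 1)) (y : Fin k → (ZMod p)ˣ) (al : Fin (k + 1) → (ZMod p)ˣ) (s : E → (ZMod p)ˣ) (e : E) (u : (ZMod p)ˣ)
    {j : ℕ} (hj : j ≤ k) : pr k (xa al (sl c y (Function.update s e u))) j =
      (if (c e).val < j then u * (s e)⁻¹ else 1) * pr k (xa al (sl c y s)) j := by
  rw [U10_pr _ _ hj, U10_pr _ _ hj, U12_prs c y s e u hj]
  exact mul_left_comm _ _ _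

/-- the coefficient of `g` vanishes rarely -/
private theorem U12_a1 (c c' : E → Fin (k + 1)) (hc' : ∀ j : Fin k, ∃ e, c' e = j.castSucc) (y y' : Fin k → (ZMod p)ˣ) (be : ℕ → (ZMod p)ˣ)
    {h : ZMod p} (hh : h ≠ 0) {f f' : ℕ × Bool × ℤ} (hi : f.1 ≤ k) (hj : f'.1 ≤ k) (hf : FOK h f) (hf' : FOK h f') {m₁ m₂ : Fin (k + 1)} (hm : m₁ < m₂) :
    ((univ : Finset ((Fin (k + 1) → (ZMod p)ˣ) × (E → (ZMod p)ˣ))).filter fun w =>
      Mk (ex (k + 1) w.1) be (pr k (xa w.1 (sl c y w.2))) h f *
        U12_P m₁ m₂ (ex (k + 1) w.1) be (pr k (xa w.1 (sl c' y' w.2))) -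
      Sg (k + 1) (ex (k + 1) w.1) be (pr k (xa w.1 (sl c y w.2))) *
        U12_G m₁ m₂ h f' (ex (k + 1) w.1) be (pr k (xa w.1 (sl c' y' w.2))) = 0).card ≤
      3 * (p - 1) ^ (k + Fintype.card E) := by
  classical
  have hH : Fintype.card (ZMod p)ˣ = p - 1 := ZMod.card_units p
  have hm' : (m₁ : ℕ) < m₂ := hm
  have hmk : (m₂ : ℕ) ≤ k := by
    have := m₂.2
    omega
  -- the coordinate `m₂` and the sum `P`
  have cP : ∀ (al : Fin (k + 1) → (ZMod p)ˣ) (x : Fin k → (ZMod p)ˣ) (u u' : (ZMod p)ˣ),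
      U12_P m₁ m₂ (ex (k + 1) (Function.update al m₂ u)) be
        (pr k (xa (Function.update al m₂ u) x)) = 0 →
      U12_P m₁ m₂ (ex (k + 1) (Function.update al m₂ u')) be
        (pr k (xa (Function.update al m₂ u') x)) = 0 → u = u' := by
    intro al x u u' h h'
    obtain ⟨a, b, hab⟩ := U12_aff al be x m₂ hm'
    rw [hab] at h h'
    exact U12_uniq h h'
  have hcardP : ((univ : Finset ((Fin (k + 1) → (ZMod p)ˣ) × (E → (ZMod p)ˣ))).filter fun w =>
      U12_P m₁ m₂ (ex (k + 1) w.1) be (pr k (xa w.1 (sl c' y' w.2))) = 0).card ≤ (p - 1) ^ (k + Fintype.card E) := by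
    rw [← hH]
    exact U12_coord m₂ _ (fun al s u u' h h' => cP al _ u u' h h')
  obtain ⟨τ, hτ⟩ : ∃ τ : ZMod p, τ = if f.1 = 0 ∧ f.2.1 = true then h - (f.2.2 : ZMod p) else h := ⟨_, rfl⟩
  have hw : f.2.1 = true → (f.2.2 : ZMod p) ≠ 0 ∧ h - (f.2.2 : ZMod p) ≠ 0 := by
    intro h1
    rcases hf with h2 | h2
    · rw [h1] at h2
      exact absurd h2.1 (by decide)
    · exact h2
  have hτ0 : τ ≠ 0 := by
    rw [hτ]
    split_ifs with h1
    · exact (hw h1.2).2
    · exact hh
  by_cases hcase : (m₂ : ℕ) < f'.1 ∧ τ = h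
  · -- `j > k₂`, `τ = h`
    obtain ⟨hjm, hτh⟩ := hcase
    have hf0 : ¬ (f.1 = 0 ∧ f.2.1 = true) := by
      intro h1
      rw [hτ, if_pos h1] at hτh
      exact (hw h1.2).1 (by linear_combination - hτh)
    have hG : ∀ al q : ℕ → (ZMod p)ˣ, U12_G m₁ m₂ h f' al be q = -(h * U12_P m₁ m₂ al be q) := by
      intro al q
      unfold U12_G U12_P
      rw [if_neg (by omega), zero_sub]
      congr 3
      ext x
      rw [mem_filter, mem_range, mem_Ioc]
      omega
    -- `N_f` as a function of `al k`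
    have cN : ∀ (al : Fin (k + 1) → (ZMod p)ˣ) (x : Fin k → (ZMod p)ˣ) (u u' : (ZMod p)ˣ),
        ((pr k (xa (Function.update al (Fin.last k) u) x) f.1 : (ZMod p)ˣ) : ZMod p) * Bk (ex (k + 1) (Function.update al (Fin.last k) u)) be h f +
          h * U12_P f.1 (Fin.last k : Fin (k + 1)) (ex (k + 1) (Function.update al (Fin.last k) u)) be
            (pr k (xa (Function.update al (Fin.last k) u) x)) = 0 →
        ((pr k (xa (Function.update al (Fin.last k) u') x) f.1 : (ZMod p)ˣ) : ZMod p) * Bk (ex (k + 1) (Function.update al (Fin.last k) u')) be h f +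
          h * U12_P f.1 (Fin.last k : Fin (k + 1)) (ex (k + 1) (Function.update al (Fin.last k) u')) be
            (pr k (xa (Function.update al (Fin.last k) u') x)) = 0 → u = u' := by
      intro al x u u' h1 h1'
      rcases Nat.lt_or_ge f.1 k with hlt | hge
      · obtain ⟨a, b, hab⟩ := U12_aff al be x (Fin.last k) (show f.1 < ((Fin.last k : Fin (k + 1)) : ℕ) by rw [Fin.val_last]; exact hlt)
        have hB : ∀ v : (ZMod p)ˣ, Bk (ex (k + 1) (Function.update al (Fin.last k) v)) be h f = Bk (ex (k + 1) al) be h f := by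
          intro v
          unfold Bk
          rw [U12_ex, Function.update_of_ne (by rw [Fin.val_last]; omega)]
        rw [hab, hB, U12_pr al x (Fin.last k) _ hi (by rw [Fin.val_last]; exact hlt)] at h1 h1'
        have h2 : (h * (a : ZMod p)) * ((u : ZMod p) - u') = 0 := by
          linear_combination h1 - h1'
        have h3 := (mul_eq_zero.1 h2).resolve_left (mul_ne_zero hh a.ne_zero)
        exact Units.ext (sub_eq_zero.1 h3)
      · have hik : f.1 = k := by omega
        have hP0 : ∀ al' q : ℕ → (ZMod p)ˣ, U12_P f.1 (Fin.last k : Fin (k + 1)) al' be q = 0 := by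
          intro al' q
          unfold U12_P
          rw [Ioc_eq_empty (by rw [Fin.val_last]; omega), sum_empty]
        rw [hP0, mul_zero, add_zero] at h1 h1'
        have h2 := (mul_eq_zero.1 h1).resolve_left (Units.ne_zero _)
        have h2' := (mul_eq_zero.1 h1').resolve_left (Units.ne_zero _)
        unfold Bk at h2 h2'
        by_cases hb : f.2.1 = true
        · have hex : ∀ v : (ZMod p)ˣ, ex (k + 1) (Function.update al (Fin.last k) v) f.1 = v := by
            intro v
            rw [U12_ex, show f.1 = ((Fin.last k : Fin (k + 1)) : ℕ) by rw [Fin.val_last]; exact hik, Function.update_self]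
          rw [if_pos hb, hex] at h2 h2'
          refine U12_uq (A := h * (((be f.1)⁻¹ : (ZMod p)ˣ) : ZMod p)) (B := -(f.2.2 : ZMod p)) (Or.inl (mul_ne_zero hh (Units.ne_zero _))) ?_ ?_
          · linear_combination h2
          · linear_combination h2'
        · rw [if_neg hb] at h2
          have h3 : (h - (f.2.2 : ZMod p)) * (((be f.1)⁻¹ : (ZMod p)ˣ) : ZMod p) = 0 := by
            linear_combination h2
          have h4 := (mul_eq_zero.1 h3).resolve_right (Units.ne_zero _)
          rcases hf with h5 | h5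
          · rw [h5.2, sub_zero] at h4
            exact absurd h4 hh
          · exact absurd h4 h5.2
    have hsub : ((univ : Finset ((Fin (k + 1) → (ZMod p)ˣ) × (E → (ZMod p)ˣ))).filter fun w =>
      Mk (ex (k + 1) w.1) be (pr k (xa w.1 (sl c y w.2))) h f *
        U12_P m₁ m₂ (ex (k + 1) w.1) be (pr k (xa w.1 (sl c' y' w.2))) -
      Sg (k + 1) (ex (k + 1) w.1) be (pr k (xa w.1 (sl c y w.2))) *
        U12_G m₁ m₂ h f' (ex (k + 1) w.1) be (pr k (xa w.1 (sl c' y' w.2))) = 0) ⊆
        ((univ : Finset ((Fin (k + 1) → (ZMod p)ˣ) × (E → (ZMod p)ˣ))).filter fun w =>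
          U12_P m₁ m₂ (ex (k + 1) w.1) be (pr k (xa w.1 (sl c' y' w.2))) = 0) ∪
        ((univ : Finset ((Fin (k + 1) → (ZMod p)ˣ) × (E → (ZMod p)ˣ))).filter fun w =>
          ((pr k (xa w.1 (sl c y w.2)) f.1 : (ZMod p)ˣ) : ZMod p) * Bk (ex (k + 1) w.1) be h f +
          h * U12_P f.1 (Fin.last k : Fin (k + 1)) (ex (k + 1) w.1) be
            (pr k (xa w.1 (sl c y w.2))) = 0) := by
      rintro ⟨al, s⟩ hw
      rw [mem_filter] at hw
      rw [mem_union, mem_filter, mem_filter]
      have h1 := hw.2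
      rw [hG] at h1
      have h2 : Mk (ex (k + 1) al) be (pr k (xa al (sl c y s))) h f + h * Sg (k + 1) (ex (k + 1) al) be (pr k (xa al (sl c y s))) =
          ((pr k (xa al (sl c y s)) f.1 : (ZMod p)ˣ) : ZMod p) * Bk (ex (k + 1) al) be h f +
          h * U12_P f.1 (Fin.last k : Fin (k + 1)) (ex (k + 1) al) be (pr k (xa al (sl c y s))) := by
        have h3 : Sg (k + 1) (ex (k + 1) al) be (pr k (xa al (sl c y s))) =
            ∑ l ∈ range f.1, ((pr k (xa al (sl c y s)) l : (ZMod p)ˣ) : ZMod p) * et (ex (k + 1) al) be l +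
            (((pr k (xa al (sl c y s)) f.1 : (ZMod p)ˣ) : ZMod p) * et (ex (k + 1) al) be f.1 +
              ∑ l ∈ Ico (f.1 + 1) (k + 1), ((pr k (xa al (sl c y s)) l : (ZMod p)ˣ) : ZMod p) * et (ex (k + 1) al) be l) := by
          unfold Sg
          rw [← sum_eq_sum_Ico_succ_bot (show f.1 < k + 1 by omega) (fun l => ((pr k (xa al (sl c y s)) l : (ZMod p)ˣ) : ZMod p) * et (ex (k + 1) al) be l),
            sum_range_add_sum_Ico _ (show f.1 ≤ k + 1 by omega)]
        have h4 : Ico (f.1 + 1) (k + 1) = Ioc f.1 ((Fin.last k : Fin (k + 1)) : ℕ) := by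
          ext x
          rw [mem_Ico, mem_Ioc, Fin.val_last]
          omega
        rw [h3, h4, Mk_eq, Bk_eq]
        unfold U12_P
        ring
      have h4 : (((pr k (xa al (sl c y s)) f.1 : (ZMod p)ˣ) : ZMod p) * Bk (ex (k + 1) al) be h f +
          h * U12_P f.1 (Fin.last k : Fin (k + 1)) (ex (k + 1) al) be (pr k (xa al (sl c y s)))) *
          U12_P m₁ m₂ (ex (k + 1) al) be (pr k (xa al (sl c' y' s))) = 0 := by
        rw [← h2]
        linear_combination h1
      rcases mul_eq_zero.mp h4 with h5 | h5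
      · exact Or.inr ⟨mem_univ _, h5⟩
      · exact Or.inl ⟨mem_univ _, h5⟩
    refine (card_le_card hsub).trans ((card_union_le _ _).trans ?_)
    have h3 : ((univ : Finset ((Fin (k + 1) → (ZMod p)ˣ) × (E → (ZMod p)ˣ))).filter fun w =>
          ((pr k (xa w.1 (sl c y w.2)) f.1 : (ZMod p)ˣ) : ZMod p) * Bk (ex (k + 1) w.1) be h f +
          h * U12_P f.1 (Fin.last k : Fin (k + 1)) (ex (k + 1) w.1) be
            (pr k (xa w.1 (sl c y w.2))) = 0).card ≤ (p - 1) ^ (k + Fintype.card E) := by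
      rw [← hH]
      exact U12_coord (Fin.last k) _ (fun al s u u' h h' => cN al _ u u' h h')
    omega
  · -- the number of `(al, s)` with `τ P + G = 0`
    have hHh : ((univ : Finset ((Fin (k + 1) → (ZMod p)ˣ) × (E → (ZMod p)ˣ))).filter fun w =>
          τ * U12_P m₁ m₂ (ex (k + 1) w.1) be (pr k (xa w.1 (sl c' y' w.2))) +
          U12_G m₁ m₂ h f' (ex (k + 1) w.1) be (pr k (xa w.1 (sl c' y' w.2))) = 0).card ≤ 2 * (p - 1) ^ (k + Fintype.card E) := by
      have hscal : ∀ r : ZMod p, r ≠ 0 → (∀ al q : ℕ → (ZMod p)ˣ, τ * U12_P m₁ m₂ al be q + U12_G m₁ m₂ h f' al be q = r * U12_P m₁ m₂ al be q) →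
          ((univ : Finset ((Fin (k + 1) → (ZMod p)ˣ) × (E → (ZMod p)ˣ))).filter fun w =>
          τ * U12_P m₁ m₂ (ex (k + 1) w.1) be (pr k (xa w.1 (sl c' y' w.2))) +
          U12_G m₁ m₂ h f' (ex (k + 1) w.1) be (pr k (xa w.1 (sl c' y' w.2))) = 0).card ≤ 2 * (p - 1) ^ (k + Fintype.card E) := by
        intro r hr hrG
        refine le_trans ?_ (hcardP.trans (by omega))
        refine card_le_card fun w hw => ?_
        rw [mem_filter] at hw ⊢
        refine ⟨mem_univ _, ?_⟩
        have h1 := hw.2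
        rw [hrG] at h1
        exact (mul_eq_zero.1 h1).resolve_left hr
      rcases Nat.lt_or_ge (m₂ : ℕ) f'.1 with hjm | hjm
      · have hτh : τ ≠ h := fun h1 => hcase ⟨hjm, h1⟩
        refine hscal (τ - h) (sub_ne_zero.2 hτh) fun al q => ?_
        unfold U12_G U12_P
        rw [if_neg (by omega), zero_sub]
        have h1 : (range f'.1).filter (fun l => (m₁ : ℕ) < l ∧ l ≤ (m₂ : ℕ)) = Ioc (m₁ : ℕ) m₂ := by
          ext x
          rw [mem_filter, mem_range, mem_Ioc]
          omega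
        rw [h1]
        ring
      · rcases Nat.lt_or_ge (m₁ : ℕ) f'.1 with hj1 | hj1
        · -- `k₁ < j ≤ k₂`
          obtain ⟨C, hC⟩ : ∃ C : (ℕ → (ZMod p)ˣ) → ZMod p, ∀ al, C al = τ * et al be m₂ + (if f'.1 = m₂ then Kk al be h f' else 0) :=
            ⟨_, fun _ => rfl⟩
          -- the rest
          obtain ⟨Rr, hRr⟩ : ∃ Rr : (ℕ → (ZMod p)ˣ) → (ℕ → (ZMod p)ˣ) → ZMod p, ∀ al q, Rr al q =
              τ * ∑ l ∈ Ioo (m₁ : ℕ) m₂, (q l : ZMod p) * et al be l + (if f'.1 = m₂ then 0 else (q f'.1 : ZMod p) * Kk al be h f') -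
                h * ∑ l ∈ (range f'.1).filter (fun l => (m₁ : ℕ) < l ∧ l ≤ (m₂ : ℕ)), (q l : ZMod p) * et al be l := ⟨_, fun _ _ => rfl⟩
          have hdec : ∀ al q : ℕ → (ZMod p)ˣ, τ * U12_P m₁ m₂ al be q + U12_G m₁ m₂ h f' al be q =
              (q m₂ : ZMod p) * C al + Rr al q := by
            intro al q
            rw [hC, hRr]
            unfold U12_P U12_G
            rw [if_pos ⟨hj1, hjm⟩, ← Ioo_insert_right hm', sum_insert right_notMem_Ioo]
            split_ifs with h1
            · rw [h1]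
              ring
            · ring
          have hsub : ((univ : Finset ((Fin (k + 1) → (ZMod p)ˣ) × (E → (ZMod p)ˣ))).filter fun w =>
              τ * U12_P m₁ m₂ (ex (k + 1) w.1) be (pr k (xa w.1 (sl c' y' w.2))) +
              U12_G m₁ m₂ h f' (ex (k + 1) w.1) be (pr k (xa w.1 (sl c' y' w.2))) = 0) ⊆
              ((univ : Finset ((Fin (k + 1) → (ZMod p)ˣ) × (E → (ZMod p)ˣ))).filter fun w => C (ex (k + 1) w.1) = 0) ∪
              ((univ : Finset ((Fin (k + 1) → (ZMod p)ˣ) × (E → (ZMod p)ˣ))).filter fun w => C (ex (k + 1) w.1) ≠ 0 ∧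
                ((pr k (xa w.1 (sl c' y' w.2)) m₂ : (ZMod p)ˣ) : ZMod p) * C (ex (k + 1) w.1) +
                  Rr (ex (k + 1) w.1) (pr k (xa w.1 (sl c' y' w.2))) = 0) := by
            rintro ⟨al, s⟩ hw
            rw [mem_filter] at hw
            rw [mem_union, mem_filter, mem_filter]
            have h1 := hw.2
            rw [hdec] at h1
            by_cases h2 : C (ex (k + 1) al) = 0
            · exact Or.inl ⟨mem_univ _, h2⟩
            · exact Or.inr ⟨mem_univ _, h2, h1⟩
          refine (card_le_card hsub).trans ((card_union_le _ _).trans ?_)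
          rw [two_mul]
          refine Nat.add_le_add ?_ ?_
          · rw [← hH]
            refine U12_coord m₂ _ (fun al s u u' h1 h1' => ?_)
            simp only [hC] at h1 h1'
            have hex : ∀ v : (ZMod p)ˣ, ex (k + 1) (Function.update al m₂ v) m₂ = v := by
              intro v
              rw [U12_ex, Function.update_self]
            by_cases hjm2 : f'.1 = m₂
            · rw [if_pos hjm2] at h1 h1'
              unfold et Kk at h1 h1'
              rw [hjm2, hex] at h1 h1'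
              by_cases hb : f'.2.1 = true
              · rw [if_pos hb] at h1 h1'
                refine U12_uq (A := τ * (((be m₂)⁻¹ : (ZMod p)ˣ) : ZMod p)) (B := h - τ - (f'.2.2 : ZMod p))
                  (Or.inl (mul_ne_zero hτ0 (Units.ne_zero _))) ?_ ?_
                · linear_combination h1
                · linear_combination h1'
              · rw [if_neg hb] at h1 h1'
                refine U12_uq (A := (τ - (f'.2.2 : ZMod p)) * (((be m₂)⁻¹ : (ZMod p)ˣ) : ZMod p)) (B := h - τ) ?_ ?_ ?_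
                · by_cases h2 : τ = h
                  · refine Or.inl (mul_ne_zero ?_ (Units.ne_zero _))
                    rw [h2]
                    rcases hf' with h3 | h3
                    · rw [h3.2, sub_zero]
                      exact hh
                    · exact h3.2
                  · exact Or.inr (sub_ne_zero.2 (Ne.symm h2))
                · linear_combination h1
                · linear_combination h1'
            · rw [if_neg hjm2, add_zero] at h1 h1'
              unfold et at h1 h1'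
              rw [hex] at h1 h1'
              refine U12_uq (A := τ * (((be m₂)⁻¹ : (ZMod p)ˣ) : ZMod p)) (B := -τ) (Or.inr (neg_ne_zero.2 hτ0)) ?_ ?_
              · linear_combination h1
              · linear_combination h1'
          · obtain ⟨e₀, he₀⟩ := hc' ⟨(m₂ : ℕ) - 1, by omega⟩
            have hval : (c' e₀).val = (m₂ : ℕ) - 1 := by
              rw [he₀]
              rfl
            rw [← hH]
            refine U12_coordS e₀ _ (fun al s u u' h1 h1' => ?_)
            simp only at h1 h1'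
            have hlow : ∀ v : (ZMod p)ˣ, ∀ l, l < (m₂ : ℕ) → pr k (xa al (sl c' y' (Function.update s e₀ v))) l = pr k (xa al (sl c' y' s)) l := by
              intro v l hl
              rw [U12_pr_s c' y' al s e₀ v (by omega), if_neg (by omega), one_mul]
            have hhi : ∀ v : (ZMod p)ˣ, pr k (xa al (sl c' y' (Function.update s e₀ v))) m₂ = v * (s e₀)⁻¹ * pr k (xa al (sl c' y' s)) m₂ := by
              intro v
              rw [U12_pr_s c' y' al s e₀ v hmk, if_pos (by omega)]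
            have hR : ∀ v : (ZMod p)ˣ, Rr (ex (k + 1) al) (pr k (xa al (sl c' y' (Function.update s e₀ v)))) =
                Rr (ex (k + 1) al) (pr k (xa al (sl c' y' s))) := by
              intro v
              rw [hRr, hRr]
              congr 1
              · congr 1
                · congr 1
                  refine sum_congr rfl fun l hl => ?_
                  rw [mem_Ioo] at hl
                  rw [hlow v l hl.2]
                · split_ifs with h2
                  · rfl
                  · rw [hlow v f'.1 (by omega)]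
              · congr 1
                refine sum_congr rfl fun l hl => ?_
                rw [mem_filter, mem_range] at hl
                rw [hlow v l (by omega)]
            rw [hR, hhi] at h1 h1'
            have h2 : ((((s e₀)⁻¹ * pr k (xa al (sl c' y' s)) m₂ : (ZMod p)ˣ) : ZMod p) * C (ex (k + 1) al)) * ((u : ZMod p) - u') = 0 := by
              have h3 := h1.2
              have h3' := h1'.2
              rw [Units.val_mul, Units.val_mul] at h3 h3'
              rw [Units.val_mul]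
              linear_combination h3 - h3'
            have h3 := (mul_eq_zero.1 h2).resolve_left (mul_ne_zero (Units.ne_zero _) h1.1)
            exact Units.ext (sub_eq_zero.1 h3)
        · refine hscal τ hτ0 fun al q => ?_
          unfold U12_G
          rw [if_neg (by omega)]
          have h1 : (range f'.1).filter (fun l => (m₁ : ℕ) < l ∧ l ≤ (m₂ : ℕ)) = ∅ := by
            rw [eq_empty_iff_forall_notMem]
            intro x hx
            rw [mem_filter, mem_range] at hx
            omega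
          rw [h1, sum_empty, mul_zero, sub_zero, add_zero]
    have hsub : ((univ : Finset ((Fin (k + 1) → (ZMod p)ˣ) × (E → (ZMod p)ˣ))).filter fun w =>
      Mk (ex (k + 1) w.1) be (pr k (xa w.1 (sl c y w.2))) h f *
        U12_P m₁ m₂ (ex (k + 1) w.1) be (pr k (xa w.1 (sl c' y' w.2))) -
      Sg (k + 1) (ex (k + 1) w.1) be (pr k (xa w.1 (sl c y w.2))) *
        U12_G m₁ m₂ h f' (ex (k + 1) w.1) be (pr k (xa w.1 (sl c' y' w.2))) = 0) ⊆
        ((univ : Finset ((Fin (k + 1) → (ZMod p)ˣ) × (E → (ZMod p)ˣ))).filter fun w =>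
          τ * U12_P m₁ m₂ (ex (k + 1) w.1) be (pr k (xa w.1 (sl c' y' w.2))) +
          U12_G m₁ m₂ h f' (ex (k + 1) w.1) be (pr k (xa w.1 (sl c' y' w.2))) = 0) ∪
        ((univ : Finset ((Fin (k + 1) → (ZMod p)ˣ) × (E → (ZMod p)ˣ))).filter fun w =>
          τ * U12_P m₁ m₂ (ex (k + 1) w.1) be (pr k (xa w.1 (sl c' y' w.2))) +
          U12_G m₁ m₂ h f' (ex (k + 1) w.1) be (pr k (xa w.1 (sl c' y' w.2))) ≠ 0 ∧
      Mk (ex (k + 1) w.1) be (pr k (xa w.1 (sl c y w.2))) h f *
        U12_P m₁ m₂ (ex (k + 1) w.1) be (pr k (xa w.1 (sl c' y' w.2))) -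
      Sg (k + 1) (ex (k + 1) w.1) be (pr k (xa w.1 (sl c y w.2))) *
        U12_G m₁ m₂ h f' (ex (k + 1) w.1) be (pr k (xa w.1 (sl c' y' w.2))) = 0) := by
      rintro ⟨al, s⟩ hw
      rw [mem_filter] at hw
      rw [mem_union, mem_filter, mem_filter]
      by_cases h0 : τ * U12_P m₁ m₂ (ex (k + 1) al) be (pr k (xa al (sl c' y' s))) +
          U12_G m₁ m₂ h f' (ex (k + 1) al) be (pr k (xa al (sl c' y' s))) = 0
      · exact Or.inl ⟨mem_univ _, h0⟩
      · exact Or.inr ⟨mem_univ _, h0, hw.2⟩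
    refine (card_le_card hsub).trans ((card_union_le _ _).trans ?_)
    refine (Nat.add_le_add hHh (?_ : _ ≤ (p - 1) ^ (k + Fintype.card E))).trans (by omega)
    -- the coordinate `0`
    rw [← hH]
    refine U12_coord 0 _ (fun al s u u' h1 h1' => ?_)
    simp only at h1 h1'
    rw [U12_pr0, U12_pr0] at h1 h1'
    have hq0 : pr k (xa al (sl c y s)) 0 = 1 := pr_zero _
    have hS : ∀ u, Sg (k + 1) (Function.update (ex (k + 1) al) 0 u) be
        (pr k (xa al (sl c y s))) = _ :=
      fun u => U13_Sg (by omega) (ex (k + 1) al) be (pr k (xa al (sl c y s))) hq0 u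
    obtain ⟨s₀, hs₀⟩ : ∃ s₀ : ZMod p, s₀ = ((((be 0)⁻¹ : (ZMod p)ˣ) : ZMod p) +
      ∑ j ∈ Ico 1 (k + 1), ((pr k (xa al (sl c y s)) j : (ZMod p)ˣ) : ZMod p) * et (ex (k + 1) al) be j) :=
      ⟨_, rfl⟩
    obtain ⟨t₀, ht⟩ : ∃ t₀ : ZMod p, ∀ u : (ZMod p)ˣ, Mk (Function.update (ex (k + 1) al) 0 u) be (pr k (xa al (sl c y s))) h f =
        t₀ + τ * ((u⁻¹ : (ZMod p)ˣ) : ZMod p) := by
      rcases Nat.eq_zero_or_pos f.1 with h0 | h0
      · by_cases hb : f.2.1 = true
        · refine ⟨0, fun u => ?_⟩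
          rw [hτ, if_pos ⟨h0, hb⟩]
          unfold Mk
          rw [h0, hq0, Function.update_self, sum_range_zero, Units.val_one, if_pos hb]
          ring
        · refine ⟨-((f.2.2 : ZMod p) * (((be 0)⁻¹ : (ZMod p)ˣ) : ZMod p)), fun u => ?_⟩
          rw [hτ, if_neg (fun h2 => hb h2.2)]
          unfold Mk
          rw [h0, hq0, Function.update_self, sum_range_zero, Units.val_one, if_neg hb]
          ring
      · refine ⟨(((pr k (xa al (sl c y s)) f.1 : (ZMod p)ˣ) : ZMod p) * Kk (ex (k + 1) al) be h f -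
          h * ((((be 0)⁻¹ : (ZMod p)ˣ) : ZMod p) + ∑ j ∈ Ico 1 f.1, ((pr k (xa al (sl c y s)) j : (ZMod p)ˣ) : ZMod p) * et (ex (k + 1) al) be j)), fun u => ?_⟩
        rw [hτ, if_neg (fun h2 => absurd h2.1 h0.ne')]
        have h1 := U13_Sg (m := f.1) h0 (ex (k + 1) al) be (pr k (xa al (sl c y s))) hq0 u
        unfold Sg at h1
        rw [Mk_eq, h1]
        have h2 : Kk (Function.update (ex (k + 1) al) 0 u) be h f = Kk (ex (k + 1) al) be h f := by
          unfold Kk
          rw [Function.update_of_ne h0.ne']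
        rw [h2]
        ring
    have hex : ∀ u, ex (k + 1) (Function.update al 0 u) =
        Function.update (ex (k + 1) al) 0 u := fun u => U12_ex al 0 u
    have hPu : ∀ u, U12_P m₁ m₂ (Function.update (ex (k + 1) al) 0 u) be
        (pr k (xa al (sl c' y' s))) =
        U12_P m₁ m₂ (ex (k + 1) al) be (pr k (xa al (sl c' y' s))) := by
      intro u
      unfold U12_P et
      refine sum_congr rfl fun h hh => ?_
      rw [mem_Ioc] at hh
      rw [Function.update_of_ne (by omega)]
    have hGu : ∀ u, U12_G m₁ m₂ h f' (Function.update (ex (k + 1) al) 0 u) be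
        (pr k (xa al (sl c' y' s))) =
        U12_G m₁ m₂ h f' (ex (k + 1) al) be (pr k (xa al (sl c' y' s))) := by
      intro u
      unfold U12_G et Kk
      congr 1
      · split_ifs with h0 h2
        · rw [Function.update_of_ne (by omega)]
        · rw [Function.update_of_ne (by omega)]
        · rfl
      · congr 1
        refine sum_congr rfl fun h hh => ?_
        rw [mem_filter] at hh
        rw [Function.update_of_ne (by omega)]
    rw [hex, hPu, hGu, ht, hS, ← hs₀] at h1 h1'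
    obtain ⟨P, hP⟩ : ∃ P : ZMod p, P = U12_P m₁ m₂ (ex (k + 1) al) be
      (pr k (xa al (sl c' y' s))) := ⟨_, rfl⟩
    obtain ⟨G, hG⟩ : ∃ G : ZMod p, G = U12_G m₁ m₂ h f' (ex (k + 1) al) be
      (pr k (xa al (sl c' y' s))) := ⟨_, rfl⟩
    rw [← hP, ← hG] at h1 h1'
    have h2 : (((u⁻¹ : (ZMod p)ˣ) : ZMod p) - ((u'⁻¹ : (ZMod p)ˣ) : ZMod p)) * (τ * P + G) = 0 := by
      linear_combination h1.2 - h1'.2
    rcases mul_eq_zero.mp h2 with h3 | h3
    · exact inv_injective (Units.ext (sub_eq_zero.mp h3))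
    · exact absurd h3 h1.1

theorem U12 {p k : ℕ} [Fact p.Prime] {E : Type*} [Fintype E] [DecidableEq E] (c c' : E → Fin (k + 1))
    (hcc : ¬ ∃ ψ : Fin (k + 1) → Fin (k + 1), c' = ψ ∘ c) (hc' : ∀ j : Fin k, ∃ e, c' e = j.castSucc) (y y' : Fin k → (ZMod p)ˣ) (be : ℕ → (ZMod p)ˣ)
    {h : ZMod p} (hh : h ≠ 0) {f f' : ℕ × Bool × ℤ} (hi : f.1 ≤ k) (hj : f'.1 ≤ k) (hf : FOK h f) (hf' : FOK h f') :
    ((univ : Finset ((Fin (k + 1) → (ZMod p)ˣ) × (E → (ZMod p)ˣ))).filter fun w =>
      Mk (ex (k + 1) w.1) be (pr k (xa w.1 (sl c y w.2))) h f * Sg (k + 1) (ex (k + 1) w.1) be (pr k (xa w.1 (sl c' y' w.2))) =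
      Mk (ex (k + 1) w.1) be (pr k (xa w.1 (sl c' y' w.2))) h f' * Sg (k + 1) (ex (k + 1) w.1) be (pr k (xa w.1 (sl c y w.2)))).card ≤
      4 * (p - 1) ^ (k + Fintype.card E) := by
  classical
  have hH : Fintype.card (ZMod p)ˣ = p - 1 := ZMod.card_units p
  have hp1 : 0 < p - 1 := by
    have := (Fact.out : p.Prime).two_le
    omega
  obtain ⟨f₁, f₂, hc1, hc2⟩ := T10_move k c c' hcc
  obtain ⟨m₁, hm₁⟩ : ∃ m₁, m₁ = c' f₁ := ⟨_, rfl⟩
  obtain ⟨m₂, hm₂⟩ : ∃ m₂, m₂ = c' f₂ := ⟨_, rfl⟩
  have hmk : (m₂ : ℕ) ≤ k := by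
    have := m₂.2
    omega
  have h12 : m₁ < m₂ := by
    rw [hm₁, hm₂]
    exact hc2
  have hN1 := U12_a1 c c' hc' y y' be hh hi hj hf hf' h12
  -- the difference and the coefficient
  obtain ⟨D, hD⟩ : ∃ D : (Fin (k + 1) → (ZMod p)ˣ) → (E → (ZMod p)ˣ) → ZMod p, ∀ al s, D al s =
      Mk (ex (k + 1) al) be (pr k (xa al (sl c y s))) h f *
        Sg (k + 1) (ex (k + 1) al) be (pr k (xa al (sl c' y' s))) -
      Mk (ex (k + 1) al) be (pr k (xa al (sl c' y' s))) h f' *
        Sg (k + 1) (ex (k + 1) al) be (pr k (xa al (sl c y s))) := ⟨_, fun _ _ => rfl⟩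
  obtain ⟨a1, ha1⟩ : ∃ a1 : (Fin (k + 1) → (ZMod p)ˣ) → (E → (ZMod p)ˣ) → ZMod p,
      ∀ al s, a1 al s = Mk (ex (k + 1) al) be (pr k (xa al (sl c y s))) h f *
        U12_P m₁ m₂ (ex (k + 1) al) be (pr k (xa al (sl c' y' s))) -
      Sg (k + 1) (ex (k + 1) al) be (pr k (xa al (sl c y s))) *
        U12_G m₁ m₂ h f' (ex (k + 1) al) be (pr k (xa al (sl c' y' s))) := ⟨_, fun _ _ => rfl⟩
  have hmove : ∀ al s (g : (ZMod p)ˣ), D al (fun e => s e * mv f₁ f₂ g e) =
      D al s + ((g : ZMod p) - 1) * a1 al s := by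
    intro al s g
    have hq : ∀ l ≤ k, pr k (xa al (sl c' y' (fun e => s e * mv f₁ f₂ g e))) l =
        (if (m₁ : ℕ) < l ∧ l ≤ (m₂ : ℕ) then g else 1) * pr k (xa al (sl c' y' s)) l := by
      intro l hl
      rw [U10_pr _ _ hl, U10_pr _ _ hl, U10_c' hc2 y' s g hl, ← hm₁, ← hm₂]
      exact mul_left_comm _ _ _
    rw [hD, hD, ha1, U10_c hc1, U12_Sg hmk _ be _ _ g hq, U12_Mk hj h _ be _ _ g hq]
    ring
  have hfilt : ((univ : Finset ((Fin (k + 1) → (ZMod p)ˣ) × (E → (ZMod p)ˣ))).filter fun w =>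
      Mk (ex (k + 1) w.1) be (pr k (xa w.1 (sl c y w.2))) h f * Sg (k + 1) (ex (k + 1) w.1) be (pr k (xa w.1 (sl c' y' w.2))) =
      Mk (ex (k + 1) w.1) be (pr k (xa w.1 (sl c' y' w.2))) h f' * Sg (k + 1) (ex (k + 1) w.1) be (pr k (xa w.1 (sl c y w.2)))) =
      ((univ : Finset ((Fin (k + 1) → (ZMod p)ˣ) × (E → (ZMod p)ˣ))).filter
        fun w => D w.1 w.2 = 0) := by
    refine filter_congr fun w _ => ?_
    rw [hD, sub_eq_zero]
  rw [hfilt]
  have hfilt1 : ((univ : Finset ((Fin (k + 1) → (ZMod p)ˣ) × (E → (ZMod p)ˣ))).filter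
        fun w => a1 w.1 w.2 = 0).card ≤ 3 * (p - 1) ^ (k + Fintype.card E) := by
    refine le_trans (le_of_eq ?_) hN1
    congr 1
    refine filter_congr fun w _ => ?_
    rw [ha1]
  -- the number of `g`
  have hg : ∀ al s, ∑ g : (ZMod p)ˣ,
      (if D al (fun e => s e * mv f₁ f₂ g e) = 0 then (1 : ℝ) else 0) ≤
      1 + (p - 1 : ℕ) * (if a1 al s = 0 then (1 : ℝ) else 0) := by
    intro al s
    by_cases h0 : a1 al s = 0
    · rw [if_pos h0, mul_one]
      have h1 : ∑ g : (ZMod p)ˣ, (if D al (fun e => s e * mv f₁ f₂ g e) = 0 then (1 : ℝ) else 0) ≤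
          ∑ _g : (ZMod p)ˣ, (1 : ℝ) := by
        refine sum_le_sum fun g _ => ?_
        split_ifs
        · exact le_rfl
        · exact zero_le_one
      rw [sum_const, card_univ, hH, nsmul_eq_mul, mul_one] at h1
      linarith
    · rw [if_neg h0, mul_zero, add_zero, ← Finset.sum_filter, sum_const, nsmul_eq_mul, mul_one]
      have h1 : ((univ : Finset (ZMod p)ˣ).filter
          fun g => D al (fun e => s e * mv f₁ f₂ g e) = 0).card ≤ 1 := by
        rw [card_le_one]
        intro g hg g' hg'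
        rw [mem_filter, hmove] at hg hg'
        have h2 : ((g : ZMod p) - g') * a1 al s = 0 := by
          linear_combination hg.2 - hg'.2
        rcases mul_eq_zero.mp h2 with h3 | h3
        · exact Units.ext (sub_eq_zero.mp h3)
        · exact absurd h3 h0
      exact_mod_cast h1
  obtain ⟨N, hN⟩ : ∃ N : ℕ, N = ((univ : Finset ((Fin (k + 1) → (ZMod p)ˣ) × (E → (ZMod p)ˣ))).filter
        fun w => D w.1 w.2 = 0).card := ⟨_, rfl⟩
  obtain ⟨N1, hN1'⟩ : ∃ N1 : ℕ, N1 = ((univ : Finset ((Fin (k + 1) → (ZMod p)ˣ) × (E → (ZMod p)ˣ))).filter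
        fun w => a1 w.1 w.2 = 0).card := ⟨_, rfl⟩
  rw [← hN]
  rw [← hN1'] at hfilt1
  have e1 : (N : ℝ) = ∑ al : Fin (k + 1) → (ZMod p)ˣ, ∑ s : E → (ZMod p)ˣ,
      (if D al s = 0 then (1 : ℝ) else 0) := by
    rw [hN, card_filter, ← univ_product_univ, sum_product]
    push_cast
    rfl
  have e2 : (N1 : ℝ) = ∑ al : Fin (k + 1) → (ZMod p)ˣ, ∑ s : E → (ZMod p)ˣ,
      (if a1 al s = 0 then (1 : ℝ) else 0) := by
    rw [hN1', card_filter, ← univ_product_univ, sum_product]
    push_cast
    rfl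
  have e3 : ((p - 1 : ℕ) : ℝ) * N ≤ ((p - 1 : ℕ) : ℝ) ^ (k + 1 + Fintype.card E) +
      ((p - 1 : ℕ) : ℝ) * N1 := by
    rw [e1, e2, mul_sum, mul_sum]
    have h1 : ∀ al : Fin (k + 1) → (ZMod p)ˣ, ((p - 1 : ℕ) : ℝ) * ∑ s : E → (ZMod p)ˣ,
        (if D al s = 0 then (1 : ℝ) else 0) ≤ ((p - 1 : ℕ) : ℝ) ^ Fintype.card E +
        ((p - 1 : ℕ) : ℝ) * ∑ s : E → (ZMod p)ˣ, (if a1 al s = 0 then (1 : ℝ) else 0) := by
      intro al
      have h2 := U10_sum (H := (ZMod p)ˣ) f₁ f₂ (fun s => if D al s = 0 then (1 : ℝ) else 0)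
      rw [hH] at h2
      rw [h2]
      refine (sum_le_sum fun s _ => hg al s).trans ?_
      rw [sum_add_distrib, ← mul_sum, sum_const, card_univ, Fintype.card_fun, hH, nsmul_eq_mul,
        mul_one]
      push_cast
      exact le_rfl
    refine (sum_le_sum fun al _ => h1 al).trans ?_
    rw [sum_add_distrib, sum_const, card_univ, Fintype.card_fun, hH, Fintype.card_fin,
      nsmul_eq_mul]
    push_cast
    rw [← pow_add]
  have hpR : (0 : ℝ) < ((p - 1 : ℕ) : ℝ) := by exact_mod_cast hp1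
  have e4 : (N1 : ℝ) ≤ 3 * ((p - 1 : ℕ) : ℝ) ^ (k + Fintype.card E) := by exact_mod_cast hfilt1
  have e5 : (N : ℝ) ≤ 4 * ((p - 1 : ℕ) : ℝ) ^ (k + Fintype.card E) := by
    have h1 : ((p - 1 : ℕ) : ℝ) * N ≤ ((p - 1 : ℕ) : ℝ) *
        (4 * ((p - 1 : ℕ) : ℝ) ^ (k + Fintype.card E)) := by
      have h2 : ((p - 1 : ℕ) : ℝ) ^ (k + 1 + Fintype.card E) =
          ((p - 1 : ℕ) : ℝ) * ((p - 1 : ℕ) : ℝ) ^ (k + Fintype.card E) := by
        rw [← pow_succ']
        congr 1
        omega
      rw [h2] at e3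
      have h3 := mul_le_mul_of_nonneg_left e4 hpR.le
      linarith
    exact le_of_mul_le_mul_left h1 hpR
  exact_mod_cast e5

/-- two different forms of one colouring -/
theorem U12_one {p k : ℕ} [Fact p.Prime] {E : Type*} [Fintype E] [DecidableEq E] (c : E → Fin (k + 1))
    (hc : ∀ j : Fin k, ∃ e, c e = j.castSucc) (y : Fin k → (ZMod p)ˣ) (be : ℕ → (ZMod p)ˣ)
    {h : ZMod p} (hh : h ≠ 0) {f f' : ℕ × Bool × ℤ} (hi : f.1 ≤ k) (hj : f'.1 ≤ k) (hf : FOK h f) (hf' : FOK h f')
    (hff : f ≠ f') (hw : f.2.2 ≠ f'.2.2 → (f.2.2 : ZMod p) ≠ (f'.2.2 : ZMod p)) :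
    ((univ : Finset ((Fin (k + 1) → (ZMod p)ˣ) × (E → (ZMod p)ˣ))).filter fun w =>
      Mk (ex (k + 1) w.1) be (pr k (xa w.1 (sl c y w.2))) h f = Mk (ex (k + 1) w.1) be (pr k (xa w.1 (sl c y w.2))) h f').card ≤
      2 * (p - 1) ^ (k + Fintype.card E) := by
  classical
  have hH : Fintype.card (ZMod p)ˣ = p - 1 := ZMod.card_units p
  -- different indices: the coefficient of the last `p_j` is `Kk f'`
  have key : ∀ {f f' : ℕ × Bool × ℤ}, f.1 < f'.1 → f'.1 ≤ k → FOK h f' →
      ((univ : Finset ((Fin (k + 1) → (ZMod p)ˣ) × (E → (ZMod p)ˣ))).filter fun w =>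
      Mk (ex (k + 1) w.1) be (pr k (xa w.1 (sl c y w.2))) h f = Mk (ex (k + 1) w.1) be (pr k (xa w.1 (sl c y w.2))) h f').card ≤
      2 * (p - 1) ^ (k + Fintype.card E) := by
    intro f f' hlt hj hf'
    obtain ⟨m, hm⟩ : ∃ m : Fin (k + 1), (m : ℕ) = f'.1 := ⟨⟨f'.1, by omega⟩, rfl⟩
    have hsub : ((univ : Finset ((Fin (k + 1) → (ZMod p)ˣ) × (E → (ZMod p)ˣ))).filter fun w =>
      Mk (ex (k + 1) w.1) be (pr k (xa w.1 (sl c y w.2))) h f = Mk (ex (k + 1) w.1) be (pr k (xa w.1 (sl c y w.2))) h f') ⊆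
        ((univ : Finset ((Fin (k + 1) → (ZMod p)ˣ) × (E → (ZMod p)ˣ))).filter fun w => Kk (ex (k + 1) w.1) be h f' = 0) ∪
        ((univ : Finset ((Fin (k + 1) → (ZMod p)ˣ) × (E → (ZMod p)ˣ))).filter fun w => Kk (ex (k + 1) w.1) be h f' ≠ 0 ∧
          Mk (ex (k + 1) w.1) be (pr k (xa w.1 (sl c y w.2))) h f = Mk (ex (k + 1) w.1) be (pr k (xa w.1 (sl c y w.2))) h f') := by
      intro w hw
      rw [mem_filter] at hw
      rw [mem_union, mem_filter, mem_filter]
      by_cases h2 : Kk (ex (k + 1) w.1) be h f' = 0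
      · exact Or.inl ⟨mem_univ _, h2⟩
      · exact Or.inr ⟨mem_univ _, h2, hw.2⟩
    refine (card_le_card hsub).trans ((card_union_le _ _).trans ?_)
    rw [two_mul]
    refine Nat.add_le_add ?_ ?_
    · rw [← hH]
      refine U12_coord m _ (fun al s u u' h1 h1' => ?_)
      simp only at h1 h1'
      have hex : ∀ v : (ZMod p)ˣ, ex (k + 1) (Function.update al m v) f'.1 = v := by
        intro v
        rw [← hm, U12_ex, Function.update_self]
      unfold Kk at h1 h1'
      rw [hex] at h1 h1'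
      by_cases hb : f'.2.1 = true
      · rw [if_pos hb] at h1
        have h2 : (h - (f'.2.2 : ZMod p)) * ((u⁻¹ : (ZMod p)ˣ) : ZMod p) = 0 := by
          linear_combination h1
        have h3 := (mul_eq_zero.1 h2).resolve_right (Units.ne_zero _)
        rcases hf' with h4 | h4
        · rw [hb] at h4
          exact absurd h4.1 (by decide)
        · exact absurd h3 h4.2
      · rw [if_neg hb] at h1 h1'
        refine U12_uq (A := -((f'.2.2 : ZMod p) * (((be f'.1)⁻¹ : (ZMod p)ˣ) : ZMod p))) (B := h) (Or.inr hh) ?_ ?_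
        · linear_combination h1
        · linear_combination h1'
    · obtain ⟨e₀, he₀⟩ := hc ⟨f'.1 - 1, by omega⟩
      have hval : (c e₀).val = f'.1 - 1 := by
        rw [he₀]
        rfl
      rw [← hH]
      refine U12_coordS e₀ _ (fun al s u u' h1 h1' => ?_)
      simp only at h1 h1'
      have hlow : ∀ v : (ZMod p)ˣ, ∀ l, l < f'.1 → pr k (xa al (sl c y (Function.update s e₀ v))) l = pr k (xa al (sl c y s)) l := by
        intro v l hl
        rw [U12_pr_s c y al s e₀ v (by omega), if_neg (by omega), one_mul]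
      have hhi : ∀ v : (ZMod p)ˣ, pr k (xa al (sl c y (Function.update s e₀ v))) f'.1 = v * (s e₀)⁻¹ * pr k (xa al (sl c y s)) f'.1 := by
        intro v
        rw [U12_pr_s c y al s e₀ v hj, if_pos (by omega)]
      have hM1 : ∀ v : (ZMod p)ˣ, Mk (ex (k + 1) al) be (pr k (xa al (sl c y (Function.update s e₀ v)))) h f =
          Mk (ex (k + 1) al) be (pr k (xa al (sl c y s))) h f := fun v =>
        Mk_congr (fun _ _ => rfl) (fun _ _ => rfl) (fun l hl => hlow v l (by omega)) h
      have hM2 : ∀ v : (ZMod p)ˣ, Mk (ex (k + 1) al) be (pr k (xa al (sl c y (Function.update s e₀ v)))) h f' =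
          ((v * (s e₀)⁻¹ * pr k (xa al (sl c y s)) f'.1 : (ZMod p)ˣ) : ZMod p) * Kk (ex (k + 1) al) be h f' -
            h * ∑ l ∈ range f'.1, ((pr k (xa al (sl c y s)) l : (ZMod p)ˣ) : ZMod p) * et (ex (k + 1) al) be l := by
        intro v
        rw [Mk_eq, hhi]
        congr 2
        refine sum_congr rfl fun l hl => ?_
        rw [mem_range] at hl
        rw [hlow v l hl]
      rw [hM1, hM2] at h1 h1'
      have h2 : ((((s e₀)⁻¹ * pr k (xa al (sl c y s)) f'.1 : (ZMod p)ˣ) : ZMod p) * Kk (ex (k + 1) al) be h f') * ((u : ZMod p) - u') = 0 := by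
        have h3 := h1.2
        have h3' := h1'.2
        rw [Units.val_mul, Units.val_mul] at h3 h3'
        rw [Units.val_mul]
        linear_combination h3' - h3
      have h3 := (mul_eq_zero.1 h2).resolve_left (mul_ne_zero (Units.ne_zero _) h1.1)
      exact Units.ext (sub_eq_zero.1 h3)
  rcases Nat.lt_trichotomy f.1 f'.1 with hlt | heq | hgt
  · exact key hlt hj hf'
  · -- the same index
    obtain ⟨m, hm⟩ : ∃ m : Fin (k + 1), (m : ℕ) = f.1 := ⟨⟨f.1, by omega⟩, rfl⟩
    refine le_trans ?_ (show (p - 1) ^ (k + Fintype.card E) ≤ 2 * (p - 1) ^ (k + Fintype.card E) by omega)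
    rw [← hH]
    refine U12_coord m _ (fun al s u u' h1 h1' => ?_)
    simp only at h1 h1'
    have hred : ∀ (al' q : ℕ → (ZMod p)ˣ), Mk al' be q h f = Mk al' be q h f' → Kk al' be h f = Kk al' be h f' := by
      intro al' q h2
      rw [Mk_eq, Mk_eq, heq] at h2
      have h3 : (q f'.1 : ZMod p) * (Kk al' be h f - Kk al' be h f') = 0 := by linear_combination h2
      exact sub_eq_zero.1 ((mul_eq_zero.1 h3).resolve_left (Units.ne_zero _))
    have h2 := hred _ _ h1
    have h2' := hred _ _ h1'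
    have hex : ∀ v : (ZMod p)ˣ, ex (k + 1) (Function.update al m v) f'.1 = v := by
      intro v
      rw [← heq, ← hm, U12_ex, Function.update_self]
    unfold Kk at h2 h2'
    rw [heq, hex] at h2 h2'
    have hne : f.2.1 = f'.2.1 → f.2.2 ≠ f'.2.2 := fun h3 h4 => hff (Prod.ext heq (Prod.ext h3 h4))
    by_cases hb : f.2.1 = true
    · by_cases hb' : f'.2.1 = true
      · rw [if_pos hb, if_pos hb'] at h2
        have h3 : ((f'.2.2 : ZMod p) - (f.2.2 : ZMod p)) * ((u⁻¹ : (ZMod p)ˣ) : ZMod p) = 0 := by linear_combination h2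
        exact absurd (sub_eq_zero.1 ((mul_eq_zero.1 h3).resolve_right (Units.ne_zero _))).symm (hw (hne (hb.trans hb'.symm)))
      · rw [if_pos hb, if_neg hb'] at h2 h2'
        refine U12_uq (A := (f'.2.2 : ZMod p) * (((be f'.1)⁻¹ : (ZMod p)ˣ) : ZMod p)) (B := -(f.2.2 : ZMod p)) (Or.inr (neg_ne_zero.2 ?_)) ?_ ?_
        · rcases hf with h4 | h4
          · rw [hb] at h4
            exact absurd h4.1 (by decide)
          · exact h4.1
        · linear_combination h2
        · linear_combination h2'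
    · by_cases hb' : f'.2.1 = true
      · rw [if_neg hb, if_pos hb'] at h2 h2'
        refine U12_uq (A := -((f.2.2 : ZMod p) * (((be f'.1)⁻¹ : (ZMod p)ˣ) : ZMod p))) (B := (f'.2.2 : ZMod p)) (Or.inr ?_) ?_ ?_
        · rcases hf' with h4 | h4
          · rw [hb'] at h4
            exact absurd h4.1 (by decide)
          · exact h4.1
        · linear_combination h2
        · linear_combination h2'
      · rw [if_neg hb, if_neg hb'] at h2
        have h3 : ((f'.2.2 : ZMod p) - (f.2.2 : ZMod p)) * (((be f'.1)⁻¹ : (ZMod p)ˣ) : ZMod p) = 0 := by linear_combination h2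
        have h5 : f.2.1 = f'.2.1 := by
          rw [Bool.not_eq_true] at hb hb'
          rw [hb, hb']
        exact absurd (sub_eq_zero.1 ((mul_eq_zero.1 h3).resolve_right (Units.ne_zero _))).symm (hw (hne h5))
  · refine le_trans (le_of_eq ?_) (key hgt hi hf)
    congr 1
    exact filter_congr fun w _ => eq_comm

end count

end Pool.Agent.Lib.TTC
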