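import Pool.Agent.Lib.MP_092512_nt.TT.C.LocP
import Pool.Agent.Lib.MP_092512_nt.TT.C.U12

/-!
# L4: coinciding roots modulo `p` in the notation of `PDefs`

* `L4`: two colourings (`U12`); `L4_one`: two different forms of one colouring (`U12_one`); `av_ind`; `|(ZMod p)ˣ| = p - 1`.
-/

set_option autoImplicit false

open Finset

namespace Pool.Agent.Lib.TTC

private theorem L4_av {p k : ℕ} [Fact p.Prime] {E : Type*} [Fintype E] [DecidableEq E] (Q : (Fin (k + 1) → (ZMod p)ˣ) × (E → (ZMod p)ˣ) → Prop)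
    [DecidablePred Q] (n : ℕ) (h1 : ((univ : Finset ((Fin (k + 1) → (ZMod p)ˣ) × (E → (ZMod p)ˣ))).filter Q).card ≤ n * (p - 1) ^ (k + Fintype.card E)) :
    av (fun w => ind (Q w)) ≤ (n : ℝ) / ((p : ℝ) - 1) := by
  rw [av_ind]
  have hp2 := (Fact.out : p.Prime).two_le
  have hH : Fintype.card (ZMod p)ˣ = p - 1 := ZMod.card_units p
  have hp1 : (0 : ℝ) < (p : ℝ) - 1 := by
    have : (2 : ℝ) ≤ p := by exact_mod_cast hp2
    linarith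
  have hp3 : (((p - 1 : ℕ) : ℕ) : ℝ) = (p : ℝ) - 1 := by
    rw [Nat.cast_sub (by omega)]
    norm_num
  rw [Fintype.card_prod, Fintype.card_fun, Fintype.card_fun, hH, Fintype.card_fin, ← pow_add,
    Nat.cast_pow, hp3, div_le_div_iff₀ (pow_pos hp1 _) hp1]
  have h2 : (((univ : Finset ((Fin (k + 1) → (ZMod p)ˣ) × (E → (ZMod p)ˣ))).filter Q).card : ℝ) ≤
      n * ((p : ℝ) - 1) ^ (k + Fintype.card E) := by
    rw [← hp3]
    exact_mod_cast h1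
  have h3 : ((p : ℝ) - 1) ^ (k + 1 + Fintype.card E) = ((p : ℝ) - 1) ^ (k + Fintype.card E) * ((p : ℝ) - 1) := by
    rw [← pow_succ]
    congr 1
    omega
  rw [h3, ← mul_assoc]
  exact mul_le_mul_of_nonneg_right h2 hp1.le

theorem L4 {p k : ℕ} [Fact p.Prime] {E : Type*} [Fintype E] [DecidableEq E] (c c' : E → Fin (k + 1))
    (hcc : ¬ ∃ ψ : Fin (k + 1) → Fin (k + 1), c' = ψ ∘ c) (hc' : ∀ j : Fin k, ∃ e, c' e = j.castSucc) (be : ℕ → (ZMod p)ˣ) (y y' : Fin k → (ZMod p)ˣ)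
    {h : ZMod p} (hh : h ≠ 0) {f f' : ℕ × Bool × ℤ} (hi : f.1 ≤ k) (hj : f'.1 ≤ k) (hf : Loc.FOK h f) (hf' : Loc.FOK h f') :
    av (fun w : (Fin (k + 1) → (ZMod p)ˣ) × (E → (ZMod p)ˣ) => ind (
      Loc.Mk (Loc.ex (k + 1) w.1) be (pj c w.1 y w.2) h f * Loc.Sg (k + 1) (Loc.ex (k + 1) w.1) be (pj c' w.1 y' w.2) =
      Loc.Mk (Loc.ex (k + 1) w.1) be (pj c' w.1 y' w.2) h f' * Loc.Sg (k + 1) (Loc.ex (k + 1) w.1) be (pj c w.1 y w.2))) ≤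
      4 / ((p : ℝ) - 1) := by
  have h1 := L4_av _ 4 (U12 c c' hcc hc' y y' be hh hi hj hf hf')
  exact h1

theorem L4_one {p k : ℕ} [Fact p.Prime] {E : Type*} [Fintype E] [DecidableEq E] (c : E → Fin (k + 1))
    (hc : ∀ j : Fin k, ∃ e, c e = j.castSucc) (be : ℕ → (ZMod p)ˣ) (y : Fin k → (ZMod p)ˣ)
    {h : ZMod p} (hh : h ≠ 0) {f f' : ℕ × Bool × ℤ} (hi : f.1 ≤ k) (hj : f'.1 ≤ k) (hf : Loc.FOK h f) (hf' : Loc.FOK h f')
    (hff : f ≠ f') (hw : f.2.2 ≠ f'.2.2 → (f.2.2 : ZMod p) ≠ (f'.2.2 : ZMod p)) :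
    av (fun w : (Fin (k + 1) → (ZMod p)ˣ) × (E → (ZMod p)ˣ) => ind (
      Loc.Mk (Loc.ex (k + 1) w.1) be (pj c w.1 y w.2) h f = Loc.Mk (Loc.ex (k + 1) w.1) be (pj c w.1 y w.2) h f')) ≤
      2 / ((p : ℝ) - 1) := by
  have h1 := L4_av _ 2 (U12_one c hc y be hh hi hj hf hf' hff hw)
  exact h1

end Pool.Agent.Lib.TTC
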