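import Mathlib

/-!
# Loc: the cycle forms over a commutative ring

`R` is a commutative ring, `al, be, p : ℕ → Rˣ` (`p 0 = 1`). Slots `0, …, m - 1`, the slot `m - 1` is the ground slot.
`DN` stands for the image of `D N`, `Y` for the image of `Y`.
-/

set_option autoImplicit false

open Finset

namespace Pool.Agent.Lib.TTC.Loc

section forms

variable {R : Type*} [CommRing R]

/-- `η_k = 1/β_k - 1/α_k` -/
def et (al be : ℕ → Rˣ) (k : ℕ) : R := (((be k)⁻¹ : Rˣ) : R) - (((al k)⁻¹ : Rˣ) : R)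

/-- `∑_{j<m} p_j η_j` -/
def Sg (m : ℕ) (al be p : ℕ → Rˣ) : R := ∑ j ∈ range m, (p j : R) * et al be j

/-- `M_i = p_i/α_i - ∑_{j<i} p_j η_j` -/
def Mi (al be p : ℕ → Rˣ) (i : ℕ) : R := (p i : R) * (((al i)⁻¹ : Rˣ) : R) - ∑ j ∈ range i, (p j : R) * et al be j

/-- `N_i = M_i + Sg` -/
def Ni (m : ℕ) (al be p : ℕ → Rˣ) (i : ℕ) : R := Mi al be p i + Sg m al be p

/-- `D p_i t_i` -/
def Ti (m : ℕ) (al be p : ℕ → Rˣ) (DN Y : R) (i : ℕ) : R := DN * Mi al be p i - Y * Sg m al be p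

/-- `M_f = p_i (h/α_i - w/γ) - h ∑_{j<i} p_j η_j`, `f = (i, b, w)`, `γ = α_i` if `b`, else `γ = β_i` -/
def Mk (al be p : ℕ → Rˣ) (h : R) (f : ℕ × Bool × ℤ) : R :=
  (p f.1 : R) * (h * (((al f.1)⁻¹ : Rˣ) : R) - (f.2.2 : R) * (if f.2.1 then (((al f.1)⁻¹ : Rˣ) : R) else (((be f.1)⁻¹ : Rˣ) : R))) -
    h * ∑ j ∈ range f.1, (p j : R) * et al be j

/-- the form `f`: `- D p_i (t_i γ + w) / γ = D M_f - Y Sg` -/
def Fk (m : ℕ) (al be p : ℕ → Rˣ) (D Y h : R) (f : ℕ × Bool × ℤ) : R := D * Mk al be p h f - Y * Sg m al be p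

/-- `D p_i e_i A_i / β_i` -/
def Ei (m : ℕ) (al be p : ℕ → Rˣ) (DN Y : R) (i : ℕ) : R :=
  DN * ∑ j ∈ range (i + 1), (p j : R) * et al be j + Y * Sg m al be p

/-- products of slot values -/
def pk (x : ℕ → Rˣ) (j : ℕ) : Rˣ := ∏ l ∈ range j, x l

end forms

section tuples

variable {H : Type*} [CommGroup H]

/-- a tuple, extended by `1` -/
def ex (k : ℕ) (x : Fin k → H) (l : ℕ) : H := if h : l < k then x ⟨l, h⟩ else 1

/-- the sequence `1, P 0, P 1, …` -/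
def pp (k : ℕ) (P : Fin k → H) : ℕ → H
  | 0 => 1
  | (j + 1) => ex k P j

/-- the partial products of the extended tuple -/
def pr (k : ℕ) (x : Fin k → H) (j : ℕ) : H := ∏ l ∈ range j, ex k x l

/-- the slot values of a colouring: `y_j ∏_{c e = j} s_e` for `j < k` (the ground colour `k` does not occur) -/
def sl {k : ℕ} {E : Type*} [Fintype E] (c : E → Fin (k + 1)) (y : Fin k → H) (s : E → H) (j : Fin k) : H :=
  y j * ∏ e, if c e = j.castSucc then s e else 1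

end tuples

section basic

variable {R : Type*} [CommRing R]

theorem Ni_eq (m : ℕ) (al be p : ℕ → Rˣ) (i : ℕ) (hi : i < m) :
    Ni m al be p i = (p i : R) * (((be i)⁻¹ : Rˣ) : R) + ∑ j ∈ Ico (i + 1) m, (p j : R) * et al be j := by
  have h1 : ∑ j ∈ range m, (p j : R) * et al be j =
      ∑ j ∈ range i, (p j : R) * et al be j + ((p i : R) * et al be i + ∑ j ∈ Ico (i + 1) m, (p j : R) * et al be j) := by
    rw [← sum_eq_sum_Ico_succ_bot hi (fun j => (p j : R) * et al be j), sum_range_add_sum_Ico _ hi.le]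
  unfold Ni Mi Sg
  rw [h1]
  unfold et
  ring

theorem pk_zero (x : ℕ → Rˣ) : pk x 0 = 1 := by simp [pk]

theorem pk_succ (x : ℕ → Rˣ) (j : ℕ) : pk x (j + 1) = pk x j * x j := by
  simp [pk, prod_range_succ]

theorem Sg_congr {m : ℕ} {al be al' be' p p' : ℕ → Rˣ} (h1 : ∀ j < m, al j = al' j) (h2 : ∀ j < m, be j = be' j)
    (h3 : ∀ j < m, p j = p' j) : Sg m al be p = Sg m al' be' p' := by
  unfold Sg et
  refine sum_congr rfl fun j hj => ?_
  rw [mem_range] at hj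
  rw [h1 j hj, h2 j hj, h3 j hj]

theorem Mi_congr {i : ℕ} {al be al' be' p p' : ℕ → Rˣ} (h1 : ∀ j ≤ i, al j = al' j) (h2 : ∀ j < i, be j = be' j)
    (h3 : ∀ j ≤ i, p j = p' j) : Mi al be p i = Mi al' be' p' i := by
  unfold Mi et
  rw [h1 i le_rfl, h3 i le_rfl]
  congr 1
  refine sum_congr rfl fun j hj => ?_
  rw [mem_range] at hj
  rw [h1 j hj.le, h2 j hj, h3 j hj.le]

end basic

section tuples2

variable {H : Type*} [CommGroup H]

theorem ex_lt {k : ℕ} (x : Fin k → H) {l : ℕ} (h : l < k) : ex k x l = x ⟨l, h⟩ := by simp [ex, h]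

theorem ex_ge {k : ℕ} (x : Fin k → H) {l : ℕ} (h : k ≤ l) : ex k x l = 1 := by simp [ex, Nat.not_lt.2 h]

theorem pp_succ {k : ℕ} (P : Fin k → H) {j : ℕ} (h : j < k) : pp k P (j + 1) = P ⟨j, h⟩ := by
  simp [pp, ex, h]

theorem pr_zero {k : ℕ} (x : Fin k → H) : pr k x 0 = 1 := by simp [pr]

theorem pr_succ {k : ℕ} (x : Fin k → H) (j : ℕ) : pr k x (j + 1) = pr k x j * ex k x j := by
  simp [pr, prod_range_succ]

end tuples2

end Pool.Agent.Lib.TTC.Loc
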