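import Pool.Agent.Lib.MP_092512_nt.TT.C.Loc

/-!
# U10: the move (4.3)

`mv f₁ f₂ g` multiplies `s f₁` by `g` and `s f₂` by `g⁻¹` (`f₁ ≠ f₂`; for `f₁ = f₂` it is `1`).
* `U10_c`: if `c f₁ = c f₂` then the slot values of `c` do not change (split the product `sl` at `f₁`, `f₂`: `∏ e, if c e = j then mv e else 1 = g g⁻¹` or `1`).
* `U10_c'`: if `c' f₁ < c' f₂` then the slot `c' f₁` is multiplied by `g`, the slot `c' f₂` by `g⁻¹` (if it is `< k`), so the partial product `pr _ j`
  (slots `0, …, j-1`) is multiplied by `g` iff `c' f₁ < j ≤ c' f₂`.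
* `U10_xa`: `xa al x l = al (l+1) x l`; the same statement for `pr k (xa al (sl c' y s))`.
* `U10_sum`: translation invariance, summed over `g`.
-/

set_option autoImplicit false

open Finset

open Pool.Agent.Lib.TTC.Loc

namespace Pool.Agent.Lib.TTC

/-- the move -/
def mv {E H : Type*} [DecidableEq E] [CommGroup H] (f₁ f₂ : E) (g : H) (e : E) : H :=
  (if e = f₁ then g else 1) * (if e = f₂ then g⁻¹ else 1)

/-- slot values with the `α` put in -/
def xa {k : ℕ} {H : Type*} [CommGroup H] (al : Fin (k + 1) → H) (x : Fin k → H) (l : Fin k) : H := al l.succ * x l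

private theorem U10_sl {k : ℕ} {E H : Type*} [Fintype E] [DecidableEq E] [CommGroup H] (c : E → Fin (k + 1)) (f₁ f₂ : E)
    (y : Fin k → H) (s : E → H) (g : H) (j : Fin k) : sl c y (fun e => s e * mv f₁ f₂ g e) j =
      sl c y s j * ((if c f₁ = j.castSucc then g else 1) * (if c f₂ = j.castSucc then g⁻¹ else 1)) := by
  unfold sl
  rw [mul_assoc]
  congr 1
  have h1 : ∀ e, (if c e = j.castSucc then s e * mv f₁ f₂ g e else 1) =
      (if c e = j.castSucc then s e else 1) * ((if e = f₁ then (if c e = j.castSucc then g else 1) else 1) *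
        (if e = f₂ then (if c e = j.castSucc then g⁻¹ else 1) else 1)) := by
    intro e
    by_cases hc : c e = j.castSucc
    · simp only [if_pos hc]
      rfl
    · simp only [if_neg hc]
      simp
  rw [prod_congr rfl (fun e _ => h1 e), prod_mul_distrib, prod_mul_distrib,
    prod_ite_eq' univ f₁ (fun e => if c e = j.castSucc then g else 1),
    prod_ite_eq' univ f₂ (fun e => if c e = j.castSucc then g⁻¹ else 1), if_pos (mem_univ _), if_pos (mem_univ _)]

private theorem U10_pr' {k : ℕ} {E H : Type*} [Fintype E] [DecidableEq E] [CommGroup H] (c : E → Fin (k + 1)) (f₁ f₂ : E)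
    (y : Fin k → H) (s : E → H) (g : H) (j : ℕ) (hj : j ≤ k) :
    pr k (sl c y (fun e => s e * mv f₁ f₂ g e)) j =
      ((if (c f₁).val < j then g else 1) * (if (c f₂).val < j then g⁻¹ else 1)) * pr k (sl c y s) j := by
  induction j with
  | zero => simp [pr_zero]
  | succ j ih =>
    have hjk : j < k := hj
    rw [pr_succ, pr_succ, ih hjk.le, ex_lt _ hjk, ex_lt _ hjk, U10_sl]
    have h1 : ∀ (f : E) (h : H), (if (c f).val < j + 1 then h else 1) =
        (if (c f).val < j then h else 1) * (if c f = (⟨j, hjk⟩ : Fin k).castSucc then h else 1) := by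
      intro f h
      have h2 : (c f = (⟨j, hjk⟩ : Fin k).castSucc) ↔ (c f).val = j := by
        rw [Fin.ext_iff]
        rfl
      by_cases a1 : (c f).val < j
      · rw [if_pos a1, if_pos (by omega), if_neg (by rw [h2]; omega), mul_one]
      · rw [if_neg a1, one_mul]
        by_cases a2 : (c f).val = j
        · rw [if_pos (by omega), if_pos (h2.2 a2)]
        · rw [if_neg (by omega), if_neg (fun hh => a2 (h2.1 hh))]
    rw [h1 f₁ g, h1 f₂ g⁻¹]
    simp only [mul_comm, mul_left_comm, mul_assoc]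

theorem U10_c {k : ℕ} {E H : Type*} [Fintype E] [DecidableEq E] [CommGroup H] {c : E → Fin (k + 1)} {f₁ f₂ : E} (h : c f₁ = c f₂)
    (y : Fin k → H) (s : E → H) (g : H) : sl c y (fun e => s e * mv f₁ f₂ g e) = sl c y s := by
  funext j
  rw [U10_sl, h]
  by_cases hc : c f₂ = j.castSucc
  · rw [if_pos hc, if_pos hc, mul_inv_cancel, mul_one]
  · rw [if_neg hc, if_neg hc, mul_one, mul_one]

theorem U10_c' {k : ℕ} {E H : Type*} [Fintype E] [DecidableEq E] [CommGroup H] {c' : E → Fin (k + 1)} {f₁ f₂ : E} (h : c' f₁ < c' f₂)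
    (y : Fin k → H) (s : E → H) (g : H) {j : ℕ} (hj : j ≤ k) :
    pr k (sl c' y (fun e => s e * mv f₁ f₂ g e)) j = (if (c' f₁).val < j ∧ j ≤ (c' f₂).val then g else 1) * pr k (sl c' y s) j := by
  rw [U10_pr' c' f₁ f₂ y s g j hj]
  congr 1
  have h' : (c' f₁).val < (c' f₂).val := h
  by_cases h1 : (c' f₁).val < j
  · by_cases h2 : (c' f₂).val < j
    · rw [if_pos h1, if_pos h2, if_neg (by omega), mul_inv_cancel]
    · rw [if_pos h1, if_neg h2, if_pos (by omega), mul_one]
  · rw [if_neg h1, if_neg (by omega), if_neg (by omega), mul_one]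

theorem U10_pr {k : ℕ} {H : Type*} [CommGroup H] (al : Fin (k + 1) → H) (x : Fin k → H) {j : ℕ} (hj : j ≤ k) :
    pr k (xa al x) j = (∏ l ∈ range j, ex (k + 1) al (l + 1)) * pr k x j := by
  induction j with
  | zero => simp [pr_zero]
  | succ j ih =>
    have hjk : j < k := hj
    rw [pr_succ, pr_succ, ih hjk.le, ex_lt _ hjk, ex_lt _ hjk, prod_range_succ, ex_lt al (show j + 1 < k + 1 by omega)]
    unfold xa
    have h1 : (⟨j, hjk⟩ : Fin k).succ = (⟨j + 1, by omega⟩ : Fin (k + 1)) := rfl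
    rw [h1]
    simp only [mul_comm, mul_left_comm, mul_assoc]

theorem U10_sum {E H : Type*} [Fintype E] [DecidableEq E] [CommGroup H] [Fintype H] [DecidableEq H] (f₁ f₂ : E) (Ψ : (E → H) → ℝ) :
    (Fintype.card H : ℝ) * ∑ s : E → H, Ψ s = ∑ s : E → H, ∑ g : H, Ψ (fun e => s e * mv f₁ f₂ g e) := by
  rw [sum_comm]
  have h1 : ∀ g : H, ∑ s : E → H, Ψ (fun e => s e * mv f₁ f₂ g e) = ∑ s : E → H, Ψ s := by
    intro g
    exact Equiv.sum_comp (Equiv.mulRight (fun e => mv f₁ f₂ g e)) Ψ
  rw [sum_congr rfl (fun g _ => h1 g), sum_const, card_univ, nsmul_eq_mul]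

end Pool.Agent.Lib.TTC
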