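import Mathlib

/-!
# T09: the number of disconnected pairs of colourings

Colours `Fin (k+1)`, ground colour `k`. Vertices `Option (Fin k ⊕ Fin k)`, root `none`. The edge `e` joins `vL (c e)` and `vR (c' e)`.
If the cut condition fails there is `U` (nonempty, `none ∉ U`), i.e. sets `S, S'` of proper colours, not both empty, with
`c e ∈ S ↔ c' e ∈ S'` for all `e`. For given `S, S'` (`s`, `s'` elements, `s, s' ≤ k`) the number of pairs of colours `(x, x')` with
`x ∈ S ↔ x' ∈ S'` is `s s' + (k+1-s)(k+1-s') ≤ k (k+1)`: for `s ≥ 1` it is linear in `s'`, at `s' = 0` it is `(k+1-s)(k+1) ≤ k(k+1)`, at `s' = k` it is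
`s k + (k+1-s) = k + 1 + s (k-1) ≤ k² + 1 ≤ k (k+1)`; for `s = 0`, `s' ≥ 1` it is `(k+1)(k+1-s') ≤ k(k+1)`. (`k ≥ 1`: if `k = 0` there is no such `U`.)
So at most `(k(k+1))^{|E|}` pairs `(c, c')` for each `U` and at most `2^{2k} = 4^k` sets `U`.
-/

set_option autoImplicit false

open Finset

namespace Pool.Agent.Lib.TTC

/-- left vertex of a colour -/
def vL (k : ℕ) (x : Fin (k + 1)) : Option (Fin k ⊕ Fin k) := if h : x.val < k then some (Sum.inl ⟨x.val, h⟩) else none

/-- right vertex of a colour -/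
def vR (k : ℕ) (x : Fin (k + 1)) : Option (Fin k ⊕ Fin k) := if h : x.val < k then some (Sum.inr ⟨x.val, h⟩) else none

/-- the cut condition for a pair of colourings -/
def Conn (k : ℕ) {E : Type*} (c c' : E → Fin (k + 1)) : Prop :=
  ∀ U : Finset (Option (Fin k ⊕ Fin k)), U.Nonempty → none ∉ U →
    ∃ e, (vL k (c e) ∈ U ∧ vR k (c' e) ∉ U) ∨ (vL k (c e) ∉ U ∧ vR k (c' e) ∈ U)

private theorem T09_num {k s s' w w' : ℕ} (h1 : s + w = k + 1) (h2 : s' + w' = k + 1)
    (h3 : 1 ≤ w) (h4 : 1 ≤ w') (h5 : 1 ≤ s + s') : s * s' + w * w' ≤ k * (k + 1) := by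
  rcases Nat.eq_zero_or_pos s with hs | hs
  · subst hs
    have h6 : w = k + 1 := by omega
    have h7 : w' ≤ k := by omega
    rw [h6, zero_mul, zero_add, mul_comm k]
    exact Nat.mul_le_mul_left _ h7
  · obtain ⟨u, rfl⟩ : ∃ u, s = u + 1 := ⟨s - 1, by omega⟩
    obtain ⟨t, rfl⟩ : ∃ t, w = t + 1 := ⟨w - 1, by omega⟩
    have h6 : k = u + 1 + t := by omega
    calc (u + 1) * s' + (t + 1) * w' ≤ (u + 1) * s' + (t + 1) * w' + (t * s' + u * w') :=
          Nat.le_add_right _ _
      _ = (u + 1 + t) * (s' + w') := by ring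
      _ = k * (k + 1) := by rw [← h6, h2]

open Classical in
private noncomputable def T09_R (k : ℕ) (W : Finset (Fin k ⊕ Fin k)) :
    Finset (Fin (k + 1) × Fin (k + 1)) :=
  univ.filter fun p => (vL k p.1 ∈ W.map Function.Embedding.some ↔
    vR k p.2 ∈ W.map Function.Embedding.some)

private theorem T09_last (k : ℕ) (W : Finset (Fin k ⊕ Fin k)) :
    vL k (Fin.last k) ∉ W.map Function.Embedding.some ∧
      vR k (Fin.last k) ∉ W.map Function.Embedding.some := by
  have h1 : vL k (Fin.last k) = none := by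
    unfold vL
    rw [dif_neg (by simp)]
  have h2 : vR k (Fin.last k) = none := by
    unfold vR
    rw [dif_neg (by simp)]
  rw [h1, h2]
  simp

private theorem T09_card (k : ℕ) (W : Finset (Fin k ⊕ Fin k)) (hW : W.Nonempty) :
    (T09_R k W).card ≤ k * (k + 1) := by
  classical
  set A : Finset (Fin (k + 1)) := univ.filter fun x =>
    vL k x ∈ W.map Function.Embedding.some with hA
  set B : Finset (Fin (k + 1)) := univ.filter fun x =>
    vR k x ∈ W.map Function.Embedding.some with hB
  have hsub : T09_R k W ⊆ (A ×ˢ B) ∪ (Aᶜ ×ˢ Bᶜ) := by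
    intro p hp
    have h1 : vL k p.1 ∈ W.map Function.Embedding.some ↔
        vR k p.2 ∈ W.map Function.Embedding.some := (mem_filter.1 hp).2
    rw [mem_union, mem_product, mem_product, mem_compl, mem_compl, hA, hB, mem_filter,
      mem_filter]
    by_cases h2 : vL k p.1 ∈ W.map Function.Embedding.some
    · exact Or.inl ⟨⟨mem_univ _, h2⟩, ⟨mem_univ _, h1.1 h2⟩⟩
    · exact Or.inr ⟨fun h => h2 h.2, fun h => h2 (h1.2 h.2)⟩
  have h1 : A.card + Aᶜ.card = k + 1 := by
    rw [card_add_card_compl, Fintype.card_fin]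
  have h2 : B.card + Bᶜ.card = k + 1 := by
    rw [card_add_card_compl, Fintype.card_fin]
  have h3 : 1 ≤ Aᶜ.card := by
    rw [Nat.one_le_iff_ne_zero, ← Nat.pos_iff_ne_zero, card_pos]
    refine ⟨Fin.last k, ?_⟩
    rw [mem_compl, hA, mem_filter]
    exact fun h => (T09_last k W).1 h.2
  have h4 : 1 ≤ Bᶜ.card := by
    rw [Nat.one_le_iff_ne_zero, ← Nat.pos_iff_ne_zero, card_pos]
    refine ⟨Fin.last k, ?_⟩
    rw [mem_compl, hB, mem_filter]
    exact fun h => (T09_last k W).2 h.2
  have h5 : 1 ≤ A.card + B.card := by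
    obtain ⟨w, hw⟩ := hW
    rcases w with i | i
    · have h6 : 0 < A.card := by
        rw [card_pos]
        refine ⟨i.castSucc, ?_⟩
        rw [hA, mem_filter]
        refine ⟨mem_univ _, ?_⟩
        have h7 : vL k i.castSucc = some (Sum.inl i) := by
          unfold vL
          rw [dif_pos (by simp)]
          rfl
        rw [h7]
        exact mem_map_of_mem Function.Embedding.some hw
      omega
    · have h6 : 0 < B.card := by
        rw [card_pos]
        refine ⟨i.castSucc, ?_⟩
        rw [hB, mem_filter]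
        refine ⟨mem_univ _, ?_⟩
        have h7 : vR k i.castSucc = some (Sum.inr i) := by
          unfold vR
          rw [dif_pos (by simp)]
          rfl
        rw [h7]
        exact mem_map_of_mem Function.Embedding.some hw
      omega
  calc (T09_R k W).card ≤ ((A ×ˢ B) ∪ (Aᶜ ×ˢ Bᶜ)).card := card_le_card hsub
    _ ≤ (A ×ˢ B).card + (Aᶜ ×ˢ Bᶜ).card := card_union_le _ _
    _ = A.card * B.card + Aᶜ.card * Bᶜ.card := by rw [card_product, card_product]
    _ ≤ k * (k + 1) := T09_num h1 h2 h3 h4 h5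

theorem T09 (k : ℕ) {E : Type*} [Fintype E] [DecidableEq E] :
    open Classical in ((univ : Finset ((E → Fin (k + 1)) × (E → Fin (k + 1)))).filter fun q => ¬ Conn k q.1 q.2).card ≤
      4 ^ k * (k * (k + 1)) ^ Fintype.card E := by
  classical
  have hsub : ((univ : Finset ((E → Fin (k + 1)) × (E → Fin (k + 1)))).filter
      fun q => ¬ Conn k q.1 q.2) ⊆
      ((univ : Finset (Finset (Fin k ⊕ Fin k))).filter fun W => W.Nonempty).biUnion
        (fun W => (Fintype.piFinset (fun _ : E => T09_R k W)).image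
          (fun h => ((fun e => (h e).1), (fun e => (h e).2)))) := by
    intro q hq
    have h1 : ¬ Conn k q.1 q.2 := (mem_filter.1 hq).2
    unfold Conn at h1
    push Not at h1
    obtain ⟨U, hU, hn, h2⟩ := h1
    rw [mem_biUnion]
    have hUW : (Finset.eraseNone U).map Function.Embedding.some = U := by
      rw [Finset.map_some_eraseNone, Finset.erase_eq_of_notMem hn]
    refine ⟨Finset.eraseNone U, ?_, ?_⟩
    · rw [mem_filter]
      refine ⟨mem_univ _, ?_⟩
      rw [← hUW, Finset.map_nonempty] at hU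
      exact hU
    · rw [mem_image]
      refine ⟨fun e => (q.1 e, q.2 e), ?_, rfl⟩
      rw [Fintype.mem_piFinset]
      intro e
      unfold T09_R
      rw [mem_filter, hUW]
      refine ⟨mem_univ _, ?_⟩
      obtain ⟨h3, h4⟩ := h2 e
      constructor
      · exact fun h => h3 h
      · intro h
        by_contra h5
        exact h4 h5 h
  calc _ ≤ _ := card_le_card hsub
    _ ≤ ∑ W ∈ ((univ : Finset (Finset (Fin k ⊕ Fin k))).filter fun W => W.Nonempty),
        (k * (k + 1)) ^ Fintype.card E := by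
      refine card_biUnion_le.trans (sum_le_sum fun W hW => ?_)
      refine card_image_le.trans ?_
      rw [Fintype.card_piFinset, prod_const, card_univ]
      exact Nat.pow_le_pow_left (T09_card k W (mem_filter.1 hW).2) _
    _ ≤ 4 ^ k * (k * (k + 1)) ^ Fintype.card E := by
      rw [sum_const, smul_eq_mul]
      refine Nat.mul_le_mul_right _ ?_
      refine (card_filter_le _ _).trans ?_
      rw [card_univ, Fintype.card_finset, Fintype.card_sum, Fintype.card_fin, ← two_mul, pow_mul]
      norm_num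

end Pool.Agent.Lib.TTC
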