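import Pool.Agent.Lib.MP_092512_nt.TT.C.Cyc
import Pool.Agent.Lib.MP_092512_nt.TT.C.T09
import Pool.Agent.Lib.MP_092512_nt.TT.C.FLM
import Pool.Agent.Lib.MP_092512_nt.TT.C.Loc

/-!
# PDefs (version 2): definitions for the pair lemma (TC_PAIR.md)

Slots `0, …, k` (`m = k + 1` of them), ground slot `k`. `K = log N` (`N` is the scale). Text index `i` is `i - 1` here. The local forms are those of `Loc`.
Version 2: all local conditions depend on `X` only through the class `ycl T p X` of `Y = X - D h` modulo `p`; the averages `av` need only `Finite`;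
`Msr.OK.eq` only for the moduli `q` squarefree whose primes are `< p0` or do not divide `N`.
Version 3: the numbers of the cycles lie in prescribed classes modulo `p ^ r` for the primes `p < p0`; the conditions at `p < p0` are for the class `yc` of `Y`
modulo `p ^ r` (a datum); `E = D M`, `M = W0 ^ (r - 1)`; the local rings have the moduli `p ^ (v_p(E) + 1)`.
-/

set_option autoImplicit false

open Finset

namespace Pool.Agent.Lib.TTC

/-- the average of a function over a finite type -/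
noncomputable def av {α : Type*} [Finite α] (f : α → ℝ) : ℝ := (∑ᶠ a, f a) / (Nat.card α : ℝ)

/-- the indicator of a proposition -/
noncomputable def ind (P : Prop) : ℝ := by
  classical
  exact if P then 1 else 0

/-! ### marks -/

/-- the cell of a prime -/
noncomputable def cell (N l : ℕ) : ℕ := ⌊Real.log N * Real.log l⌋₊

/-- the free elements: `inl f` = free prime number `f` of `X`, `inr f` = free prime number `f` of `Y` -/
abbrev FE (n0 : ℕ) := Fin n0 ⊕ Fin n0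

/-- A system of marks: windows `WX i`, `WY i` of the `α_i`, `β_i`, free pieces `FX`, `FY`, other marks `OX`, `OY`, and the completion of a
colouring of the free elements: the colours `cX`, `cY` of the other marks depend on the colouring, on the cells of the free primes
(of `X`, of `Y`) and on the other marks. -/
structure MS where
  k : ℕ
  n0 : ℕ
  nX : ℕ
  nY : ℕ
  WX : Fin (k + 1) → Finset ℕ
  WY : Fin (k + 1) → Finset ℕ
  FX : Fin n0 → Finset ℕ
  FY : Fin n0 → Finset ℕ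
  OX : Fin nX → Finset ℕ
  OY : Fin nY → Finset ℕ
  cX : (FE n0 → Fin (k + 1)) → (Fin n0 → ℕ) → (Fin n0 → ℕ) → (Fin nX → ℕ) → (Fin nY → ℕ) → Fin nX → Fin (k + 1)
  cY : (FE n0 → Fin (k + 1)) → (Fin n0 → ℕ) → (Fin n0 → ℕ) → (Fin nX → ℕ) → (Fin nY → ℕ) → Fin nY → Fin (k + 1)

/-- colourings -/
abbrev MS.Col (S : MS) := FE S.n0 → Fin (S.k + 1)

/-- tuples of `X`: windows, free primes, other marks -/
abbrev MS.TX (S : MS) := (Fin (S.k + 1) → ℕ) × (Fin S.n0 → ℕ) × (Fin S.nX → ℕ)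

/-- tuples of `Y` -/
abbrev MS.TY (S : MS) := (Fin (S.k + 1) → ℕ) × (Fin S.n0 → ℕ) × (Fin S.nY → ℕ)

/-- the set of the tuples of `X` -/
def MS.MX (S : MS) : Finset S.TX := Fintype.piFinset S.WX ×ˢ (Fintype.piFinset S.FX ×ˢ Fintype.piFinset S.OX)

/-- the set of the tuples of `Y` -/
def MS.MY (S : MS) : Finset S.TY := Fintype.piFinset S.WY ×ˢ (Fintype.piFinset S.FY ×ˢ Fintype.piFinset S.OY)

/-- the product of a function over the primes of a tuple of `X` -/
def MS.prX {M : Type*} [CommMonoid M] (S : MS) (h : ℕ → M) (μ : S.TX) : M := (∏ i, h (μ.1 i)) * (∏ f, h (μ.2.1 f)) * ∏ e, h (μ.2.2 e)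

/-- the product of a function over the primes of a tuple of `Y` -/
def MS.prY {M : Type*} [CommMonoid M] (S : MS) (h : ℕ → M) (ν : S.TY) : M := (∏ i, h (ν.1 i)) * (∏ f, h (ν.2.1 f)) * ∏ e, h (ν.2.2 e)

/-- a finite sequence extended by `1` -/
def ext1 {M : Type*} [One M] {n : ℕ} (a : Fin n → M) (i : ℕ) : M := if h : i < n then a ⟨i, h⟩ else 1

/-- the colours of the other marks of `X` -/
noncomputable def MS.kX (S : MS) (N : ℕ) (c : S.Col) (μ : S.TX) (ν : S.TY) : Fin S.nX → Fin (S.k + 1) :=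
  S.cX c (fun f => cell N (μ.2.1 f)) (fun f => cell N (ν.2.1 f)) μ.2.2 ν.2.2

/-- the colours of the other marks of `Y` -/
noncomputable def MS.kY (S : MS) (N : ℕ) (c : S.Col) (μ : S.TX) (ν : S.TY) : Fin S.nY → Fin (S.k + 1) :=
  S.cY c (fun f => cell N (μ.2.1 f)) (fun f => cell N (ν.2.1 f)) μ.2.2 ν.2.2

/-- the product of a function over the free primes of `X` of colour `i` -/
def MS.fX {M : Type*} [CommMonoid M] (S : MS) (h : ℕ → M) (c : S.Col) (μ : S.TX) (i : ℕ) : M :=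
  ∏ f ∈ univ.filter (fun f => (c (Sum.inl f) : ℕ) = i), h (μ.2.1 f)

/-- the product of a function over the free primes of `Y` of colour `i` -/
def MS.fY {M : Type*} [CommMonoid M] (S : MS) (h : ℕ → M) (c : S.Col) (ν : S.TY) (i : ℕ) : M :=
  ∏ f ∈ univ.filter (fun f => (c (Sum.inr f) : ℕ) = i), h (ν.2.1 f)

/-- the product of a function over the other marks of `X` of colour `i` -/
noncomputable def MS.oX {M : Type*} [CommMonoid M] (S : MS) (N : ℕ) (h : ℕ → M) (c : S.Col) (μ : S.TX) (ν : S.TY) (i : ℕ) : M :=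
  ∏ e ∈ univ.filter (fun e => (S.kX N c μ ν e : ℕ) = i), h (μ.2.2 e)

/-- the product of a function over the other marks of `Y` of colour `i` -/
noncomputable def MS.oY {M : Type*} [CommMonoid M] (S : MS) (N : ℕ) (h : ℕ → M) (c : S.Col) (μ : S.TX) (ν : S.TY) (i : ℕ) : M :=
  ∏ e ∈ univ.filter (fun e => (S.kY N c μ ν e : ℕ) = i), h (ν.2.2 e)

/-- the short cofactors `A_i`, `i < k`; the long cofactor `A_k` is `X` divided by all the rest -/
noncomputable def MS.AA (S : MS) (N : ℕ) (c : S.Col) (μ : S.TX) (ν : S.TY) (X : ℕ) (i : ℕ) : ℕ :=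
  if i < S.k then S.fX id c μ i * S.oX N id c μ ν i
  else X / ((∏ i, μ.1 i) * ∏ i ∈ range S.k, S.fX id c μ i * S.oX N id c μ ν i)

/-- the short cofactors `B_i`, `i < k`; the long cofactor `B_k` is `Y` divided by all the rest -/
noncomputable def MS.BB (S : MS) (N : ℕ) (c : S.Col) (μ : S.TX) (ν : S.TY) (Y : ℕ) (i : ℕ) : ℕ :=
  if i < S.k then S.fY id c ν i * S.oY N id c μ ν i
  else Y / ((∏ i, ν.1 i) * ∏ i ∈ range S.k, S.fY id c ν i * S.oY N id c μ ν i)

/-- the integer `S` of a colouring (it does not depend on the long cofactors) -/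
noncomputable def MS.SI (S : MS) (N : ℕ) (c : S.Col) (μ : S.TX) (ν : S.TY) : ℕ :=
  Sm (S.AA N c μ ν 0) (S.BB N c μ ν 0) (ext1 μ.1) (ext1 ν.1) (S.k + 1)

/-- all colours `< k` are used -/
def MS.CC (S : MS) : Finset S.Col := by
  classical
  exact univ.filter fun c => ∀ j : Fin S.k, ∃ e, c e = j.castSucc

/-! ### residues -/

/-- the class of a natural number in the group of units modulo `q` (`1` if it is not coprime to `q`) -/
noncomputable def toU (q n : ℕ) : (ZMod q)ˣ := by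
  classical
  exact if h : n.Coprime q then ZMod.unitOfCoprime n h else 1

/-- the sequence `p_j = ∏_{l<j} x_l`, `x_l = α_{l+1} y_l ∏_{c e = l} s_e` -/
def pj {H E : Type*} [CommGroup H] [Fintype E] {k : ℕ} (c : E → Fin (k + 1)) (α : Fin (k + 1) → H) (y : Fin k → H) (s : E → H) : ℕ → H :=
  Loc.pr k (fun l => α l.succ * Loc.sl c y s l)

/-- the residues of the `α` -/
noncomputable def rs (q : ℕ) {n : ℕ} (α : Fin n → ℕ) : Fin n → (ZMod q)ˣ := fun i => toU q (α i)

/-- the part of the slots which comes from the `β` and from the other marks -/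
noncomputable def MS.yy (S : MS) (N q : ℕ) (c : S.Col) (μ : S.TX) (ν : S.TY) : Fin S.k → (ZMod q)ˣ := fun j =>
  (toU q (ν.1 j.castSucc))⁻¹ * (S.oX N (toU q) c μ ν j * (S.oY N (toU q) c μ ν j)⁻¹)

/-- the residues of the free primes -/
noncomputable def MS.fr (S : MS) (q : ℕ) (μ : S.TX) (ν : S.TY) : FE S.n0 → (ZMod q)ˣ :=
  Sum.elim (fun f => toU q (μ.2.1 f)) (fun f => (toU q (ν.2.1 f))⁻¹)

/-- the `α` modulo `q`, extended by `1` -/
noncomputable def aq (q : ℕ) {n : ℕ} (α : Fin n → ℕ) : ℕ → (ZMod q)ˣ := Loc.ex n (rs q α)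

/-- the vector `(p_j)` of a colouring modulo `q` -/
noncomputable def MS.pq (S : MS) (N q : ℕ) (c : S.Col) (μ : S.TX) (ν : S.TY) : ℕ → (ZMod q)ˣ :=
  pj c (rs q μ.1) (S.yy N q c μ ν) (S.fr q μ ν)

/-! ### local conditions: modulus `p ^ (v_p(D) + 1)` -/

/-- the local ring -/
abbrev RP (D p : ℕ) := ZMod (p ^ (padicValNat p D + 1))

/-- the local group -/
abbrev HP (D p : ℕ) := (ZMod (p ^ (padicValNat p D + 1)))ˣ

/-- the numerical data of the problem: `N` (the scale: only its logarithm and its powers are used), the shift `h` (`b = a - h`), the further shifts `G`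
(the members `a + g`), the multiplier `l` (`1` or a prime), `D`, `p0` (small primes), `y` (roughness of `a`), `y0`, `z` (roughness of `b` and of the
members `a + g`), `np` (class of `a` modulo the powers `p ^ r` of the small primes), `yc` (class of `Y` modulo these powers), `M = W0 ^ (r - 1)` -/
structure Dat where
  N : ℕ
  h : ℤ
  G : Finset ℤ
  l : ℕ
  D : ℕ
  p0 : ℕ
  y : ℕ
  y0 : ℕ
  z : ℕ
  np : ℕ → ℕ
  r : ℕ
  M : ℕ
  yc : ℕ

/-- `D` times the factor for the prescribed classes modulo `p ^ r` -/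
def Dat.E (T : Dat) : ℕ := T.D * T.M

/-- the kinds of the forms: `(false, 0)` is `t_i β_i = b`, `(b, h + g)` is `t_i γ + h + g` with `γ = α_i` or `γ = β_i` -/
def Dat.Js (T : Dat) : Finset (Bool × ℤ) := insert (false, 0) (univ ×ˢ T.G.image (fun g => T.h + g))

/-- the indices of the forms -/
def Dat.Fs (T : Dat) (k : ℕ) : Finset (ℕ × Bool × ℤ) := range (k + 1) ×ˢ T.Js

/-- the number of the forms -/
def Dat.F (T : Dat) (k : ℕ) : ℕ := (k + 1) * T.Js.card

/-- `Y = X - D h` as a natural number -/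
def Dat.Y (T : Dat) (X : ℕ) : ℕ := ((X : ℤ) - T.D * T.h).toNat

/-- the class of `Y = X - D h` modulo `p` -/
def ycl (T : Dat) (p : ℕ) (X : ℤ) : ℕ := ((X - T.D * T.h) % p).toNat

/-- the condition at `p < p0`, for the class `yc` of `Y` modulo `p ^ r` -/
def cS (T : Dat) (k p : ℕ) (al be P : ℕ → HP T.E p) : Prop :=
  (∀ j ≤ k, (p : RP T.E p) ^ T.r ∣ (P j : RP T.E p) - 1) ∧
    (al 0 : RP T.E p) * T.yc * Loc.Sg (k + 1) al be P = (T.np p : RP T.E p) * T.D

/-- `p^a ∣ Sg` -/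
def cD (T : Dat) (k p : ℕ) (al be P : ℕ → HP T.E p) : Prop := (p : RP T.E p) ^ padicValNat p T.E ∣ Loc.Sg (k + 1) al be P

/-- the condition at `p` (only for `p < p0` or `p ∣ D`); the argument `yn` is not used -/
def cP (T : Dat) (k p _yn : ℕ) (al be P : ℕ → HP T.E p) : Prop := if p < T.p0 then cS T k p al be P else cD T k p al be P

/-- `p` is bad (for `p0 ≤ p ≤ y0`): it divides some form, or (`p ≤ y`) some `e_i`. Only for `p ∤ X Y`, or `p = l`, `p ∤ Y`. -/
def bP (T : Dat) (k p yn : ℕ) (al be P : ℕ → HP T.E p) : Prop :=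
  cD T k p al be P ∧ ¬ p ∣ yn ∧ (¬ (p : ℤ) ∣ yn + T.D * T.h ∨ p = T.l) ∧
  ((∃ f ∈ T.Fs k, Loc.Fk (k + 1) al be P (T.D : RP T.E p) yn (T.h : RP T.E p) f = 0) ∨
    (p ≤ T.y ∧ ∃ i ≤ k, Loc.Ei (k + 1) al be P ((T.D : RP T.E p) * T.h) yn i = 0))

/-- the primes with a condition -/
def Dat.base (T : Dat) : Finset ℕ := (range (T.y0 + 1)).filter fun p => p.Prime ∧ (p < T.p0 ∨ p ∣ T.D)

/-- the primes of the small sieve -/
def Dat.PS (T : Dat) : Finset ℕ := (range (T.y0 + 1)).filter fun p => p.Prime ∧ T.p0 ≤ p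

/-- the primes of the large sieve -/
def Dat.PL (T : Dat) : Finset ℕ := (range (T.z + 1)).filter fun p => p.Prime ∧ T.y0 < p

/-- all conditions hold -/
def MS.LL (S : MS) (T : Dat) (c : S.Col) (μ : S.TX) (ν : S.TY) (X : ℤ) : Prop :=
  ∀ p ∈ T.base, cP T S.k p (ycl T p X) (aq _ μ.1) (aq _ ν.1) (S.pq T.N _ c μ ν)

/-- the bad primes of the small sieve -/
noncomputable def MS.bad (S : MS) (T : Dat) (c : S.Col) (μ : S.TX) (ν : S.TY) (X : ℤ) : Finset ℕ := by
  classical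
  exact T.PS.filter fun p => bP T S.k p (ycl T p X) (aq _ μ.1) (aq _ ν.1) (S.pq T.N _ c μ ν)

/-- `p` (a prime not dividing `D` and the marks) divides some form -/
def MS.hit (S : MS) (T : Dat) (c : S.Col) (μ : S.TX) (ν : S.TY) (X : ℤ) (p : ℕ) : Prop :=
  ∃ f ∈ T.Fs S.k, Loc.Fk (S.k + 1) (aq p μ.1) (aq p ν.1) (S.pq T.N p c μ ν) (T.D : ZMod p) ((X : ZMod p) - T.D * T.h) (T.h : ZMod p) f = 0

/-- the special primes of the large sieve; `v` is a modulus, `x0` the exceptional class of the type 2 measures (`t2`) -/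
noncomputable def MS.spec (S : MS) (T : Dat) (v : ℕ) (x0 : ℤ) (t2 : Prop) (c : S.Col) (μ : S.TX) (ν : S.TY) : Finset ℕ := by
  classical
  exact T.PL.filter fun p => p ∣ v * S.prX id μ * S.prY id ν * S.SI T.N c μ ν ∨ (t2 ∧ S.hit T c μ ν x0 p)

/-- the hit primes of the large sieve -/
noncomputable def MS.hits (S : MS) (T : Dat) (v : ℕ) (x0 : ℤ) (t2 : Prop) (c : S.Col) (μ : S.TX) (ν : S.TY) (X : ℤ) : Finset ℕ := by
  classical
  exact (T.PL \ S.spec T v x0 t2 c μ ν).filter fun p => S.hit T c μ ν X p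

/-! ### the cycle as integers -/

/-- `g 0 = e_k`, `g (i+1) = e_i`: going round the cycle -/
noncomputable def MS.gI (S : MS) (T : Dat) (c : S.Col) (μ : S.TX) (ν : S.TY) (X : ℕ) : ℕ → ℕ
  | 0 => S.SI T.N c μ ν / T.D
  | (i + 1) => (((((MS.gI S T c μ ν X i * Bp (S.k + 1) (S.BB T.N c μ ν (T.Y X)) i : ℕ) : ℤ) - T.h).toNat / ext1 μ.1 i * ext1 ν.1 i : ℕ) + T.h).toNat /
      S.AA T.N c μ ν X i

/-- `t_i` -/
noncomputable def MS.tI (S : MS) (T : Dat) (c : S.Col) (μ : S.TX) (ν : S.TY) (X i : ℕ) : ℕ :=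
  (((S.gI T c μ ν X i * Bp (S.k + 1) (S.BB T.N c μ ν (T.Y X)) i : ℕ) : ℤ) - T.h).toNat / ext1 μ.1 i

/-- the value `t_i γ + w` of the form `f = (i, b, w)`, `γ = α_i` if `b`, else `γ = β_i` -/
noncomputable def MS.fI (S : MS) (T : Dat) (c : S.Col) (μ : S.TX) (ν : S.TY) (X : ℕ) (f : ℕ × Bool × ℤ) : ℤ :=
  S.tI T c μ ν X f.1 * ((if f.2.1 then ext1 μ.1 f.1 else ext1 ν.1 f.1 : ℕ) : ℤ) + f.2.2

/-- the set of the admissible `a = n`: free of primes `≤ y`, `n - h` free of primes `≤ z`, all `n + g` free of primes `p0 ≤ p ≤ z`, `n` in the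
prescribed classes modulo the powers `p ^ r` of the primes `< p0` -/
def Dat.SSet (T : Dat) (n : ℕ) : Prop :=
  0 < n ∧ (∀ p, p.Prime → p ≤ T.y → ¬ p ∣ n) ∧ (0 < (n : ℤ) - T.h ∧ ∀ p : ℕ, p.Prime → p ≤ T.z → ¬ (p : ℤ) ∣ (n : ℤ) - T.h) ∧
    (∀ g ∈ T.G, 0 < (n : ℤ) + g ∧ ∀ p : ℕ, p.Prime → T.p0 ≤ p → p ≤ T.z → ¬ (p : ℤ) ∣ (n : ℤ) + g) ∧
    ∀ p : ℕ, p.Prime → p < T.p0 → n ≡ T.np p [MOD p ^ T.r]

/-- a good cycle -/
structure MS.Good (S : MS) (T : Dat) (c : S.Col) (μ : S.TX) (ν : S.TY) (X : ℕ) (e t : ℕ → ℕ) : Prop where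
  cyc : Cyc T.h (S.k + 1) (S.AA T.N c μ ν X) (S.BB T.N c μ ν (T.Y X)) (ext1 μ.1) (ext1 ν.1) e t
  col : c ∈ S.CC
  last : T.D * e S.k = S.SI T.N c μ ν
  cop : (S.SI T.N c μ ν).Coprime (S.prX id μ * S.prY id ν)
  setA : ∀ i < S.k + 1, T.SSet (e i * S.AA T.N c μ ν X i)
  setB : ∀ i < S.k + 1, T.SSet (e i * S.BB T.N c μ ν (T.Y X) i)
  prodA : ∏ i ∈ range (S.k + 1), ext1 μ.1 i * S.AA T.N c μ ν X i = X
  prodB : ∏ i ∈ range (S.k + 1), ext1 ν.1 i * S.BB T.N c μ ν (T.Y X) i = T.Y X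

/-! ### measures -/

/-- A measure: numbers `n` with weights `Om μ ν n`, `X = v τ n + x0` (`τ = 1`, or the product of the averaged tuple), `t2`: type 2 (weights supported on
`n` without prime factor `≤ y0`, equidistributed only in the classes of units). `hX`, `hY`, `g`: local densities. -/
structure Msr (S : MS) where
  v : ℕ
  x0 : ℤ
  t2 : Prop
  nm : ℕ
  tau : S.TX → S.TY → ℕ
  X : S.TX → S.TY → ℕ → ℕ
  Om : S.TX → S.TY → ℕ → ℝ
  W : ℝ
  hX : ℕ → ℝ
  hY : ℕ → ℝ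
  g : ℕ → ℝ

/-- the density of one class modulo `q` -/
noncomputable def Msr.gq {S : MS} (M : Msr S) (q : ℕ) : ℝ := ∏ p ∈ q.primeFactors, M.g p

/-- admissible pairs of tuples -/
def Msr.adm {S : MS} (M : Msr S) (μ : S.TX) (ν : S.TY) : Prop :=
  (S.prX id μ * S.prY id ν).Coprime M.v ∧ (S.prX id μ).Coprime (S.prY id ν)

/-- the part of the admissibility which does not concern the free primes -/
def Msr.adm0 {S : MS} (M : Msr S) (μ : S.TX) (ν : S.TY) : Prop :=
  (((∏ i, μ.1 i) * ∏ e, μ.2.2 e) * ((∏ i, ν.1 i) * ∏ e, ν.2.2 e)).Coprime M.v ∧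
    ((∏ i, μ.1 i) * ∏ e, μ.2.2 e).Coprime ((∏ i, ν.1 i) * ∏ e, ν.2.2 e)

/-- the mass of a pair of tuples, divided by `W` -/
noncomputable def Msr.m1 {S : MS} (M : Msr S) (μ : S.TX) (ν : S.TY) : ℝ := S.prX M.hX μ * S.prY M.hY ν

/-- the mass of a pair of tuples -/
noncomputable def Msr.ms {S : MS} (M : Msr S) (μ : S.TX) (ν : S.TY) : ℝ := M.W * M.m1 μ ν

/-- the total mass -/
noncomputable def Msr.tot {S : MS} (M : Msr S) : ℝ := M.W * ((∑ μ ∈ S.MX, S.prX M.hX μ) * ∑ ν ∈ S.MY, S.prY M.hY ν)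

/-- the sum over the `n` in the class `r` modulo `q` -/
noncomputable def Msr.cl {S : MS} (M : Msr S) (μ : S.TX) (ν : S.TY) (q r : ℕ) : ℝ :=
  ∑ n ∈ (range (M.nm + 1)).filter (fun n => n ≡ r [MOD q]), M.Om μ ν n

/-- the value of `X` (up to a unit factor `τ` of `n`) -/
def Msr.xr {S : MS} (M : Msr S) (r : ℕ) : ℤ := M.v * r + M.x0

/-! ### the sums -/

/-- upper (`true`) and lower (`false`) weights -/
noncomputable def wt (s : Bool) (b z : ℕ) (P : Finset ℕ) (d : Finset ℕ) : ℝ := if s then flUp b z P d else flLo b z P d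

noncomputable def Msr.Ll {S : MS} (M : Msr S) (T : Dat) (s : Bool) (b : ℕ) (c : S.Col) (μ : S.TX) (ν : S.TY) (X : ℤ) : ℝ :=
  ∑ e ∈ (S.hits T M.v M.x0 M.t2 c μ ν X).powerset, wt s b T.z T.PL e

/-- the mean value of the large sieve -/
noncomputable def Msr.Ml {S : MS} (M : Msr S) (T : Dat) (s : Bool) (b : ℕ) : ℝ :=
  ∑ e ∈ T.PL.powerset, wt s b T.z T.PL e * ∏ p ∈ e, (((T.F S.k : ℕ) : ℝ) * M.g p)

/-- the condition at `p` (if `p` is a base prime), and bad (if `B`) -/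
def cb (T : Dat) (k p yn : ℕ) (B : Prop) (al be P : ℕ → HP T.E p) : Prop :=
  (p ∈ T.base → cP T k p yn al be P) ∧ (B → bP T k p yn al be P)

/-- the proportion of the slot vectors with this condition -/
noncomputable def lav (T : Dat) (k p yn : ℕ) (B : Prop) (al be : ℕ → HP T.E p) : ℝ :=
  av fun P : Fin k → HP T.E p => ind (cb T k p yn B al be (Loc.pp k P))

/-- the number of the forbidden primes of a colouring -/
noncomputable def Msr.fm {S : MS} (M : Msr S) (T : Dat) (c : S.Col) (μ : S.TX) (ν : S.TY) (X : ℕ) : ℝ := by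
  classical
  exact if S.LL T c μ ν X then
    (((S.spec T M.v M.x0 M.t2 c μ ν).filter fun p : ℕ => ∃ f ∈ T.Fs S.k, (p : ℤ) ∣ S.fI T c μ ν X f).card : ℝ) +
    (((S.prX id μ * S.prY id ν).primeFactors.filter fun p => p ∣ S.SI T.N c μ ν).card : ℝ) else 0

/-- the event at the multiplier `l`: `l ∣ h β_i - w α_i` or `l ∣ h α_i - w β_i` for some `i` and some `w = h + g` -/
def MS.evp (S : MS) (T : Dat) (μ : S.TX) (ν : S.TY) : Prop :=
  T.l ≠ 1 ∧ ∃ i, ∃ g ∈ T.G, (T.l : ℤ) ∣ T.h * ν.1 i - (T.h + g) * μ.1 i ∨ (T.l : ℤ) ∣ T.h * μ.1 i - (T.h + g) * ν.1 i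

/-- the pair of tuples is bad at a prime of `(a, b]`: at most two indices `i` have `p ∤ α_i - β_i` -/
def MS.badpair (S : MS) (T : Dat) (a b : ℕ) (μ : S.TX) (ν : S.TY) : Prop :=
  ∃ p ∈ T.PS, a < p ∧ p ≤ b ∧ (univ.filter fun i : Fin (S.k + 1) => ¬ (μ.1 i ≡ ν.1 i [MOD p])).card ≤ 2

end Pool.Agent.Lib.TTC
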