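import Pool.Agent.Lib.MP_092512_nt.TT.C.PDefs

/-!
# POK: the properties of the data and of the mark system; further definitions for the pair lemma

`Dat.OK T W0`, `MS.OK S T W0 Z` (combinatorial properties), `MS.An S T ...` (distribution of the primes of the windows and of the pieces).
-/

set_option autoImplicit false

open Finset

namespace Pool.Agent.Lib.TTC

theorem Dat.Y_cast (T : Dat) {X : ℕ} (hX : (T.D : ℤ) * T.h < X) : ((T.Y X : ℕ) : ℤ) = (X : ℤ) - T.D * T.h := by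
  unfold Dat.Y
  exact Int.toNat_of_nonneg (by linarith)

theorem Dat.Y_castR (T : Dat) {R : Type*} [CommRing R] {X : ℕ} (hX : (T.D : ℤ) * T.h < X) : ((T.Y X : ℕ) : R) = (X : R) - (T.D : R) * (T.h : R) := by
  have h := congrArg (fun z : ℤ => (z : R)) (T.Y_cast hX)
  push_cast at h
  exact h

/-- the properties of the numerical data; `W0` is the product of the primes `< p0` -/
structure Dat.OK (T : Dat) (W0 : ℕ) : Prop where
  N_pos : 2 < T.N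
  h_ne : T.h ≠ 0
  h_lt : T.h.natAbs < T.p0
  G_ne : ∀ g ∈ T.G, g ≠ 0 ∧ T.h + g ≠ 0
  G_lt : ∀ g ∈ T.G, g.natAbs < T.p0 ∧ (T.h + g).natAbs < T.p0
  G_dd : ∀ g ∈ T.G, ∀ g' ∈ T.G, (g - g').natAbs < T.p0
  l_or : T.l = 1 ∨ (T.l.Prime ∧ T.y < T.l ∧ T.l ≤ T.y0 ∧ ¬ T.l ∣ T.D)
  W0_pr : ∀ p : ℕ, p.Prime → (p ∣ W0 ↔ p < T.p0)
  W0_sq : Squarefree W0
  r_pos : 1 ≤ T.r
  M_eq : T.M = W0 ^ (T.r - 1)
  W0_D : W0 ^ (2 * T.r) ∣ T.D
  D_pos : 0 < T.D
  E_le : T.E ≤ T.y0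
  p0_le : T.p0 ≤ T.y
  y_le : T.y ≤ T.y0
  y0_lt : T.y0 < T.z
  np : ∀ p : ℕ, p.Prime → p < T.p0 → ¬ p ∣ T.np p ∧ ¬ (p : ℤ) ∣ T.np p - T.h
  yc : ∀ p : ℕ, p.Prime → p < T.p0 → ¬ p ∣ T.yc

theorem Dat.OK.W0_pos {T : Dat} {W0 : ℕ} (h : T.OK W0) : 0 < W0 := Nat.pos_of_ne_zero h.W0_sq.ne_zero

theorem Dat.OK.M_pos {T : Dat} {W0 : ℕ} (h : T.OK W0) : 0 < T.M := by
  rw [h.M_eq]
  exact pow_pos h.W0_pos _

theorem Dat.OK.E_pos {T : Dat} {W0 : ℕ} (h : T.OK W0) : 0 < T.E := Nat.mul_pos h.D_pos h.M_pos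

theorem Dat.OK.D_le {T : Dat} {W0 : ℕ} (h : T.OK W0) : T.D ≤ T.y0 :=
  (Nat.le_mul_of_pos_right _ h.M_pos).trans h.E_le

theorem Dat.OK.W0_D2 {T : Dat} {W0 : ℕ} (h : T.OK W0) : W0 ^ 2 ∣ T.D :=
  (pow_dvd_pow W0 (by have := h.r_pos; omega)).trans h.W0_D

theorem Dat.OK.E_mul {T : Dat} {W0 : ℕ} (h : T.OK W0) {p : ℕ} (hp : p.Prime) :
    padicValNat p T.E = padicValNat p T.D + padicValNat p T.M := by
  have : Fact p.Prime := ⟨hp⟩
  exact padicValNat.mul h.D_pos.ne' h.M_pos.ne'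

/-- large primes -/
theorem Dat.OK.vE {T : Dat} {W0 : ℕ} (h : T.OK W0) {p : ℕ} (hp : p.Prime) (h0 : T.p0 ≤ p) :
    padicValNat p T.E = padicValNat p T.D := by
  rw [h.E_mul hp, h.M_eq]
  have h1 : ¬ p ∣ W0 ^ (T.r - 1) := fun h2 => by
    have := (h.W0_pr p hp).1 (hp.dvd_of_dvd_pow h2)
    omega
  rw [padicValNat.eq_zero_of_not_dvd h1, add_zero]

/-- small primes -/
theorem Dat.OK.vEs {T : Dat} {W0 : ℕ} (h : T.OK W0) {p : ℕ} (hp : p.Prime) (h0 : p < T.p0) :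
    padicValNat p T.E = padicValNat p T.D + (T.r - 1) := by
  have : Fact p.Prime := ⟨hp⟩
  rw [h.E_mul hp, h.M_eq, padicValNat.pow]
  have h1 : padicValNat p W0 = 1 := by
    have h2 : p ∣ W0 := (h.W0_pr p hp).2 h0
    have h3 := one_le_padicValNat_of_dvd h.W0_pos.ne' h2
    have h4 : ¬ 2 ≤ padicValNat p W0 := by
      intro h5
      have h6 := (padicValNat_dvd_iff_le h.W0_pos.ne').2 h5
      rw [pow_two] at h6
      have h7 := h.W0_sq p h6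
      exact hp.one_lt.ne' (Nat.isUnit_iff.1 h7)
    omega
  rw [h1, mul_one]

/-- `v_p(D) ≥ 2 r` for the small primes -/
theorem Dat.OK.vDs {T : Dat} {W0 : ℕ} (h : T.OK W0) {p : ℕ} (hp : p.Prime) (h0 : p < T.p0) : 2 * T.r ≤ padicValNat p T.D := by
  have : Fact p.Prime := ⟨hp⟩
  refine (padicValNat_dvd_iff_le h.D_pos.ne').1 ?_
  exact (pow_dvd_pow_of_dvd ((h.W0_pr p hp).2 h0) _).trans h.W0_D

theorem Dat.OK.dvdE {T : Dat} {W0 : ℕ} (h : T.OK W0) {p : ℕ} (hp : p.Prime) : p ∣ T.E ↔ p ∣ T.D := by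
  unfold Dat.E
  refine ⟨fun h1 => ?_, fun h1 => Dvd.dvd.mul_right h1 _⟩
  rcases (Nat.Prime.dvd_mul hp).1 h1 with h2 | h2
  · exact h2
  · rw [h.M_eq] at h2
    exact (hp.dvd_of_dvd_pow h2).trans ((dvd_pow_self W0 two_ne_zero).trans h.W0_D2)

/-- the residues of the free primes modulo the prime powers of a finite set of primes -/
noncomputable def MS.frP (S : MS) (T : Dat) (Q : Finset ℕ) (μ : S.TX) (ν : S.TY) : FE S.n0 → (∀ p : Q, HP T.E p) :=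
  fun e p => S.fr _ μ ν e

/-- equidistribution of the primes of one piece in the cells and residue classes, for the weight `h` -/
def SWc (N D : ℕ) (h : ℕ → ℝ) (η : ℝ) (Q0 : ℕ) (P : Finset ℕ) : Prop :=
  ∀ Q : Finset ℕ, (∀ p ∈ Q, p.Prime) → ∏ p ∈ Q, p ^ (padicValNat p D + 1) ≤ Q0 → ∀ κ : ℕ, ∀ u : (∀ p : Q, HP D p),
    open Classical in
    |∑ l ∈ P.filter (fun l => cell N l = κ ∧ ∀ p : Q, toU _ l = u p), h l -
      (∑ l ∈ P.filter (fun l => cell N l = κ), h l) / (Nat.card (∀ p : Q, HP D p) : ℝ)| ≤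
      η * ((∑ l ∈ P.filter (fun l => cell N l = κ), h l) / (Nat.card (∀ p : Q, HP D p) : ℝ))

/-- upper bound for the primes of a window in residue classes -/
def BTc (D : ℕ) (h : ℕ → ℝ) (C : ℝ) (Q0 : ℕ) (P : Finset ℕ) : Prop :=
  ∀ Q : Finset ℕ, (∀ p ∈ Q, p.Prime) → ∏ p ∈ Q, p ^ (padicValNat p D + 1) ≤ Q0 → ∀ u : (∀ p : Q, HP D p),
    open Classical in
    ∑ l ∈ P.filter (fun l => ∀ p : Q, toU _ l = u p), h l ≤ C * ((∑ l ∈ P, h l) / (Nat.card (∀ p : Q, HP D p) : ℝ))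

/-! ### roots -/

/-- the roots modulo `p`: classes of `n` such that `p` divides some `t_i` (empty for the special primes) -/
noncomputable def Msr.rts {S : MS} (M : Msr S) (T : Dat) (c : S.Col) (μ : S.TX) (ν : S.TY) (p : ℕ) : Finset ℕ := by
  classical
  exact (range p).filter fun r => p ∉ S.spec T M.v M.x0 M.t2 c μ ν ∧ S.hit T c μ ν (M.v * (M.tau μ ν * r : ℕ) + M.x0) p

/-- the exceptional primes of the large sieve -/
noncomputable def Msr.exc {S : MS} (M : Msr S) (T : Dat) (c c' : S.Col) (μ : S.TX) (ν : S.TY) : Finset ℕ := by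
  classical
  exact T.PL.filter fun p => ¬ ((M.rts T c μ ν p).card = T.F S.k ∧ (M.rts T c' μ ν p).card = T.F S.k ∧
    Disjoint (M.rts T c μ ν p) (M.rts T c' μ ν p))

/-- two roots of one colouring coincide modulo `q` -/
def coin1 (T : Dat) (k q : ℕ) (al be P : ℕ → (ZMod q)ˣ) : Prop :=
  ∃ f ∈ T.Fs k, ∃ f' ∈ T.Fs k, f ≠ f' ∧ Loc.Mk al be P (T.h : ZMod q) f = Loc.Mk al be P (T.h : ZMod q) f'

/-- coinciding roots modulo `q` (of the two colourings, or of one of them) -/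
def coin (T : Dat) (k q : ℕ) (al be P P' : ℕ → (ZMod q)ˣ) : Prop :=
  (∃ f ∈ T.Fs k, ∃ f' ∈ T.Fs k, Loc.Mk al be P (T.h : ZMod q) f * Loc.Sg (k + 1) al be P' =
    Loc.Mk al be P' (T.h : ZMod q) f' * Loc.Sg (k + 1) al be P) ∨ coin1 T k q al be P ∨ coin1 T k q al be P'

/-- coinciding roots of one colouring modulo `p1` -/
def MS.co1 (S : MS) (T : Dat) (p1 : ℕ) (c : S.Col) (μ : S.TX) (ν : S.TY) : Prop :=
  coin1 T S.k (p1 ^ (padicValNat p1 T.E + 1)) (aq _ μ.1) (aq _ ν.1) (S.pq T.N _ c μ ν)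

/-- coinciding roots of two colourings modulo `p1` -/
def Msr.co {S : MS} (_M : Msr S) (T : Dat) (p1 : ℕ) (c c' : S.Col) (μ : S.TX) (ν : S.TY) : Prop :=
  coin T S.k (p1 ^ (padicValNat p1 T.E + 1)) (aq _ μ.1) (aq _ ν.1) (S.pq T.N _ c μ ν) (S.pq T.N _ c' μ ν)

/-- `c'` is a function of `c` -/
def Fun {k : ℕ} {E : Type*} (c c' : E → Fin (k + 1)) : Prop := ∃ ψ : Fin (k + 1) → Fin (k + 1), c' = ψ ∘ c

/-! ### averages -/

/-- the average of `G (X)` over the classes of `n` modulo `q` -/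
noncomputable def Msr.ax {S : MS} (M : Msr S) (q : ℕ) (G : ℤ → ℝ) : ℝ := by
  classical
  exact ∑ r ∈ (range q).filter (fun r => M.t2 → r.Coprime q), M.gq q * G (M.xr r)

/-- the proportion of the residues of the free primes with the conditions at `p` for two colourings -/
noncomputable def lav2 (T : Dat) {k : ℕ} {E : Type*} [Fintype E] (p yn : ℕ) (B B' : Prop) (c c' : E → Fin (k + 1)) (α : Fin (k + 1) → HP T.E p)
    (y y' : Fin k → HP T.E p) (be : ℕ → HP T.E p) : ℝ :=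
  av fun s : E → HP T.E p => ind (cb T k p yn B (Loc.ex (k + 1) α) be (pj c α y s)) * ind (cb T k p yn B' (Loc.ex (k + 1) α) be (pj c' α y' s))

/-- `lav2` for a pair of tuples -/
noncomputable def MS.l2 (S : MS) (T : Dat) (c c' : S.Col) (μ : S.TX) (ν : S.TY) (X : ℤ) (B B' : Prop) (p : ℕ) : ℝ :=
  lav2 T p (ycl T p X) B B' c c' (rs _ μ.1) (S.yy T.N _ c μ ν) (S.yy T.N _ c' μ ν) (aq _ ν.1)

/-- the proportion of the residues of the free primes with coinciding roots modulo `p1` -/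
noncomputable def Msr.lco {S : MS} (_M : Msr S) (T : Dat) (p1 : ℕ) (c c' : S.Col) (μ : S.TX) (ν : S.TY) : ℝ :=
  av fun s : FE S.n0 → HP T.E p1 => ind (coin T S.k (p1 ^ (padicValNat p1 T.E + 1)) (aq _ μ.1) (aq _ ν.1)
    (pj c (rs _ μ.1) (S.yy T.N _ c μ ν) s) (pj c' (rs _ μ.1) (S.yy T.N _ c' μ ν) s))

/-- two tuples of `X` with the same key: same `α`, same cells of the free primes, same other marks -/
def MS.sX (S : MS) (N : ℕ) (μ μ' : S.TX) : Prop := μ.1 = μ'.1 ∧ (∀ f, cell N (μ.2.1 f) = cell N (μ'.2.1 f)) ∧ μ.2.2 = μ'.2.2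

/-- the same for `Y` -/
def MS.sY (S : MS) (N : ℕ) (ν ν' : S.TY) : Prop := ν.1 = ν'.1 ∧ (∀ f, cell N (ν.2.1 f) = cell N (ν'.2.1 f)) ∧ ν.2.2 = ν'.2.2

/-- the subsets `d` of the small sieve which occur -/
noncomputable def Dat.DS (T : Dat) (b1 : ℕ) : Finset (Finset ℕ) := T.PS.powerset.filter fun d => ∏ p ∈ d, p ≤ T.y0 ^ (12 * b1)

/-- good pairs of tuples -/
def Msr.gp {S : MS} (M : Msr S) (T : Dat) (μ : S.TX) (ν : S.TY) : Prop := M.adm μ ν ∧ ¬ S.badpair T 0 T.y0 μ ν ∧ ¬ S.evp T μ ν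

/-- the product of the local factors `1 + 3 m g(p)` of the large sieve -/
noncomputable def Msr.V3 {S : MS} (M : Msr S) (T : Dat) : ℝ := ∏ p ∈ T.PL, (1 + 3 * (((T.F S.k : ℕ) : ℝ) * M.g p))

end Pool.Agent.Lib.TTC
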