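import Pool.Agent.Lib.MP_092512_nt.TT.C.POK
import Pool.Agent.Lib.MP_092512_nt.TT.C.U01
import Pool.Agent.Lib.MP_092512_nt.TT.C.U14

/-!
# Q03: the integers behind `Sg`, `M_i` of a colouring

`uI l = α_{l+1} A_l`, `vI l = β_l B_l` (`l < k`; `A_l = fX * oX`, `B_l = fY * oY` are products of marks, `AA`, `BB` for `l < k`). For `q` coprime to all marks (`hq`), in `ZMod q`:
* `Q03_x`: `S.pq N q c μ ν = Loc.pr k x'` with `x' l = rs α l.succ * Loc.sl c (yy) (fr) l`; on the indices `j ≤ k` it equals `Loc.pk x j` with `x l = Loc.ex k x' l`, and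
  `x l * vI l = uI l`: `Loc.sl c y s l = y l * ∏_{e : FE, c e = l.castSucc} s e`, the product over `FE = Fin n0 ⊕ Fin n0` splits (`Fintype.prod_sum_type`) into the free primes of `X`
  (`toU`) and of `Y` (inverse `toU`) of colour `l`; `toU q n` has the value `n` for `n` coprime to `q`, `toU q` of a product of numbers coprime to `q` is the product; `y l = (toU β_l)⁻¹ oX (toU) oY (toU)⁻¹`.
* `Q03_Sg`, `Q03_Mi`: `U14_Sg`, `U14_Mi` with `m = k + 1`, `a = aq q μ.1`, `b = aq q ν.1`, `w l = toU q (vI l)` (`Loc.Sg`, `Loc.Mi` need only the indices `≤ k`: `Loc.Sg_congr`, `Loc.Mi_congr`).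
* `Q03_SI`: `U01_S` with `ca l = toU q (A l)`, `cb l = toU q (B l)`.
* `Q03_pos`: `U14_pos`, `U14_mono`: `al (l+1) vI l < be l uI l` is `B_l < A_l` (`hS.AB`); `β_i < α_i` by the windows (`2 Z i < 3 Z i`; all numbers positive).
* `Q03_size`: every one of the numbers is at most `(k + 2) (prX μ * prY ν)²` (`U14_le`; each mark occurs at most once in `∏ uI`, `∏ vI`, `∏ α β`), `≤ N` by `hS.small`, `hS.num` (`k + 2 ≤ log N`, `(log N) N^(1/5) ≤ N`).
  `Sm (k+1) ≤ (k + 1) ∏_{l ≤ k} (α_l β_l) ∏_{l<k} A_l B_l` by induction (all factors are `≥ 1`).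
-/

set_option autoImplicit false

open Finset

namespace Pool.Agent.Lib.TTC

noncomputable def MS.uI (S : MS) (N : ℕ) (c : S.Col) (μ : S.TX) (ν : S.TY) (l : ℕ) : ℕ := ext1 μ.1 (l + 1) * (S.fX id c μ l * S.oX N id c μ ν l)

noncomputable def MS.vI (S : MS) (N : ℕ) (c : S.Col) (μ : S.TX) (ν : S.TY) (l : ℕ) : ℕ := ext1 ν.1 l * (S.fY id c ν l * S.oY N id c μ ν l)

noncomputable def MS.SgI (S : MS) (N : ℕ) (c : S.Col) (μ : S.TX) (ν : S.TY) : ℤ :=
  SgZ (S.k + 1) (ext1 μ.1) (ext1 ν.1) (S.uI N c μ ν) (S.vI N c μ ν)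

noncomputable def MS.MiI (S : MS) (N : ℕ) (c : S.Col) (μ : S.TX) (ν : S.TY) (i : ℕ) : ℤ :=
  MiZ (S.k + 1) (ext1 μ.1) (ext1 ν.1) (S.uI N c μ ν) (S.vI N c μ ν) i

/-- `V M_f` -/
def MkZ (m : ℕ) (al be u v : ℕ → ℕ) (h : ℤ) (f : ℕ × Bool × ℤ) : ℤ :=
  h * MiZ m al be u v f.1 - f.2.2 * ((∏ l ∈ range f.1, (u l : ℤ)) * (∏ l ∈ Ico f.1 (m - 1), (v l : ℤ)) *
    (if f.2.1 then (be f.1 : ℤ) else (al f.1 : ℤ)) * ∏ l ∈ (range m).erase f.1, ((al l : ℤ) * be l))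

/-- the integer behind `M_f` -/
noncomputable def MS.MkI (S : MS) (T : Dat) (c : S.Col) (μ : S.TX) (ν : S.TY) (f : ℕ × Bool × ℤ) : ℤ :=
  MkZ (S.k + 1) (ext1 μ.1) (ext1 ν.1) (S.uI T.N c μ ν) (S.vI T.N c μ ν) T.h f

noncomputable def MS.VI (S : MS) (N : ℕ) (c : S.Col) (μ : S.TX) (ν : S.TY) : ℕ := VZ (S.k + 1) (ext1 μ.1) (ext1 ν.1) (S.vI N c μ ν)

variable {S : MS} {N q : ℕ} {c : S.Col} {μ : S.TX} {ν : S.TY}

private theorem q03_cop {g h : ℕ} {q : ℕ} (h1 : (g * h).Coprime q) : g.Coprime q ∧ h.Coprime q :=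
  ⟨h1.coprime_mul_right, h1.coprime_mul_left⟩

private theorem q03_copP {n : ℕ} {g : Fin n → ℕ} (h1 : (∏ i, id (g i)).Coprime q) (i : Fin n) :
    (g i).Coprime q := by
  refine Nat.Coprime.coprime_dvd_left ?_ h1
  exact dvd_prod_of_mem (fun i => id (g i)) (mem_univ i)

private theorem q03_X (hq : (S.prX id μ * S.prY id ν).Coprime q) :
    (∀ i, (μ.1 i).Coprime q) ∧ (∀ f, (μ.2.1 f).Coprime q) ∧ ∀ e, (μ.2.2 e).Coprime q := by
  have h1 := (q03_cop hq).1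
  unfold MS.prX at h1
  exact ⟨q03_copP (q03_cop (q03_cop h1).1).1, q03_copP (q03_cop (q03_cop h1).1).2,
    q03_copP (q03_cop h1).2⟩

private theorem q03_Y (hq : (S.prX id μ * S.prY id ν).Coprime q) :
    (∀ i, (ν.1 i).Coprime q) ∧ (∀ f, (ν.2.1 f).Coprime q) ∧ ∀ e, (ν.2.2 e).Coprime q := by
  have h1 := (q03_cop hq).2
  unfold MS.prY at h1
  exact ⟨q03_copP (q03_cop (q03_cop h1).1).1, q03_copP (q03_cop (q03_cop h1).1).2,
    q03_copP (q03_cop h1).2⟩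

private theorem q03_toU {n : ℕ} (h : n.Coprime q) : ((toU q n : (ZMod q)ˣ) : ZMod q) = n := by
  unfold toU
  rw [dif_pos h]
  exact ZMod.coe_unitOfCoprime n h

private theorem q03_prod {ι : Type*} (s : Finset ι) (g : ι → ℕ) (h : ∀ i ∈ s, (g i).Coprime q) :
    ((∏ i ∈ s, toU q (g i) : (ZMod q)ˣ) : ZMod q) = ((∏ i ∈ s, id (g i) : ℕ) : ZMod q) := by
  rw [Units.coe_prod, Nat.cast_prod]
  exact prod_congr rfl fun i hi => q03_toU (h i hi)

private theorem q03_fX (hq : (S.prX id μ * S.prY id ν).Coprime q) (l : ℕ) :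
    ((S.fX (toU q) c μ l : (ZMod q)ˣ) : ZMod q) = (S.fX id c μ l : ℕ) :=
  q03_prod _ _ fun i _ => (q03_X hq).2.1 i

private theorem q03_fY (hq : (S.prX id μ * S.prY id ν).Coprime q) (l : ℕ) :
    ((S.fY (toU q) c ν l : (ZMod q)ˣ) : ZMod q) = (S.fY id c ν l : ℕ) :=
  q03_prod _ _ fun i _ => (q03_Y hq).2.1 i

private theorem q03_oX (hq : (S.prX id μ * S.prY id ν).Coprime q) (l : ℕ) :
    ((S.oX N (toU q) c μ ν l : (ZMod q)ˣ) : ZMod q) = (S.oX N id c μ ν l : ℕ) :=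
  q03_prod _ _ fun i _ => (q03_X hq).2.2 i

private theorem q03_oY (hq : (S.prX id μ * S.prY id ν).Coprime q) (l : ℕ) :
    ((S.oY N (toU q) c μ ν l : (ZMod q)ˣ) : ZMod q) = (S.oY N id c μ ν l : ℕ) :=
  q03_prod _ _ fun i _ => (q03_Y hq).2.2 i

private theorem q03_ext {M : Type*} [One M] {n : ℕ} (a : Fin n → M) {i : ℕ} (h : i < n) :
    ext1 a i = a ⟨i, h⟩ := by
  unfold ext1
  rw [dif_pos h]

/-- the slot as a quotient of units -/
private theorem q03_slot (l : Fin S.k) :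
    rs q μ.1 l.succ * Loc.sl c (S.yy N q c μ ν) (S.fr q μ ν) l *
      (toU q (ν.1 l.castSucc) * (S.fY (toU q) c ν l * S.oY N (toU q) c μ ν l)) =
    toU q (μ.1 l.succ) * (S.fX (toU q) c μ l * S.oX N (toU q) c μ ν l) := by
  have h1 : (∏ e, if c e = l.castSucc then S.fr q μ ν e else 1) =
      S.fX (toU q) c μ l * (S.fY (toU q) c ν l)⁻¹ := by
    rw [Fintype.prod_sum_type]
    congr 1
    · unfold MS.fX
      rw [prod_filter]
      refine prod_congr rfl fun f _ => ?_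
      by_cases h : c (Sum.inl f) = l.castSucc
      · rw [if_pos h, if_pos (by rw [h]; rfl)]
        rfl
      · rw [if_neg h, if_neg (show ¬ ((c (Sum.inl f) : ℕ) = l) from fun h' => h (Fin.ext h'))]
    · unfold MS.fY
      rw [prod_filter, ← prod_inv_distrib]
      refine prod_congr rfl fun f _ => ?_
      by_cases h : c (Sum.inr f) = l.castSucc
      · rw [if_pos h, if_pos (by rw [h]; rfl)]
        rfl
      · rw [if_neg h, if_neg (show ¬ ((c (Sum.inr f) : ℕ) = l) from fun h' => h (Fin.ext h')), inv_one]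
  unfold Loc.sl
  rw [h1]
  unfold MS.yy rs
  generalize toU q (μ.1 l.succ) = a1
  generalize toU q (ν.1 l.castSucc) = a2
  generalize S.oX N (toU q) c μ ν l = a3
  generalize S.oY N (toU q) c μ ν l = a4
  generalize S.fX (toU q) c μ l = a5
  generalize S.fY (toU q) c ν l = a6
  calc a1 * (a2⁻¹ * (a3 * a4⁻¹) * (a5 * a6⁻¹)) * (a2 * (a6 * a4)) =
      (a2⁻¹ * a2) * (a4⁻¹ * a4) * (a6⁻¹ * a6) * (a1 * (a5 * a3)) := by
        simp only [mul_comm, mul_assoc, mul_left_comm]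
    _ = _ := by rw [inv_mul_cancel, inv_mul_cancel, inv_mul_cancel, one_mul, one_mul, one_mul]

private theorem q03_vI (hq : (S.prX id μ * S.prY id ν).Coprime q) (l : Fin S.k) :
    ((toU q (ν.1 l.castSucc) * (S.fY (toU q) c ν l * S.oY N (toU q) c μ ν l) : (ZMod q)ˣ) : ZMod q) =
      (S.vI N c μ ν l : ZMod q) := by
  unfold MS.vI
  rw [Units.val_mul, Units.val_mul, q03_toU ((q03_Y hq).1 _), q03_fY hq, q03_oY hq,
    q03_ext ν.1 (show (l : ℕ) < S.k + 1 by omega)]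
  push_cast
  rfl

private theorem q03_uI (hq : (S.prX id μ * S.prY id ν).Coprime q) (l : Fin S.k) :
    ((toU q (μ.1 l.succ) * (S.fX (toU q) c μ l * S.oX N (toU q) c μ ν l) : (ZMod q)ˣ) : ZMod q) =
      (S.uI N c μ ν l : ZMod q) := by
  unfold MS.uI
  rw [Units.val_mul, Units.val_mul, q03_toU ((q03_X hq).1 _), q03_fX hq, q03_oX hq,
    q03_ext μ.1 (show (l : ℕ) + 1 < S.k + 1 by omega)]
  push_cast
  rfl

private theorem q03_cvI (hq : (S.prX id μ * S.prY id ν).Coprime q) {l : ℕ} (hl : l < S.k) :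
    (S.vI N c μ ν l).Coprime q := by
  obtain ⟨h1, h2, h3⟩ := q03_Y hq
  unfold MS.vI MS.fY MS.oY
  rw [q03_ext ν.1 (show l < S.k + 1 by omega)]
  refine Nat.Coprime.mul_left (h1 _) (Nat.Coprime.mul_left ?_ ?_)
  · exact Nat.Coprime.prod_left fun i _ => h2 i
  · exact Nat.Coprime.prod_left fun i _ => h3 i

theorem Q03_x (hq : (S.prX id μ * S.prY id ν).Coprime q) :
    ∃ x : ℕ → (ZMod q)ˣ, (∀ j ≤ S.k, S.pq N q c μ ν j = Loc.pk x j) ∧
      ∀ l < S.k, (x l : ZMod q) * (S.vI N c μ ν l : ZMod q) = (S.uI N c μ ν l : ZMod q) := by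
  refine ⟨Loc.ex S.k (fun l => rs q μ.1 l.succ * Loc.sl c (S.yy N q c μ ν) (S.fr q μ ν) l),
    fun j _ => rfl, fun l hl => ?_⟩
  rw [Loc.ex_lt _ hl]
  have h1 := q03_slot (S := S) (N := N) (q := q) (c := c) (μ := μ) (ν := ν) ⟨l, hl⟩
  have h2 := q03_vI (N := N) (c := c) hq ⟨l, hl⟩
  have h3 := q03_uI (N := N) (c := c) hq ⟨l, hl⟩
  rw [← h2, ← h3, ← h1, Units.val_mul _ (toU q (ν.1 (Fin.castSucc ⟨l, hl⟩)) * _)]

theorem Q03_V (hq : (S.prX id μ * S.prY id ν).Coprime q) : (S.VI N c μ ν).Coprime q := by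
  unfold MS.VI VZ
  refine Nat.Coprime.mul_left ?_ ?_
  · refine Nat.Coprime.prod_left fun l hl => q03_cvI hq ?_
    rw [mem_range] at hl
    omega
  · refine Nat.Coprime.prod_left fun l hl => ?_
    rw [mem_range] at hl
    rw [q03_ext μ.1 hl, q03_ext ν.1 hl]
    exact Nat.Coprime.mul_left ((q03_X hq).1 _) ((q03_Y hq).1 _)

private theorem q03_aq {n : ℕ} {a : Fin n → ℕ} (h : ∀ i, (a i).Coprime q) {i : ℕ} (hi : i < n) :
    ((aq q a i : (ZMod q)ˣ) : ZMod q) = (ext1 a i : ℕ) := by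
  unfold aq
  rw [Loc.ex_lt _ hi, q03_ext a hi]
  exact q03_toU (h _)

theorem Q03_Sg (hq : (S.prX id μ * S.prY id ν).Coprime q) :
    ((S.SgI N c μ ν : ℤ) : ZMod q) = (S.VI N c μ ν : ZMod q) * Loc.Sg (S.k + 1) (aq q μ.1) (aq q ν.1) (S.pq N q c μ ν) := by
  obtain ⟨x, hx1, hx2⟩ := Q03_x (N := N) (c := c) hq
  have h1 := U14_Sg (R := ZMod q) (m := S.k + 1) (by omega) (ext1 μ.1) (ext1 ν.1) (S.uI N c μ ν)
    (S.vI N c μ ν) (aq q μ.1) (aq q ν.1) (fun l => toU q (S.vI N c μ ν l)) x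
    (fun i hi => q03_aq (q03_X hq).1 hi) (fun i hi => q03_aq (q03_Y hq).1 hi)
    (fun i hi => q03_toU (q03_cvI hq (by omega)))
    (fun i hi => by
      show ((x i : (ZMod q)ˣ) : ZMod q) * ((toU q (S.vI N c μ ν i) : (ZMod q)ˣ) : ZMod q) = _
      rw [q03_toU (q03_cvI hq (by omega))]
      exact hx2 i (by omega))
  have h2 : Loc.Sg (S.k + 1) (aq q μ.1) (aq q ν.1) (S.pq N q c μ ν) =
      Loc.Sg (S.k + 1) (aq q μ.1) (aq q ν.1) (Loc.pk x) :=
    Loc.Sg_congr (fun _ _ => rfl) (fun _ _ => rfl) fun j hj => hx1 j (by omega)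
  rw [h2]
  exact h1

theorem Q03_Mi (hq : (S.prX id μ * S.prY id ν).Coprime q) {i : ℕ} (hi : i ≤ S.k) :
    ((S.MiI N c μ ν i : ℤ) : ZMod q) = (S.VI N c μ ν : ZMod q) * Loc.Mi (aq q μ.1) (aq q ν.1) (S.pq N q c μ ν) i := by
  obtain ⟨x, hx1, hx2⟩ := Q03_x (N := N) (c := c) hq
  have h1 := U14_Mi (R := ZMod q) (m := S.k + 1) (i := i) (by omega) (ext1 μ.1) (ext1 ν.1) (S.uI N c μ ν)
    (S.vI N c μ ν) (aq q μ.1) (aq q ν.1) (fun l => toU q (S.vI N c μ ν l)) x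
    (fun i hi => q03_aq (q03_X hq).1 hi) (fun i hi => q03_aq (q03_Y hq).1 hi)
    (fun i hi => q03_toU (q03_cvI hq (by omega)))
    (fun i hi => by
      show ((x i : (ZMod q)ˣ) : ZMod q) * ((toU q (S.vI N c μ ν i) : (ZMod q)ˣ) : ZMod q) = _
      rw [q03_toU (q03_cvI hq (by omega))]
      exact hx2 i (by omega))
  have h2 : Loc.Mi (aq q μ.1) (aq q ν.1) (S.pq N q c μ ν) i =
      Loc.Mi (aq q μ.1) (aq q ν.1) (Loc.pk x) i :=
    Loc.Mi_congr (fun _ _ => rfl) (fun _ _ => rfl) fun j hj => hx1 j (by omega)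
  rw [h2]
  exact h1

/-- there are at least `k + 1` forms -/
theorem Dat.F_ge (T : Dat) (k : ℕ) : k + 1 ≤ T.F k := by
  unfold Dat.F
  have : 1 ≤ T.Js.card := card_pos.2 ⟨(false, 0), mem_insert_self _ _⟩
  exact Nat.le_mul_of_pos_right _ this

theorem Dat.card_Fs (T : Dat) (k : ℕ) : (T.Fs k).card = T.F k := by
  unfold Dat.Fs Dat.F
  rw [card_product, card_range]

theorem Dat.mem_Fs {T : Dat} {k : ℕ} {f : ℕ × Bool × ℤ} (hf : f ∈ T.Fs k) : f.1 ≤ k := by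
  unfold Dat.Fs at hf
  rw [mem_product, mem_range] at hf
  omega

/-- the constants `w` of the forms are `0` or `h + g` -/
theorem Dat.Fs_w {T : Dat} {W0 : ℕ} (hT : T.OK W0) {k : ℕ} {f : ℕ × Bool × ℤ} (hf : f ∈ T.Fs k) : f.2.2.natAbs < T.p0 := by
  unfold Dat.Fs Dat.Js at hf
  rw [mem_product, mem_insert, mem_product, mem_image] at hf
  rcases hf.2 with h | ⟨_, g, hg, h⟩
  · rw [h]
    have := hT.h_lt
    simp
    omega
  · rw [← h]
    exact (hT.G_lt g hg).2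

/-- `V p_i` -/
private theorem q03_Vp {R : Type*} [CommRing R] {m : ℕ} (u v : ℕ → ℕ) (w x : ℕ → Rˣ)
    (hw : ∀ i < m - 1, (w i : R) = (v i : R)) (hx : ∀ i < m - 1, (x i : R) * (w i : R) = (u i : R)) {j : ℕ} (hj : j ≤ m - 1) :
    (∏ l ∈ range (m - 1), (v l : R)) * (Loc.pk x j : R) = (∏ l ∈ range j, (u l : R)) * ∏ l ∈ Ico j (m - 1), (v l : R) := by
  rw [← prod_range_mul_prod_Ico (fun l => (v l : R)) hj]
  have h1 : ∏ l ∈ range j, (u l : R) = (∏ l ∈ range j, (v l : R)) * (Loc.pk x j : R) := by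
    rw [Loc.pk, Units.coe_prod, ← prod_mul_distrib]
    refine prod_congr rfl fun l hl => ?_
    rw [mem_range] at hl
    rw [← hx l (by omega), hw l (by omega), mul_comm]
  rw [h1]
  ring

theorem MkZ_eq {R : Type*} [CommRing R] {m : ℕ} {f : ℕ × Bool × ℤ} (hi : f.1 < m) (al be u v : ℕ → ℕ) (h : ℤ) (a b w x : ℕ → Rˣ)
    (ha : ∀ i < m, (a i : R) = (al i : R)) (hb : ∀ i < m, (b i : R) = (be i : R)) (hw : ∀ i < m - 1, (w i : R) = (v i : R))
    (hx : ∀ i < m - 1, (x i : R) * (w i : R) = (u i : R)) :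
    ((MkZ m al be u v h f : ℤ) : R) = (VZ m al be v : R) * Loc.Mk a b (Loc.pk x) (h : R) f := by
  have h0 := U14_Mi (R := R) hi al be u v a b w x ha hb hw hx
  have h1 := q03_Vp u v w x hw hx (j := f.1) (by omega)
  have h2 : (∏ l ∈ range m, ((al l : R) * be l)) = ((al f.1 : R) * be f.1) * ∏ l ∈ (range m).erase f.1, ((al l : R) * be l) :=
    (mul_prod_erase (range m) (fun l => (al l : R) * be l) (mem_range.2 hi)).symm
  have ea : (al f.1 : R) * (((a f.1)⁻¹ : Rˣ) : R) = 1 := by rw [← ha f.1 hi, Units.mul_inv]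
  have eb : (be f.1 : R) * (((b f.1)⁻¹ : Rˣ) : R) = 1 := by rw [← hb f.1 hi, Units.mul_inv]
  have hM : Loc.Mk a b (Loc.pk x) (h : R) f = (h : R) * Loc.Mi a b (Loc.pk x) f.1 -
      (f.2.2 : R) * ((Loc.pk x f.1 : R) * (if f.2.1 then (((a f.1)⁻¹ : Rˣ) : R) else (((b f.1)⁻¹ : Rˣ) : R))) := by
    unfold Loc.Mk Loc.Mi
    ring
  rw [hM]
  unfold MkZ
  push_cast
  rw [h0]
  have key : (∏ l ∈ range f.1, (u l : R)) * (∏ l ∈ Ico f.1 (m - 1), (v l : R)) * (if f.2.1 then (be f.1 : R) else (al f.1 : R)) *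
      (∏ l ∈ (range m).erase f.1, ((al l : R) * be l)) =
      (VZ m al be v : R) * ((Loc.pk x f.1 : R) * (if f.2.1 then (((a f.1)⁻¹ : Rˣ) : R) else (((b f.1)⁻¹ : Rˣ) : R))) := by
    unfold VZ
    push_cast
    rw [h2, ← h1]
    split
    · linear_combination -(∏ l ∈ range (m - 1), (v l : R)) * (Loc.pk x f.1 : R) * (∏ l ∈ (range m).erase f.1, ((al l : R) * be l)) *
        (be f.1 : R) * ea
    · linear_combination -(∏ l ∈ range (m - 1), (v l : R)) * (Loc.pk x f.1 : R) * (∏ l ∈ (range m).erase f.1, ((al l : R) * be l)) *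
        (al f.1 : R) * eb
  rw [key]
  ring

theorem Q03_Mk {T : Dat} (hq : (S.prX id μ * S.prY id ν).Coprime q) {f : ℕ × Bool × ℤ} (hi : f.1 ≤ S.k) :
    ((S.MkI T c μ ν f : ℤ) : ZMod q) = (S.VI T.N c μ ν : ZMod q) *
      Loc.Mk (aq q μ.1) (aq q ν.1) (S.pq T.N q c μ ν) (T.h : ZMod q) f := by
  obtain ⟨x, hx1, hx2⟩ := Q03_x (N := T.N) (c := c) hq
  have h1 := MkZ_eq (R := ZMod q) (m := S.k + 1) (f := f) (by omega) (ext1 μ.1) (ext1 ν.1) (S.uI T.N c μ ν)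
    (S.vI T.N c μ ν) T.h (aq q μ.1) (aq q ν.1) (fun l => toU q (S.vI T.N c μ ν l)) x
    (fun i hi => q03_aq (q03_X hq).1 hi) (fun i hi => q03_aq (q03_Y hq).1 hi)
    (fun i hi => q03_toU (q03_cvI hq (by omega)))
    (fun i hi => by
      show ((x i : (ZMod q)ˣ) : ZMod q) * ((toU q (S.vI T.N c μ ν i) : (ZMod q)ˣ) : ZMod q) = _
      rw [q03_toU (q03_cvI hq (by omega))]
      exact hx2 i (by omega))
  have h2 : Loc.Mk (aq q μ.1) (aq q ν.1) (S.pq T.N q c μ ν) (T.h : ZMod q) f =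
      Loc.Mk (aq q μ.1) (aq q ν.1) (Loc.pk x) (T.h : ZMod q) f := by
    unfold Loc.Mk
    rw [hx1 f.1 hi]
    congr 2
    refine sum_congr rfl fun j hj => ?_
    rw [mem_range] at hj
    rw [hx1 j (by omega)]
  rw [h2]
  exact h1

end Pool.Agent.Lib.TTC
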