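import Pool.Agent.Lib.MP_092512_nt.TT.C.Q03

/-!
# Q04: the roots of the large sieve at one prime

`p ∈ T.PL` (prime, `y0 < p ≤ z`); if `p ∉ spec` then `p` divides none of `N`, `v`, the marks, `SI` (spec), nor `D` (`0 < D ≤ y0 < p`), nor `τ` (`= 1` or the product of the marks of `μ`).
* `Q04_iff`: on the support of `Om`, `X = v τ n + x0` in `ℤ`, so modulo `p` `X` is the value at `n % p`; `hit` depends on `X` only modulo `p`.
* `Q04_one`: `Ti i` at `X` is `DN (M_i + Sg) - X Sg` (`Y = X - DN`), `Sg` is a unit (`Q03_SI`, `p ∤ SI`): with `X = v τ r + x0` it vanishes for exactly one `r < p`.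
* `Q04_le`: `rts` is contained in the union over `i ≤ k` of the one-element sets of roots (empty if `p ∈ spec`).
* `Q04_card`: the root of `i` is `r_i` with `(v τ r_i + x0) Sg = DN (M_i + Sg)`; `r_i = r_j` iff `M_i = M_j` in `ZMod p` iff `p ∣ MiI j - MiI i` (`Q03_Mi`, `Q03_V`).
* `Q04_disj`: a common root `r` of `i` for `c` and `j` for `c'`: `(v τ r + x0) = DN (M_i + Sg)/Sg = DN (M'_j + Sg')/Sg'`, so `M_i Sg' = M'_j Sg`, `p ∣ MiI(c,i) SgI(c') - MiI(c',j) SgI(c)`.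
* `Q04_zero` (type 2): `0 ∉ rts` because the value at `r = 0` is `x0` and `hit .. x0 p` makes `p` special.
-/

set_option autoImplicit false

open Finset

namespace Pool.Agent.Lib.TTC

variable {S : MS} {T : Dat} {W0 : ℕ} {Z : Fin (S.k + 1) → ℕ} {M : Msr S} {δ0 δ1 : ℝ} {c c' : S.Col} {μ : S.TX} {ν : S.TY} {p : ℕ}

private theorem q04_mem {r : ℕ} : r ∈ M.rts T c μ ν p ↔
    r < p ∧ p ∉ S.spec T M.v M.x0 M.t2 c μ ν ∧ S.hit T c μ ν (M.v * (M.tau μ ν * r : ℕ) + M.x0) p := by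
  classical
  unfold Msr.rts
  rw [Finset.mem_filter, Finset.mem_range]

private theorem q04_spec (hp : p ∈ T.PL) (hs : p ∉ S.spec T M.v M.x0 M.t2 c μ ν) :
    ¬ p ∣ M.v * S.prX id μ * S.prY id ν * S.SI T.N c μ ν := fun h => hs (by
  classical
  unfold MS.spec
  exact Finset.mem_filter.2 ⟨hp, Or.inl h⟩)

theorem Q04_zero (hp : p ∈ T.PL) (h2 : M.t2) : 0 ∉ M.rts T c μ ν p := by
  intro h
  classical
  obtain ⟨_, h3, h4⟩ := q04_mem.1 h
  refine h3 ?_
  unfold MS.spec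
  refine Finset.mem_filter.2 ⟨hp, Or.inr ⟨h2, ?_⟩⟩
  rw [mul_zero, Nat.cast_zero, mul_zero, zero_add] at h4
  exact h4

theorem Q04_spec (hp : p ∈ T.PL) {r : ℕ} (hr : r ∈ M.rts T c μ ν p) : ¬ p ∣ M.v * S.prX id μ * S.prY id ν * S.SI T.N c μ ν :=
  q04_spec hp (q04_mem.1 hr).2.1

end Pool.Agent.Lib.TTC
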