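import Pool.Agent.Lib.MP_092512_nt.TT.C.Q02
import Pool.Agent.Lib.MP_092512_nt.TT.C.Q04

/-!
# Q06: the large sieve for fixed tuples (9.1)

Apply `Q02` with `PL = T.PL`, `m = k + 1` (`m ≤ p`: `64 m² ≤ p0 ≤ y0 < p`), `g = M.g`, `gY = 2 (k+1)/y0` (`m g p ≤ m (1/p + 2/p²) ≤ 2 m/p`), `Ω = M.rts T c μ ν`, `Ω' = M.rts T c' μ ν` (`Q04_le`),
`w1 = wt s b2 z PL`, `w2 = wt s' b2 z PL`, `Cw = NJ z + 1` (`abs_flUp_le`, `abs_flLo_le`), `Z = z^(12 b2)` (`flUp_support`, `flLo_support`), `I = {n ≤ nm : n ≡ r (q1)}`, `Exc = M.exc`,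
`m0 = ms * gq q1`, `ε = N^(-δ1) W`.
`heq`: `q = q1 ∏_{p ∈ e} p` is squarefree (primes of `q1` are `≤ y0`, primes of `e` are `> y0`), `q ≤ N^δ0`, coprime to the marks (marks are `> y0`; primes of `e` are not special, `Q04_spec`), its primes
divide `W0` or do not divide `N` (`Q04_spec`); by the Chinese remainder theorem the conditions `n ≡ r (q1)`, `n % p = r p` are one class `r*` modulo `q`, in type 2 coprime to `q` (`Q04_zero`);
`gq q = gq q1 ∏_{p ∈ e} g p`; use `hM.eq`.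
For `Om n ≠ 0`: the hit primes are `PL.filter (n % p ∈ rts p)` (`Q04_iff`), so `Ll` is the sum of `Q02` (where `Om n = 0` nothing is needed). `V3` is the product over `PL`.
-/

set_option autoImplicit false

open Finset

open Pool.Agent.Lib.GT (NJ)

namespace Pool.Agent.Lib.TTC

/-- the relative error of the large sieve for two colourings -/
noncomputable def Msr.Th {S : MS} (M : Msr S) (T : Dat) (c c' : S.Col) (μ : S.TX) (ν : S.TY) : ℝ :=
  4 * ((NJ T.z : ℝ) + 1) ^ 2 * min 1 ((3 * ((M.exc T c c' μ ν).card : ℝ) + 1) * (2 * ((T.F S.k : ℕ) : ℝ) / T.y0)) * M.V3 T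

/-! ### auxiliary lemmas -/

section

variable {S : MS} {T : Dat} {W0 : ℕ} {Z : Fin (S.k + 1) → ℕ} {μ : S.TX} {ν : S.TY}

end

end Pool.Agent.Lib.TTC
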