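import Pool.Agent.Lib.MP_092512_nt.TT.C.POK

/-!
# Q07: sums over `n` of functions of `X` modulo `q`

`q` squarefree, all its primes `≤ y0` and dividing `W0` or not dividing `N`. `G : ℤ → ℝ` periodic modulo `q`. `τ = M.tau μ ν` is `1` or a product of marks, coprime to `q` (marks `> y0`).
* `Q07_one`: `ax q 1 = 1`: type 1: `q` classes of density `∏ 1/p = 1/q`; type 2: `φ(q)` classes of density `∏ 1/(p-1)` (`hM.g_small`).
* `Q07_tau`: `∑_{r < q, (t2 → r coprime)} G (v τ r + x0) = ∑_{r < q, (..)} G (v r + x0)`: `r ↦ τ r % q` is a bijection of the range of summation.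
* `Q07a`: `∑_n Om G(X n) = ∑_{r<q} ∑_{n ≡ r} Om G (v τ r + x0)` (`hM.X_eq` on the support, `G` periodic); in type 2 the classes `r` not coprime to `q` are empty (`hM.t2_small`: a prime `≤ y0` dividing `r` and `q`
  would divide `n`); then `hM.eq` for each allowed class.
* `Q07b`: the same with a factor `Ψ n` whose class sums are bounded by `ms gq Θ + ε`.
-/

set_option autoImplicit false

open Finset

namespace Pool.Agent.Lib.TTC

variable {S : MS} {T : Dat} {W0 : ℕ} {Z : Fin (S.k + 1) → ℕ} {M : Msr S} {δ0 δ1 : ℝ} {μ : S.TX} {ν : S.TY} {q : ℕ}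

end Pool.Agent.Lib.TTC
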