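import Pool.Agent.Lib.MP_092512_nt.TT.C.Q09
import Pool.Agent.Lib.MP_092512_nt.TT.C.POK

/-!
# Q10: the residues of the free primes are uniform (6.1)

`Ψ μ ν s` depends on the free primes of `μ`, `ν` only through their cells (`hΨ`). Group `MX`, `MY` by the cell vectors `κX, κY : Fin n0 → ℕ` (values in the finite image), and apply `Q09` for fixed
`μ.1, μ.2.2, ν.1, ν.2.2`, `κX`, `κY`, with `ι = FE n0`, `P (inl f) = {l ∈ FX f : cell l = κX f}`, `w = hX`, `res l = (toU _ l)_p`, and `P (inr f) = {l ∈ FY f : cell l = κY f}`, `w = hY`,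
`res l = ((toU _ l)⁻¹)_p` (the class `u` for the inverse is the class `u⁻¹` for `l`), `H = ∀ p : Q, HP T.E p`, `Φ = Ψ μ ν` (constant on the group). The bound of `Q09` is summed up
(`card (FE n0) = 2 n0`); the factors `∏ hX (μ.1 i) ∏ hX (μ.2.2 e)` etc. are `≥ 0`.
(`S.frP T Q μ ν e p = S.fr _ μ ν e`.)
-/

set_option autoImplicit false

open Finset

namespace Pool.Agent.Lib.TTC

private theorem fil_pi {ι : Type*} [Fintype ι] [DecidableEq ι] (F : ι → Finset ℕ) (cl : ℕ → ℕ) (κ : ι → ℕ) :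
    (Fintype.piFinset F).filter (fun z => (fun i => cl (z i)) = κ) = Fintype.piFinset fun i => (F i).filter fun l => cl l = κ i := by
  ext z
  simp only [Finset.mem_filter, Fintype.mem_piFinset, funext_iff]
  exact forall_and.symm

/-- lemma B: several cells -/
private theorem cells {ι H : Type*} [Fintype ι] [DecidableEq ι] [Finite H] [DecidableEq H] (F : ι → Finset ℕ) (w : ι → ℕ → ℝ)
    (hw : ∀ i, ∀ l ∈ F i, 0 ≤ w i l) (cl : ℕ → ℕ) (res : ι → ℕ → H) (η : ℝ) (hη : 0 ≤ η)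
    (h : ∀ i (κ : ℕ) (u : H), |∑ l ∈ ((F i).filter fun l => cl l = κ).filter (fun l => res i l = u), w i l -
        (∑ l ∈ (F i).filter (fun l => cl l = κ), w i l) / (Nat.card H : ℝ)| ≤
      η * ((∑ l ∈ (F i).filter (fun l => cl l = κ), w i l) / (Nat.card H : ℝ))) (Φ : (ι → ℕ) → (ι → H) → ℝ)
    (hΦ : ∀ z z' s, (∀ i, cl (z i) = cl (z' i)) → Φ z s = Φ z' s) :
    |∑ z ∈ Fintype.piFinset F, (∏ i, w i (z i)) * Φ z (fun i => res i (z i)) - ∑ z ∈ Fintype.piFinset F, (∏ i, w i (z i)) * av (Φ z)| ≤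
      ((1 + η) ^ Fintype.card ι - 1) * ∑ z ∈ Fintype.piFinset F, (∏ i, w i (z i)) * av (fun s => |Φ z s|) := by
  classical
  have hm : ∀ z ∈ Fintype.piFinset F, (fun i => cl (z i)) ∈ (Fintype.piFinset F).image (fun z => fun i => cl (z i)) :=
    fun z hz => Finset.mem_image_of_mem (fun z : ι → ℕ => fun i => cl (z i)) hz
  rw [← Finset.sum_fiberwise_of_maps_to hm (fun z => (∏ i, w i (z i)) * Φ z (fun i => res i (z i))),
    ← Finset.sum_fiberwise_of_maps_to hm (fun z => (∏ i, w i (z i)) * av (Φ z)),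
    ← Finset.sum_fiberwise_of_maps_to hm (fun z => (∏ i, w i (z i)) * av (fun s => |Φ z s|)),
    ← Finset.sum_sub_distrib, Finset.mul_sum]
  refine (Finset.abs_sum_le_sum_abs _ _).trans (Finset.sum_le_sum fun κ hκ => ?_)
  obtain ⟨z0, hz0, rfl⟩ := Finset.mem_image.1 hκ
  have e : ∀ z ∈ (Fintype.piFinset F).filter (fun z => (fun i => cl (z i)) = fun i => cl (z0 i)), Φ z = Φ z0 := by
    intro z hz
    funext s
    exact hΦ z z0 s (fun i => congrFun (Finset.mem_filter.1 hz).2 i)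
  rw [Finset.sum_congr rfl fun z hz => by rw [e z hz],
    Finset.sum_congr (s₁ := (Fintype.piFinset F).filter (fun z => (fun i => cl (z i)) = fun i => cl (z0 i)))
      (f := fun z => (∏ i, w i (z i)) * av (Φ z)) (g := fun z => (∏ i, w i (z i)) * av (Φ z0)) rfl fun z hz => by
      show (∏ i, w i (z i)) * av (Φ z) = (∏ i, w i (z i)) * av (Φ z0)
      rw [e z hz],
    Finset.sum_congr (s₁ := (Fintype.piFinset F).filter (fun z => (fun i => cl (z i)) = fun i => cl (z0 i)))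
      (f := fun z => (∏ i, w i (z i)) * av (fun s => |Φ z s|)) (g := fun z => (∏ i, w i (z i)) * av (fun s => |Φ z0 s|)) rfl fun z hz => by
      show (∏ i, w i (z i)) * av (fun s => |Φ z s|) = (∏ i, w i (z i)) * av (fun s => |Φ z0 s|)
      rw [e z hz],
    ← Finset.sum_mul, ← Finset.sum_mul, fil_pi, ← Finset.prod_univ_sum]
  exact Q09 (fun i => (F i).filter fun l => cl l = cl (z0 i)) w (fun i l hl => hw i l (Finset.mem_filter.1 hl).1) res η hη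
    (fun i u => h i (cl (z0 i)) u) (Φ z0)

/-- free primes of `X` and `Y` -/
private theorem two_sum {n0 : ℕ} (FX FY : Fin n0 → Finset ℕ) (g : (Fin n0 → ℕ) → (Fin n0 → ℕ) → ℝ) :
    ∑ x ∈ Fintype.piFinset FX, ∑ y ∈ Fintype.piFinset FY, g x y =
      ∑ z ∈ Fintype.piFinset (Sum.elim FX FY), g (fun i => z (Sum.inl i)) (fun i => z (Sum.inr i)) := by
  rw [← Finset.sum_product']
  refine Finset.sum_bij' (fun (q : (Fin n0 → ℕ) × (Fin n0 → ℕ)) _ => (Sum.elim q.1 q.2 : FE n0 → ℕ))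
    (fun z _ => (fun i => z (Sum.inl i), fun i => z (Sum.inr i))) ?_ ?_ ?_ ?_ ?_
  · intro q hq
    rw [Finset.mem_product, Fintype.mem_piFinset, Fintype.mem_piFinset] at hq
    rw [Fintype.mem_piFinset]
    rintro (i | i)
    · exact hq.1 i
    · exact hq.2 i
  · intro z hz
    rw [Fintype.mem_piFinset] at hz
    rw [Finset.mem_product, Fintype.mem_piFinset, Fintype.mem_piFinset]
    exact ⟨fun i => hz (Sum.inl i), fun i => hz (Sum.inr i)⟩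
  · intro q _
    rfl
  · intro z _
    funext i
    cases i <;> rfl
  · intro q _
    rfl

/-- reordering of the sum over pairs of tuples -/
private theorem sum_M (S : MS) (g : S.TX → S.TY → ℝ) :
    ∑ μ ∈ S.MX, ∑ ν ∈ S.MY, g μ ν =
      ∑ q ∈ (Fintype.piFinset S.WX ×ˢ Fintype.piFinset S.OX) ×ˢ (Fintype.piFinset S.WY ×ˢ Fintype.piFinset S.OY),
        ∑ z ∈ Fintype.piFinset (Sum.elim S.FX S.FY),
          g (q.1.1, (fun i => z (Sum.inl i)), q.1.2) (q.2.1, (fun i => z (Sum.inr i)), q.2.2) := by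
  have h : ∀ q : ((Fin (S.k + 1) → ℕ) × (Fin S.nX → ℕ)) × ((Fin (S.k + 1) → ℕ) × (Fin S.nY → ℕ)),
      ∑ z ∈ Fintype.piFinset (Sum.elim S.FX S.FY), g (q.1.1, (fun i => z (Sum.inl i)), q.1.2) (q.2.1, (fun i => z (Sum.inr i)), q.2.2) =
      ∑ x ∈ Fintype.piFinset S.FX, ∑ y ∈ Fintype.piFinset S.FY, g (q.1.1, x, q.1.2) (q.2.1, y, q.2.2) := fun q =>
    (two_sum S.FX S.FY (fun x y => g (q.1.1, x, q.1.2) (q.2.1, y, q.2.2))).symm
  rw [Finset.sum_congr rfl fun q _ => h q]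
  simp only [Finset.sum_product, MS.MX, MS.MY]
  refine Finset.sum_congr rfl fun a _ => ?_
  rw [Finset.sum_comm]
  refine Finset.sum_congr rfl fun o _ => ?_
  rw [Finset.sum_comm]
  refine Finset.sum_congr rfl fun b _ => ?_
  rw [Finset.sum_congr rfl fun x _ => Finset.sum_comm]
  rw [Finset.sum_comm]

private theorem unif (N D : ℕ) (h : ℕ → ℝ) (η : ℝ) (Q0 : ℕ) (P : Finset ℕ) (hs : SWc N D h η Q0 P) (Q : Finset ℕ)
    (hQ : ∀ p ∈ Q, p.Prime) (hQ0 : ∏ p ∈ Q, p ^ (padicValNat p D + 1) ≤ Q0) (κ : ℕ) (u : ∀ p : Q, HP D p)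
    [DecidableEq (∀ p : Q, HP D p)] :
    |∑ l ∈ (P.filter fun l => cell N l = κ).filter (fun l => (fun p : Q => toU (p ^ (padicValNat p D + 1)) l) = u), h l -
      (∑ l ∈ P.filter (fun l => cell N l = κ), h l) / (Nat.card (∀ p : Q, HP D p) : ℝ)| ≤
      η * ((∑ l ∈ P.filter (fun l => cell N l = κ), h l) / (Nat.card (∀ p : Q, HP D p) : ℝ)) := by
  classical
  have h1 := hs Q hQ hQ0 κ u
  have h2 : (P.filter fun l => cell N l = κ).filter (fun l => (fun p : Q => toU (p ^ (padicValNat p D + 1)) l) = u) =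
      P.filter (fun l => cell N l = κ ∧ ∀ p : Q, toU (p ^ (padicValNat p D + 1)) l = u p) := by
    ext l
    simp only [Finset.mem_filter, funext_iff, and_assoc]
  rw [h2]
  convert h1 using 4

/-- weights and residues of the free primes -/
private noncomputable def fw {n0 : ℕ} (hX hY : ℕ → ℝ) : FE n0 → ℕ → ℝ := Sum.elim (fun _ => hX) (fun _ => hY)

private noncomputable def fres (n0 : ℕ) (T : Dat) (Q : Finset ℕ) : FE n0 → ℕ → (∀ p : Q, HP T.E p) :=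
  Sum.elim (fun _ l p => toU (p ^ (padicValNat p T.E + 1)) l) (fun _ l p => (toU (p ^ (padicValNat p T.E + 1)) l)⁻¹)

private theorem unif_all (S : MS) (T : Dat) (hX hY : ℕ → ℝ) (η : ℝ) (Q0 : ℕ) (hsX : ∀ f, SWc T.N T.E hX η Q0 (S.FX f))
    (hsY : ∀ f, SWc T.N T.E hY η Q0 (S.FY f)) (Q : Finset ℕ) (hQ : ∀ p ∈ Q, p.Prime) (hQ0 : ∏ p ∈ Q, p ^ (padicValNat p T.E + 1) ≤ Q0)
    [DecidableEq (∀ p : Q, HP T.E p)] :
    ∀ (i : FE S.n0) (κ : ℕ) (u : ∀ p : Q, HP T.E p),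
      |∑ l ∈ (((Sum.elim S.FX S.FY : FE S.n0 → Finset ℕ) i).filter fun l => cell T.N l = κ).filter (fun l => fres S.n0 T Q i l = u), fw hX hY i l -
        (∑ l ∈ ((Sum.elim S.FX S.FY : FE S.n0 → Finset ℕ) i).filter (fun l => cell T.N l = κ), fw hX hY i l) / (Nat.card (∀ p : Q, HP T.E p) : ℝ)| ≤
      η * ((∑ l ∈ ((Sum.elim S.FX S.FY : FE S.n0 → Finset ℕ) i).filter (fun l => cell T.N l = κ), fw hX hY i l) /
        (Nat.card (∀ p : Q, HP T.E p) : ℝ)) := by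
  rintro (f | f) κ u
  · exact unif T.N T.E hX η Q0 (S.FX f) (hsX f) Q hQ hQ0 κ u
  · have h1 := unif T.N T.E hY η Q0 (S.FY f) (hsY f) Q hQ hQ0 κ u⁻¹
    have h2 : ((S.FY f).filter fun l => cell T.N l = κ).filter (fun l => fres S.n0 T Q (Sum.inr f) l = u) =
        ((S.FY f).filter fun l => cell T.N l = κ).filter (fun l => (fun p : Q => toU (p ^ (padicValNat p T.E + 1)) l) = u⁻¹) := by
      refine Finset.filter_congr fun l _ => ?_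
      constructor
      · intro h3
        rw [← h3]
        funext p
        exact (inv_inv _).symm
      · intro h3
        funext p
        have h4 := congrFun h3 p
        show (toU (p ^ (padicValNat p T.E + 1)) l)⁻¹ = u p
        rw [h4, Pi.inv_apply, inv_inv]
    show |∑ l ∈ ((S.FY f).filter fun l => cell T.N l = κ).filter (fun l => fres S.n0 T Q (Sum.inr f) l = u), hY l - _| ≤ _
    rw [h2]
    exact h1

private theorem frP_eq (S : MS) (T : Dat) (Q : Finset ℕ) (a b : Fin (S.k + 1) → ℕ) (o : Fin S.nX → ℕ) (p' : Fin S.nY → ℕ) (z : FE S.n0 → ℕ) :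
    S.frP T Q (a, (fun i => z (Sum.inl i)), o) (b, (fun i => z (Sum.inr i)), p') = fun i => fres S.n0 T Q i (z i) := by
  funext i p
  cases i <;> rfl

private theorem prXY (S : MS) (hX hY : ℕ → ℝ) (a b : Fin (S.k + 1) → ℕ) (o : Fin S.nX → ℕ) (p' : Fin S.nY → ℕ) (z : FE S.n0 → ℕ) (G : ℝ) :
    S.prX hX (a, (fun i => z (Sum.inl i)), o) * S.prY hY (b, (fun i => z (Sum.inr i)), p') * G =
      (((∏ i, hX (a i)) * ∏ e, hX (o e)) * ((∏ i, hY (b i)) * ∏ e, hY (p' e))) * ((∏ i, fw hX hY i (z i)) * G) := by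
  rw [Fintype.prod_sum_type]
  show ((∏ i, hX (a i)) * (∏ f, hX (z (Sum.inl f))) * ∏ e, hX (o e)) * ((∏ i, hY (b i)) * (∏ f, hY (z (Sum.inr f))) * ∏ e, hY (p' e)) * G =
    (((∏ i, hX (a i)) * ∏ e, hX (o e)) * ((∏ i, hY (b i)) * ∏ e, hY (p' e))) *
      (((∏ f, hX (z (Sum.inl f))) * ∏ f, hY (z (Sum.inr f))) * G)
  ring

private theorem outer_nonneg (S : MS) (hX hY : ℕ → ℝ)
    (h0X : ∀ l, (∃ i, l ∈ S.WX i) ∨ (∃ f, l ∈ S.FX f) ∨ (∃ e, l ∈ S.OX e) → 0 ≤ hX l)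
    (h0Y : ∀ l, (∃ i, l ∈ S.WY i) ∨ (∃ f, l ∈ S.FY f) ∨ (∃ e, l ∈ S.OY e) → 0 ≤ hY l)
    (q : ((Fin (S.k + 1) → ℕ) × (Fin S.nX → ℕ)) × ((Fin (S.k + 1) → ℕ) × (Fin S.nY → ℕ)))
    (hq : q ∈ (Fintype.piFinset S.WX ×ˢ Fintype.piFinset S.OX) ×ˢ (Fintype.piFinset S.WY ×ˢ Fintype.piFinset S.OY)) :
    0 ≤ ((∏ i, hX (q.1.1 i)) * ∏ e, hX (q.1.2 e)) * ((∏ i, hY (q.2.1 i)) * ∏ e, hY (q.2.2 e)) := by
  rw [Finset.mem_product, Finset.mem_product, Finset.mem_product, Fintype.mem_piFinset, Fintype.mem_piFinset, Fintype.mem_piFinset,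
    Fintype.mem_piFinset] at hq
  refine mul_nonneg (mul_nonneg ?_ ?_) (mul_nonneg ?_ ?_)
  · exact Finset.prod_nonneg fun i _ => h0X _ (Or.inl ⟨i, hq.1.1 i⟩)
  · exact Finset.prod_nonneg fun e _ => h0X _ (Or.inr (Or.inr ⟨e, hq.1.2 e⟩))
  · exact Finset.prod_nonneg fun i _ => h0Y _ (Or.inl ⟨i, hq.2.1 i⟩)
  · exact Finset.prod_nonneg fun e _ => h0Y _ (Or.inr (Or.inr ⟨e, hq.2.2 e⟩))

theorem Q10 (S : MS) (T : Dat) (hX hY : ℕ → ℝ) (η : ℝ) (hη : 0 ≤ η) (Q0 : ℕ) (hsX : ∀ f, SWc T.N T.E hX η Q0 (S.FX f)) (hsY : ∀ f, SWc T.N T.E hY η Q0 (S.FY f))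
    (h0X : ∀ l, (∃ i, l ∈ S.WX i) ∨ (∃ f, l ∈ S.FX f) ∨ (∃ e, l ∈ S.OX e) → 0 ≤ hX l)
    (h0Y : ∀ l, (∃ i, l ∈ S.WY i) ∨ (∃ f, l ∈ S.FY f) ∨ (∃ e, l ∈ S.OY e) → 0 ≤ hY l)
    (Q : Finset ℕ) (hQ : ∀ p ∈ Q, p.Prime) (hQ0 : ∏ p ∈ Q, p ^ (padicValNat p T.E + 1) ≤ Q0)
    (Ψ : S.TX → S.TY → (FE S.n0 → ∀ p : Q, HP T.E p) → ℝ) (hΨ : ∀ μ μ' ν ν' s, S.sX T.N μ μ' → S.sY T.N ν ν' → Ψ μ ν s = Ψ μ' ν' s) :
    |∑ μ ∈ S.MX, ∑ ν ∈ S.MY, S.prX hX μ * S.prY hY ν * Ψ μ ν (S.frP T Q μ ν) -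
      ∑ μ ∈ S.MX, ∑ ν ∈ S.MY, S.prX hX μ * S.prY hY ν * av (Ψ μ ν)| ≤
      ((1 + η) ^ (2 * S.n0) - 1) * ∑ μ ∈ S.MX, ∑ ν ∈ S.MY, S.prX hX μ * S.prY hY ν * av (fun s => |Ψ μ ν s|) := by
  classical
  rw [sum_M S (fun μ ν => S.prX hX μ * S.prY hY ν * Ψ μ ν (S.frP T Q μ ν)), sum_M S (fun μ ν => S.prX hX μ * S.prY hY ν * av (Ψ μ ν)),
    sum_M S (fun μ ν => S.prX hX μ * S.prY hY ν * av (fun s => |Ψ μ ν s|)), ← Finset.sum_sub_distrib, Finset.mul_sum]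
  refine (Finset.abs_sum_le_sum_abs _ _).trans (Finset.sum_le_sum fun q hq => ?_)
  have h0 := outer_nonneg S hX hY h0X h0Y q hq
  simp only [prXY, frP_eq]
  rw [← Finset.mul_sum, ← Finset.mul_sum, ← Finset.mul_sum, ← mul_sub, abs_mul, abs_of_nonneg h0, mul_left_comm ((1 + η) ^ (2 * S.n0) - 1)]
  refine mul_le_mul_of_nonneg_left ?_ h0
  have hw : ∀ i, ∀ l ∈ (Sum.elim S.FX S.FY : FE S.n0 → Finset ℕ) i, 0 ≤ fw (n0 := S.n0) hX hY i l := by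
    rintro (f | f) l hl
    · exact h0X l (Or.inr (Or.inl ⟨f, hl⟩))
    · exact h0Y l (Or.inr (Or.inl ⟨f, hl⟩))
  have h1 := cells (Sum.elim S.FX S.FY : FE S.n0 → Finset ℕ) (fw hX hY) hw (cell T.N) (fres S.n0 T Q) η hη
    (unif_all S T hX hY η Q0 hsX hsY Q hQ hQ0)
    (fun z => Ψ (q.1.1, (fun i => z (Sum.inl i)), q.1.2) (q.2.1, (fun i => z (Sum.inr i)), q.2.2))
    (fun z z' s h => hΨ _ _ _ _ s ⟨rfl, fun f => h (Sum.inl f), rfl⟩ ⟨rfl, fun f => h (Sum.inr f), rfl⟩)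
  rw [Fintype.card_sum, Fintype.card_fin, ← two_mul] at h1
  exact h1

/-- upper bound for a nonnegative function -/
theorem Q10_up (S : MS) (T : Dat) (hX hY : ℕ → ℝ) (η : ℝ) (hη : 0 ≤ η) (Q0 : ℕ) (hsX : ∀ f, SWc T.N T.E hX η Q0 (S.FX f)) (hsY : ∀ f, SWc T.N T.E hY η Q0 (S.FY f))
    (h0X : ∀ l, (∃ i, l ∈ S.WX i) ∨ (∃ f, l ∈ S.FX f) ∨ (∃ e, l ∈ S.OX e) → 0 ≤ hX l)
    (h0Y : ∀ l, (∃ i, l ∈ S.WY i) ∨ (∃ f, l ∈ S.FY f) ∨ (∃ e, l ∈ S.OY e) → 0 ≤ hY l)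
    (Q : Finset ℕ) (hQ : ∀ p ∈ Q, p.Prime) (hQ0 : ∏ p ∈ Q, p ^ (padicValNat p T.E + 1) ≤ Q0)
    (Ψ : S.TX → S.TY → (FE S.n0 → ∀ p : Q, HP T.E p) → ℝ) (hΨ : ∀ μ μ' ν ν' s, S.sX T.N μ μ' → S.sY T.N ν ν' → Ψ μ ν s = Ψ μ' ν' s)
    (hΨ0 : ∀ μ ν s, 0 ≤ Ψ μ ν s) :
    ∑ μ ∈ S.MX, ∑ ν ∈ S.MY, S.prX hX μ * S.prY hY ν * Ψ μ ν (S.frP T Q μ ν) ≤
      (1 + η) ^ (2 * S.n0) * ∑ μ ∈ S.MX, ∑ ν ∈ S.MY, S.prX hX μ * S.prY hY ν * av (Ψ μ ν) := by
  have h1 := Q10 S T hX hY η hη Q0 hsX hsY h0X h0Y Q hQ hQ0 Ψ hΨ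
  have h2 : ∀ μ ν, (fun s => |Ψ μ ν s|) = Ψ μ ν := fun μ ν => funext fun s => abs_of_nonneg (hΨ0 μ ν s)
  simp only [h2] at h1
  have h3 := (abs_le.1 h1).2
  nlinarith

end Pool.Agent.Lib.TTC
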