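import Mathlib

/-!
# T08: the incidence map of a connected graph is a bijection on a spanning tree

`V` finite, root `r`, edges `e : E` with ends `a e`, `b e`. Cut condition: every nonempty `U ⊆ V` with `r ∉ U` has an edge with exactly one end in
`U`. Then there is a set `T` of edges such that the map `(T → H) → ({v ≠ r} → H)`, `x ↦ (v ↦ ∏_{e ∈ T} [a e = v] x_e [b e = v] x_e)` is bijective,
for EVERY commutative group `H`.

Proof. Induction (on `n`) : for every `n < |V|` there are a set `S ∌ r` of `n` vertices and a set `T` of edges with the property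
`(P)`: all edges of `T` have both ends in `S ∪ {r}`, and for every `H` the map `(T → H) → (S → H)` is bijective.
`n = 0`: `S = T = ∅` (both sides are one point). Step: `U = V \ (S ∪ {r})` is nonempty if `n + 1 < |V|`; take an edge `e₀` with exactly one end in `U`, call
this end `u` and the other end `w ∈ S ∪ {r}`. `e₀ ∉ T` (its end `u` is not in `S ∪ {r}`). Put `S' = S ∪ {u}`, `T' = T ∪ {e₀}`. No edge of `T` touches `u`.
For `y : S' → H` the equation at `u` is `x_{e₀} = y_u` (`e₀` has exactly one end equal to `u`), and the equations at `v ∈ S` are the old equations for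
`x|_T` with right hand side `y_v / (y_u if w = v)`. So there is exactly one solution. At `n = |V| - 1`: `S = V \ {r}`.

It may be easier to work with functions on all of `E` supported on `T`: `(P')`: for all `y : V → H` there is a unique `x : E → H` with `x e = 1` off `T`
and `∏_{e ∈ T} (if a e = v then x e else 1) * (if b e = v then x e else 1) = y v` for all `v ∈ S`.
`T08_sum`: the sum over `T → H` of `Φ` of the shifted map is the sum over all `y` (bijection composed with the translation by `s`).
-/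

set_option autoImplicit false

open Finset

namespace Pool.Agent.Lib.TTC

/-- the incidence map -/
def inc {V E H : Type*} [DecidableEq V] [CommGroup H] (r : V) (a b : E → V) (T : Finset E) (x : T → H) (v : {v : V // v ≠ r}) : H :=
  ∏ e : T, (if a e = v.1 then x e else 1) * (if b e = v.1 then x e else 1)

/-- the contribution of an edge at a vertex -/
private def T08_K {V E H : Type*} [DecidableEq V] [CommGroup H] (a b : E → V) (e : E) (v : V)
    (h : H) : H := (if a e = v then h else 1) * (if b e = v then h else 1)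

/-- the system has exactly one solution for all right hand sides -/
private def T08_P {V E : Type*} [DecidableEq V] (a b : E → V) (S : Finset V) (T : Finset E) :
    Prop :=
  ∀ (H : Type) [CommGroup H] (y : V → H), ∃! x : E → H, (∀ e, e ∉ T → x e = 1) ∧
    ∀ v ∈ S, ∏ e ∈ T, T08_K a b e v (x e) = y v

private theorem T08_step {V E : Type*} [DecidableEq V] [DecidableEq E] (a b : E → V)
    (S : Finset V) (T : Finset E) (hP : T08_P a b S T) (u : V) (e₀ : E) (he : e₀ ∉ T)
    (hT : ∀ e ∈ T, a e ≠ u ∧ b e ≠ u)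
    (h0 : (a e₀ = u ∧ b e₀ ≠ u) ∨ (a e₀ ≠ u ∧ b e₀ = u)) :
    T08_P a b (insert u S) (insert e₀ T) := by
  intro H _ y
  have k0 : ∀ h : H, T08_K a b e₀ u h = h := by
    intro h
    unfold T08_K
    rcases h0 with ⟨h1, h2⟩ | ⟨h1, h2⟩
    · rw [if_pos h1, if_neg h2, mul_one]
    · rw [if_neg h1, if_pos h2, one_mul]
  have k1 : ∀ e ∈ T, ∀ h : H, T08_K a b e u h = 1 := by
    intro e heT h
    unfold T08_K
    rw [if_neg (hT e heT).1, if_neg (hT e heT).2, mul_one]
  have key : ∀ (x : E → H) (v : V), ∏ e ∈ insert e₀ T, T08_K a b e v (x e) =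
      T08_K a b e₀ v (x e₀) * ∏ e ∈ T, T08_K a b e v (x e) := fun x v => Finset.prod_insert he
  have hu : ∀ x : E → H, ∏ e ∈ insert e₀ T, T08_K a b e u (x e) = x e₀ := by
    intro x
    rw [key, k0, Finset.prod_eq_one fun e h => k1 e h (x e), mul_one]
  have hne : ∀ e ∈ T, e ≠ e₀ := fun e h h' => he (h' ▸ h)
  obtain ⟨x₀, ⟨hx1, hx2⟩, hx3⟩ := hP H (fun v => y v * (T08_K a b e₀ v (y u))⁻¹)
  refine ⟨Function.update x₀ e₀ (y u), ⟨?_, ?_⟩, ?_⟩
  · intro e h
    rw [Finset.mem_insert, not_or] at h
    rw [Function.update_of_ne h.1]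
    exact hx1 e h.2
  · intro v hv
    rcases Finset.mem_insert.1 hv with rfl | hv
    · rw [hu, Function.update_self]
    · rw [key, Function.update_self, Finset.prod_congr rfl fun e h => by
        rw [Function.update_of_ne (hne e h)], hx2 v hv]
      rw [mul_comm, inv_mul_cancel_right]
  · rintro x ⟨h1, h2⟩
    have h3 : x e₀ = y u := by
      rw [← hu x]
      exact h2 u (Finset.mem_insert_self _ _)
    have h4 : Function.update x e₀ 1 = x₀ := by
      refine hx3 _ ⟨?_, ?_⟩
      · intro e h
        by_cases hee : e = e₀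
        · rw [hee, Function.update_self]
        · rw [Function.update_of_ne hee]
          exact h1 e (by rw [Finset.mem_insert, not_or]; exact ⟨hee, h⟩)
      · intro v hv
        rw [Finset.prod_congr rfl fun e h => by rw [Function.update_of_ne (hne e h)]]
        have h5 := h2 v (Finset.mem_insert_of_mem hv)
        rw [key, h3] at h5
        rw [← h5, mul_comm (T08_K a b e₀ v (y u)), mul_inv_cancel_right]
    rw [← h4, Function.update_idem, ← h3, Function.update_eq_self]

private theorem T08_ind {V E : Type*} [Fintype V] [DecidableEq V] [DecidableEq E] (r : V)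
    (a b : E → V)
    (hcut : ∀ U : Finset V, U.Nonempty → r ∉ U →
      ∃ e, (a e ∈ U ∧ b e ∉ U) ∨ (a e ∉ U ∧ b e ∈ U)) (n : ℕ) (hn : n + 1 ≤ Fintype.card V) :
    ∃ (S : Finset V) (T : Finset E), r ∉ S ∧ S.card = n ∧ T.card = n ∧
      (∀ e ∈ T, a e ∈ insert r S ∧ b e ∈ insert r S) ∧ T08_P a b S T := by
  induction n with
  | zero =>
    refine ⟨∅, ∅, by simp, rfl, rfl, by simp, ?_⟩
    intro H _ y
    refine ⟨fun _ => 1, ⟨fun _ _ => rfl, by simp⟩, ?_⟩
    rintro x ⟨h1, -⟩
    funext e
    exact h1 e (by simp)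
  | succ n ih =>
    obtain ⟨S, T, hr, hS, hT, hends, hP⟩ := ih (by omega)
    set U : Finset V := Finset.univ \ insert r S with hU
    have hmem : ∀ v, v ∈ U ↔ v ∉ insert r S := fun v => by
      rw [hU, Finset.mem_sdiff]
      exact ⟨fun h => h.2, fun h => ⟨Finset.mem_univ _, h⟩⟩
    have hUne : U.Nonempty := by
      rw [← Finset.card_pos, hU, Finset.card_sdiff_of_subset (Finset.subset_univ _),
        Finset.card_insert_of_notMem hr, Finset.card_univ]
      omega
    obtain ⟨e₀, h⟩ := hcut U hUne (by rw [hmem]; simp)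
    obtain ⟨u, w, huU, hwU, hcase⟩ : ∃ u w, u ∉ insert r S ∧ w ∈ insert r S ∧
        ((a e₀ = u ∧ b e₀ = w) ∨ (a e₀ = w ∧ b e₀ = u)) := by
      rcases h with ⟨h1, h2⟩ | ⟨h1, h2⟩
      · rw [hmem] at h1 h2
        exact ⟨a e₀, b e₀, h1, not_not.1 h2, Or.inl ⟨rfl, rfl⟩⟩
      · rw [hmem] at h1 h2
        exact ⟨b e₀, a e₀, h2, not_not.1 h1, Or.inr ⟨rfl, rfl⟩⟩
    have huw : w ≠ u := fun h => huU (h ▸ hwU)
    have hur : u ≠ r := fun h => huU (h ▸ Finset.mem_insert_self r S)
    have huS : u ∉ S := fun h => huU (Finset.mem_insert_of_mem h)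
    have he : e₀ ∉ T := by
      intro he
      have h1 := hends e₀ he
      rcases hcase with ⟨h2, -⟩ | ⟨-, h2⟩
      · exact huU (h2 ▸ h1.1)
      · exact huU (h2 ▸ h1.2)
    have hmono : insert r S ⊆ insert r (insert u S) :=
      Finset.insert_subset_insert r (Finset.subset_insert u S)
    have huin : u ∈ insert r (insert u S) := by simp
    refine ⟨insert u S, insert e₀ T, ?_, ?_, ?_, ?_, ?_⟩
    · rw [Finset.mem_insert, not_or]
      exact ⟨hur.symm, hr⟩
    · rw [Finset.card_insert_of_notMem huS, hS]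
    · rw [Finset.card_insert_of_notMem he, hT]
    · intro e he'
      rcases Finset.mem_insert.1 he' with rfl | he'
      · rcases hcase with ⟨h2, h3⟩ | ⟨h2, h3⟩
        · rw [h2, h3]
          exact ⟨huin, hmono hwU⟩
        · rw [h2, h3]
          exact ⟨hmono hwU, huin⟩
      · exact ⟨hmono (hends e he').1, hmono (hends e he').2⟩
    · refine T08_step a b S T hP u e₀ he ?_ ?_
      · intro e he'
        exact ⟨fun h => huU (h ▸ (hends e he').1), fun h => huU (h ▸ (hends e he').2)⟩
      · rcases hcase with ⟨h2, h3⟩ | ⟨h2, h3⟩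
        · exact Or.inl ⟨h2, h3 ▸ huw⟩
        · exact Or.inr ⟨h2 ▸ huw, h3⟩

theorem T08 {V E : Type*} [Fintype V] [DecidableEq V] [DecidableEq E] (r : V) (a b : E → V)
    (hcut : ∀ U : Finset V, U.Nonempty → r ∉ U → ∃ e, (a e ∈ U ∧ b e ∉ U) ∨ (a e ∉ U ∧ b e ∈ U)) :
    ∃ T : Finset E, T.card + 1 = Fintype.card V ∧
      ∀ (H : Type) [CommGroup H], Function.Bijective (inc (H := H) r a b T) := by
  have hpos : 0 < Fintype.card V := Fintype.card_pos_iff.2 ⟨r⟩
  obtain ⟨S, T, hr, hS, hT, -, hP⟩ := T08_ind r a b hcut (Fintype.card V - 1) (by omega)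
  have hSe : ∀ v, v ≠ r → v ∈ S := by
    have h1 : S = Finset.univ.erase r := by
      apply Finset.eq_of_subset_of_card_le
      · intro v hv
        exact Finset.mem_erase.2 ⟨fun h => hr (h ▸ hv), Finset.mem_univ _⟩
      · rw [Finset.card_erase_of_mem (Finset.mem_univ _), Finset.card_univ, hS]
    intro v hv
    rw [h1]
    exact Finset.mem_erase.2 ⟨hv, Finset.mem_univ _⟩
  refine ⟨T, by omega, ?_⟩
  intro H _
  -- functions on `T` as functions on `E`
  let ext : (T → H) → E → H := fun x e => if h : e ∈ T then x ⟨e, h⟩ else 1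
  have hext1 : ∀ x e, e ∉ T → ext x e = 1 := fun x e h => dif_neg h
  have hext2 : ∀ (x : T → H) (e : T), ext x e = x e := fun x e => dif_pos e.2
  have hinc : ∀ (x : T → H) (v : {v : V // v ≠ r}),
      inc r a b T x v = ∏ e ∈ T, T08_K a b e v.1 (ext x e) := by
    intro x v
    rw [← Finset.prod_coe_sort]
    unfold inc
    refine Finset.prod_congr rfl fun e _ => ?_
    rw [hext2]
    rfl
  constructor
  · intro x x' hxx
    obtain ⟨z, -, hz⟩ := hP H (fun v => ∏ e ∈ T, T08_K a b e v (ext x e))
    have h1 : ext x = z := hz _ ⟨hext1 x, fun v _ => rfl⟩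
    have h2 : ext x' = z := by
      refine hz _ ⟨hext1 x', fun v hv => ?_⟩
      have hvr : v ≠ r := fun h => hr (h ▸ hv)
      have h3 := congrFun hxx ⟨v, hvr⟩
      rw [hinc, hinc] at h3
      exact h3.symm
    funext e
    rw [← hext2 x e, ← hext2 x' e, h1, h2]
  · intro y
    obtain ⟨z, ⟨hz1, hz2⟩, -⟩ := hP H (fun v => if h : v ≠ r then y ⟨v, h⟩ else 1)
    refine ⟨fun e => z e, ?_⟩
    funext v
    rw [hinc]
    have h1 := hz2 v.1 (hSe v.1 v.2)
    rw [dif_pos v.2] at h1
    rw [← h1]
    refine Finset.prod_congr rfl fun e he => ?_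
    have h2 : ext (fun e => z e) e = z e := hext2 (fun e => z e) ⟨e, he⟩
    rw [h2]

end Pool.Agent.Lib.TTC
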