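import Pool.Agent.Lib.MP_092512_nt.TT.C.Loc

/-!
# U04: change of variables, Chinese remainder theorem for tuples of units

* `U04_pr`: the map `x ↦ (pr k x 1, …, pr k x k)` is a bijection of `Fin k → H` (inverse `P ↦ (P 0, P 1/P 0, …)`, i.e. `x_j = pp k P (j+1)/pp k P j`).
* `U04_pp`: `pp k` of it is `pr k x` on the indices `≤ k`.
* `U04_crt`: sum of a product of functions of the residues modulo pairwise coprime `q i`: `ZMod.prodEquivPi` gives
  `ZMod (∏ q i) ≃+* ∀ i, ZMod (q i)`; units (`Units.mapEquiv`, `MulEquiv.piUnits`), functions on `E`; the left side is the sum over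
  `∀ i, E → (ZMod (q i))ˣ` of `∏ i, f i (s i)`, which is `∏ i, ∑ s, f i s` (`Finset.prod_univ_sum`, `Fintype.piFinset_univ`).
* `U04_two`: the same for two coprime moduli (`ZMod.chineseRemainder`).
-/

set_option autoImplicit false

open Finset

open Pool.Agent.Lib.TTC.Loc

namespace Pool.Agent.Lib.TTC

theorem U04_pp {H : Type*} [CommGroup H] (k : ℕ) (x : Fin k → H) {j : ℕ} (hj : j ≤ k) :
    pp k (fun i => pr k x (i.val + 1)) j = pr k x j := by
  rcases j with _ | j
  · rw [pr_zero]; rfl
  · rw [pp_succ _ (show j < k by omega)]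

private theorem U04_tel {H : Type*} [CommGroup H] (k : ℕ) (P : Fin k → H) :
    ∀ j ≤ k, pr k (fun i => pp k P (i.val + 1) / pp k P i.val) j = pp k P j := by
  intro j
  induction j with
  | zero => intro _; rw [pr_zero]; rfl
  | succ j ih =>
    intro hj
    rw [pr_succ, ih (by omega), ex_lt _ (show j < k by omega)]
    simp

theorem U04_pr {H : Type*} [CommGroup H] [Fintype H] [DecidableEq H] (k : ℕ) (Φ : (Fin k → H) → ℝ) :
    ∑ x : Fin k → H, Φ (fun j => pr k x (j.val + 1)) = ∑ P : Fin k → H, Φ P := by
  let e : (Fin k → H) ≃ (Fin k → H) :=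
    { toFun := fun x j => pr k x (j.val + 1)
      invFun := fun P j => pp k P (j.val + 1) / pp k P j.val
      left_inv := by
        intro x
        funext j
        have h1 := U04_pp k x (j := j.val + 1) (by omega)
        have h2 := U04_pp k x (j := j.val) (by omega)
        show pp k (fun i => pr k x (i.val + 1)) (j.val + 1) / pp k (fun i => pr k x (i.val + 1)) j.val = x j
        rw [h1, h2, pr_succ, ex_lt _ j.isLt]
        simp
      right_inv := by
        intro P
        funext j
        show pr k (fun i => pp k P (i.val + 1) / pp k P i.val) (j.val + 1) = P j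
        rw [U04_tel k P (j.val + 1) (by omega), pp_succ _ j.isLt] }
  exact Equiv.sum_comp e Φ

end Pool.Agent.Lib.TTC
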