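import Pool.Agent.Lib.MP_092512_nt.TT.C.Loc

/-!
# U05: the small primes (3.2)

`R = ZMod (p^(a+r))`, `a ≥ 2 r`, `r ≥ 1`, `q = p^r`, `k + 1` even, `k ≥ 1`, `et j = (-1)^j q + q² c_j`. Number of `P ∈ (Rˣ)^k` with all `P j = 1` modulo `q` and
`Sg (k+1) = τ` (`q² ∣ τ`): exactly `p^(a k)/p^(a-r)`. The proof is written for `r = 1`:
Proof. `P j = 1 mod p` iff `P j = 1 + p s_j` with `s_j` modulo `p^a` (a bijection of `Fin (p^a)` or `ZMod (p^a)` with these units).
`Sg = et 0 + ∑_{j<k} (1 + p s_j) et (j+1) = ∑_{j ≤ k} et j + p ∑_{j<k} s_j et (j+1)`; `∑_{j≤k} (-1)^j = 0`, so `∑ et j ∈ p² R`, and `p et (j+1) = p² (±1 + p c)`,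
`±1 + p c` a unit. Fix all `P j` with `j ≠ 0`: `Sg = τ` is an equation `p² w s_0 = p² z` in `ZMod (p^(a+1))` with a unit `w`, i.e. `s_0 = z/w` modulo `p^(a-1)`: exactly `p` of the
`p^a` values of `s_0`. So the number is `p · p^(a(k-1))`, and `p · p^(a(k-1)) · p^(a-1) = p^(ak)`.
`U05_et`: `a = 1 + p² u`, `b = 1 - ε p + p² v`, `ε² = 1`: `b (1 + ε p) = 1 + p² (…)`, so `1/b = 1 + ε p + p² (…)`, `1/a = 1 + p² (…)`.
-/

set_option autoImplicit false

open Finset

open Pool.Agent.Lib.TTC.Loc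

namespace Pool.Agent.Lib.TTC

theorem U05_et {R : Type*} [CommRing R] (p ε : R) (hε : ε * ε = 1) (a b : Rˣ) (ha : p ^ 2 ∣ (a : R) - 1) (hb : p ^ 2 ∣ (b : R) - (1 - ε * p)) :
    ∃ c : R, ((b⁻¹ : Rˣ) : R) - ((a⁻¹ : Rˣ) : R) = ε * p + p ^ 2 * c := by
  obtain ⟨u, hu⟩ := ha
  obtain ⟨v, hv⟩ := hb
  have haA : (a : R) * ((a⁻¹ : Rˣ) : R) = 1 := Units.mul_inv a
  have hbB : (b : R) * ((b⁻¹ : Rˣ) : R) = 1 := Units.mul_inv b
  refine ⟨u * ((a⁻¹ : Rˣ) : R) - ((b⁻¹ : Rˣ) : R) * (-1 + v * (1 + ε * p)), ?_⟩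
  linear_combination ((a⁻¹ : Rˣ) : R) * hu - haA - ((b⁻¹ : Rˣ) : R) * (1 + ε * p) * hv + (1 + ε * p) * hbB +
    p ^ 2 * ((b⁻¹ : Rˣ) : R) * hε

private theorem U05_fib {N n : ℕ} [NeZero N] [NeZero n] (h : n ∣ N) (c : ZMod n) :
    (univ.filter fun x : ZMod N => ZMod.castHom h (ZMod n) x = c).card * n = N := by
  classical
  have h1 : ∀ d : ZMod n, (univ.filter fun x : ZMod N => ZMod.castHom h (ZMod n) x = d).card =
      (univ.filter fun x : ZMod N => ZMod.castHom h (ZMod n) x = c).card := by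
    intro d
    have hs := ZMod.castHom_surjective h
    exact AddMonoidHom.card_fiber_eq_of_mem_range (ZMod.castHom h (ZMod n)).toAddMonoidHom (hs d) (hs c)
  have h2 := Finset.card_eq_sum_card_fiberwise (s := (univ : Finset (ZMod N))) (t := (univ : Finset (ZMod n)))
    (f := fun x => ZMod.castHom h (ZMod n) x) (fun x _ => by simp)
  rw [Finset.sum_congr rfl (fun d _ => h1 d), Finset.sum_const, Finset.card_univ, Finset.card_univ, ZMod.card, ZMod.card, smul_eq_mul] at h2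
  rw [mul_comm]; exact h2.symm

private theorem U05_dvd {p a r : ℕ} [NeZero (p ^ (a + r))] (x : ZMod (p ^ (a + r))) :
    ZMod.castHom (pow_dvd_pow p (Nat.le_add_left r a)) (ZMod (p ^ r)) x = 0 ↔ ((p : ZMod (p ^ (a + r))) ^ r) ∣ x := by
  constructor
  · intro h
    have hx : x = ((x.val : ℕ) : ZMod (p ^ (a + r))) := (ZMod.natCast_zmod_val x).symm
    rw [hx, map_natCast, ZMod.natCast_eq_zero_iff] at h
    obtain ⟨t, ht⟩ := h
    rw [hx, ht, Nat.cast_mul, Nat.cast_pow]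
    exact dvd_mul_right _ _
  · rintro ⟨t, rfl⟩
    rw [map_mul, map_pow, map_natCast, ← Nat.cast_pow, ZMod.natCast_self, zero_mul]

private theorem U05_mulp {p a r : ℕ} [Fact p.Prime] [NeZero (p ^ (a + r))] (x : ZMod (p ^ (a + r))) :
    ((p : ZMod (p ^ (a + r))) ^ r) * x = 0 ↔ ZMod.castHom (pow_dvd_pow p (Nat.le_add_right a r)) (ZMod (p ^ a)) x = 0 := by
  have hp : 0 < p := (Fact.out : p.Prime).pos
  obtain ⟨n, hx⟩ : ∃ n : ℕ, x = (n : ZMod (p ^ (a + r))) := ⟨x.val, (ZMod.natCast_zmod_val x).symm⟩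
  rw [hx, map_natCast, ZMod.natCast_eq_zero_iff, ← Nat.cast_pow, ← Nat.cast_mul, ZMod.natCast_eq_zero_iff]
  rw [show p ^ (a + r) = p ^ r * p ^ a by rw [pow_add, mul_comm]]
  exact Nat.mul_dvd_mul_iff_left (pow_pos hp r)

private theorem U05_unit {p a r : ℕ} (hr : 1 ≤ r) [NeZero (p ^ (a + r))] (t : ZMod (p ^ (a + r))) :
    IsUnit (1 + ((p : ZMod (p ^ (a + r))) ^ r) * t) := by
  refine IsNilpotent.isUnit_one_add ⟨a + r, ?_⟩
  rw [mul_pow, ← pow_mul, mul_comm r (a + r), pow_mul, ← Nat.cast_pow, ZMod.natCast_self, zero_pow (by omega), zero_mul]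

private theorem U05_card1 {p a r : ℕ} (hr : 1 ≤ r) [Fact p.Prime] [NeZero (p ^ (a + r))] :
    (univ.filter fun u : (ZMod (p ^ (a + r)))ˣ =>
      ZMod.castHom (pow_dvd_pow p (Nat.le_add_left r a)) (ZMod (p ^ r)) (u : ZMod (p ^ (a + r))) = 1).card = p ^ a := by
  classical
  have hp : 0 < p := (Fact.out : p.Prime).pos
  have : NeZero (p ^ r) := ⟨(pow_pos hp r).ne'⟩
  have h1 := U05_fib (pow_dvd_pow p (Nat.le_add_left r a)) (1 : ZMod (p ^ r))
  have h2 : (univ.filter fun u : (ZMod (p ^ (a + r)))ˣ =>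
      ZMod.castHom (pow_dvd_pow p (Nat.le_add_left r a)) (ZMod (p ^ r)) (u : ZMod (p ^ (a + r))) = 1).card =
      (univ.filter fun x : ZMod (p ^ (a + r)) => ZMod.castHom (pow_dvd_pow p (Nat.le_add_left r a)) (ZMod (p ^ r)) x = 1).card := by
    refine Finset.card_bij (fun u _ => (u : ZMod (p ^ (a + r)))) ?_ ?_ ?_
    · intro u hu
      rw [mem_filter] at hu
      rw [mem_filter]
      exact ⟨mem_univ _, hu.2⟩
    · intro u _ v _ huv
      exact Units.ext huv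
    · intro x hx
      rw [mem_filter] at hx
      have h3 : ZMod.castHom (pow_dvd_pow p (Nat.le_add_left r a)) (ZMod (p ^ r)) (x - 1) = 0 := by
        rw [map_sub, hx.2, map_one, sub_self]
      obtain ⟨t, ht⟩ := (U05_dvd _).1 h3
      have hxu : IsUnit x := by
        have h4 : x = 1 + ((p : ZMod (p ^ (a + r))) ^ r) * t := by rw [← ht]; ring
        rw [h4]; exact U05_unit hr t
      refine ⟨hxu.unit, ?_, hxu.unit_spec⟩
      rw [mem_filter]
      exact ⟨mem_univ _, by rw [hxu.unit_spec]; exact hx.2⟩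
  rw [h2]
  have h5 : (univ.filter fun x : ZMod (p ^ (a + r)) => ZMod.castHom (pow_dvd_pow p (Nat.le_add_left r a)) (ZMod (p ^ r)) x = 1).card * p ^ r =
      p ^ a * p ^ r := by rw [h1, pow_add]
  exact Nat.eq_of_mul_eq_mul_right (pow_pos hp r) h5

private theorem U05_card2 {p a r : ℕ} (hr : 1 ≤ r) [Fact p.Prime] [NeZero (p ^ (a + r))] (ha : r ≤ a) (w z : ZMod (p ^ (a + r))) :
    (univ.filter fun u : (ZMod (p ^ (a + r)))ˣ =>
      ZMod.castHom (pow_dvd_pow p (Nat.le_add_left r a)) (ZMod (p ^ r)) (u : ZMod (p ^ (a + r))) = 1 ∧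
        (u : ZMod (p ^ (a + r))) * (-((p : ZMod (p ^ (a + r))) ^ r) + ((p : ZMod (p ^ (a + r))) ^ r) ^ 2 * w) =
          -((p : ZMod (p ^ (a + r))) ^ r) + ((p : ZMod (p ^ (a + r))) ^ r) ^ 2 * z).card = p ^ r := by
  classical
  have hpp : 0 < p := (Fact.out : p.Prime).pos
  have : NeZero (p ^ a) := ⟨(pow_pos hpp a).ne'⟩
  set P : ZMod (p ^ (a + r)) := ((p : ZMod (p ^ (a + r))) ^ r) with hP
  have hW : IsUnit (1 + P * (-w)) := U05_unit hr (-w)
  obtain ⟨W, hWW⟩ := hW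
  obtain ⟨y, hWy⟩ : ∃ y : ZMod (p ^ (a + r)), (1 + P * (-w)) * y = 1 + P * (-z) := by
    refine ⟨((W⁻¹ : (ZMod (p ^ (a + r)))ˣ) : ZMod (p ^ (a + r))) * (1 + P * (-z)), ?_⟩
    rw [← hWW, ← mul_assoc, Units.mul_inv, one_mul]
  have hcp : ZMod.castHom (pow_dvd_pow p (Nat.le_add_left r a)) (ZMod (p ^ r)) P = 0 := by
    rw [hP, map_pow, map_natCast, ← Nat.cast_pow, ZMod.natCast_self]
  have hy1 : ZMod.castHom (pow_dvd_pow p (Nat.le_add_left r a)) (ZMod (p ^ r)) y = 1 := by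
    have h := congrArg (ZMod.castHom (pow_dvd_pow p (Nat.le_add_left r a)) (ZMod (p ^ r))) hWy
    rw [map_mul, map_add, map_mul, hcp, zero_mul, map_one, add_zero, one_mul, map_add, map_mul, hcp, zero_mul, map_one, add_zero] at h
    exact h
  have h1 := U05_fib (pow_dvd_pow p (Nat.le_add_right a r)) (ZMod.castHom (pow_dvd_pow p (Nat.le_add_right a r)) (ZMod (p ^ a)) y)
  have h2 : (univ.filter fun u : (ZMod (p ^ (a + r)))ˣ =>
      ZMod.castHom (pow_dvd_pow p (Nat.le_add_left r a)) (ZMod (p ^ r)) (u : ZMod (p ^ (a + r))) = 1 ∧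
        (u : ZMod (p ^ (a + r))) * (-P + P ^ 2 * w) = -P + P ^ 2 * z).card =
      (univ.filter fun x : ZMod (p ^ (a + r)) => ZMod.castHom (pow_dvd_pow p (Nat.le_add_right a r)) (ZMod (p ^ a)) x =
        ZMod.castHom (pow_dvd_pow p (Nat.le_add_right a r)) (ZMod (p ^ a)) y).card := by
    refine Finset.card_bij (fun u _ => (u : ZMod (p ^ (a + r)))) ?_ ?_ ?_
    · intro u hu
      rw [mem_filter] at hu
      rw [mem_filter]
      refine ⟨mem_univ _, ?_⟩
      have h3 : P * ((u : ZMod (p ^ (a + r))) - y) = 0 := by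
        have h4 : (W : ZMod (p ^ (a + r))) * (P * ((u : ZMod (p ^ (a + r))) - y)) = 0 := by
          rw [hWW]
          linear_combination (-1 : ZMod (p ^ (a + r))) * hu.2.2 - P * hWy
        exact (Units.mul_right_eq_zero W).1 h4
      have h5 := (U05_mulp _).1 h3
      rw [map_sub, sub_eq_zero] at h5
      exact h5
    · intro u _ v _ huv
      exact Units.ext huv
    · intro x hx
      rw [mem_filter] at hx
      have h3 : P * (x - y) = 0 := by
        refine (U05_mulp _).2 ?_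
        rw [map_sub, hx.2, sub_self]
      have h4 : ZMod.castHom (pow_dvd_pow p (Nat.le_add_left r a)) (ZMod (p ^ r)) x = 1 := by
        have h5 : ZMod.castHom (pow_dvd_pow p ha) (ZMod (p ^ r)) (ZMod.castHom (pow_dvd_pow p (Nat.le_add_right a r)) (ZMod (p ^ a)) x) =
            ZMod.castHom (pow_dvd_pow p ha) (ZMod (p ^ r)) (ZMod.castHom (pow_dvd_pow p (Nat.le_add_right a r)) (ZMod (p ^ a)) y) := by
          rw [hx.2]
        have h6 : (ZMod.castHom (pow_dvd_pow p ha) (ZMod (p ^ r))).comp (ZMod.castHom (pow_dvd_pow p (Nat.le_add_right a r)) (ZMod (p ^ a))) =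
            ZMod.castHom (pow_dvd_pow p (Nat.le_add_left r a)) (ZMod (p ^ r)) := Subsingleton.elim _ _
        have h7 := DFunLike.congr_fun h6 x
        have h8 := DFunLike.congr_fun h6 y
        rw [RingHom.comp_apply] at h7 h8
        rw [← h7, h5, h8, hy1]
      have h9 : ZMod.castHom (pow_dvd_pow p (Nat.le_add_left r a)) (ZMod (p ^ r)) (x - 1) = 0 := by
        rw [map_sub, h4, map_one, sub_self]
      obtain ⟨t, ht⟩ := (U05_dvd _).1 h9
      have hxu : IsUnit x := by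
        have h10 : x = 1 + ((p : ZMod (p ^ (a + r))) ^ r) * t := by rw [← ht]; ring
        rw [h10]; exact U05_unit hr t
      refine ⟨hxu.unit, ?_, hxu.unit_spec⟩
      rw [mem_filter]
      refine ⟨mem_univ _, by rw [hxu.unit_spec]; exact h4, ?_⟩
      rw [hxu.unit_spec]
      linear_combination (-(1 + P * (-w))) * h3 - P * hWy
  rw [h2]
  have h5 : (univ.filter fun x : ZMod (p ^ (a + r)) => ZMod.castHom (pow_dvd_pow p (Nat.le_add_right a r)) (ZMod (p ^ a)) x =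
        ZMod.castHom (pow_dvd_pow p (Nat.le_add_right a r)) (ZMod (p ^ a)) y).card * p ^ a = p ^ r * p ^ a := by
    rw [h1, pow_add, mul_comm]
  exact Nat.eq_of_mul_eq_mul_right (pow_pos hpp a) h5

private theorem U05_ex {H : Type*} [CommGroup H] (k : ℕ) (u : H) (P : Fin k → H) (j : ℕ) :
    ex (k + 1) (Fin.cons u P : Fin (k + 1) → H) (j + 1) = ex k P j := by
  by_cases h : j < k
  · rw [ex_lt _ h, ex_lt _ (show j + 1 < k + 1 by omega)]
    exact Fin.cons_succ (α := fun _ => H) u P ⟨j, h⟩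
  · rw [ex_ge _ (show k ≤ j by omega), ex_ge _ (show k + 1 ≤ j + 1 by omega)]

theorem U05 {p a r k : ℕ} [Fact p.Prime] [NeZero (p ^ (a + r))] (hr : 1 ≤ r) (ha : 2 * r ≤ a) (hk : Even (k + 1)) (hk1 : 1 ≤ k)
    (al be : ℕ → (ZMod (p ^ (a + r)))ˣ)
    (het : ∀ j ≤ k, ∃ c : ZMod (p ^ (a + r)), et al be j = (-1) ^ j * ((p : ZMod (p ^ (a + r))) ^ r) + ((p : ZMod (p ^ (a + r))) ^ r) ^ 2 * c)
    (τ : ZMod (p ^ (a + r))) (hτ : ((p : ZMod (p ^ (a + r))) ^ r) ^ 2 ∣ τ) :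
    open Classical in ((univ : Finset (Fin k → (ZMod (p ^ (a + r)))ˣ)).filter fun P =>
      (∀ j, ZMod.castHom (pow_dvd_pow p (Nat.le_add_left r a)) (ZMod (p ^ r)) (P j : ZMod (p ^ (a + r))) = 1) ∧
        Sg (k + 1) al be (pp k P) = τ).card * p ^ (a - r) = p ^ (a * k) := by
  classical
  obtain ⟨K, rfl⟩ : ∃ K, k = K + 1 := ⟨k - 1, by omega⟩
  have hKe : Even K := by
    rcases hk with ⟨r, hr⟩
    exact ⟨r - 1, by omega⟩
  set Q : ZMod (p ^ (a + r)) := ((p : ZMod (p ^ (a + r))) ^ r) with hQ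
  have hSg : ∀ (u : (ZMod (p ^ (a + r)))ˣ) (P : Fin K → (ZMod (p ^ (a + r)))ˣ),
      Sg (K + 1 + 1) al be (pp (K + 1) (Fin.cons u P : Fin (K + 1) → (ZMod (p ^ (a + r)))ˣ)) =
        ∑ j ∈ range K, ((ex K P j : (ZMod (p ^ (a + r)))ˣ) : ZMod (p ^ (a + r))) * et al be (j + 2) + (u : ZMod (p ^ (a + r))) * et al be 1 + et al be 0 := by
    intro u P
    unfold Sg
    rw [Finset.sum_range_succ', Finset.sum_range_succ']
    congr 1
    · congr 1
      refine Finset.sum_congr rfl fun j _ => ?_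
      show ((ex (K + 1) (Fin.cons u P : Fin (K + 1) → (ZMod (p ^ (a + r)))ˣ) (j + 1) : (ZMod (p ^ (a + r)))ˣ) : ZMod (p ^ (a + r))) * et al be (j + 2) = _
      rw [U05_ex]
    · have h2 : pp (K + 1) (Fin.cons u P : Fin (K + 1) → (ZMod (p ^ (a + r)))ˣ) 0 = 1 := rfl
      rw [h2, Units.val_one, one_mul]
  have hin : ∀ P : Fin K → (ZMod (p ^ (a + r)))ˣ,
      (∀ j, ZMod.castHom (pow_dvd_pow p (Nat.le_add_left r a)) (ZMod (p ^ r)) (P j : ZMod (p ^ (a + r))) = 1) →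
      (univ.filter fun u : (ZMod (p ^ (a + r)))ˣ =>
        ZMod.castHom (pow_dvd_pow p (Nat.le_add_left r a)) (ZMod (p ^ r)) (u : ZMod (p ^ (a + r))) = 1 ∧
          Sg (K + 1 + 1) al be (pp (K + 1) (Fin.cons u P : Fin (K + 1) → (ZMod (p ^ (a + r)))ˣ)) = τ).card = p ^ r := by
    intro P hP
    obtain ⟨w, hw⟩ := het 1 (by omega)
    obtain ⟨c0, hc0⟩ := het 0 (by omega)
    obtain ⟨t, ht⟩ := hτ
    have hS : Q ^ 2 ∣ ∑ j ∈ range K, ((ex K P j : (ZMod (p ^ (a + r)))ˣ) : ZMod (p ^ (a + r))) * et al be (j + 2) := by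
      have h1 : ∑ j ∈ range K, ((ex K P j : (ZMod (p ^ (a + r)))ˣ) : ZMod (p ^ (a + r))) * et al be (j + 2) =
          ∑ j ∈ range K, (((ex K P j : (ZMod (p ^ (a + r)))ˣ) : ZMod (p ^ (a + r))) * et al be (j + 2) - (-1) ^ j * Q) := by
        rw [Finset.sum_sub_distrib, ← Finset.sum_mul, neg_one_geom_sum, if_pos hKe, zero_mul, sub_zero]
      rw [h1]
      refine Finset.dvd_sum fun j hj => ?_
      rw [mem_range] at hj
      obtain ⟨c, hc⟩ := het (j + 2) (by omega)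
      have h3 : ZMod.castHom (pow_dvd_pow p (Nat.le_add_left r a)) (ZMod (p ^ r))
          (((ex K P j : (ZMod (p ^ (a + r)))ˣ) : ZMod (p ^ (a + r))) - 1) = 0 := by
        rw [ex_lt _ hj, map_sub, hP, map_one, sub_self]
      obtain ⟨s, hs⟩ := (U05_dvd _).1 h3
      have h4 : ((ex K P j : (ZMod (p ^ (a + r)))ˣ) : ZMod (p ^ (a + r))) = 1 + Q * s := by
        rw [hQ, ← hs]; ring
      have h5 : (-1 : ZMod (p ^ (a + r))) ^ (j + 2) = (-1) ^ j :=
        (pow_add (-1 : ZMod (p ^ (a + r))) j 2).trans (by rw [neg_one_sq, mul_one])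
      rw [h4, hc, h5]
      refine ⟨s * (-1) ^ j + c + Q * s * c, ?_⟩
      ring
    obtain ⟨S, hS⟩ := hS
    have hc := U05_card2 (p := p) (a := a) hr (by omega) w (t - c0 - S)
    refine Eq.trans ?_ hc
    congr 1
    refine Finset.filter_congr fun u _ => ?_
    refine and_congr_right fun _ => ?_
    rw [hSg, hS, hw, hc0, ht, ← hQ]
    constructor
    · intro h
      linear_combination h
    · intro h
      linear_combination h
  have hcard : ((univ : Finset (Fin (K + 1) → (ZMod (p ^ (a + r)))ˣ)).filter fun P =>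
      (∀ j, ZMod.castHom (pow_dvd_pow p (Nat.le_add_left r a)) (ZMod (p ^ r)) (P j : ZMod (p ^ (a + r))) = 1) ∧
        Sg (K + 1 + 1) al be (pp (K + 1) P) = τ).card = (p ^ a) ^ K * p ^ r := by
    rw [Finset.card_filter]
    rw [← Equiv.sum_comp (Fin.consEquiv (fun _ : Fin (K + 1) => (ZMod (p ^ (a + r)))ˣ))]
    rw [Fintype.sum_prod_type_right]
    have h1 : ∀ P : Fin K → (ZMod (p ^ (a + r)))ˣ,
        (∑ u : (ZMod (p ^ (a + r)))ˣ, if (∀ j, ZMod.castHom (pow_dvd_pow p (Nat.le_add_left r a)) (ZMod (p ^ r))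
          (((Fin.cons u P : Fin (K + 1) → (ZMod (p ^ (a + r)))ˣ) j : (ZMod (p ^ (a + r)))ˣ) : ZMod (p ^ (a + r))) = 1) ∧
          Sg (K + 1 + 1) al be (pp (K + 1) (Fin.cons u P : Fin (K + 1) → (ZMod (p ^ (a + r)))ˣ)) = τ then 1 else 0) =
        if (∀ j, ZMod.castHom (pow_dvd_pow p (Nat.le_add_left r a)) (ZMod (p ^ r)) (P j : ZMod (p ^ (a + r))) = 1) then p ^ r else 0 := by
      intro P
      split_ifs with hP
      · refine Eq.trans ?_ (hin P hP)
        rw [Finset.card_filter]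
        refine Finset.sum_congr rfl fun u _ => ?_
        refine if_congr (and_congr_left fun _ => ?_) rfl rfl
        rw [Fin.forall_fin_succ]
        simp only [Fin.cons_zero, Fin.cons_succ]
        exact ⟨fun h => h.1, fun h => ⟨h, hP⟩⟩
      · refine Finset.sum_eq_zero fun u _ => if_neg fun h => hP fun j => ?_
        have h2 := h.1 j.succ
        simpa using h2
    refine (Finset.sum_congr rfl fun P _ => h1 P).trans ?_
    rw [← Finset.sum_filter, Finset.sum_const, smul_eq_mul]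
    congr 1
    have h3 : (univ.filter fun P : Fin K → (ZMod (p ^ (a + r)))ˣ =>
        ∀ j, ZMod.castHom (pow_dvd_pow p (Nat.le_add_left r a)) (ZMod (p ^ r)) (P j : ZMod (p ^ (a + r))) = 1) =
        Fintype.piFinset fun _ : Fin K => univ.filter fun u : (ZMod (p ^ (a + r)))ˣ =>
          ZMod.castHom (pow_dvd_pow p (Nat.le_add_left r a)) (ZMod (p ^ r)) (u : ZMod (p ^ (a + r))) = 1 := by
      ext P
      rw [Fintype.mem_piFinset, Finset.mem_filter]
      constructor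
      · intro h j
        exact Finset.mem_filter.2 ⟨Finset.mem_univ _, h.2 j⟩
      · intro h
        exact ⟨Finset.mem_univ _, fun j => (Finset.mem_filter.1 (h j)).2⟩
    rw [h3, Fintype.card_piFinset, Finset.prod_const, Finset.card_univ, Fintype.card_fin, U05_card1 hr]
  rw [hcard, ← pow_mul, mul_assoc, ← pow_add, ← pow_add]
  congr 1
  have : r + (a - r) = a := by omega
  rw [this]
  ring

/-- `U05` for the modulus `p ^ n`, `n = a + r` -/
theorem U05n {p a r k n : ℕ} [Fact p.Prime] [NeZero (p ^ n)] (hn : n = a + r) (hr : 1 ≤ r) (ha : 2 * r ≤ a) (hk : Even (k + 1)) (hk1 : 1 ≤ k)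
    (al be : ℕ → (ZMod (p ^ n))ˣ)
    (het : ∀ j ≤ k, ∃ c : ZMod (p ^ n), et al be j = (-1) ^ j * (p : ZMod (p ^ n)) ^ r + ((p : ZMod (p ^ n)) ^ r) ^ 2 * c)
    (τ : ZMod (p ^ n)) (hτ : ((p : ZMod (p ^ n)) ^ r) ^ 2 ∣ τ) :
    open Classical in ((univ : Finset (Fin k → (ZMod (p ^ n))ˣ)).filter fun P =>
      (∀ j, (p : ZMod (p ^ n)) ^ r ∣ (P j : ZMod (p ^ n)) - 1) ∧ Sg (k + 1) al be (pp k P) = τ).card * p ^ (a - r) = p ^ (a * k) := by
  classical
  subst hn
  have h := U05 hr ha hk hk1 al be het τ hτ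
  rw [← h]
  congr 2
  refine Finset.filter_congr fun P _ => ?_
  refine and_congr_left fun _ => forall_congr' fun j => ?_
  rw [← U05_dvd, map_sub, map_one, sub_eq_zero]

end Pool.Agent.Lib.TTC
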