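import Pool.Agent.Lib.MP_092512_nt.TT.C.Q08
import Pool.Agent.Lib.MP_092512_nt.TT.C.POK
import Pool.Agent.Lib.MP_092512_nt.TT.C.U05
import Pool.Agent.Lib.MP_092512_nt.TT.C.U07

/-!
# Q14: the local proportions (3.2), (3.3)

`lav` is the number of `P : Fin k → HP T.E p` with `cb` divided by `(p^v (p-1))^k`, `v = padicValNat p T.E` (`av_eq`, `ZMod.card_units_eq_totient`, `Nat.totient_prime_pow_succ`).
* `Q14_cls`: `α_j ≡ 1` modulo `W0^(2r)` (so modulo `p^(2r)`), `β_j ≡ 1 - (-1)^j p^r` modulo `p^(2r)`; `toU q n = n` as `n` is a prime `> y0`, coprime to `q`.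
* `Q14_small`: `p < p0`, so `p ∈ base`, `a = v_p(D) ≥ 2r`, `v + 1 = a + r`, the condition is `cS`: `P j ≡ 1` modulo `p^r` for all `j` and `Sg = τ` with `τ = n_p D/(α_0 yc)`, `p^(2r) ∣ τ`: `U05n`
  (with `U05_et`, `ε = (-1)^j`): the number is `p^(ak)/p^(a-r)`.
* `Q14_D`: `p ≥ p0`, `p ∣ D` (so `p ∈ base`, `v ≥ 1`), `Good3`: `U06` (from three good indices two are `≥ 1`).
* `Q14_bad`: `p ∈ PS`: `cb .. False` is `cD` (trivial for `v = 0`), `cb .. True` implies `cD` and the bad event of `U07` (`a = v`, `u = D / p^v`): `U07`; for `p = l` the coefficients `Bk f` must be units (not `evp`).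
* `Q14_one`: for `p ∉ base` the condition `cb .. False` is void.
* `Q14_good`: not `badpair`: for `p ∈ PS` at least three `j ≤ k` with `p ∤ α_j - β_j`; then `1/β_j - 1/α_j` is a unit.
-/

set_option autoImplicit false

open Finset

namespace Pool.Agent.Lib.TTC

variable {S : MS} {T : Dat} {W0 : ℕ} {Z : Fin (S.k + 1) → ℕ} {μ : S.TX} {ν : S.TY}

/-! ### auxiliary lemmas -/

private theorem Q14_finite (n : ℕ) : Finite (ZMod n)ˣ := by
  rcases Nat.eq_zero_or_pos n with h | h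
  · subst h
    exact inferInstanceAs (Finite ℤˣ)
  · have : NeZero n := ⟨h.ne'⟩
    infer_instance

private theorem Q14_card {p : ℕ} (hp : p.Prime) (v k : ℕ) [NeZero (p ^ (v + 1))] :
    Fintype.card (Fin k → (ZMod (p ^ (v + 1)))ˣ) = (p ^ v * (p - 1)) ^ k := by
  rw [Fintype.card_fun, Fintype.card_fin, ZMod.card_units_eq_totient, Nat.totient_prime_pow_succ hp]

open Classical in
private theorem Q14_lav {T : Dat} {k p : ℕ} (hp : p.Prime) (yn : ℕ) (B : Prop) (al be : ℕ → HP T.E p)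
    [NeZero (p ^ (padicValNat p T.E + 1))] : lav T k p yn B al be =
      (((univ : Finset (Fin k → HP T.E p)).filter fun P => cb T k p yn B al be (Loc.pp k P)).card : ℝ) /
        (((p ^ padicValNat p T.E * (p - 1)) ^ k : ℕ) : ℝ) := by
  unfold lav
  rw [av_eq, Q14_card hp]
  congr 1
  rw [Finset.card_filter]
  push_cast
  refine sum_congr rfl fun P _ => ?_
  by_cases h : cb T k p yn B al be (Loc.pp k P)
  · rw [ind_true h, if_pos h]
  · rw [ind_false h, if_neg h]

private theorem Q14_vpos {D : ℕ} (hD : 0 < D) {p : ℕ} (hp : p.Prime) : p ∣ D ↔ 1 ≤ padicValNat p D := by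
  have : Fact p.Prime := ⟨hp⟩
  rw [← padicValNat_dvd_iff_le hD.ne', pow_one]

theorem Q14_small {k : ℕ} (hT : T.OK W0) (hk : Odd k) {p : ℕ} (hp : p.Prime) (hp0 : p < T.p0) {al be : ℕ → HP T.E p}
    (ha : ∀ j ≤ k, (p : RP T.E p) ^ (2 * T.r) ∣ (al j : RP T.E p) - 1)
    (hb : ∀ j ≤ k, (p : RP T.E p) ^ (2 * T.r) ∣ (be j : RP T.E p) - (1 - (-1) ^ j * (p : RP T.E p) ^ T.r))
    (yn : ℕ) : lav T k p yn False al be = 1 / (((p : ℝ) - 1) ^ k * (p : ℝ) ^ ((T.r - 1) * k + (padicValNat p T.D - T.r))) := by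
  classical
  have hF : Fact p.Prime := ⟨hp⟩
  have hNZ : NeZero (p ^ (padicValNat p T.E + 1)) := ⟨(pow_pos hp.pos _).ne'⟩
  have hr := hT.r_pos
  have hv := hT.vDs hp hp0
  have hn : padicValNat p T.E + 1 = padicValNat p T.D + T.r := by
    rw [hT.vEs hp hp0]
    omega
  have hpD : p ^ (2 * T.r) ∣ T.D := (padicValNat_dvd_iff_le hT.D_pos.ne').2 hv
  have hbase : p ∈ T.base := by
    unfold Dat.base
    rw [mem_filter, mem_range]
    have h1 := hT.p0_le
    have h2 := hT.y_le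
    exact ⟨by omega, hp, Or.inl hp0⟩
  have hsq : ((p : RP T.E p) ^ T.r) ^ 2 = (p : RP T.E p) ^ (2 * T.r) := by
    rw [← pow_mul, mul_comm]
  obtain ⟨yu, hyu⟩ : ∃ yu : HP T.E p, (yu : RP T.E p) = (T.yc : RP T.E p) := by
    have h1 : Nat.Coprime T.yc (p ^ (padicValNat p T.E + 1)) :=
      Nat.Coprime.pow_right _ ((Nat.Prime.coprime_iff_not_dvd hp).2 (hT.yc p hp hp0)).symm
    exact ⟨ZMod.unitOfCoprime T.yc h1, ZMod.coe_unitOfCoprime T.yc h1⟩
  set τ : RP T.E p := (((al 0 * yu)⁻¹ : HP T.E p) : RP T.E p) * ((T.np p : RP T.E p) * T.D) with hτ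
  have hτd : ((p : RP T.E p) ^ T.r) ^ 2 ∣ τ := by
    rw [hsq]
    obtain ⟨t, ht⟩ := hpD
    refine ⟨(((al 0 * yu)⁻¹ : HP T.E p) : RP T.E p) * ((T.np p : RP T.E p) * t), ?_⟩
    have h1 : (T.D : RP T.E p) = (p : RP T.E p) ^ (2 * T.r) * (t : RP T.E p) := by
      have h2 := congrArg (fun n : ℕ => (n : RP T.E p)) ht
      simp only [Nat.cast_mul, Nat.cast_pow] at h2
      exact h2
    rw [hτ, h1]
    ring
  have het : ∀ j ≤ k, ∃ c : RP T.E p, Loc.et al be j = (-1) ^ j * (p : RP T.E p) ^ T.r + ((p : RP T.E p) ^ T.r) ^ 2 * c := by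
    intro j hj
    exact U05_et ((p : RP T.E p) ^ T.r) ((-1) ^ j) (by rw [← mul_pow]; norm_num) (al j) (be j) (by rw [hsq]; exact ha j hj)
      (by rw [hsq]; exact hb j hj)
  have hcount := U05n hn hr hv (by rcases hk with ⟨r, hr⟩; exact ⟨r + 1, by omega⟩) (by rcases hk with ⟨r, hr⟩; omega) al be het τ hτd
  have hset : ((univ : Finset (Fin k → HP T.E p)).filter fun P => cb T k p yn False al be (Loc.pp k P)) =
      ((univ : Finset (Fin k → (ZMod (p ^ (padicValNat p T.E + 1)))ˣ)).filter fun P =>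
        (∀ j, (p : ZMod (p ^ (padicValNat p T.E + 1))) ^ T.r ∣
          (P j : ZMod (p ^ (padicValNat p T.E + 1))) - 1) ∧ Loc.Sg (k + 1) al be (Loc.pp k P) = τ) := by
    ext P
    rw [mem_filter, mem_filter]
    refine and_congr_right fun _ => ?_
    unfold cb cP cS
    rw [if_pos hp0]
    have e1 : (∀ j ≤ k, (p : RP T.E p) ^ T.r ∣ ((Loc.pp k P j : HP T.E p) : RP T.E p) - 1) ↔
        ∀ j, (p : ZMod (p ^ (padicValNat p T.E + 1))) ^ T.r ∣ (P j : ZMod (p ^ (padicValNat p T.E + 1))) - 1 := by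
      constructor
      · intro h j
        have h1 := h (j + 1) (by omega)
        rw [Loc.pp_succ P j.isLt] at h1
        exact h1
      · intro h j hj
        rcases j with _ | j
        · have h1 : Loc.pp k P 0 = 1 := rfl
          rw [h1, Units.val_one, sub_self]
          exact dvd_zero _
        · rw [Loc.pp_succ P (show j < k by omega)]
          exact h _
    have e3 : ((al 0 : RP T.E p) * T.yc * Loc.Sg (k + 1) al be (Loc.pp k P) = (T.np p : RP T.E p) * T.D) ↔
        Loc.Sg (k + 1) al be (Loc.pp k P) = τ := by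
      rw [hτ, ← hyu, ← Units.val_mul]
      constructor
      · intro h
        rw [← h, Units.inv_mul_cancel_left]
      · intro h
        rw [h, Units.mul_inv_cancel_left]
    rw [← e1, ← e3]
    constructor
    · rintro ⟨h1, -⟩
      exact h1 hbase
    · intro h
      exact ⟨fun _ => h, False.elim⟩
  rw [Q14_lav hp, hset]
  have hp1 : (1 : ℝ) < p := by exact_mod_cast hp.one_lt
  have hp0' : (0 : ℝ) < p := by linarith
  have hcr : ((((univ : Finset (Fin k → (ZMod (p ^ (padicValNat p T.E + 1)))ˣ)).filter fun P =>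
        (∀ j, (p : ZMod (p ^ (padicValNat p T.E + 1))) ^ T.r ∣
          (P j : ZMod (p ^ (padicValNat p T.E + 1))) - 1) ∧ Loc.Sg (k + 1) al be (Loc.pp k P) = τ).card : ℕ) : ℝ) *
        (p : ℝ) ^ (padicValNat p T.D - T.r) = (p : ℝ) ^ (padicValNat p T.D * k) := by
    exact_mod_cast hcount
  have hp2 : ((p - 1 : ℕ) : ℝ) = (p : ℝ) - 1 := by
    rw [Nat.cast_sub hp.one_lt.le, Nat.cast_one]
  rw [Nat.cast_pow, Nat.cast_mul, hp2, Nat.cast_pow, div_eq_div_iff (by positivity) (by positivity)]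
  have hE : (p : ℝ) ^ (padicValNat p T.E * k) = (p : ℝ) ^ (padicValNat p T.D * k) * (p : ℝ) ^ ((T.r - 1) * k) := by
    rw [← pow_add]
    congr 1
    rw [hT.vEs hp hp0]
    ring
  have hE2 : (p : ℝ) ^ ((T.r - 1) * k + (padicValNat p T.D - T.r)) = (p : ℝ) ^ ((T.r - 1) * k) * (p : ℝ) ^ (padicValNat p T.D - T.r) :=
    pow_add _ _ _
  rw [mul_pow, ← pow_mul, hE, ← hcr, hE2]
  ring

theorem Q14_one {k : ℕ} {p : ℕ} (hp : p ∉ T.base) (yn : ℕ) (al be : ℕ → HP T.E p) : lav T k p yn False al be = 1 := by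
  have hf : Finite (HP T.E p) := Q14_finite _
  unfold lav
  have h1 : (fun P : Fin k → HP T.E p => ind (cb T k p yn False al be (Loc.pp k P))) = fun _ => (1 : ℝ) := by
    funext P
    exact ind_true ⟨fun h => absurd h hp, False.elim⟩
  rw [h1]
  exact av_const 1

theorem Q14_D {k : ℕ} (hT : T.OK W0) (h5 : 5 ≤ T.p0) {p : ℕ} (hp : p.Prime) (hp0 : T.p0 ≤ p) (hpD : p ∣ T.D) {al be : ℕ → HP T.E p} (hg : Good3 k al be) (yn : ℕ) :
    1 / (2 * (p : ℝ) ^ padicValNat p T.E) ≤ lav T k p yn False al be ∧ lav T k p yn False al be ≤ 2 / (p : ℝ) ^ padicValNat p T.E := by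
  classical
  have hF : Fact p.Prime := ⟨hp⟩
  have hNZ : NeZero (p ^ (padicValNat p T.E + 1)) := ⟨(pow_pos hp.pos _).ne'⟩
  have hv : 1 ≤ padicValNat p T.E := (Q14_vpos hT.E_pos hp).1 ((hT.dvdE hp).2 hpD)
  have hbase : p ∈ T.base := by
    unfold Dat.base
    rw [mem_filter, mem_range]
    have h1 := Nat.le_of_dvd hT.D_pos hpD
    have h2 := hT.D_le
    exact ⟨by omega, hp, Or.inr hpD⟩
  obtain ⟨j₁, j₂, j₃, g1, g2, g3, -, g5, g6⟩ := hg
  obtain ⟨hlo, hup⟩ := U06 (h5.trans hp0) hv al be (show 1 ≤ j₂ by omega) g2 g3 g5 g6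
  have hset : ((univ : Finset (Fin k → HP T.E p)).filter fun P => cb T k p yn False al be (Loc.pp k P)) =
      ((univ : Finset (Fin k → (ZMod (p ^ (padicValNat p T.E + 1)))ˣ)).filter fun P =>
        (p : ZMod (p ^ (padicValNat p T.E + 1))) ^ padicValNat p T.E ∣ Loc.Sg (k + 1) al be (Loc.pp k P)) := by
    ext P
    rw [mem_filter, mem_filter]
    refine and_congr_right fun _ => ?_
    unfold cb cP cD
    rw [if_neg (by omega)]
    exact ⟨fun h => h.1 hbase, fun h => ⟨fun _ => h, False.elim⟩⟩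
  rw [Nat.totient_prime_pow_succ hp] at hlo hup
  rw [Q14_lav hp, hset]
  set X := ((univ : Finset (Fin k → (ZMod (p ^ (padicValNat p T.E + 1)))ˣ)).filter fun P =>
        (p : ZMod (p ^ (padicValNat p T.E + 1))) ^ padicValNat p T.E ∣ Loc.Sg (k + 1) al be (Loc.pp k P)).card with hX
  have hpr : (0 : ℝ) < p := by exact_mod_cast hp.pos
  have hφ : (0 : ℝ) < (((p ^ padicValNat p T.E * (p - 1)) ^ k : ℕ) : ℝ) := by
    have : 0 < (p ^ padicValNat p T.E * (p - 1)) ^ k :=
      pow_pos (Nat.mul_pos (pow_pos hp.pos _) (Nat.sub_pos_of_lt hp.one_lt)) _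
    exact_mod_cast this
  have hlo' : (((p ^ padicValNat p T.E * (p - 1)) ^ k : ℕ) : ℝ) ≤ 2 * ((X : ℝ) * (p : ℝ) ^ padicValNat p T.E) := by
    exact_mod_cast hlo
  have hup' : (X : ℝ) * (p : ℝ) ^ padicValNat p T.E ≤ 2 * (((p ^ padicValNat p T.E * (p - 1)) ^ k : ℕ) : ℝ) := by
    exact_mod_cast hup
  constructor
  · rw [div_le_div_iff₀ (by positivity) hφ]
    linarith
  · rw [div_le_div_iff₀ hφ (by positivity)]
    linarith

theorem Q14_bad {k : ℕ} (hT : T.OK W0) (h5 : 5 ≤ T.p0) {p : ℕ} (hp : p ∈ T.PS) {al be : ℕ → HP T.E p} (hg : Good3 k al be)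
    (he : p = T.l → ∀ f ∈ T.Fs k, IsUnit (Loc.Bk al be (T.h : RP T.E p) f)) (yn : ℕ) :
    lav T k p yn True al be ≤ 8 * (T.F k : ℝ) / p * lav T k p yn False al be := by
  classical
  unfold Dat.PS at hp
  rw [mem_filter, mem_range] at hp
  obtain ⟨hpy, hpp, hp0⟩ := hp
  have hF : Fact p.Prime := ⟨hpp⟩
  have hNZ : NeZero (p ^ (padicValNat p T.E + 1)) := ⟨(pow_pos hpp.pos _).ne'⟩
  obtain ⟨u, hu⟩ : p ^ padicValNat p T.E ∣ T.D := by
    rw [hT.vE hpp hp0]
    exact pow_padicValNat_dvd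
  have hund : ¬ p ∣ u := by
    intro h
    have h1 := pow_succ_padicValNat_not_dvd (p := p) hT.D_pos.ne'
    rw [← hT.vE hpp hp0] at h1
    apply h1
    conv_rhs => rw [hu]
    rw [pow_succ]
    exact Nat.mul_dvd_mul_left _ h
  have hFk : (T.Fs k).card + (k + 1) ≤ 2 * T.F k := by
    have h1 : (T.Fs k).card = T.F k := by
      unfold Dat.Fs Dat.F
      rw [card_product, card_range]
    have h2 : 1 ≤ T.Js.card := by
      unfold Dat.Js
      exact card_pos.2 ⟨_, mem_insert_self _ _⟩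
    have h3 : k + 1 ≤ T.F k := by
      unfold Dat.F
      exact Nat.le_mul_of_pos_right _ h2
    omega
  rw [Q14_lav hpp, Q14_lav hpp]
  have hpr : (0 : ℝ) < p := by exact_mod_cast hpp.pos
  have hφ : (0 : ℝ) < (((p ^ padicValNat p T.E * (p - 1)) ^ k : ℕ) : ℝ) := by
    have : 0 < (p ^ padicValNat p T.E * (p - 1)) ^ k :=
      pow_pos (Nat.mul_pos (pow_pos hpp.pos _) (Nat.sub_pos_of_lt hpp.one_lt)) _
    exact_mod_cast this
  have hs2 : ((univ : Finset (Fin k → (ZMod (p ^ (padicValNat p T.E + 1)))ˣ)).filter fun P =>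
      (p : ZMod (p ^ (padicValNat p T.E + 1))) ^ padicValNat p T.E ∣ Loc.Sg (k + 1) al be (Loc.pp k P)).card ≤
      ((univ : Finset (Fin k → HP T.E p)).filter fun P => cb T k p yn False al be (Loc.pp k P)).card := by
    refine card_le_card fun P hP => ?_
    rw [mem_filter] at hP ⊢
    refine ⟨mem_univ _, fun _ => ?_, False.elim⟩
    unfold cP
    rw [if_neg (by omega)]
    exact hP.2
  have h1 : ((univ : Finset (Fin k → HP T.E p)).filter fun P => cb T k p yn True al be (Loc.pp k P)).card * p ≤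
      8 * T.F k * ((univ : Finset (Fin k → HP T.E p)).filter fun P => cb T k p yn False al be (Loc.pp k P)).card := by
    by_cases hE : ¬ p ∣ yn ∧ (¬ (p : ℤ) ∣ yn + T.D * T.h ∨ p = T.l)
    · have key := U07 (Yn := yn) (y := T.y) (h := T.h) (Fs := T.Fs k) (h5.trans hp0) hu hund al be hg hE.1 (fun f hf => Fs_le hf) (by
        rcases hE.2 with h3 | h3
        · exact Or.inl h3
        · refine Or.inr ⟨?_, he h3⟩
          rcases hT.l_or with h4 | h4
          · rw [h3, h4] at hpp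
            exact absurd hpp Nat.not_prime_one
          · rw [h3]
            omega)
      have hs1 : ((univ : Finset (Fin k → HP T.E p)).filter fun P => cb T k p yn True al be (Loc.pp k P)).card ≤
          ((univ : Finset (Fin k → (ZMod (p ^ (padicValNat p T.E + 1)))ˣ)).filter fun P =>
          (p : ZMod (p ^ (padicValNat p T.E + 1))) ^ padicValNat p T.E ∣ Loc.Sg (k + 1) al be (Loc.pp k P) ∧
            ((∃ f ∈ T.Fs k, Loc.Fk (k + 1) al be (Loc.pp k P) (T.D : ZMod (p ^ (padicValNat p T.E + 1))) yn (T.h : ZMod (p ^ (padicValNat p T.E + 1))) f = 0) ∨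
              (p ≤ T.y ∧ ∃ i ≤ k, Loc.Ei (k + 1) al be (Loc.pp k P) ((T.D : ZMod (p ^ (padicValNat p T.E + 1))) *
                (T.h : ZMod (p ^ (padicValNat p T.E + 1)))) yn i = 0))).card := by
        refine card_le_card fun P hP => ?_
        rw [mem_filter] at hP ⊢
        refine ⟨mem_univ _, ?_⟩
        obtain ⟨h1, -, -, h2⟩ := hP.2.2 trivial
        exact ⟨h1, h2⟩
      refine (Nat.mul_le_mul_right p hs1).trans (key.trans ?_)
      exact Nat.mul_le_mul (by omega) hs2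
    · rw [card_eq_zero.2, zero_mul]
      · exact Nat.zero_le _
      · rw [filter_eq_empty_iff]
        intro P _ h3
        obtain ⟨-, h4, h5, -⟩ := h3.2 trivial
        exact hE ⟨h4, h5⟩
  have h2 : ((((univ : Finset (Fin k → HP T.E p)).filter fun P => cb T k p yn True al be (Loc.pp k P)).card : ℕ) : ℝ) * p ≤
      8 * (T.F k : ℝ) *
        (((univ : Finset (Fin k → HP T.E p)).filter fun P => cb T k p yn False al be (Loc.pp k P)).card : ℕ) := by
    exact_mod_cast h1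
  rw [div_mul_div_comm, div_le_div_iff₀ hφ (by positivity)]
  calc _ = ((((univ : Finset (Fin k → HP T.E p)).filter fun P => cb T k p yn True al be (Loc.pp k P)).card : ℕ) : ℝ) * p *
        (((p ^ padicValNat p T.E * (p - 1)) ^ k : ℕ) : ℝ) := by ring
    _ ≤ 8 * (T.F k : ℝ) *
        (((univ : Finset (Fin k → HP T.E p)).filter fun P => cb T k p yn False al be (Loc.pp k P)).card : ℕ) *
        (((p ^ padicValNat p T.E * (p - 1)) ^ k : ℕ) : ℝ) := mul_le_mul_of_nonneg_right h2 hφ.le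
    _ = _ := by ring

end Pool.Agent.Lib.TTC
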