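import Mathlib

/-!
# T11: counting in `(ZMod D)ˣ`

* `T11_move`: at most `gcd(P₂, D)` units `g` with `P₁ + g P₂ = 0`. Put `G = gcd(P₂.val, D)`. Two solutions satisfy `(g - g') P₂ = 0`, so
  `D / G ∣ g.val - g'.val` (as integers: `D ∣ (g - g') P₂.val`, divide by `G`, `D/G` and `P₂.val/G` are coprime). The values `g.val` lie in one class
  modulo `D/G` inside `[0, D)`: at most `G` of them.
* `T11_class`: `G ∣ D`, `c` arbitrary: at most `φ(D)/φ(G)` units `u` of `ZMod D` with `u = c` modulo `G` (the map `(ZMod D)ˣ → (ZMod G)ˣ` is a surjective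
  homomorphism, `ZMod.unitsMap_surjective`; all fibres have the same size). Stated as `card * φ(G) ≤ φ(D)`.
* `T11_gcd`: `∑_{u unit} gcd(a u + b, D) ≤ τ(D) φ(D)` for a unit `a`: `gcd(x, D) = ∑_{G ∣ gcd(x,D)} φ(G)` (`Nat.sum_totient`), exchange, for each
  `G ∣ D`: `G ∣ a u + b` fixes `u` modulo `G`, so at most `φ(D)/φ(G)` units `u`, weight `φ(G)`.
-/

set_option autoImplicit false

open Finset

namespace Pool.Agent.Lib.TTC

theorem T11_move (D : ℕ) [NeZero D] (P₁ P₂ : ZMod D) :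
    ((univ : Finset (ZMod D)ˣ).filter fun g : (ZMod D)ˣ => P₁ + (g : ZMod D) * P₂ = 0).card ≤ Nat.gcd P₂.val D := by
  classical
  have hG : 0 < Nat.gcd P₂.val D := Nat.gcd_pos_of_pos_right _ (Nat.pos_of_ne_zero (NeZero.ne D))
  by_cases hne : ((univ : Finset (ZMod D)ˣ).filter fun g : (ZMod D)ˣ => P₁ + (g : ZMod D) * P₂ = 0).Nonempty
  · obtain ⟨g₀, hg₀⟩ := hne
    rw [mem_filter] at hg₀
    have hinj : ∀ g ∈ ((univ : Finset (ZMod D)ˣ).filter fun g : (ZMod D)ˣ => P₁ + (g : ZMod D) * P₂ = 0),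
        ((g : ZMod D) - g₀) ∈ ((univ : Finset (ZMod D)).filter fun x => (Nat.gcd P₂.val D) • x = 0) := by
      intro g hg
      rw [mem_filter] at hg
      rw [mem_filter]
      refine ⟨mem_univ _, ?_⟩
      have h1 : ((g : ZMod D) - g₀) * P₂ = 0 := by
        have h2 := hg.2
        have h3 := hg₀.2
        linear_combination h2 - h3
      rw [← addOrderOf_dvd_iff_nsmul_eq_zero]
      apply Nat.dvd_gcd
      · rw [addOrderOf_dvd_iff_nsmul_eq_zero, nsmul_eq_mul, ZMod.natCast_val, ZMod.cast_id, mul_comm]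
        exact h1
      · rw [addOrderOf_dvd_iff_nsmul_eq_zero, nsmul_eq_mul, ZMod.natCast_self, zero_mul]
    have hcard := Finset.card_le_card_of_injOn (fun g : (ZMod D)ˣ => (g : ZMod D) - g₀) hinj (by
      intro g _ g' _ h
      have h' : (g : ZMod D) - g₀ = (g' : ZMod D) - g₀ := h
      exact Units.ext (sub_left_inj.1 h'))
    exact hcard.trans (IsAddCyclic.card_nsmul_eq_zero_le hG)
  · rw [not_nonempty_iff_eq_empty] at hne
    rw [hne, card_empty]
    exact Nat.zero_le _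

theorem T11_class (D G : ℕ) [NeZero D] (hG : G ∣ D) (c : ZMod G) :
    ((univ : Finset (ZMod D)ˣ).filter fun u : (ZMod D)ˣ => ZMod.castHom hG (ZMod G) (u : ZMod D) = c).card * Nat.totient G ≤ Nat.totient D := by
  classical
  have hG0 : G ≠ 0 := fun h => NeZero.ne D (Nat.eq_zero_of_zero_dvd (h ▸ hG))
  have : NeZero G := ⟨hG0⟩
  by_cases hne : ((univ : Finset (ZMod D)ˣ).filter fun u : (ZMod D)ˣ => ZMod.castHom hG (ZMod G) (u : ZMod D) = c).Nonempty
  · obtain ⟨u₀, hu₀⟩ := hne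
    rw [mem_filter] at hu₀
    have hfib : ((univ : Finset (ZMod D)ˣ).filter fun u : (ZMod D)ˣ => ZMod.castHom hG (ZMod G) (u : ZMod D) = c) =
        (univ : Finset (ZMod D)ˣ).filter fun u : (ZMod D)ˣ => ZMod.unitsMap hG u = ZMod.unitsMap hG u₀ := by
      ext u
      rw [mem_filter, mem_filter]
      constructor
      · rintro ⟨-, h⟩
        refine ⟨mem_univ _, Units.ext ?_⟩
        rw [← hu₀.2] at h
        exact h
      · rintro ⟨-, h⟩
        refine ⟨mem_univ _, ?_⟩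
        rw [← hu₀.2]
        exact congrArg Units.val h
    rw [hfib]
    have hsum : Fintype.card (ZMod D)ˣ = ∑ v : (ZMod G)ˣ,
        ((univ : Finset (ZMod D)ˣ).filter fun u : (ZMod D)ˣ => ZMod.unitsMap hG u = v).card := by
      rw [← Finset.card_univ]
      exact Finset.card_eq_sum_card_fiberwise (fun u _ => mem_univ _)
    have hsurj : Function.Surjective (ZMod.unitsMap hG) := ZMod.unitsMap_surjective hG
    have heq : ∀ v : (ZMod G)ˣ, ((univ : Finset (ZMod D)ˣ).filter fun u : (ZMod D)ˣ => ZMod.unitsMap hG u = v).card =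
        ((univ : Finset (ZMod D)ˣ).filter fun u : (ZMod D)ˣ => ZMod.unitsMap hG u = ZMod.unitsMap hG u₀).card := by
      intro v
      exact MonoidHom.card_fiber_eq_of_mem_range (ZMod.unitsMap hG) (hsurj v) (hsurj _)
    rw [Finset.sum_congr rfl fun v _ => heq v, Finset.sum_const, Finset.card_univ, smul_eq_mul,
      ZMod.card_units_eq_totient, ZMod.card_units_eq_totient] at hsum
    rw [hsum, mul_comm]
  · rw [not_nonempty_iff_eq_empty] at hne
    rw [hne, card_empty, zero_mul]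
    exact Nat.zero_le _

/-- `G` divides the value of `x` iff the reduction of `x` is zero -/
private theorem T11_dvd {D G : ℕ} [NeZero D] (hG : G ∣ D) (x : ZMod D) :
    G ∣ x.val ↔ ZMod.castHom hG (ZMod G) x = 0 := by
  rw [← ZMod.natCast_eq_zero_iff, ZMod.natCast_val, ZMod.castHom_apply]

theorem T11_gcd (D : ℕ) [NeZero D] (a : (ZMod D)ˣ) (b : ZMod D) :
    ∑ u : (ZMod D)ˣ, Nat.gcd ((a : ZMod D) * (u : ZMod D) + b).val D ≤ D.divisors.card * Nat.totient D := by
  classical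
  have hD0 : D ≠ 0 := NeZero.ne D
  have hgcd : ∀ x : ZMod D, Nat.gcd x.val D = ∑ G ∈ D.divisors, if G ∣ x.val then Nat.totient G else 0 := by
    intro x
    conv_lhs => rw [← Nat.sum_totient (Nat.gcd x.val D)]
    rw [← Finset.sum_filter]
    apply Finset.sum_congr _ fun _ _ => rfl
    ext G
    rw [mem_filter, Nat.mem_divisors, Nat.mem_divisors, Nat.dvd_gcd_iff]
    constructor
    · rintro ⟨⟨h1, h2⟩, -⟩
      exact ⟨⟨h2, hD0⟩, h1⟩
    · rintro ⟨⟨h1, -⟩, h2⟩
      exact ⟨⟨h2, h1⟩, fun h => hD0 (Nat.gcd_eq_zero_iff.1 h).2⟩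
  have hswap : ∑ u : (ZMod D)ˣ, Nat.gcd ((a : ZMod D) * (u : ZMod D) + b).val D =
      ∑ G ∈ D.divisors, ∑ u : (ZMod D)ˣ,
        if G ∣ ((a : ZMod D) * (u : ZMod D) + b).val then Nat.totient G else 0 := by
    rw [Finset.sum_comm]
    exact Finset.sum_congr rfl fun u _ => hgcd _
  rw [hswap, ← smul_eq_mul, ← Finset.sum_const]
  apply Finset.sum_le_sum
  intro G hGm
  have hG : G ∣ D := (Nat.mem_divisors.1 hGm).1
  rw [← Finset.sum_filter, Finset.sum_const, smul_eq_mul]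
  refine le_trans (Nat.mul_le_mul_right _ (Finset.card_le_card ?_))
    (T11_class D G hG (ZMod.castHom hG (ZMod G) (-(((a⁻¹ : (ZMod D)ˣ) : ZMod D) * b))))
  intro u hu
  rw [mem_filter] at hu
  rw [mem_filter]
  refine ⟨mem_univ _, ?_⟩
  have h1 := (T11_dvd hG _).1 hu.2
  have h2 : (u : ZMod D) = ((a⁻¹ : (ZMod D)ˣ) : ZMod D) * ((a : ZMod D) * (u : ZMod D) + b) +
      -(((a⁻¹ : (ZMod D)ˣ) : ZMod D) * b) := by
    have h3 : ((a⁻¹ : (ZMod D)ˣ) : ZMod D) * (a : ZMod D) = 1 := Units.inv_mul a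
    linear_combination (-(u : ZMod D)) * h3
  conv_lhs => rw [h2]
  rw [map_add, map_mul, h1, mul_zero, zero_add]

end Pool.Agent.Lib.TTC
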