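import Pool.Agent.Lib.MP_092512_nt.TT.C.U10
import Pool.Agent.Lib.MP_092512_nt.TT.C.U13
import Pool.Agent.Lib.MP_092512_nt.TT.C.T10
import Pool.Agent.Lib.MP_092512_nt.TT.C.T11

/-!
# U11: two congruences modulo `n` (8.1)

`c'` is not a function of `c`. `H = (ZMod n)ˣ`, `H1 ⊆ H` arbitrary. Number `T` of `(al, s)`, `al : Fin (k+1) → H1`, `s : E → H` with `Sg(c) = 0` and `Sg(c') = 0`
in `ZMod n`: `T ≤ |H1|^(k-1) |H|^|E| τ(n)`.

Proof. `T10_move`: `f₁, f₂` with `c f₁ = c f₂`, `k₁ = c' f₁ < k₂ = c' f₂`. Write `p' j = pr k (xa al (sl c' y' s)) j`. By `U10_sum` `|H| T` is the number of triples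
`(al, s, g)` such that both sums vanish for `s · mv g`. `Sg(c)` does not depend on `g` (`U10_c`), `Sg(c') = P₁ + g P₂`, `P₂ = ∑_{k₁ < j ≤ k₂} p' j et j`
(`U10_c'`, `U10_pr`), so for given `(al, s)` at most `gcd(P₂, n)` values of `g` (`T11_move`). So `|H| T ≤ ∑_{s} ∑_{al} [Sg(c) = 0] gcd(P₂, n)`. `P₂` does not depend on `al 0`
(the `j` are `≥ 1`, `p' j` contains `al 1, …, al j`), and `Sg(c) = 0` for at most one `al 0` (`U13_one`, `p 0 = 1`, the `p j` do not contain `al 0`). So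
`|H| T ≤ ∑_s ∑_{al_j, j ≥ 1} gcd(P₂, n)`; `P₂` is affine in `al k₂` with a unit coefficient (`U13_aff`), so the sum over `al k₂ ∈ H1 ⊆ H` is at most `τ(n) φ(n)` (`T11_gcd`);
`k - 1` further variables in `H1`. `|H| = φ(n)` cancels.
(Technically: write `al = Function.update` or sum over `Fin (k+1) → H` restricted by `∀ j, al j ∈ H1` with `Fintype.piFinset`; split off the coordinates `0` and `k₂`.)
-/

set_option autoImplicit false

open Finset

open Pool.Agent.Lib.TTC.Loc

namespace Pool.Agent.Lib.TTC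

private theorem U11_upd {ι H : Type*} [Fintype ι] [DecidableEq ι] (S : Finset H) (i : ι) (f g : (ι → H) → ℕ)
    (h : ∀ x, ∑ v ∈ S, f (Function.update x i v) ≤ g x) :
    S.card * ∑ x ∈ Fintype.piFinset (fun _ : ι => S), f x ≤ ∑ x ∈ Fintype.piFinset (fun _ : ι => S), g x := by
  classical
  have h1 : S.card * ∑ x ∈ Fintype.piFinset (fun _ : ι => S), f x =
      ∑ p ∈ (Fintype.piFinset (fun _ : ι => S)) ×ˢ S, f p.1 := by
    rw [sum_product, mul_sum]
    refine sum_congr rfl fun x _ => ?_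
    show S.card * f x = ∑ _y ∈ S, f x
    rw [sum_const, smul_eq_mul]
  have h2 : ∑ p ∈ (Fintype.piFinset (fun _ : ι => S)) ×ˢ S, f p.1 =
      ∑ p ∈ (Fintype.piFinset (fun _ : ι => S)) ×ˢ S, f (Function.update p.1 i p.2) := by
    have hm : ∀ p ∈ (Fintype.piFinset (fun _ : ι => S)) ×ˢ S,
        ((Function.update p.1 i p.2, p.1 i) : (ι → H) × H) ∈ (Fintype.piFinset (fun _ : ι => S)) ×ˢ S := by
      intro p hp
      rw [mem_product, Fintype.mem_piFinset] at hp
      rw [mem_product, Fintype.mem_piFinset]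
      refine ⟨fun j => ?_, hp.1 i⟩
      by_cases hj : j = i
      · subst hj
        simpa using hp.2
      · show Function.update p.1 i p.2 j ∈ S
        rw [Function.update_of_ne hj]
        exact hp.1 j
    refine sum_nbij' (fun p => (Function.update p.1 i p.2, p.1 i)) (fun p => (Function.update p.1 i p.2, p.1 i))
      hm hm ?_ ?_ ?_
    · intro p _
      simp
    · intro p _
      simp
    · intro p _
      simp
  rw [h1, h2, sum_product]
  exact sum_le_sum fun x _ => h x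

private theorem U11_ex {H : Type*} [CommGroup H] {m : ℕ} (al : Fin m → H) (i : Fin m) (v : H) :
    ex m (Function.update al i v) = Function.update (ex m al) i.val v := by
  funext l
  by_cases hl : l < m
  · rw [ex_lt _ hl]
    by_cases hi : (⟨l, hl⟩ : Fin m) = i
    · have hi' : l = i.val := congrArg Fin.val hi
      rw [hi, Function.update_self, hi', Function.update_self]
    · have hi' : l ≠ i.val := fun h => hi (Fin.ext h)
      rw [Function.update_of_ne hi, Function.update_of_ne hi', ex_lt _ hl]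
  · have hi' : l ≠ i.val := fun h => hl (h ▸ i.isLt)
    rw [ex_ge _ (Nat.not_lt.1 hl), Function.update_of_ne hi', ex_ge _ (Nat.not_lt.1 hl)]

private theorem U11_xa {k : ℕ} {H : Type*} [CommGroup H] (al : Fin (k + 1) → H) (x : Fin k → H) (v : H) :
    xa (Function.update al 0 v) x = xa al x := by
  funext l
  unfold xa
  rw [Function.update_of_ne (Fin.succ_ne_zero l)]

/-- at most one value of `al 0` -/
private theorem U11_al0 {n : ℕ} [NeZero n] {k : ℕ} (x : Fin k → (ZMod n)ˣ) (be : ℕ → (ZMod n)ˣ) (S : Finset (ZMod n)ˣ)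
    (al : Fin (k + 1) → (ZMod n)ˣ) (G : (Fin (k + 1) → (ZMod n)ˣ) → ℕ) (hG : ∀ v, G (Function.update al 0 v) = G al) :
    ∑ v ∈ S, (if Sg (k + 1) (ex (k + 1) (Function.update al 0 v)) be (pr k (xa (Function.update al 0 v) x)) = 0
      then G (Function.update al 0 v) else 0) ≤ G al := by
  classical
  rw [sum_congr rfl fun v _ => by rw [hG v], ← sum_filter, sum_const, smul_eq_mul]
  refine (Nat.mul_le_mul_right _ (?_ : _ ≤ 1)).trans (by rw [one_mul])
  rw [card_le_one]
  intro u hu u' hu'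
  rw [mem_filter] at hu hu'
  have h1 := hu.2
  have h2 := hu'.2
  rw [U11_ex, U11_xa] at h1 h2
  exact U13_one (Nat.succ_pos k) (ex (k + 1) al) be (pr k (xa al x)) (pr_zero _) h1 h2

private theorem U11_c {n : ℕ} [NeZero n] {k : ℕ} {E : Type*} [Fintype E] [DecidableEq E] {c' : E → Fin (k + 1)} {f₁ f₂ : E}
    (h : c' f₁ < c' f₂) (y' : Fin k → (ZMod n)ˣ) (be : ℕ → (ZMod n)ˣ) (al : Fin (k + 1) → (ZMod n)ˣ) (s : E → (ZMod n)ˣ) :
    ∃ P₁ : ZMod n, ∀ g : (ZMod n)ˣ,
      Sg (k + 1) (ex (k + 1) al) be (pr k (xa al (sl c' y' (fun e => s e * mv f₁ f₂ g e)))) =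
        P₁ + (g : ZMod n) * ∑ j ∈ Ioc (c' f₁).val (c' f₂).val, ((pr k (xa al (sl c' y' s)) j : (ZMod n)ˣ) : ZMod n) * et (ex (k + 1) al) be j := by
  classical
  refine ⟨∑ j ∈ range (k + 1) \ Ioc (c' f₁).val (c' f₂).val, ((pr k (xa al (sl c' y' s)) j : (ZMod n)ˣ) : ZMod n) * et (ex (k + 1) al) be j,
    fun g => ?_⟩
  have hsub : Ioc (c' f₁).val (c' f₂).val ⊆ range (k + 1) := by
    intro j hj
    rw [mem_Ioc] at hj
    rw [mem_range]
    exact lt_of_le_of_lt hj.2 (c' f₂).isLt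
  have hq : ∀ j ≤ k, pr k (xa al (sl c' y' (fun e => s e * mv f₁ f₂ g e))) j =
      (if (c' f₁).val < j ∧ j ≤ (c' f₂).val then g else 1) * pr k (xa al (sl c' y' s)) j := by
    intro j hj
    rw [U10_pr al _ hj, U10_c' h y' s g hj, U10_pr al _ hj, mul_left_comm]
  unfold Sg
  rw [← sum_sdiff hsub, mul_sum]
  congr 1
  · refine sum_congr rfl fun j hj => ?_
    rw [mem_sdiff, mem_range, mem_Ioc] at hj
    rw [hq j (Nat.lt_succ_iff.1 hj.1), if_neg hj.2, one_mul]
  · refine sum_congr rfl fun j hj => ?_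
    have hj' := mem_range.1 (hsub hj)
    rw [mem_Ioc] at hj
    rw [hq j (Nat.lt_succ_iff.1 hj'), if_pos hj, Units.val_mul, mul_assoc]

private theorem U11_aff {n : ℕ} [NeZero n] {k : ℕ} (x : Fin k → (ZMod n)ˣ) (be : ℕ → (ZMod n)ˣ) (al : Fin (k + 1) → (ZMod n)ˣ)
    {i₁ i₂ : Fin (k + 1)} (h : i₁ < i₂) :
    ∃ (a : (ZMod n)ˣ) (b : ZMod n), ∀ v : (ZMod n)ˣ,
      ∑ j ∈ Ioc i₁.val i₂.val, ((pr k (xa (Function.update al i₂ v) x) j : (ZMod n)ˣ) : ZMod n) * et (ex (k + 1) (Function.update al i₂ v)) be j =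
        (a : ZMod n) * (v : ZMod n) + b := by
  have hlt : i₁.val < i₂.val := h
  have hk2 : i₂.val ≤ k := Nat.lt_succ_iff.1 i₂.isLt
  obtain ⟨t, ht⟩ : ∃ t, i₂.val = t + 1 := ⟨i₂.val - 1, by omega⟩
  refine ⟨((∏ l ∈ range t, ex (k + 1) al (l + 1)) * pr k x i₂.val) * (be i₂.val)⁻¹,
    ∑ j ∈ Ioo i₁.val i₂.val, (((∏ l ∈ range j, ex (k + 1) al (l + 1)) * pr k x j : (ZMod n)ˣ) : ZMod n) * et (ex (k + 1) al) be j -
      (((∏ l ∈ range t, ex (k + 1) al (l + 1)) * pr k x i₂.val : (ZMod n)ˣ) : ZMod n), fun v => ?_⟩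
  have hex : ∀ l, l ≠ i₂.val → ex (k + 1) (Function.update al i₂ v) l = ex (k + 1) al l := by
    intro l hl
    rw [U11_ex, Function.update_of_ne hl]
  have hex2 : ex (k + 1) (Function.update al i₂ v) i₂.val = v := by
    rw [U11_ex, Function.update_self]
  have hr : pr k (xa (Function.update al i₂ v) x) i₂.val =
      v * ((∏ l ∈ range t, ex (k + 1) al (l + 1)) * pr k x i₂.val) := by
    rw [U10_pr _ _ hk2]
    have h1 : ∏ l ∈ range i₂.val, ex (k + 1) (Function.update al i₂ v) (l + 1) =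
        (∏ l ∈ range t, ex (k + 1) al (l + 1)) * v := by
      rw [ht, prod_range_succ, ← ht, hex2]
      congr 1
      refine prod_congr rfl fun l hl => ?_
      rw [mem_range] at hl
      exact hex _ (by omega)
    rw [h1, mul_right_comm, mul_comm]
  rw [U13_aff hlt (ex (k + 1) (Function.update al i₂ v)) be (pr k (xa (Function.update al i₂ v) x)) _ v hex2 hr, mul_comm (v : ZMod n)]
  congr 2
  refine sum_congr rfl fun j hj => ?_
  rw [mem_Ioo] at hj
  have h2 : pr k (xa (Function.update al i₂ v) x) j = (∏ l ∈ range j, ex (k + 1) al (l + 1)) * pr k x j := by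
    rw [U10_pr _ _ (hj.2.le.trans hk2)]
    congr 1
    refine prod_congr rfl fun l hl => ?_
    rw [mem_range] at hl
    exact hex _ (by omega)
  have h3 : et (ex (k + 1) (Function.update al i₂ v)) be j = et (ex (k + 1) al) be j := by
    unfold et
    rw [hex j hj.2.ne]
  rw [h2, h3]

private theorem U11_card {n : ℕ} [NeZero n] {k : ℕ} {E : Type*} [Fintype E] [DecidableEq E] (H1 : Finset (ZMod n)ˣ)
    (P : (Fin (k + 1) → (ZMod n)ˣ) → (E → (ZMod n)ˣ) → Prop) [∀ a s, Decidable (P a s)]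
    [DecidablePred fun w : (Fin (k + 1) → (ZMod n)ˣ) × (E → (ZMod n)ˣ) => (∀ j, w.1 j ∈ H1) ∧ P w.1 w.2] :
    ((univ : Finset ((Fin (k + 1) → (ZMod n)ˣ) × (E → (ZMod n)ˣ))).filter fun w => (∀ j, w.1 j ∈ H1) ∧ P w.1 w.2).card =
      ∑ s : E → (ZMod n)ˣ, ∑ al ∈ Fintype.piFinset (fun _ : Fin (k + 1) => H1), if P al s then 1 else 0 := by
  classical
  rw [card_filter, Fintype.sum_prod_type, sum_comm]
  refine sum_congr rfl fun s _ => ?_
  have h1 : (univ : Finset (Fin (k + 1) → (ZMod n)ˣ)).filter (fun al => ∀ j, al j ∈ H1) =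
      Fintype.piFinset (fun _ : Fin (k + 1) => H1) := by
    ext al
    rw [mem_filter, Fintype.mem_piFinset]
    simp
  rw [← h1, sum_filter]
  refine sum_congr rfl fun al _ => ?_
  by_cases h : ∀ j, al j ∈ H1
  · by_cases h' : P al s
    · rw [if_pos ⟨h, h'⟩, if_pos h, if_pos h']
    · rw [if_neg fun hh => h' hh.2, if_pos h, if_neg h']
  · rw [if_neg fun hh => h hh.1, if_neg h]

theorem U11 (n : ℕ) [NeZero n] {k : ℕ} {E : Type*} [Fintype E] [DecidableEq E] (c c' : E → Fin (k + 1))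
    (hcc : ¬ ∃ ψ : Fin (k + 1) → Fin (k + 1), c' = ψ ∘ c) (y y' : Fin k → (ZMod n)ˣ) (be : ℕ → (ZMod n)ˣ) (H1 : Finset (ZMod n)ˣ) :
    ((univ : Finset ((Fin (k + 1) → (ZMod n)ˣ) × (E → (ZMod n)ˣ))).filter fun w => (∀ j, w.1 j ∈ H1) ∧
      Sg (k + 1) (ex (k + 1) w.1) be (pr k (xa w.1 (sl c y w.2))) = 0 ∧
      Sg (k + 1) (ex (k + 1) w.1) be (pr k (xa w.1 (sl c' y' w.2))) = 0).card ≤
      H1.card ^ (k - 1) * Nat.totient n ^ Fintype.card E * n.divisors.card := by
  classical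
  obtain ⟨f₁, f₂, hc, hc'⟩ := T10_move k c c' hcc
  have hk : 1 ≤ k := by
    have h1 : (c' f₁).val < (c' f₂).val := hc'
    have h2 := (c' f₂).isLt
    omega
  have htot : 0 < Nat.totient n := Nat.totient_pos.2 (Nat.pos_of_ne_zero (NeZero.ne n))
  have hH : Fintype.card (ZMod n)ˣ = Nat.totient n := ZMod.card_units_eq_totient n
  rcases H1.eq_empty_or_nonempty with hemp | hne
  · rw [filter_eq_empty_iff.2, card_empty]
    · exact Nat.zero_le _
    · rintro w - ⟨h, -⟩
      have := h 0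
      rw [hemp] at this
      exact absurd this (notMem_empty _)
  have hS : 0 < H1.card := hne.card_pos
  -- the count
  have hcount := U11_card (k := k) (E := E) H1 (fun al s => Sg (k + 1) (ex (k + 1) al) be (pr k (xa al (sl c y s))) = 0 ∧
      Sg (k + 1) (ex (k + 1) al) be (pr k (xa al (sl c' y' s))) = 0)
  rw [hcount]
  -- the sum `P₂`
  set P₂ : (Fin (k + 1) → (ZMod n)ˣ) → (E → (ZMod n)ˣ) → ZMod n := fun al s =>
    ∑ j ∈ Ioc (c' f₁).val (c' f₂).val, ((pr k (xa al (sl c' y' s)) j : (ZMod n)ˣ) : ZMod n) * et (ex (k + 1) al) be j with hP₂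
  -- translation
  have hA : ∀ al : Fin (k + 1) → (ZMod n)ˣ,
      Nat.totient n * ∑ s : E → (ZMod n)ˣ, (if Sg (k + 1) (ex (k + 1) al) be (pr k (xa al (sl c y s))) = 0 ∧
      Sg (k + 1) (ex (k + 1) al) be (pr k (xa al (sl c' y' s))) = 0 then 1 else 0) ≤
      ∑ s : E → (ZMod n)ˣ, if Sg (k + 1) (ex (k + 1) al) be (pr k (xa al (sl c y s))) = 0 then Nat.gcd (P₂ al s).val n else 0 := by
    intro al
    have h1 := U10_sum f₁ f₂ (fun s : E → (ZMod n)ˣ => if Sg (k + 1) (ex (k + 1) al) be (pr k (xa al (sl c y s))) = 0 ∧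
      Sg (k + 1) (ex (k + 1) al) be (pr k (xa al (sl c' y' s))) = 0 then (1 : ℝ) else 0)
    have h2 : Nat.totient n * ∑ s : E → (ZMod n)ˣ, (if Sg (k + 1) (ex (k + 1) al) be (pr k (xa al (sl c y s))) = 0 ∧
        Sg (k + 1) (ex (k + 1) al) be (pr k (xa al (sl c' y' s))) = 0 then 1 else 0) =
        ∑ s : E → (ZMod n)ˣ, ∑ g : (ZMod n)ˣ,
        (if Sg (k + 1) (ex (k + 1) al) be (pr k (xa al (sl c y (fun e => s e * mv f₁ f₂ g e)))) = 0 ∧
        Sg (k + 1) (ex (k + 1) al) be (pr k (xa al (sl c' y' (fun e => s e * mv f₁ f₂ g e)))) = 0 then 1 else 0) := by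
      rw [hH] at h1
      exact_mod_cast h1
    rw [h2]
    refine sum_le_sum fun s _ => ?_
    obtain ⟨P₁, hP₁⟩ := U11_c hc' y' be al s
    by_cases h0 : Sg (k + 1) (ex (k + 1) al) be (pr k (xa al (sl c y s))) = 0
    · rw [if_pos h0]
      refine le_trans (le_of_eq ?_) (T11_move n P₁ (P₂ al s))
      rw [card_filter]
      refine sum_congr rfl fun g _ => ?_
      rw [U10_c hc y s g, hP₁ g]
      simp only [h0, true_and]
      rfl
    · rw [if_neg h0]
      refine le_of_eq (sum_eq_zero fun g _ => ?_)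
      rw [U10_c hc y s g, if_neg fun h => h0 h.1]
  -- for each `s`
  have hB : ∀ s : E → (ZMod n)ˣ, ∑ al ∈ Fintype.piFinset (fun _ : Fin (k + 1) => H1),
      (if Sg (k + 1) (ex (k + 1) al) be (pr k (xa al (sl c y s))) = 0 then Nat.gcd (P₂ al s).val n else 0) ≤
      H1.card ^ (k - 1) * (n.divisors.card * Nat.totient n) := by
    intro s
    have h1 := U11_upd H1 (0 : Fin (k + 1))
      (fun al => if Sg (k + 1) (ex (k + 1) al) be (pr k (xa al (sl c y s))) = 0 then Nat.gcd (P₂ al s).val n else 0)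
      (fun al => Nat.gcd (P₂ al s).val n) (fun al => U11_al0 (sl c y s) be H1 al (fun al => Nat.gcd (P₂ al s).val n) (by
        intro v
        have h3 : P₂ (Function.update al 0 v) s = P₂ al s := by
          show ∑ j ∈ Ioc (c' f₁).val (c' f₂).val, ((pr k (xa (Function.update al 0 v) (sl c' y' s)) j : (ZMod n)ˣ) : ZMod n) *
              et (ex (k + 1) (Function.update al 0 v)) be j =
            ∑ j ∈ Ioc (c' f₁).val (c' f₂).val, ((pr k (xa al (sl c' y' s)) j : (ZMod n)ˣ) : ZMod n) * et (ex (k + 1) al) be j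
          refine sum_congr rfl fun j hj => ?_
          rw [mem_Ioc] at hj
          rw [U11_xa]
          congr 1
          unfold et
          rw [U11_ex, Function.update_of_ne (show j ≠ (0 : Fin (k + 1)).val from by
            rw [Fin.val_zero]; omega)]
        show Nat.gcd (P₂ (Function.update al 0 v) s).val n = Nat.gcd (P₂ al s).val n
        rw [h3]))
    have h2 := U11_upd H1 (c' f₂) (fun al => Nat.gcd (P₂ al s).val n) (fun _ => n.divisors.card * Nat.totient n) (by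
      intro al
      obtain ⟨a, b, hab⟩ := U11_aff (sl c' y' s) be al hc'
      calc ∑ v ∈ H1, Nat.gcd (P₂ (Function.update al (c' f₂) v) s).val n
          ≤ ∑ v : (ZMod n)ˣ, Nat.gcd (P₂ (Function.update al (c' f₂) v) s).val n :=
            sum_le_sum_of_subset (subset_univ _)
        _ = ∑ v : (ZMod n)ˣ, Nat.gcd ((a : ZMod n) * (v : ZMod n) + b).val n := by
            refine sum_congr rfl fun v _ => ?_
            have h4 : P₂ (Function.update al (c' f₂) v) s = (a : ZMod n) * (v : ZMod n) + b := hab v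
            rw [h4]
        _ ≤ _ := T11_gcd n a b)
    rw [sum_const, smul_eq_mul, Fintype.card_piFinset, prod_const, card_univ, Fintype.card_fin] at h2
    have h3 : H1.card ^ (k + 1) = H1.card ^ (k - 1) * (H1.card * H1.card) := by
      rw [show k + 1 = (k - 1) + 2 from by omega, pow_add, sq]
    rw [h3] at h2
    refine Nat.le_of_mul_le_mul_left (c := H1.card * H1.card) ?_ (Nat.mul_pos hS hS)
    calc H1.card * H1.card * _ = H1.card * (H1.card * _) := by rw [mul_assoc]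
      _ ≤ H1.card * _ := Nat.mul_le_mul_left _ h1
      _ ≤ _ := h2
      _ = _ := by ring
  refine Nat.le_of_mul_le_mul_left (c := Nat.totient n) ?_ htot
  calc Nat.totient n * ∑ s : E → (ZMod n)ˣ, ∑ al ∈ Fintype.piFinset (fun _ : Fin (k + 1) => H1),
        (if Sg (k + 1) (ex (k + 1) al) be (pr k (xa al (sl c y s))) = 0 ∧
        Sg (k + 1) (ex (k + 1) al) be (pr k (xa al (sl c' y' s))) = 0 then 1 else 0)
      = ∑ al ∈ Fintype.piFinset (fun _ : Fin (k + 1) => H1), Nat.totient n * ∑ s : E → (ZMod n)ˣ,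
        (if Sg (k + 1) (ex (k + 1) al) be (pr k (xa al (sl c y s))) = 0 ∧
        Sg (k + 1) (ex (k + 1) al) be (pr k (xa al (sl c' y' s))) = 0 then 1 else 0) := by
        rw [sum_comm, mul_sum]
    _ ≤ ∑ al ∈ Fintype.piFinset (fun _ : Fin (k + 1) => H1), ∑ s : E → (ZMod n)ˣ,
        (if Sg (k + 1) (ex (k + 1) al) be (pr k (xa al (sl c y s))) = 0 then Nat.gcd (P₂ al s).val n else 0) :=
        sum_le_sum fun al _ => hA al
    _ = ∑ s : E → (ZMod n)ˣ, ∑ al ∈ Fintype.piFinset (fun _ : Fin (k + 1) => H1),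
        (if Sg (k + 1) (ex (k + 1) al) be (pr k (xa al (sl c y s))) = 0 then Nat.gcd (P₂ al s).val n else 0) := sum_comm
    _ ≤ ∑ _s : E → (ZMod n)ˣ, H1.card ^ (k - 1) * (n.divisors.card * Nat.totient n) := sum_le_sum fun s _ => hB s
    _ = Nat.totient n * (H1.card ^ (k - 1) * Nat.totient n ^ Fintype.card E * n.divisors.card) := by
        rw [sum_const, smul_eq_mul, card_univ, Fintype.card_fun, hH]
        ring

end Pool.Agent.Lib.TTC
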