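import Pool.Agent.Lib.MP_092512_nt.TT.C.Q08
import Pool.Agent.Lib.MP_092512_nt.TT.C.POK
import Pool.Agent.Lib.MP_092512_nt.TT.C.U11

/-!
# Q15: two colourings at a prime of the base (8.1)

`p ∈ base`, `v = padicValNat p D ≥ 1` (`p ∣ D`, or `p < p0`, `p ∣ W0`, `W0² ∣ D`). `cb` implies `p^v ∣ Sg` (for `p ≥ p0` this is `cD`; for `p < p0`: `α_0 yc Sg = n_p D`, `α_0` and `yc` units, `p^v ∣ D`).
Reduce modulo `n = p^v` (`p^v ∣ x` in `ZMod (p^(v_p(E)+1))` iff the image in `ZMod (p^v)` is zero): the average over `(α, s)` of the indicator of `Sg(c) = 0`, `Sg(c') = 0` in `ZMod n`, which depends only on the images of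
`α`, `s` in `(ZMod n)ˣ` (surjective homomorphism, `ZMod.unitsMap_surjective`, `av_hom`), is the number of `U11` (`H1 = univ`) divided by `φ(n)^(k+1+|E|)`: at most `τ(n)/φ(n)² = (v+1)/(p^(v-1)(p-1))² ≤ 4 (v+1)/p^(2v)`.
(`pj c α y s = Loc.pr k (xa α (Loc.sl c y s))`; the average over `α` of the average over `s` is the average over pairs: `av_fub`.)
-/

set_option autoImplicit false

open Finset

namespace Pool.Agent.Lib.TTC

section red

variable {G G' : Type*} [CommGroup G] [CommGroup G'] (φ : G →* G')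

private theorem q15_ex {n : ℕ} (x : Fin n → G) (l : ℕ) : φ (Loc.ex n x l) = Loc.ex n (fun j => φ (x j)) l := by
  by_cases h : l < n
  · rw [Loc.ex_lt _ h, Loc.ex_lt _ h]
  · rw [Loc.ex_ge _ (not_lt.1 h), Loc.ex_ge _ (not_lt.1 h), map_one]

private theorem q15_pr {n : ℕ} (x : Fin n → G) (l : ℕ) : φ (Loc.pr n x l) = Loc.pr n (fun j => φ (x j)) l := by
  unfold Loc.pr
  rw [map_prod]
  exact prod_congr rfl fun i _ => q15_ex φ x i

private theorem q15_sl {k : ℕ} {E : Type*} [Fintype E] (c : E → Fin (k + 1)) (y : Fin k → G) (s : E → G) (j : Fin k) :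
    φ (Loc.sl c y s j) = Loc.sl c (fun j => φ (y j)) (fun e => φ (s e)) j := by
  unfold Loc.sl
  rw [map_mul, map_prod]
  congr 1
  refine prod_congr rfl fun e _ => ?_
  split_ifs
  · rfl
  · exact map_one φ

private theorem q15_pj {k : ℕ} {E : Type*} [Fintype E] (c : E → Fin (k + 1)) (α : Fin (k + 1) → G) (y : Fin k → G) (s : E → G) (j : ℕ) :
    φ (pj c α y s j) = Loc.pr k (xa (fun j => φ (α j)) (Loc.sl c (fun j => φ (y j)) (fun e => φ (s e)))) j := by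
  unfold pj
  rw [q15_pr]
  congr 1
  funext l
  unfold xa
  rw [map_mul, q15_sl]

end red

private theorem q15_num {v p : ℕ} (hp : 2 ≤ p) (hv : 1 ≤ v) {k e : ℕ} (hk : 1 ≤ k) {F t : ℕ}
    (hF : F = p ^ (v - 1) * (p - 1)) {X : ℝ} (hX : X ≤ ((F ^ (k - 1) * F ^ e * t : ℕ) : ℝ)) (ht : t = v + 1) :
    X / ((F ^ (k + 1) * F ^ e : ℕ) : ℝ) ≤ 4 * ((v : ℝ) + 1) / ((p : ℝ) ^ v) ^ 2 := by
  have hp1 : 1 ≤ p - 1 := by omega
  have hF0 : 0 < F := by
    rw [hF]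
    exact Nat.mul_pos (pow_pos (by omega) _) (by omega)
  have hF0' : (0 : ℝ) < F := by exact_mod_cast hF0
  have hp0 : (0 : ℝ) < p := by
    have : 0 < p := by omega
    exact_mod_cast this
  have h1 : (p : ℝ) ^ v ≤ 2 * F := by
    have h2 : p ^ v ≤ 2 * F := by
      obtain ⟨b, rfl⟩ : ∃ b, v = b + 1 := ⟨v - 1, by omega⟩
      rw [hF, Nat.add_sub_cancel, pow_succ]
      calc p ^ b * p ≤ p ^ b * (2 * (p - 1)) := Nat.mul_le_mul_left _ (by omega)
        _ = _ := by ring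
    exact_mod_cast h2
  have h3 : ((p : ℝ) ^ v) ^ 2 ≤ 4 * (F : ℝ) ^ 2 := by
    calc ((p : ℝ) ^ v) ^ 2 ≤ (2 * (F : ℝ)) ^ 2 := pow_le_pow_left₀ (by positivity) h1 2
      _ = _ := by ring
  obtain ⟨l, rfl⟩ : ∃ l, k = l + 1 := ⟨k - 1, by omega⟩
  rw [Nat.add_sub_cancel] at hX
  rw [div_le_div_iff₀ (by positivity) (by positivity)]
  calc X * ((p : ℝ) ^ v) ^ 2 ≤ ((F ^ l * F ^ e * t : ℕ) : ℝ) * ((p : ℝ) ^ v) ^ 2 :=
        mul_le_mul_of_nonneg_right hX (by positivity)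
    _ ≤ ((F ^ l * F ^ e * t : ℕ) : ℝ) * (4 * (F : ℝ) ^ 2) := mul_le_mul_of_nonneg_left h3 (by positivity)
    _ = _ := by
        rw [ht]
        push_cast
        ring

private theorem q15_core {p v k n : ℕ} (hpp : p.Prime) (hn : v ≤ n) (hv : 1 ≤ v) (hk : 1 ≤ k) {E : Type*} [Fintype E] [DecidableEq E]
    {c c' : E → Fin (k + 1)} (hcc : ¬ Fun c c') (y y' : Fin k → (ZMod (p ^ n))ˣ) (be : ℕ → (ZMod (p ^ n))ˣ) :
    av (fun α : Fin (k + 1) → (ZMod (p ^ n))ˣ => av fun s : E → (ZMod (p ^ n))ˣ =>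
      ind ((p : ZMod (p ^ n)) ^ v ∣ Loc.Sg (k + 1) (Loc.ex (k + 1) α) be (pj c α y s)) *
      ind ((p : ZMod (p ^ n)) ^ v ∣ Loc.Sg (k + 1) (Loc.ex (k + 1) α) be (pj c' α y' s))) ≤
      4 * ((v : ℝ) + 1) / ((p : ℝ) ^ v) ^ 2 := by
  classical
  have : Fact p.Prime := ⟨hpp⟩
  have : NeZero (p ^ n) := ⟨pow_ne_zero _ hpp.ne_zero⟩
  have : NeZero (p ^ v) := ⟨pow_ne_zero _ hpp.ne_zero⟩
  have hdvd : p ^ v ∣ p ^ n := pow_dvd_pow p hn
  obtain ⟨φ, hφ⟩ : ∃ φ : (ZMod (p ^ n))ˣ →* (ZMod (p ^ v))ˣ, φ = ZMod.unitsMap hdvd := ⟨_, rfl⟩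
  have hφs : Function.Surjective φ := by
    rw [hφ]
    exact ZMod.unitsMap_surjective hdvd
  have hφv : ∀ u : (ZMod (p ^ n))ˣ, ((φ u : (ZMod (p ^ v))ˣ) : ZMod (p ^ v)) =
      ZMod.castHom hdvd (ZMod (p ^ v)) (u : ZMod (p ^ n)) := by
    intro u
    rw [hφ]
    rfl
  have hSg : ∀ al be P : ℕ → (ZMod (p ^ n))ˣ, ZMod.castHom hdvd (ZMod (p ^ v)) (Loc.Sg (k + 1) al be P) =
      Loc.Sg (k + 1) (fun j => φ (al j)) (fun j => φ (be j)) (fun j => φ (P j)) := by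
    intro al be P
    unfold Loc.Sg Loc.et
    rw [map_sum]
    refine sum_congr rfl fun j _ => ?_
    rw [map_mul, map_sub, ← map_inv φ, ← map_inv φ, hφv, hφv, hφv]
  have hz : ∀ x : ZMod (p ^ n), (p : ZMod (p ^ n)) ^ v ∣ x → ZMod.castHom hdvd (ZMod (p ^ v)) x = 0 := by
    rintro _ ⟨d, rfl⟩
    rw [map_mul, map_pow, map_natCast, ← Nat.cast_pow, ZMod.natCast_self, zero_mul]
  -- the event modulo `p ^ v`
  obtain ⟨A, hA⟩ : ∃ A : (E → Fin (k + 1)) → (Fin k → (ZMod (p ^ v))ˣ) → (Fin (k + 1) → (ZMod (p ^ v))ˣ) × (E → (ZMod (p ^ v))ˣ) → Prop,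
      A = fun c y w => Loc.Sg (k + 1) (Loc.ex (k + 1) w.1) (fun j => φ (be j)) (Loc.pr k (xa w.1 (Loc.sl c y w.2))) = 0 := ⟨_, rfl⟩
  have hAi : ∀ (c : E → Fin (k + 1)) (y : Fin k → (ZMod (p ^ n))ˣ) (α : Fin (k + 1) → (ZMod (p ^ n))ˣ)
      (s : E → (ZMod (p ^ n))ˣ),
      (p : ZMod (p ^ n)) ^ v ∣ Loc.Sg (k + 1) (Loc.ex (k + 1) α) be (pj c α y s) →
      A c (fun j => φ (y j)) (fun j => φ (α j), fun e => φ (s e)) := by
    intro c y α s h
    have h1 := hz _ h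
    rw [hSg] at h1
    rw [hA]
    show Loc.Sg (k + 1) (Loc.ex (k + 1) fun j => φ (α j)) (fun j => φ (be j))
      (Loc.pr k (xa (fun j => φ (α j)) (Loc.sl c (fun j => φ (y j)) fun e => φ (s e)))) = 0
    rw [← h1]
    refine Loc.Sg_congr (fun j _ => (q15_ex φ α j).symm) (fun _ _ => rfl) fun j _ => (q15_pj φ c α y s j).symm
  obtain ⟨G, hG⟩ : ∃ G : (Fin (k + 1) → (ZMod (p ^ v))ˣ) × (E → (ZMod (p ^ v))ˣ) → ℝ,
      G = fun w => ind (A c (fun j => φ (y j)) w ∧ A c' (fun j => φ (y' j)) w) := ⟨_, rfl⟩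
  let Φ : ((Fin (k + 1) → (ZMod (p ^ n))ˣ) × (E → (ZMod (p ^ n))ˣ)) →*
      ((Fin (k + 1) → (ZMod (p ^ v))ˣ) × (E → (ZMod (p ^ v))ˣ)) :=
    { toFun := fun w => (fun j => φ (w.1 j), fun e => φ (w.2 e))
      map_one' := by
        refine Prod.ext ?_ ?_
        · funext j
          exact map_one φ
        · funext j
          exact map_one φ
      map_mul' := fun w w' => by
        refine Prod.ext ?_ ?_
        · funext j
          exact map_mul φ _ _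
        · funext j
          exact map_mul φ _ _ }
  have hΦs : Function.Surjective Φ := by
    rintro ⟨a, b⟩
    choose a' ha' using fun j => hφs (a j)
    choose b' hb' using fun j => hφs (b j)
    exact ⟨(a', b'), Prod.ext (funext ha') (funext hb')⟩
  have h1 : av (fun α : Fin (k + 1) → (ZMod (p ^ n))ˣ => av fun s : E → (ZMod (p ^ n))ˣ =>
      ind ((p : ZMod (p ^ n)) ^ v ∣ Loc.Sg (k + 1) (Loc.ex (k + 1) α) be (pj c α y s)) *
      ind ((p : ZMod (p ^ n)) ^ v ∣ Loc.Sg (k + 1) (Loc.ex (k + 1) α) be (pj c' α y' s))) ≤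
      av (fun α : Fin (k + 1) → (ZMod (p ^ n))ˣ => av fun s : E → (ZMod (p ^ n))ˣ => G (1 * Φ (α, s))) := by
    refine av_mono fun α => av_mono fun s => ?_
    rw [ind_mul, one_mul, hG]
    exact ind_mono fun h => ⟨hAi c y α s h.1, hAi c' y' α s h.2⟩
  refine h1.trans ?_
  have h2 := av_fub (fun w : (Fin (k + 1) → (ZMod (p ^ n))ˣ) × (E → (ZMod (p ^ n))ˣ) => G (1 * Φ w))
  have h3 : av (fun α : Fin (k + 1) → (ZMod (p ^ n))ˣ => av fun s : E → (ZMod (p ^ n))ˣ => G (1 * Φ (α, s))) =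
      av G := h2.symm.trans (av_hom Φ hΦs 1 G)
  rw [h3, av_eq]
  have h4 := U11 (p ^ v) c c' hcc (fun j => φ (y j)) (fun j => φ (y' j)) (fun j => φ (be j)) univ
  have h5 : ∑ w, G w = (((univ : Finset ((Fin (k + 1) → (ZMod (p ^ v))ˣ) × (E → (ZMod (p ^ v))ˣ))).filter fun w =>
      (∀ j, w.1 j ∈ (univ : Finset (ZMod (p ^ v))ˣ)) ∧
      Loc.Sg (k + 1) (Loc.ex (k + 1) w.1) (fun j => φ (be j)) (Loc.pr k (xa w.1 (Loc.sl c (fun j => φ (y j)) w.2))) = 0 ∧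
      Loc.Sg (k + 1) (Loc.ex (k + 1) w.1) (fun j => φ (be j)) (Loc.pr k (xa w.1 (Loc.sl c' (fun j => φ (y' j)) w.2))) = 0).card : ℝ) := by
    rw [card_filter, Nat.cast_sum]
    refine sum_congr rfl fun w _ => ?_
    rw [hG, hA]
    show ind (Loc.Sg (k + 1) (Loc.ex (k + 1) w.1) (fun j => φ (be j)) (Loc.pr k (xa w.1 (Loc.sl c (fun j => φ (y j)) w.2))) = 0 ∧
      Loc.Sg (k + 1) (Loc.ex (k + 1) w.1) (fun j => φ (be j)) (Loc.pr k (xa w.1 (Loc.sl c' (fun j => φ (y' j)) w.2))) = 0) = _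
    split_ifs with h6
    · rw [ind_true h6.2, Nat.cast_one]
    · rw [ind_false fun h7 => h6 ⟨fun j => mem_univ _, h7⟩, Nat.cast_zero]
  rw [card_univ, ZMod.card_units_eq_totient] at h4
  have h7 : Fintype.card ((Fin (k + 1) → (ZMod (p ^ v))ˣ) × (E → (ZMod (p ^ v))ˣ)) =
      (p ^ v).totient ^ (k + 1) * (p ^ v).totient ^ Fintype.card E := by
    rw [Fintype.card_prod, Fintype.card_fun, Fintype.card_fun, Fintype.card_fin, ZMod.card_units_eq_totient]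
  rw [h5, h7]
  refine q15_num hpp.two_le hv hk (t := (p ^ v).divisors.card) ?_ (by exact_mod_cast h4) ?_
  · obtain ⟨b, rfl⟩ : ∃ b, v = b + 1 := ⟨v - 1, by omega⟩
    rw [Nat.totient_prime_pow_succ hpp, Nat.add_sub_cancel]
  · rw [Nat.divisors_prime_pow hpp, card_map, card_range]

theorem Q15 {T : Dat} {W0 k : ℕ} (hT : T.OK W0) (hk : 1 ≤ k) {E : Type*} [Fintype E] [DecidableEq E] {p : ℕ} (hp : p ∈ T.base) {yn : ℕ}
    (B B' : Prop) {c c' : E → Fin (k + 1)} (hcc : ¬ Fun c c') (y y' : Fin k → HP T.E p) (be : ℕ → HP T.E p) :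
    av (fun α : Fin (k + 1) → HP T.E p => lav2 T p yn B B' c c' α y y' be) ≤
      4 * ((padicValNat p T.D : ℝ) + 1) / ((p : ℝ) ^ padicValNat p T.D) ^ 2 := by
  have hb := hp
  unfold Dat.base at hb
  rw [mem_filter] at hb
  obtain ⟨-, hpp, hb2⟩ := hb
  have hpD : p ∣ T.D := by
    rcases hb2 with h | h
    · exact (((hT.W0_pr p hpp).2 h).trans (dvd_pow_self W0 two_ne_zero)).trans hT.W0_D2
    · exact h
  have : Fact p.Prime := ⟨hpp⟩
  have : NeZero (p ^ (padicValNat p T.E + 1)) := ⟨pow_ne_zero _ hpp.ne_zero⟩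
  have hv : 1 ≤ padicValNat p T.D := one_le_padicValNat_of_dvd hT.D_pos.ne' hpD
  have hvE : padicValNat p T.D ≤ padicValNat p T.E := by
    rw [hT.E_mul hpp]
    exact Nat.le_add_right _ _
  have key : ∀ (B : Prop) (al P : ℕ → HP T.E p), cb T k p yn B al be P →
      (p : RP T.E p) ^ padicValNat p T.D ∣ Loc.Sg (k + 1) al be P := by
    intro B al P h
    have h1 := h.1 hp
    unfold cP at h1
    by_cases h0 : p < T.p0
    · rw [if_pos h0] at h1
      obtain ⟨-, h2⟩ := h1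
      have hu : IsUnit (T.yc : RP T.E p) := by
        rw [ZMod.isUnit_iff_coprime]
        exact Nat.Coprime.pow_right _ (Nat.Coprime.symm ((hpp.coprime_iff_not_dvd).2 (hT.yc p hpp h0)))
      have hu2 : IsUnit ((al 0 : RP T.E p) * T.yc) := (al 0).isUnit.mul hu
      have h3 : (p : RP T.E p) ^ padicValNat p T.D ∣ ((T.D : ℕ) : RP T.E p) := by
        rw [← Nat.cast_pow]
        exact Nat.cast_dvd_cast pow_padicValNat_dvd
      have h4 : (p : RP T.E p) ^ padicValNat p T.D ∣ ((al 0 : RP T.E p) * T.yc) * Loc.Sg (k + 1) al be P := by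
        rw [h2]
        exact Dvd.dvd.mul_left h3 _
      exact (hu2.dvd_mul_left).1 h4
    · rw [if_neg h0] at h1
      rw [← hT.vE hpp (not_lt.1 h0)]
      exact h1
  refine le_trans (av_mono fun α => ?_) (q15_core hpp (hvE.trans (Nat.le_succ _)) hv hk hcc y y' be)
  unfold lav2
  refine av_mono fun s => ?_
  exact mul_le_mul (ind_mono (key B _ _)) (ind_mono (key B' _ _)) (ind_nonneg _) (ind_nonneg _)

end Pool.Agent.Lib.TTC
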