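import Pool.Agent.Lib.MP_092512_nt.TT.C.Q08
import Pool.Agent.Lib.MP_092512_nt.TT.C.POK
import Pool.Agent.Lib.MP_092512_nt.TT.C.L4

/-!
# Q16: coinciding roots modulo `p1` (8.3)

`q = p1^(v+1) = p1` (`v = padicValNat p1 D = 0` as `p1 > y0 ≥ D`); transport everything to a prime modulus (generalise `q` with `q = p1`, `subst`). `coin` is the union over `f, f' ∈ Fs` of the events of `U12` (`L4`:
at most `4/(p1-1)`), and of the events `coin1` of one colouring (`L4_one`: `f ≠ f'`, at most `2/(p1 - 1)`). Total `≤ 8 F²/(p1 - 1)`. `Q16_one`: one colouring, `≤ 2 F²/(p1-1)`.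
-/

set_option autoImplicit false

open Finset

namespace Pool.Agent.Lib.TTC

private theorem Q16_or (P Q : Prop) : ind (P ∨ Q) ≤ ind P + ind Q := by
  by_cases hP : P
  · rw [ind_true (Or.inl hP : P ∨ Q), ind_true hP]
    linarith [ind_nonneg Q]
  · by_cases hQ : Q
    · rw [ind_true (Or.inr hQ : P ∨ Q), ind_true hQ]
      linarith [ind_nonneg P]
    · rw [ind_false (fun h : P ∨ Q => h.elim hP hQ)]
      exact add_nonneg (ind_nonneg P) (ind_nonneg Q)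

private theorem Q16_ex {ι : Type*} (s : Finset ι) (P : ι → Prop) : ind (∃ i ∈ s, P i) ≤ ∑ i ∈ s, ind (P i) := by
  by_cases h : ∃ i ∈ s, P i
  · rw [ind_true h]
    obtain ⟨i, hi, hP⟩ := h
    rw [← ind_true hP]
    exact single_le_sum (f := fun i => ind (P i)) (fun j _ => ind_nonneg (P j)) hi
  · rw [ind_false h]
    exact sum_nonneg fun j _ => ind_nonneg (P j)

private theorem Q16_one' {T : Dat} {W0 k : ℕ} (hT : T.OK W0) {E : Type*} [Fintype E] [DecidableEq E] {p : ℕ} [Fact p.Prime] (hp0 : T.p0 ≤ p)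
    {c : E → Fin (k + 1)} (hc : ∀ j : Fin k, ∃ e, c e = j.castSucc) (y : Fin k → (ZMod p)ˣ) (be : ℕ → (ZMod p)ˣ) :
    av (fun w : (Fin (k + 1) → (ZMod p)ˣ) × (E → (ZMod p)ˣ) => ind (coin1 T k p (Loc.ex (k + 1) w.1) be (pj c w.1 y w.2))) ≤
      2 * (T.F k : ℝ) ^ 2 / ((p : ℝ) - 1) := by
  have hp2 := (Fact.out : p.Prime).two_le
  have hp1 : (0 : ℝ) < (p : ℝ) - 1 := by
    have : (2 : ℝ) ≤ p := by exact_mod_cast hp2
    linarith
  have hcard : (T.Fs k).card = T.F k := by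
    unfold Dat.Fs Dat.F
    rw [card_product, card_range]
  calc _ ≤ av (fun w : (Fin (k + 1) → (ZMod p)ˣ) × (E → (ZMod p)ˣ) => ∑ f ∈ T.Fs k, ∑ f' ∈ T.Fs k, ind (f ≠ f' ∧
      Loc.Mk (Loc.ex (k + 1) w.1) be (pj c w.1 y w.2) (T.h : ZMod p) f = Loc.Mk (Loc.ex (k + 1) w.1) be (pj c w.1 y w.2) (T.h : ZMod p) f')) := by
        refine av_mono fun w => ?_
        unfold coin1
        exact (Q16_ex _ _).trans (sum_le_sum fun f _ => Q16_ex _ _)
    _ ≤ ∑ f ∈ T.Fs k, ∑ f' ∈ T.Fs k, 2 / ((p : ℝ) - 1) := by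
        rw [av_sum]
        refine sum_le_sum fun f hf => ?_
        rw [av_sum]
        refine sum_le_sum fun f' hf' => ?_
        by_cases hff : f = f'
        · have h0 : av (fun w : (Fin (k + 1) → (ZMod p)ˣ) × (E → (ZMod p)ˣ) => ind (f ≠ f' ∧
              Loc.Mk (Loc.ex (k + 1) w.1) be (pj c w.1 y w.2) (T.h : ZMod p) f =
                Loc.Mk (Loc.ex (k + 1) w.1) be (pj c w.1 y w.2) (T.h : ZMod p) f')) = 0 := by
            rw [← av_const (α := (Fin (k + 1) → (ZMod p)ˣ) × (E → (ZMod p)ˣ)) (0 : ℝ)]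
            exact av_congr fun w => ind_false fun h => h.1 hff
          rw [h0]
          positivity
        · refine le_trans (av_mono fun w => ind_mono fun h => h.2) ?_
          exact L4_one c hc be y (h_ne hT hp0) (Fs_le hf) (Fs_le hf') (FOK_of hT hp0 hf) (FOK_of hT hp0 hf') hff (FOK_ne hT hp0 hf hf')
    _ = 2 * (T.F k : ℝ) ^ 2 / ((p : ℝ) - 1) := by
        rw [sum_const, sum_const, hcard, nsmul_eq_mul, nsmul_eq_mul]
        ring

private theorem Q16_core {T : Dat} {W0 k : ℕ} (hT : T.OK W0) {E : Type*} [Fintype E] [DecidableEq E] {p : ℕ} [Fact p.Prime] (hp0 : T.p0 ≤ p)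
    {c c' : E → Fin (k + 1)} (hc : ∀ j : Fin k, ∃ e, c e = j.castSucc) (hc' : ∀ j : Fin k, ∃ e, c' e = j.castSucc) (hcc : ¬ Fun c c')
    (y y' : Fin k → (ZMod p)ˣ) (be : ℕ → (ZMod p)ˣ) :
    av (fun w : (Fin (k + 1) → (ZMod p)ˣ) × (E → (ZMod p)ˣ) =>
      ind (coin T k p (Loc.ex (k + 1) w.1) be (pj c w.1 y w.2) (pj c' w.1 y' w.2))) ≤ 8 * (T.F k : ℝ) ^ 2 / ((p : ℝ) - 1) := by
  have hp2 := (Fact.out : p.Prime).two_le
  have hp1 : (0 : ℝ) < (p : ℝ) - 1 := by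
    have : (2 : ℝ) ≤ p := by exact_mod_cast hp2
    linarith
  have hcard : (T.Fs k).card = T.F k := by
    unfold Dat.Fs Dat.F
    rw [card_product, card_range]
  have h1 : av (fun w : (Fin (k + 1) → (ZMod p)ˣ) × (E → (ZMod p)ˣ) => ∑ f ∈ T.Fs k, ∑ f' ∈ T.Fs k, ind (
      Loc.Mk (Loc.ex (k + 1) w.1) be (pj c w.1 y w.2) (T.h : ZMod p) f * Loc.Sg (k + 1) (Loc.ex (k + 1) w.1) be (pj c' w.1 y' w.2) =
      Loc.Mk (Loc.ex (k + 1) w.1) be (pj c' w.1 y' w.2) (T.h : ZMod p) f' * Loc.Sg (k + 1) (Loc.ex (k + 1) w.1) be (pj c w.1 y w.2))) ≤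
      4 * (T.F k : ℝ) ^ 2 / ((p : ℝ) - 1) := by
    rw [av_sum]
    calc _ ≤ ∑ f ∈ T.Fs k, ∑ f' ∈ T.Fs k, 4 / ((p : ℝ) - 1) := by
          refine sum_le_sum fun f hf => ?_
          rw [av_sum]
          exact sum_le_sum fun f' hf' => L4 c c' hcc hc' be y y' (h_ne hT hp0) (Fs_le hf) (Fs_le hf') (FOK_of hT hp0 hf) (FOK_of hT hp0 hf')
      _ = _ := by
          rw [sum_const, sum_const, hcard, nsmul_eq_mul, nsmul_eq_mul]
          ring
  calc _ ≤ av (fun w : (Fin (k + 1) → (ZMod p)ˣ) × (E → (ZMod p)ˣ) => (∑ f ∈ T.Fs k, ∑ f' ∈ T.Fs k, ind (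
      Loc.Mk (Loc.ex (k + 1) w.1) be (pj c w.1 y w.2) (T.h : ZMod p) f * Loc.Sg (k + 1) (Loc.ex (k + 1) w.1) be (pj c' w.1 y' w.2) =
      Loc.Mk (Loc.ex (k + 1) w.1) be (pj c' w.1 y' w.2) (T.h : ZMod p) f' * Loc.Sg (k + 1) (Loc.ex (k + 1) w.1) be (pj c w.1 y w.2))) +
      (ind (coin1 T k p (Loc.ex (k + 1) w.1) be (pj c w.1 y w.2)) + ind (coin1 T k p (Loc.ex (k + 1) w.1) be (pj c' w.1 y' w.2)))) := by
        refine av_mono fun w => ?_
        unfold coin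
        refine (Q16_or _ _).trans (add_le_add ?_ (Q16_or _ _))
        exact (Q16_ex _ _).trans (sum_le_sum fun f _ => Q16_ex _ _)
    _ ≤ 4 * (T.F k : ℝ) ^ 2 / ((p : ℝ) - 1) + (2 * (T.F k : ℝ) ^ 2 / ((p : ℝ) - 1) + 2 * (T.F k : ℝ) ^ 2 / ((p : ℝ) - 1)) := by
        rw [av_add, av_add]
        exact add_le_add h1 (add_le_add (Q16_one' hT hp0 hc y be) (Q16_one' hT hp0 hc' y' be))
    _ = 8 * (T.F k : ℝ) ^ 2 / ((p : ℝ) - 1) := by ring

/-- coinciding roots of one colouring, averaged over the `α` and the residues of the free primes -/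
theorem Q16_one {T : Dat} {W0 k : ℕ} (hT : T.OK W0) {E : Type*} [Fintype E] [DecidableEq E] {p1 : ℕ} (hp : p1.Prime) (hpy : T.y0 < p1)
    {c : E → Fin (k + 1)} (hc : ∀ j : Fin k, ∃ e, c e = j.castSucc) (y : Fin k → HP T.E p1) (be : ℕ → HP T.E p1) :
    av (fun α : Fin (k + 1) → HP T.E p1 => av fun s : E → HP T.E p1 =>
      ind (coin1 T k (p1 ^ (padicValNat p1 T.E + 1)) (Loc.ex (k + 1) α) be (pj c α y s))) ≤
      2 * (T.F k : ℝ) ^ 2 / ((p1 : ℝ) - 1) := by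
  have hD : ¬ p1 ∣ T.E := fun h => by
    have h1 := Nat.le_of_dvd hT.E_pos h
    have h2 := hT.E_le
    omega
  have hp0 : T.p0 ≤ p1 := by
    have h1 := hT.p0_le
    have h2 := hT.y_le
    omega
  have hv : p1 ^ (padicValNat p1 T.E + 1) = p1 := by
    rw [padicValNat.eq_zero_of_not_dvd hD, zero_add, pow_one]
  revert y be
  unfold HP
  rw [hv]
  intro y be
  have _ : Fact p1.Prime := ⟨hp⟩
  have h1 := Q16_one' hT hp0 hc y be
  rw [av_fub] at h1
  exact h1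

theorem Q16 {T : Dat} {W0 k : ℕ} (hT : T.OK W0) {E : Type*} [Fintype E] [DecidableEq E] {p1 : ℕ} (hp : p1.Prime) (hpy : T.y0 < p1)
    {c c' : E → Fin (k + 1)} (hc : ∀ j : Fin k, ∃ e, c e = j.castSucc) (hc' : ∀ j : Fin k, ∃ e, c' e = j.castSucc) (hcc : ¬ Fun c c')
    (y y' : Fin k → HP T.E p1) (be : ℕ → HP T.E p1) :
    av (fun α : Fin (k + 1) → HP T.E p1 => av fun s : E → HP T.E p1 =>
      ind (coin T k (p1 ^ (padicValNat p1 T.E + 1)) (Loc.ex (k + 1) α) be (pj c α y s) (pj c' α y' s))) ≤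
      8 * (T.F k : ℝ) ^ 2 / ((p1 : ℝ) - 1) := by
  have hD : ¬ p1 ∣ T.E := fun h => by
    have h1 := Nat.le_of_dvd hT.E_pos h
    have h2 := hT.E_le
    omega
  have hp0 : T.p0 ≤ p1 := by
    have h1 := hT.p0_le
    have h2 := hT.y_le
    omega
  have hv : p1 ^ (padicValNat p1 T.E + 1) = p1 := by
    rw [padicValNat.eq_zero_of_not_dvd hD, zero_add, pow_one]
  revert y y' be
  unfold HP
  rw [hv]
  intro y y' be
  have _ : Fact p1.Prime := ⟨hp⟩
  have h1 := Q16_core hT hp0 hc hc' hcc y y' be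
  rw [av_fub] at h1
  exact h1

end Pool.Agent.Lib.TTC
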