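import Pool.Agent.Lib.MP_092512_nt.TT.C.Q08
import Pool.Agent.Lib.MP_092512_nt.TT.C.POK

/-!
# Q17: the conditions depend on `X` only modulo `qd`; expansions of the weights; (5.1)

`qd T W0 d = W0 ∏_{p ∈ d} p`.
* `Q17_qd`: squarefree for `d ⊆ PS` (`W0` is the product of the primes `< p0`, the primes of `d` are `≥ p0`), primes `≤ y0`; `qd ≤ W0 ∏_{p ∈ d} p`.
* `Q17_FF`, `Q17_Pb`: `ycl T p x` depends on `x` modulo `p`; it enters only for `p < p0` (`p ∣ W0`), and for `p ∈ d`.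
* `Q17_prod`: `FF` is a product of indicators over `base ∪ d` (`d ⊆ PS`).
* `Q17_w`: expansion of `w - w1` (`Ls` is the sum over `d ⊆ bad`, i.e. over `d ⊆ PS` with `FF`; `ind LL * [d ⊆ bad] = FF`).
* `Q17_51` (5.1): with `le_sum_flUp`, `sum_flLo_le`: `Ls false ≤ [bad = ∅] ≤ Ls true`, `Ll false ≤ [hits = ∅] ≤ Ll true`; `w ≤ [bad = ∅] Ll true - [bad = ∅] (Ll true - Ll false)`.
-/

set_option autoImplicit false

open Finset

namespace Pool.Agent.Lib.TTC

/-- the modulus of `X` -/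
def Dat.qd (_T : Dat) (W0 : ℕ) (d : Finset ℕ) : ℕ := W0 * ∏ p ∈ d, p

variable {S : MS} {T : Dat} {W0 : ℕ} {M : Msr S} {c : S.Col} {μ : S.TX} {ν : S.TY} {d : Finset ℕ}

private theorem q17_sqf (s : Finset ℕ) (hs : ∀ p ∈ s, p.Prime) : Squarefree (∏ p ∈ s, p) := by
  classical
  induction s using Finset.induction_on with
  | empty => simp
  | insert a s ha ih =>
    rw [Finset.prod_insert ha, Nat.squarefree_mul_iff]
    have h1 : a.Prime := hs a (Finset.mem_insert_self _ _)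
    have h2 : ∀ p ∈ s, p.Prime := fun p hp => hs p (Finset.mem_insert_of_mem hp)
    refine ⟨?_, h1.prime.squarefree, ih h2⟩
    refine Nat.Coprime.prod_right fun p hp => ?_
    rw [Nat.coprime_primes h1 (h2 p hp)]
    rintro rfl
    exact ha hp

private theorem q17_PS {p : ℕ} (hp : p ∈ T.PS) : p.Prime ∧ T.p0 ≤ p ∧ p ≤ T.y0 := by
  unfold Dat.PS at hp
  rw [mem_filter, mem_range] at hp
  exact ⟨hp.2.1, hp.2.2, by omega⟩

theorem Q17_qd (hT : T.OK W0) (hd : d ⊆ T.PS) :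
    Squarefree (T.qd W0 d) ∧ (∀ p : ℕ, p.Prime → p ∣ T.qd W0 d → p ≤ T.y0) ∧ T.qd W0 d ≤ W0 * ∏ p ∈ d, p ∧ 0 < T.qd W0 d := by
  have hp : ∀ p ∈ d, p.Prime := fun p hp => (q17_PS (hd hp)).1
  have h0 : Squarefree (T.qd W0 d) := by
    unfold Dat.qd
    rw [Nat.squarefree_mul_iff]
    refine ⟨?_, hT.W0_sq, q17_sqf _ hp⟩
    refine Nat.Coprime.prod_right fun p hp' => ?_
    rw [Nat.coprime_comm, (hp p hp').coprime_iff_not_dvd, hT.W0_pr p (hp p hp')]
    have := (q17_PS (hd hp')).2.1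
    omega
  refine ⟨h0, ?_, le_refl _, Nat.pos_of_ne_zero h0.ne_zero⟩
  intro p hpp hpd
  unfold Dat.qd at hpd
  rcases hpp.dvd_mul.1 hpd with h1 | h1
  · have h2 := (hT.W0_pr p hpp).1 h1
    have h3 := hT.p0_le
    have h4 := hT.y_le
    omega
  · obtain ⟨r, hr, hpr⟩ := hpp.prime.exists_mem_finset_dvd h1
    have h2 : p = r := (Nat.prime_dvd_prime_iff_eq hpp (hp r hr)).1 hpr
    subst h2
    exact (q17_PS (hd hr)).2.2

end Pool.Agent.Lib.TTC
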