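import Pool.Agent.Lib.MP_092512_nt.TT.C.Q12
import Pool.Agent.Lib.MP_092512_nt.TT.C.Q13
import Pool.Agent.Lib.MP_092512_nt.TT.C.Q14

/-!
# Q18: sums over the sets of bad primes for fixed tuples (8.2)

`nb`: the pair `(μ, ν)` is not bad, so `Good3` at all `p ∈ PS` (`Q14_good`), classes at `p < p0` (`Q14_cls`); `hX`: `X` is coprime to `W0`; for `p < p0`: `p ∣ D`, so `Y ≡ X` and `p ∤ ycl T p X`.
* `Q18_l2_le`: `l2 B B' ≤ l2 False False` (the condition `cb .. B` implies `cb .. False`), `l2 ≤ 1`, `l2 B B' ≤ lav B` and `≤ lav B'` (drop one colouring; `Q12_l1`; `c, c' ∈ CC`).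
* `Q18_a`: `Q13_two` with `P = PS`, `b = base`, `f p B B' = l2 B B' p`, `A p = 1 + 24 F/p` (each of `l2 True False`, `l2 False True`, `l2 True True` is at most `lav True ≤ 8 F/p lav False`, `lav False = 1` for `p ∉ base`
  (`Q14_bad`, `Q14_one`)), `Bd p = l2 False False p`.
* `Q18_base`: `∏_{p ∈ base} lav False ≤ 2^|base| W0/D`: `p < p0`: `1/((p-1)^k p^(v-1)) ≤ p/p^v`; `p ≥ p0`, `p ∣ D`: `≤ 2/p^v`; `∏_{p ∈ base} p^v = D` (all primes of `D` are `≤ y0` because `D ≤ y0`), `∏_{p < p0} p = W0`.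
* `Q18_base_lo`: `∏_{p ∈ base} lav False ≥ 1/(2^|base| W0^k D)`.
* `Q18_Pb`: `Q13_one` with `f p B = lav B`: `∑_{d ⊆ PS} Pb d ≤ ∏_{PS} (1 + 8 F/p) 2^|base| (2^|base| W0/D)`.
-/

set_option autoImplicit false

open Finset

namespace Pool.Agent.Lib.TTC

variable {S : MS} {T : Dat} {W0 : ℕ} {Z : Fin (S.k + 1) → ℕ} {μ : S.TX} {ν : S.TY} {c c' : S.Col} {X : ℤ}

private theorem Q18_cc {c : S.Col} (hc : c ∈ S.CC) : ∀ j : Fin S.k, ∃ e, c e = j.castSucc := by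
  unfold MS.CC at hc
  exact (mem_filter.1 hc).2

private theorem Q18_cbF {T : Dat} {k p yn : ℕ} {B : Prop} {al be P : ℕ → HP T.E p} (h : cb T k p yn B al be P) :
    cb T k p yn False al be P := ⟨h.1, False.elim⟩

theorem Q18_l2_nonneg (B B' : Prop) (p : ℕ) : 0 ≤ S.l2 T c c' μ ν X B B' p := by
  unfold MS.l2 lav2
  exact av_nonneg fun s => mul_nonneg (ind_nonneg _) (ind_nonneg _)

theorem Q18_l2_le (hc : c ∈ S.CC) (hc' : c' ∈ S.CC) (B B' : Prop) (p : ℕ) :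
    S.l2 T c c' μ ν X B B' p ≤ S.l2 T c c' μ ν X False False p ∧
    S.l2 T c c' μ ν X B B' p ≤ lav T S.k p (ycl T p X) B (aq _ μ.1) (aq _ ν.1) ∧
    S.l2 T c c' μ ν X B B' p ≤ lav T S.k p (ycl T p X) B' (aq _ μ.1) (aq _ ν.1) := by
  refine ⟨?_, ?_, ?_⟩
  · unfold MS.l2 lav2
    exact av_mono fun s => mul_le_mul (ind_mono Q18_cbF) (ind_mono Q18_cbF) (ind_nonneg _) (ind_nonneg _)
  · have h1 := Q12_l1 T p (ycl T p X) B c (Q18_cc hc) (rs _ μ.1) (S.yy T.N _ c μ ν) (aq _ ν.1)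
    refine le_trans ?_ (le_of_eq h1)
    unfold MS.l2 lav2
    exact av_mono fun s => mul_le_of_le_one_right (ind_nonneg _) (ind_le_one _)
  · have h1 := Q12_l1 T p (ycl T p X) B' c' (Q18_cc hc') (rs _ μ.1) (S.yy T.N _ c' μ ν) (aq _ ν.1)
    refine le_trans ?_ (le_of_eq h1)
    unfold MS.l2 lav2
    exact av_mono fun s => mul_le_of_le_one_left (ind_nonneg _) (ind_le_one _)

end Pool.Agent.Lib.TTC
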