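import Pool.Agent.Lib.MP_092512_nt.TT.C.Q07
import Pool.Agent.Lib.MP_092512_nt.TT.C.Q17

/-!
# QAx: the averages `ax` with respect to different moduli (auxiliary module for Q21, Q22)

`ax q G` is the average over the classes modulo `q`; for a function which is periodic modulo `q` it does not change when `q` is replaced by a multiple.
-/

set_option autoImplicit false

open Finset

namespace Pool.Agent.Lib.TTC

variable {S : MS} {T : Dat} {W0 : ℕ} {Z : Fin (S.k + 1) → ℕ} {M : Msr S} {δ0 δ1 : ℝ} {q Q : ℕ}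

open Classical in
theorem QAx_eq (q : ℕ) (G : ℤ → ℝ) :
    M.ax q G = M.gq q * ∑ r ∈ (range q).filter (fun r => M.t2 → r.Coprime q), G (M.xr r) := by
  unfold Msr.ax
  rw [mul_sum]

theorem QAx_sum {ι : Type*} (s : Finset ι) (q : ℕ) (G : ι → ℤ → ℝ) :
    M.ax q (fun x => ∑ i ∈ s, G i x) = ∑ i ∈ s, M.ax q (G i) := by
  classical
  simp only [QAx_eq]
  rw [sum_comm, mul_sum]

theorem QAx_mul (q : ℕ) (a : ℝ) (G : ℤ → ℝ) : M.ax q (fun x => a * G x) = a * M.ax q G := by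
  classical
  simp only [QAx_eq]
  rw [← mul_sum]
  ring

theorem QAx_mono (hq : 0 ≤ M.gq q) {G G' : ℤ → ℝ} (h : ∀ x, G x ≤ G' x) : M.ax q G ≤ M.ax q G' := by
  classical
  simp only [QAx_eq]
  exact mul_le_mul_of_nonneg_left (sum_le_sum fun r _ => h _) hq

theorem QAx_abs (hq : 0 ≤ M.gq q) {G G' : ℤ → ℝ} (h : ∀ x, |G x| ≤ G' x) : |M.ax q G| ≤ M.ax q G' := by
  classical
  simp only [QAx_eq]
  rw [abs_mul, abs_of_nonneg hq]
  refine mul_le_mul_of_nonneg_left ?_ hq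
  exact (abs_sum_le_sum_abs _ _).trans (sum_le_sum fun r _ => h _)

theorem QAx_qd_dvd {d d' : Finset ℕ} (h : d ⊆ d') : T.qd W0 d ∣ T.qd W0 d' := by
  unfold Dat.qd
  exact Nat.mul_dvd_mul_left _ (prod_dvd_prod_of_subset _ _ _ h)

theorem QAx_W0_dvd (d : Finset ℕ) : W0 ∣ T.qd W0 d := Dvd.intro _ rfl

theorem QAx_cop {d : Finset ℕ} {x x' : ℤ} (h : x ≡ x' [ZMOD T.qd W0 d]) : IsCoprime x (W0 : ℤ) ↔ IsCoprime x' (W0 : ℤ) := by
  have h1 : x ≡ x' [ZMOD (W0 : ℤ)] := h.of_dvd (Int.natCast_dvd_natCast.2 (QAx_W0_dvd d))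
  obtain ⟨t, ht⟩ := h1.dvd
  have h2 : x' = x + (W0 : ℤ) * t := by linarith
  rw [h2]
  exact IsCoprime.add_mul_left_left_iff.symm

/-- the product of the primes of two sets of the small sieve -/
theorem QAx_DS (hT : T.OK W0) {b1 : ℕ} {d d' : Finset ℕ} (hd : d ∈ T.DS b1) (hd' : d' ∈ T.DS b1) :
    (T.qd W0 (d ∪ d') : ℝ) ≤ (W0 : ℝ) * (T.y0 : ℝ) ^ (24 * b1) := by
  classical
  unfold Dat.DS at hd hd'
  rw [mem_filter, mem_powerset] at hd hd'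
  have h1 := (Q17_qd hT (union_subset hd.1 hd'.1)).2.2.1
  have h2 : ∏ p ∈ d ∪ d', p ≤ (∏ p ∈ d, p) * ∏ p ∈ d', p := by
    rw [← prod_union_inter]
    refine Nat.le_mul_of_pos_right _ (prod_pos fun p hp => ?_)
    have h3 := hd.1 (mem_inter.1 hp).1
    unfold Dat.PS at h3
    exact (mem_filter.1 h3).2.1.pos
  have h4 : T.qd W0 (d ∪ d') ≤ W0 * (T.y0 ^ (12 * b1) * T.y0 ^ (12 * b1)) :=
    h1.trans (Nat.mul_le_mul_left _ (h2.trans (Nat.mul_le_mul hd.2 hd'.2)))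
  have h5 : T.y0 ^ (12 * b1) * T.y0 ^ (12 * b1) = T.y0 ^ (24 * b1) := by
    rw [← pow_add]
    congr 1
    ring
  rw [h5] at h4
  exact_mod_cast h4

/-! ### signs and sizes -/

theorem QAx_lco (p1 : ℕ) (c c' : S.Col) (μ : S.TX) (ν : S.TY) : 0 ≤ M.lco T p1 c c' μ ν ∧ M.lco T p1 c c' μ ν ≤ 1 := by
  unfold Msr.lco
  refine ⟨av_nonneg fun _ => ind_nonneg _, ?_⟩
  refine (av_mono fun _ => ind_le_one _).trans ?_
  rw [av_const]

theorem QAx_prod_abs {a b a' b' : ℝ} (ha : 0 ≤ a ∧ a ≤ 1) (hb : 0 ≤ b ∧ b ≤ 1) (ha' : 0 ≤ a' ∧ a' ≤ 1) (hb' : 0 ≤ b' ∧ b' ≤ 1) :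
    |(a - b) * (a' - b')| ≤ 1 := by
  rw [abs_mul]
  have h1 : |a - b| ≤ 1 := abs_le.2 ⟨by linarith [ha.1, hb.2], by linarith [ha.2, hb.1]⟩
  have h2 : |a' - b'| ≤ 1 := abs_le.2 ⟨by linarith [ha'.1, hb'.2], by linarith [ha'.2, hb'.1]⟩
  calc |a - b| * |a' - b'| ≤ 1 * 1 := mul_le_mul h1 h2 (abs_nonneg _) zero_le_one
    _ = 1 := one_mul 1

theorem QAx_bad {μ μ' : S.TX} {ν ν' : S.TY} (h : μ.1 = μ'.1) (h' : ν.1 = ν'.1) (a b : ℕ) :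
    S.badpair T a b μ ν ↔ S.badpair T a b μ' ν' := by
  unfold MS.badpair
  rw [h, h']

theorem QAx_Kbad (μ μ' : S.TX) (ν ν' : S.TY) (h : S.sX T.N μ μ') (h' : S.sY T.N ν ν') :
    (¬ S.badpair T 0 T.y0 μ ν) ↔ ¬ S.badpair T 0 T.y0 μ' ν' :=
  not_congr (QAx_bad h.1 h'.1 0 T.y0)

theorem QAx_evp {μ μ' : S.TX} {ν ν' : S.TY} (h : μ.1 = μ'.1) (h' : ν.1 = ν'.1) : S.evp T μ ν ↔ S.evp T μ' ν' := by
  unfold MS.evp
  rw [h, h']

/-- the pairs which are neither `badpair` nor `evp` -/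
theorem QAx_Kgood (μ μ' : S.TX) (ν ν' : S.TY) (h : S.sX T.N μ μ') (h' : S.sY T.N ν ν') :
    (¬ S.badpair T 0 T.y0 μ ν ∧ ¬ S.evp T μ ν) ↔ (¬ S.badpair T 0 T.y0 μ' ν' ∧ ¬ S.evp T μ' ν') :=
  and_congr (QAx_Kbad μ μ' ν ν' h h') (not_congr (QAx_evp h.1 h'.1))

theorem QAx_adm {μ : S.TX} {ν : S.TY} (h : M.adm μ ν) : M.adm0 μ ν := by
  have h1 : ((∏ i, μ.1 i) * ∏ e, μ.2.2 e) ∣ S.prX id μ := by
    unfold MS.prX
    exact Nat.mul_dvd_mul (Dvd.intro _ rfl) (dvd_refl _)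
  have h2 : ((∏ i, ν.1 i) * ∏ e, ν.2.2 e) ∣ S.prY id ν := by
    unfold MS.prY
    exact Nat.mul_dvd_mul (Dvd.intro _ rfl) (dvd_refl _)
  exact ⟨Nat.Coprime.coprime_dvd_left (Nat.mul_dvd_mul h1 h2) h.1,
    Nat.Coprime.coprime_dvd_left h1 (Nat.Coprime.coprime_dvd_right h2 h.2)⟩

end Pool.Agent.Lib.TTC
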