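import Pool.Agent.Lib.MP_092512_nt.TT.C.Q07
import Pool.Agent.Lib.MP_092512_nt.TT.C.QAx
import Pool.Agent.Lib.MP_092512_nt.TT.C.Q11
import Pool.Agent.Lib.MP_092512_nt.TT.C.Q15
import Pool.Agent.Lib.MP_092512_nt.TT.C.Q16
import Pool.Agent.Lib.MP_092512_nt.TT.C.Q18
import Pool.Agent.Lib.MP_092512_nt.TT.C.Q10
import Pool.Agent.Lib.MP_092512_nt.TT.C.Q17

/-!
# Q21: the second moment with the mean values of the large sieve, one pair of colourings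

Constants: `U4 = ∏_{PS} (1 + 24 m/p) 4^|base|`, `U5 = ∏_{PS} (1 + 8 m/p) 2^|base| 2^|base| W0^r/D`, `U6 = 2^|base| W0^r/D`, `MA = (3 Cα)^(k+1) 4^|base| τ(D)/D²` (`m = k + 1`).
`TS c c' d d'` is the sum over good pairs of tuples and over `n` of `Om * G(X)`, `G x = ind (x coprime to W0) (FF c d - Pb d)(FF c' d' - Pb d')`, `|G| ≤ 1`, periodic modulo `q = qd (d ∪ d')` (`Q17_FF`, `Q17_Pb`, `Q17_qd`, `W0 ∣ q`).
`Q07a` for every good pair (`adm`): `|TS - W ∑_r gq ∑_{μ,ν} ind gp m1 G(xr r)| ≤ |MX| |MY| N^(-δ1) W q`, `q ≤ W0 y0^(24 b1)`; (`ms = W m1`, `ax q 1 = 1` (`Q07_one`), so a bound for all `x = xr r` coprime to `W0` gives the bound for the `r`-sum).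
* `Q21_conn`: replace `gp` by `Kp = adm0 ∧ ¬ badpair` (`gp → Kp`; the difference is `≤ ξ tot1` by `hξ`), then `Q20_conn`.
* `Q21_sum`: `ind gp ≤ ind (¬ badpair)`, `Q20_up` with `Kp = ¬ badpair` for each `d, d' ∈ DS b1`, then extend the sums to all `d, d' ⊆ PS` (all terms `≥ 0`): `Q18_a`, `Q18_Pb` (for pairs which are not bad), then `Q19` with `ϑ = 1` (`lco ≥ 0`) if `c'` is not a function
  of `c`, and `∏_{base} l2 ≤ ∏_{base} lav ≤ U6` (`Q18_l2_le`, `Q18_base`) in general.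
-/

set_option autoImplicit false

open Finset

namespace Pool.Agent.Lib.TTC

noncomputable def U4 (S : MS) (T : Dat) : ℝ := (∏ p ∈ T.PS, (1 + 24 * ((T.F S.k : ℕ) : ℝ) / p)) * 4 ^ T.base.card

noncomputable def U5 (S : MS) (T : Dat) (W0 : ℕ) : ℝ := (∏ p ∈ T.PS, (1 + 8 * ((T.F S.k : ℕ) : ℝ) / p)) * (2 ^ T.base.card * (2 ^ T.base.card * (W0 : ℝ) ^ T.r / T.D))

noncomputable def U6 (T : Dat) (W0 : ℕ) : ℝ := 2 ^ T.base.card * (W0 : ℝ) ^ T.r / T.D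

noncomputable def MA (S : MS) (T : Dat) (Cα : ℝ) : ℝ := (3 * Cα) ^ (S.k + 1) * (4 ^ T.base.card * (T.D.divisors.card : ℝ) / (T.D : ℝ) ^ 2)

/-- the total mass of the tuples -/
noncomputable def Msr.tot1 {S : MS} (M : Msr S) : ℝ := ∑ μ ∈ S.MX, ∑ ν ∈ S.MY, M.m1 μ ν

/-- the additive error of one pair `d, d'` -/
noncomputable def Msr.er {S : MS} (M : Msr S) (T : Dat) (W0 b1 : ℕ) (δ1 : ℝ) : ℝ :=
  (S.MX.card : ℝ) * S.MY.card * ((T.N : ℝ) ^ (-δ1) * M.W * (W0 * (T.y0 : ℝ) ^ (24 * b1)))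

variable {S : MS} {T : Dat} {W0 : ℕ} {Z : Fin (S.k + 1) → ℕ} {M : Msr S} {δ0 δ1 : ℝ} {p1 Q0 : ℕ} {η η' Cα ξ : ℝ} {c c' : S.Col} {b1 : ℕ}

end Pool.Agent.Lib.TTC
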