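import Pool.Agent.Lib.MP_092512_nt.TT.C.Q04
import Pool.Agent.Lib.MP_092512_nt.TT.C.QAx
import Pool.Agent.Lib.MP_092512_nt.TT.C.Q06
import Pool.Agent.Lib.MP_092512_nt.TT.C.Q21

/-!
# Q22: the second moment of the large sieve, one pair of colourings

`TL` is the sum over good pairs of tuples and over `n` of `Om * G(X) * Ψ(n)`, `G x = ind (x coprime to W0) FF c d FF c' d'` (`0 ≤ G ≤ 1`, periodic modulo `q = qd (d ∪ d')`), `Ψ = (Ll s c - Ml s)(Ll s' c' - Ml s')`.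
`Q07b` with `Q06` (`q1 = q`, `Θ = Th c c'`): `|..| ≤ Th ms ax q G + q N^(-δ1) W (2 (NJ z + 1) z^(24 b2))²`. `Th ≤ Th0 * 1` always, and by `Q05` `Th ≤ Th0 (ϑ0 + ind co)` with `Th0 = 4 (NJ z + 1)² V3`, `ϑ0 = (300 m² log N + 1) (2 m/y0)`.
Then as in `Q21_sum` (`Q20_co` with `Kp = ¬ badpair`, `Q18_a`, `Q19`); for the second statement use `Th ≤ Th0 ≤ Th0 (1 + ind co)`, `Q20_co` with `ϑ = 1`, `lco ≤ 1`, `∏_{base} l2 ≤ U6`.
-/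

set_option autoImplicit false

open Finset

open Pool.Agent.Lib.GT (NJ)

namespace Pool.Agent.Lib.TTC

noncomputable def Msr.Th0 {S : MS} (M : Msr S) (T : Dat) : ℝ := 4 * ((NJ T.z : ℝ) + 1) ^ 2 * M.V3 T

noncomputable def th0 (S : MS) (T : Dat) : ℝ := (300 * ((T.F S.k : ℕ) : ℝ) ^ 2 * Real.log T.N + 1) * (2 * ((T.F S.k : ℕ) : ℝ) / T.y0)

/-- the additive error of one pair `d, d'` -/
noncomputable def Msr.erL {S : MS} (M : Msr S) (T : Dat) (W0 b1 b2 : ℕ) (δ1 : ℝ) : ℝ :=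
  M.er T W0 b1 δ1 * (2 * ((NJ T.z : ℝ) + 1) * (T.z : ℝ) ^ (24 * b2)) ^ 2

variable {S : MS} {T : Dat} {W0 : ℕ} {Z : Fin (S.k + 1) → ℕ} {M : Msr S} {δ0 δ1 : ℝ} {p1 Q0 : ℕ} {η η' Cα : ℝ} {c c' : S.Col} {b1 b2 : ℕ}

end Pool.Agent.Lib.TTC
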