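import Pool.Agent.Lib.MP_092512_nt.TT.C.Q17
import Pool.Agent.Lib.MP_092512_nt.TT.C.Q18

/-!
# Q25: the mean values (5.3)

`m = k + 1`. `VL = ∏_{PL} (1 - m g)`, `VS = ∏_{PS} (1 - 8 m/p)`. For `p ∈ PL`: `m g p ≤ 2 m/p ≤ 2/3` (`p > y0 ≥ 64 m²`). `ε2 = flK (2m) 2^(-b2) ≤ 1/20`, `ε1 = flK (8m) 2^(-b1) ≤ 1/2`.
* `Q25_Ml`: `flUp_dens`, `flLo_dens` with `κ = 2 m`, `g r = m M.g r`.
* `Q25_kap`: `|wt false| ≤ NJ y0 + 1`, `|wt true| ≤ 1` (`abs_flLo_le`, `abs_flUp_le`), `|Ml true| ≤ 1.05 VL`, `|Ml true - Ml false| ≤ 0.1 VL`.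
* `Q25_wb`: `Q13_id` with `f p B = lav B` (`lav False = 1` off `base`, `> 0` on `base`: `Q14_small`, `Q14_D`): `wb = (∏_{base} lav False) (lo Ml true - up (Ml true - Ml false))`, `lo = ∑ wt false ∏ g_p`, `up = ∑ wt true ∏ g_p`,
  `g_p = lav True/lav False ≤ 8 m/p ≤ 2/3` (`Q14_bad`), so `lo ≥ (1 - ε1) V'`, `0 ≤ up ≤ (1 + ε1) V'`, `V' = ∏ (1 - g_p) ≥ VS`; `Ml true ≥ VL`, `Ml true - Ml false ≤ 0.1 VL`: the bracket is `≥ V' VL (1/2 - (3/2)(1/10)) ≥ VS VL/4`.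
-/

set_option autoImplicit false

open Finset

open Pool.Agent.Lib.GT (NJ)

namespace Pool.Agent.Lib.TTC

noncomputable def Msr.VL {S : MS} (M : Msr S) (T : Dat) : ℝ := ∏ p ∈ T.PL, (1 - ((T.F S.k : ℕ) : ℝ) * M.g p)

noncomputable def VS (S : MS) (T : Dat) : ℝ := ∏ p ∈ T.PS, (1 - 8 * ((T.F S.k : ℕ) : ℝ) / p)

variable {S : MS} {T : Dat} {W0 : ℕ} {Z : Fin (S.k + 1) → ℕ} {M : Msr S} {δ0 δ1 : ℝ} {b1 b2 : ℕ}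

end Pool.Agent.Lib.TTC
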