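import Pool.Agent.Lib.MP_092512_nt.TT.C.Q21
import Pool.Agent.Lib.MP_092512_nt.TT.C.POK

/-!
# Q27: the condition on `n` (section 7 from the structures of POK: `P/Q27`)
-/

set_option autoImplicit false

open Finset

namespace Pool.Agent.Lib.TTC

/-- the condition on `n`: `X = l X'` with `X'` free of primes `≤ y0`, `Y` free of primes `≤ y0` -/
def Msr.Cd {S : MS} (M : Msr S) (T : Dat) (μ : S.TX) (ν : S.TY) (n : ℕ) : Prop :=
  (∃ X' : ℕ, M.X μ ν n = T.l * X' ∧ 0 < X' ∧ ∀ p : ℕ, p.Prime → p ≤ T.y0 → ¬ p ∣ X') ∧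
    0 < T.Y (M.X μ ν n) ∧ ∀ p : ℕ, p.Prime → p ≤ T.y0 → ¬ p ∣ T.Y (M.X μ ν n)

end Pool.Agent.Lib.TTC
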