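import Pool.Agent.Lib.MP_092512_nt.TT.C.Q25

/-!
# QN0 (version 2): the hypotheses of the pair theorem with exponents

`K = log N`. Constants: `k`, `F` (the number of the forms), `B` (precision), `CD` (`D ≤ K^CD`), `CY` (`y0 ≈ K^CY`), `Cf` (densities), `b1`, `b2` (sieves), `W1` (bound for `W0`), `A` (level of the equidistribution modulo small numbers), `Cη` (its precision), `Cα`.
-/

set_option autoImplicit false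

open Finset

namespace Pool.Agent.Lib.TTC

/-- constants of the pair theorem -/
structure PC where
  k : ℕ
  F : ℕ
  B : ℕ
  CD : ℕ
  CY : ℕ
  Cf : ℕ
  b1 : ℕ
  b2 : ℕ
  W1 : ℕ
  A : ℕ
  Cη : ℕ
  Cα : ℝ
  δ0 : ℝ
  δ1 : ℝ
  ζ : ℝ

/-- relations between the constants -/
structure PC.OK (c : PC) : Prop where
  k1 : 4 * (c.B + 12) ≤ c.k + 1
  kF : c.k + 1 ≤ c.F
  Y1 : c.CD + 12 * c.F + c.B + 20 ≤ c.CY
  A1 : 2 * c.CD + 24 * c.b1 * (c.CY + 1) + 2 * c.CY + 10 ≤ c.A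
  η1 : 2 * c.CD + 24 * c.b1 * (c.CY + 1) + c.B + 20 ≤ c.Cη
  b1p : 1 ≤ c.b1
  b2p : 1 ≤ c.b2
  f1 : flK (8 * ((c.F : ℕ) : ℝ)) * (1 / 2) ^ c.b1 ≤ 1 / 2
  f2 : flK (2 * ((c.F : ℕ) : ℝ)) * (1 / 2) ^ c.b2 ≤ 1 / 20
  α1 : 1 ≤ c.Cα
  δ0p : 0 < c.δ0
  δ1p : 0 < c.δ1
  δ1l : c.δ1 ≤ 1
  ζp : 0 < c.ζ
  ζ0 : 50 * c.b2 * c.ζ ≤ c.δ0
  ζ1 : 800 * c.b2 * c.ζ ≤ c.δ1

end Pool.Agent.Lib.TTC
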