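import Pool.Agent.Lib.MP_092512_nt.TT.C.QN0
import Pool.Agent.Lib.MP_092512_nt.TT.C.Q21
import Pool.Agent.Lib.MP_bc6037_nt.DivBound
import Pool.Agent.Lib.MP_5d7b92_nt.UA.Me

/-!
# QN1: the small factors are at most `K^(1/100)`

`K = log N`, `m = k + 1`, `N` large in terms of the constants.
* `base` = the primes of `D` (`p < p0` divides `W0`, `W0² ∣ D`; `p ∣ D` implies `p ≤ D ≤ y0`). `2^|base| ≤ τ(D) ≤ C_ε D^ε` (`card_divisors_le_rpow`), `D ≤ K^CD`, `ε = 1/(1000 (CD + 1))`; so `4^|base|`, `τ(D) ≤ K^(1/100)`.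
* `∏_{PS} (1 + 24 m/p) ≤ exp (24 m ∑_{p ≤ y0} 1/p)`, `∑_{p ≤ y0} 1/p ≤ log log y0 + C` (`mertens_two`), `log y0 ≤ 2 (CY + 1) log K`: a power of `log K`. The same for `VS ≥ exp (- 16 m ∑ 1/p)` (`8 m/p ≤ 1/8`, `p ≥ 64 m²`; `1 - x ≥ exp (-2x)`).
* `NJ y = log₂ log₂ y + 1`; `W0 ≤ W1`, `(3 Cα)^(k+1)`, `m`: constants.
-/

set_option autoImplicit false

open Finset

open Pool.Agent.Lib.GT (NJ)

namespace Pool.Agent.Lib.TTC

end Pool.Agent.Lib.TTC
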