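import Pool.Agent.Lib.MP_092512_nt.TT.C.QN0
import Pool.Agent.Lib.MP_092512_nt.TT.C.Q22
import Pool.Agent.Lib.MP_5d7b92_nt.UA.Me

/-!
# QN2: the densities of the large sieve

`K = log N`, `m = k + 1`, `|g p - 1/p| ≤ 2/p²` for `p ∈ PL = {y0 < p ≤ z}`, `exp (K/(log K)²) ≤ z ≤ N^ζ ≤ N`, `K^CY ≤ y0 ≤ K^(CY+1)`. Mertens (`mertens_two`): `∑_{y0 < p ≤ z} 1/p = log log z - log log y0 + O(1)`, between `log K - 3 log log K - C` and `log K + C` (`log log z ≥ log K - 2 log log K`, `log y0 ≤ (CY + 1) log K`).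
`V3 = ∏ (1 + 3 m g) ≤ exp (3 m ∑ g)`, `∑ 2/p² ≤ 2/y0`. `VL = ∏ (1 - m g) ≤ exp (- m ∑ g)`, and `≥ exp (- m ∑ g - 2 m² ∑ g²)` (`m g ≤ 1/2`), `∑ g² ≤ 4/y0`.
-/

set_option autoImplicit false

open Finset

namespace Pool.Agent.Lib.TTC

end Pool.Agent.Lib.TTC
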