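import Pool.Agent.Lib.MP_092512_nt.TT.C.S7Def

/-!
# S7A: identities between the integer forms of a cycle

All over a commutative ring. Write `G i`, `H i`, `R i`, `U i`, `S n` for `Gs n`, `Hs n`, `Rs n`, `Us`, `SmR n` and `w_l = b_l B_{l-1}`.
* `Hs_top`: empty sum. `Hs_step`: split off `j = i` (`Ico i i` is empty) and factor `a_i A_i` out of the terms `j > i`.
* `Sm_split`: induction on `n` from `n = i` (`SmR (n+1) = SmR n * w_n + (a_n - b_n) ∏_{l<n} a_l A_l`, and
  `Hs (n+1) i = Hs n i * w_n + (a_n - b_n) ∏_{i≤l<n} a_l A_l` : lemma `Hs_succ`).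
* `Hs_G`: `H i = (a_i - b_i) ∏_{i<l<n} w_l + a_i A_i H (i+1) = a_i G i - R i`.
* `BR`: for `1 ≤ i < n`: `B_{i-1} R i = ∏_{i≤l<n} w_l`.
* `U_G`: `U i R i + S n = (∏_{l<i} a_l A_l) R i - B_{i-1} SmR i R i + SmR i ∏_{i≤l<n} w_l + (∏_{l<i} a_l A_l) H i`
  (`Sm_split`), the middle terms cancel by `BR` (for `i = 0`: `SmR 0 = 0`), and `R i + H i = a_i G i` by `Hs_G`.
* `F_G`: `Fz = (Y + D h) U i R i - Y (U i R i + S) - D w Pw`; `F_S`: `Fz = D (h ∏_{l<i} a_l A_l a_i G i - w Pw) - (Y + D h) S`.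
* `G_top`: `Gs n (n-1) = 1`.
-/

set_option autoImplicit false

open Finset

namespace Pool.Agent.Lib.TTC

variable {R : Type*} [CommRing R] (A B a b : ℕ → R)

theorem Hs_top (n : ℕ) : Hs n A B a b n = 0 := by
  simp [Hs]

theorem Hs_step {n i : ℕ} (h : i < n) : Hs n A B a b i =
    (a i - b i) * (∏ l ∈ Ico (i + 1) n, b l * B (l - 1)) + a i * A i * Hs n A B a b (i + 1) := by
  unfold Hs
  rw [Finset.sum_eq_sum_Ico_succ_bot h, Ico_self, prod_empty, mul_one, mul_sum]
  congr 1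
  refine sum_congr rfl fun j hj => ?_
  rw [mem_Ico] at hj
  rw [Finset.prod_eq_prod_Ico_succ_bot (show i < j by omega)]
  ring

theorem Hs_succ {n i : ℕ} (h : i ≤ n) : Hs (n + 1) A B a b i =
    Hs n A B a b i * (b n * B (n - 1)) + (a n - b n) * ∏ l ∈ Ico i n, a l * A l := by
  unfold Hs
  rw [Finset.sum_Ico_succ_top h, Ico_self, prod_empty, mul_one, sum_mul]
  congr 1
  refine sum_congr rfl fun j hj => ?_
  rw [mem_Ico] at hj
  rw [Finset.prod_Ico_succ_top (show j + 1 ≤ n by omega)]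
  ring

theorem Sm_split {n i : ℕ} (h : i ≤ n) : SmR A B a b n =
    SmR A B a b i * (∏ l ∈ Ico i n, b l * B (l - 1)) + (∏ l ∈ range i, a l * A l) * Hs n A B a b i := by
  induction n, h using Nat.le_induction with
  | base => rw [Hs_top, Ico_self, prod_empty]; ring
  | succ n hn ih =>
    rw [Hs_succ A B a b hn, Finset.prod_Ico_succ_top hn, SmR, ih,
      ← Finset.prod_range_mul_prod_Ico (fun l => a l * A l) hn]
    ring

theorem Sm_Hs (n : ℕ) : SmR A B a b n = Hs n A B a b 0 := by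
  rw [Sm_split A B a b (Nat.zero_le n), SmR, prod_range_zero]
  ring

theorem Hs_G {n i : ℕ} (h : i < n) : Hs n A B a b i = a i * Gs n A B a b i - Rs n B b i := by
  rw [Hs_step A B a b h, Gs, Rs]
  ring

theorem BR {n i : ℕ} (h0 : 1 ≤ i) (h : i < n) : B (i - 1) * Rs n B b i = ∏ l ∈ Ico i n, b l * B (l - 1) := by
  rw [Rs, Finset.prod_eq_prod_Ico_succ_bot h]
  ring

theorem U_G {n i : ℕ} (h : i < n) : Us A B a b i * Rs n B b i + SmR A B a b n =
    (∏ l ∈ range i, a l * A l) * (a i * Gs n A B a b i) := by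
  have h1 := Hs_G A B a b h
  have h2 := Sm_split A B a b h.le
  have h3 : B (i - 1) * SmR A B a b i * Rs n B b i = SmR A B a b i * ∏ l ∈ Ico i n, b l * B (l - 1) := by
    rcases Nat.eq_zero_or_pos i with h0 | h0
    · subst h0
      rw [SmR]
      ring
    · rw [← BR B b h0 h]
      ring
  rw [Us, h2, h1]
  linear_combination -h3

theorem F_G {n : ℕ} {f : ℕ × Bool × ℤ} (hf : f.1 < n) (D h Y : R) : Fz n A B a b D h Y f =
    (Y + D * h) * (Us A B a b f.1 * Rs n B b f.1) - Y * ((∏ l ∈ range f.1, a l * A l) * (a f.1 * Gs n A B a b f.1)) -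
      D * ((f.2.2 : R) * Pw n A B a b f.2.1 f.1) := by
  rw [← U_G A B a b hf, Fz]
  ring

theorem F_S {n : ℕ} {f : ℕ × Bool × ℤ} (hf : f.1 < n) (D h Y : R) : Fz n A B a b D h Y f =
    D * (h * ((∏ l ∈ range f.1, a l * A l) * (a f.1 * Gs n A B a b f.1)) - (f.2.2 : R) * Pw n A B a b f.2.1 f.1) -
      (Y + D * h) * SmR A B a b n := by
  rw [← U_G A B a b hf, Fz]
  ring

theorem Rs_eq (n i : ℕ) : Rs n B b i = b i * Rt n B b i := rfl

theorem Pw_true (n i : ℕ) : Pw n A B a b true i = (∏ l ∈ range i, a l * A l) * Rs n B b i := by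
  rw [Pw, if_pos rfl]

theorem Pw_false (n i : ℕ) : Pw n A B a b false i = (∏ l ∈ range i, a l * A l) * (a i * Rt n B b i) := by
  rw [Pw, if_neg (by decide)]

/-- the cofactor as a product of `∏_{l<i} a_l A_l` and a factor without `A` -/
theorem Pw_eq (n i : ℕ) (bb : Bool) : Pw n A B a b bb i = (∏ l ∈ range i, a l * A l) * ((if bb then b i else a i) * Rt n B b i) := by
  cases bb
  · rw [Pw_false, if_neg (by decide)]
  · rw [Pw_true, if_pos rfl, Rs_eq]

/-- the form modulo `X` (`= Y + D h`) or modulo `S` -/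
theorem F_Gz {n : ℕ} {f : ℕ × Bool × ℤ} (hf : f.1 < n) (D h Y : R) : Fz n A B a b D h Y f =
    D * ((∏ l ∈ range f.1, a l * A l) * ((if f.2.1 then 1 else a f.1) * Gz n A B a b h f)) - (Y + D * h) * SmR A B a b n := by
  obtain ⟨i, bb, w⟩ := f
  rw [F_S A B a b hf, Pw_eq, Gz]
  cases bb
  · simp only [Bool.false_eq_true, if_false]
    ring
  · simp only [if_true]
    ring

theorem G_top {n : ℕ} (h : 1 ≤ n) : Gs n A B a b (n - 1) = 1 := by
  rw [Gs, Nat.sub_add_cancel h, Ico_self, prod_empty, Hs_top]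
  ring

end Pool.Agent.Lib.TTC
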