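import Pool.Agent.Lib.MP_092512_nt.TT.C.S7A

/-!
# S7B1: the window `a_0`

`a`, `a'` agree except at `0`; `n ≥ 1`.
* `th_unique`: `SmR n = Hs n 0 = a_0 G - R` (`Sm_Hs`, `Hs_G`) with `G = Gs n 0`, which does not contain `a_0` (it contains `a_l`, `1 ≤ l < n`, only), `R = Rs n 0`.
  `q ∣ a_0 G - R`, `(q, R) = 1`: so `(q, a_0 G) = 1`, `(q, G) = 1`; `q ∣ (a_0 - a'_0) G`.
* `X_unique`: as a polynomial in `a_0` (`F_S`, `S = a_0 G - R`): `Fz = C - a_0 J` where `J` does not contain `a_0` and `C = (Y + D h) R`, except for the forms `(0, true, w)`: `C = (Y + D (h - w)) R`.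
  `p ∤ C`: so `p ∤ J`, and `p ∣ (a_0 - a'_0) J`.
-/

set_option autoImplicit false

open Finset

namespace Pool.Agent.Lib.TTC

private theorem S7B1_congr {R : Type*} [CommRing R] {n i : ℕ} {A B a a' b b' : ℕ → R} (ha : ∀ j, i ≤ j → a j = a' j)
    (hb : ∀ j, i ≤ j → b j = b' j) : Hs n A B a b i = Hs n A B a' b' i := by
  rw [Hs, Hs]
  apply sum_congr rfl
  intro j hj
  rw [mem_Ico] at hj
  have h1 : ∏ l ∈ Ico i j, a l * A l = ∏ l ∈ Ico i j, a' l * A l := by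
    apply prod_congr rfl
    intro l hl
    rw [mem_Ico] at hl
    rw [ha l hl.1]
  have h2 : ∏ l ∈ Ico (j + 1) n, b l * B (l - 1) = ∏ l ∈ Ico (j + 1) n, b' l * B (l - 1) := by
    apply prod_congr rfl
    intro l hl
    rw [mem_Ico] at hl
    rw [hb l (by omega)]
  rw [h1, h2, ha j hj.1, hb j hj.1]

theorem th_unique {n : ℕ} (hn : 1 ≤ n) {A B a a' b : ℕ → ℤ} {q : ℤ} (ha : ∀ j, j ≠ 0 → a j = a' j)
    (hq : IsCoprime q (Rs n B b 0)) (h : q ∣ SmR A B a b n) (h' : q ∣ SmR A B a' b n) : q ∣ a 0 - a' 0 := by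
  have hG : Gs n A B a' b 0 = Gs n A B a b 0 := by
    rw [Gs, Gs, S7B1_congr (a := a') (a' := a) (b := b) (b' := b) (fun j hj => (ha j (by omega)).symm) (fun _ _ => rfl)]
  rw [Sm_Hs, Hs_G A B a b hn] at h
  rw [Sm_Hs, Hs_G A B a' b hn, hG] at h'
  have h1 : q ∣ (a 0 - a' 0) * Gs n A B a b 0 := by
    have := dvd_sub h h'
    rwa [show a 0 * Gs n A B a b 0 - Rs n B b 0 - (a' 0 * Gs n A B a b 0 - Rs n B b 0) =
      (a 0 - a' 0) * Gs n A B a b 0 by ring] at this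
  obtain ⟨k, hk⟩ := h
  have h2 : IsCoprime q (a 0 * Gs n A B a b 0) := by
    have h3 := hq.add_mul_left_right k
    rwa [show Rs n B b 0 + q * k = a 0 * Gs n A B a b 0 by linear_combination -hk] at h3
  exact (h2.of_mul_right_right).dvd_of_dvd_mul_right h1

private theorem S7B1_J {n : ℕ} {f : ℕ × Bool × ℤ} (hi : f.1 < n) {A B a b : ℕ → ℤ} {D h Y : ℤ} : Fz n A B a b D h Y f =
    (Y + D * (h - if f.1 = 0 ∧ f.2.1 = true then f.2.2 else 0)) * Rs n B b 0 - a 0 * (if f.1 = 0 then Y * Gs n A B a b 0 +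
        (if f.2.1 = true then 0 else D * (f.2.2 * Rt n B b 0)) else (Y + D * h) * Gs n A B a b 0 -
      D * (A 0 * (∏ l ∈ Ico 1 f.1, a l * A l) * (h * (a f.1 * Gs n A B a b f.1) - f.2.2 * ((if f.2.1 = true then b f.1 else a f.1) * Rt n B b f.1)))) := by
  obtain ⟨i, bb, w⟩ := f
  simp only at hi ⊢
  have hn : 0 < n := by omega
  have h1 : SmR A B a b n = a 0 * Gs n A B a b 0 - Rs n B b 0 := by rw [Sm_Hs, Hs_G A B a b hn]
  rw [F_S A B a b (f := (i, bb, w)) hi, h1, Pw_eq]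
  simp only [Int.cast_id]
  rcases Nat.eq_zero_or_pos i with h0 | h0
  · subst h0
    rw [prod_range_zero, if_pos rfl]
    cases bb
    · simp only [Bool.false_eq_true, and_false, if_false]
      rw [Rs_eq]
      ring
    · simp only [and_self, if_true]
      rw [Rs_eq]
      ring
  · have h7 : ∏ l ∈ range i, a l * A l = a 0 * A 0 * ∏ l ∈ Ico 1 i, a l * A l := by
      rw [range_eq_Ico, prod_eq_prod_Ico_succ_bot h0]
    rw [h7, if_neg (by omega : ¬ i = 0), if_neg (fun h => by omega : ¬ (i = 0 ∧ bb = true))]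
    ring

theorem X_unique {n : ℕ} {f : ℕ × Bool × ℤ} (hi : f.1 < n) {A B a a' b : ℕ → ℤ} {p : ℤ} (hp : Prime p) {D h Y : ℤ} (ha : ∀ j, j ≠ 0 → a j = a' j)
    (hX : ¬ p ∣ (Y + D * (h - if f.1 = 0 ∧ f.2.1 = true then f.2.2 else 0)) * Rs n B b 0) (h1 : p ∣ Fz n A B a b D h Y f)
    (h2 : p ∣ Fz n A B a' b D h Y f) : p ∣ a 0 - a' 0 := by
  have hG : ∀ j, Gs n A B a' b j = Gs n A B a b j := by
    intro j
    rw [Gs, Gs, S7B1_congr (a := a') (a' := a) (b := b) (b' := b) (fun j hj => (ha j (by omega)).symm) (fun _ _ => rfl)]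
  have hP : ∏ l ∈ Ico 1 f.1, a' l * A l = ∏ l ∈ Ico 1 f.1, a l * A l := by
    apply prod_congr rfl
    intro l hl
    rw [mem_Ico] at hl
    rw [ha l (by omega)]
  obtain ⟨J, hJ⟩ : ∃ J : ℤ, J = (if f.1 = 0 then Y * Gs n A B a b 0 +
        (if f.2.1 = true then 0 else D * (f.2.2 * Rt n B b 0)) else (Y + D * h) * Gs n A B a b 0 -
      D * (A 0 * (∏ l ∈ Ico 1 f.1, a l * A l) * (h * (a f.1 * Gs n A B a b f.1) - f.2.2 * ((if f.2.1 = true then b f.1 else a f.1) * Rt n B b f.1)))) := ⟨_, rfl⟩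
  have hJ' : (if f.1 = 0 then Y * Gs n A B a' b 0 +
        (if f.2.1 = true then 0 else D * (f.2.2 * Rt n B b 0)) else (Y + D * h) * Gs n A B a' b 0 -
      D * (A 0 * (∏ l ∈ Ico 1 f.1, a' l * A l) * (h * (a' f.1 * Gs n A B a' b f.1) - f.2.2 * ((if f.2.1 = true then b f.1 else a' f.1) * Rt n B b f.1)))) = J := by
    rw [hJ, hG, hG, hP]
    by_cases h0 : f.1 = 0
    · rw [if_pos h0, if_pos h0]
    · rw [if_neg h0, if_neg h0, ha _ h0]
  rw [S7B1_J hi] at h1 h2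
  rw [← hJ] at h1
  rw [hJ'] at h2
  obtain ⟨C, hC⟩ : ∃ C : ℤ, C = (Y + D * (h - if f.1 = 0 ∧ f.2.1 = true then f.2.2 else 0)) * Rs n B b 0 := ⟨_, rfl⟩
  rw [← hC] at h1 h2 hX
  have h3 : ¬ p ∣ J := by
    intro h3
    apply hX
    have h4 := dvd_add h1 (h3.mul_left (a 0))
    rwa [sub_add_cancel] at h4
  have h4 : p ∣ (a 0 - a' 0) * J := by
    have h5 := dvd_sub h2 h1
    rwa [show C - a' 0 * J - (C - a 0 * J) = (a 0 - a' 0) * J by ring] at h5
  exact (hp.dvd_or_dvd h4).resolve_right h3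

end Pool.Agent.Lib.TTC
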