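import Pool.Agent.Lib.MP_092512_nt.TT.C.S7A

/-!
# S7B2: the form `Gs n i` in the window `a_h`, `h > i`

`a_j = a'_j` for `j > i`, `j ≠ h` (`Gs i` contains only `a_j` with `j > i`), `i < h < n`, and (`h = n - 1` or `p ∣ A_h`).
`Gs i - Gs' i = A_i (Hs (i+1) - Hs' (i+1))`, and by `Hs_step` `Hs j - Hs' j = a_j A_j (Hs (j+1) - Hs' (j+1))` for `j < h`
(downward induction), and `Hs h - Hs' h = (a_h - a'_h) ∏_{h<l<n} b_l B_{l-1} + (a_h - a'_h) A_h Hs (h+1)` (`Hs (h+1)` does not contain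
`a_h`), where the last term is `0` if `h + 1 = n` (`Hs_top`) and divisible by `p` otherwise. All the factors are prime to `p`.
`G_self`: `Gs h = ∏_{h<l<n} b_l B_{l-1} + A_h Hs (h+1)` is prime to `p`.
-/

set_option autoImplicit false

open Finset

namespace Pool.Agent.Lib.TTC

private theorem S7B2_congr {R : Type*} [CommRing R] {n i : ℕ} {A B a a' b b' : ℕ → R} (ha : ∀ j, i ≤ j → a j = a' j)
    (hb : ∀ j, i ≤ j → b j = b' j) : Hs n A B a b i = Hs n A B a' b' i := by
  rw [Hs, Hs]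
  apply sum_congr rfl
  intro j hj
  rw [mem_Ico] at hj
  have h1 : ∏ l ∈ Ico i j, a l * A l = ∏ l ∈ Ico i j, a' l * A l := by
    apply prod_congr rfl
    intro l hl
    rw [mem_Ico] at hl
    rw [ha l hl.1]
  have h2 : ∏ l ∈ Ico (j + 1) n, b l * B (l - 1) = ∏ l ∈ Ico (j + 1) n, b' l * B (l - 1) := by
    apply prod_congr rfl
    intro l hl
    rw [mem_Ico] at hl
    rw [hb l (by omega)]
  rw [h1, h2, ha j hj.1, hb j hj.1]

theorem G_self {n h : ℕ} (hh : h < n) {A B a b : ℕ → ℤ} {p : ℤ} (hp : Prime p) (hA : p ∣ A h)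
    (h3 : ∀ l, h < l → l < n → ¬ p ∣ b l * B (l - 1)) : ¬ p ∣ Gs n A B a b h := by
  intro hd
  rw [Gs] at hd
  have h1 : p ∣ ∏ l ∈ Ico (h + 1) n, b l * B (l - 1) := (dvd_add_left (hA.mul_right _)).mp hd
  rw [hp.dvd_finset_prod_iff] at h1
  obtain ⟨l, hl, hl'⟩ := h1
  rw [mem_Ico] at hl
  exact h3 l (by omega) hl.2 hl'

theorem G_unique {n h i : ℕ} (hi : i < h) (hh : h < n) {A B a a' b : ℕ → ℤ} {p : ℤ} (hp : Prime p) (ha : ∀ j, i < j → j ≠ h → a j = a' j)
    (hA : h + 1 < n → p ∣ A h) (h1 : ∀ l, i ≤ l → l < h → ¬ p ∣ A l) (h2 : ∀ l, i < l → l < h → ¬ p ∣ a l)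
    (h3 : ∀ l, h < l → l < n → ¬ p ∣ b l * B (l - 1)) (hG : p ∣ Gs n A B a b i - Gs n A B a' b i) : p ∣ a h - a' h := by
  -- the differences
  have hD : ∀ j, i + 1 ≤ j → j ≤ h → p ∣ Hs n A B a b j - Hs n A B a' b j := by
    intro j hj
    induction j, hj using Nat.le_induction with
    | base =>
      intro _
      have e1 : Gs n A B a b i - Gs n A B a' b i = A i * (Hs n A B a b (i + 1) - Hs n A B a' b (i + 1)) := by
        rw [Gs, Gs]
        ring
      have e2 := hG
      rw [e1] at e2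
      exact (hp.dvd_or_dvd e2).resolve_left (h1 i le_rfl hi)
    | succ j hj ih =>
      intro hjh
      have e1 := ih (by omega)
      rw [Hs_step A B a b (show j < n by omega), Hs_step A B a' b (show j < n by omega),
        ← ha j (by omega) (by omega)] at e1
      have e2 : (a j - b j) * (∏ l ∈ Ico (j + 1) n, b l * B (l - 1)) + a j * A j * Hs n A B a b (j + 1) -
          ((a j - b j) * (∏ l ∈ Ico (j + 1) n, b l * B (l - 1)) + a j * A j * Hs n A B a' b (j + 1)) =
          (a j * A j) * (Hs n A B a b (j + 1) - Hs n A B a' b (j + 1)) := by ring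
      rw [e2] at e1
      refine (hp.dvd_or_dvd e1).resolve_left ?_
      intro e3
      rcases hp.dvd_or_dvd e3 with e4 | e4
      · exact h2 j (by omega) (by omega) e4
      · exact h1 j (by omega) (by omega) e4
  have e1 := hD h hi le_rfl
  have e2 : Hs n A B a b (h + 1) = Hs n A B a' b (h + 1) :=
    S7B2_congr (fun j hj => ha j (by omega) (by omega)) (fun _ _ => rfl)
  rw [Hs_step A B a b hh, Hs_step A B a' b hh, ← e2] at e1
  have e3 : (a h - b h) * (∏ l ∈ Ico (h + 1) n, b l * B (l - 1)) + a h * A h * Hs n A B a b (h + 1) -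
      ((a' h - b h) * (∏ l ∈ Ico (h + 1) n, b l * B (l - 1)) + a' h * A h * Hs n A B a b (h + 1)) =
      (a h - a' h) * Gs n A B a b h := by
    rw [Gs]
    ring
  rw [e3] at e1
  refine (hp.dvd_or_dvd e1).resolve_right ?_
  rcases Nat.lt_or_ge (h + 1) n with e4 | e4
  · exact G_self hh hp (hA e4) h3
  · have e5 : h = n - 1 := by omega
    rw [e5, G_top A B a b (by omega)]
    exact hp.not_dvd_one

end Pool.Agent.Lib.TTC
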