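import Pool.Agent.Lib.MP_092512_nt.TT.C.S7A

/-!
# S7B3: a prime dividing `B_h`, `h + 1 < n`

* `S_modB`: `Sm_split` at `i = h + 1`: the product `∏_{h+1≤l<n} b_l B_{l-1}` contains `B_h`.
* `H_unique`: `Hs (h+1) = (a_{h+1} - b_{h+1}) ∏_{h+1<l<n} b_l B_{l-1} + a_{h+1} A_{h+1} Hs (h+2)` (`Hs_step`), the last term does not contain `b_{h+1}`.
  (The forms contain `a_j` only for `j > h`.) So the difference of the two values is `-(b_{h+1} - b'_{h+1}) ∏_{h+1<l<n} b_l B_{l-1}`.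
* `U_modB`: with `Ut h i = ∏_{h<l<i} a_l A_l - B_{i-1} Hs i (h+1)`: `Us i = ∏_{l<i} a_l A_l - B_{i-1} SmR i` and `Sm_split` (for `n = i`, at `h + 1`);
  `B_{i-1} ∏_{h+1≤l<i} b_l B_{l-1}` is divisible by `B_h` (if `i = h + 1` then `B_{i-1} = B_h`).
* `Ut_unique`: as `H_unique` (with `n = i`). `Ut_self`: `Hs (h+1) (h+1) = 0`.
-/

set_option autoImplicit false

open Finset

namespace Pool.Agent.Lib.TTC

/-- the form `Us i` modulo a prime dividing `B_h`, without the factor `∏_{l≤h} a_l A_l` -/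
def Ut {R : Type*} [CommRing R] (A B a b : ℕ → R) (h i : ℕ) : R := (∏ l ∈ Ico (h + 1) i, a l * A l) - B (i - 1) * Hs i A B a b (h + 1)

/-- the form `f = (i, bb, w)` for `Y ≡ 0`, `B_g ≡ 0`, `g < i`: `h Ut - w P` if `bb`, else `h b_i Ut - w a_i P`, `P = ∏_{g<l<i} a_l A_l` -/
def Uz {R : Type*} [CommRing R] (A B a b : ℕ → R) (h : R) (g : ℕ) (f : ℕ × Bool × ℤ) : R :=
  h * ((if f.2.1 then 1 else b f.1) * Ut A B a b g f.1) - (f.2.2 : R) * ((if f.2.1 then 1 else a f.1) * ∏ l ∈ Ico (g + 1) f.1, a l * A l)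

/-- `Uz` of a pair of tuples -/
noncomputable def MS.UzI (S : MS) (T : Dat) (c : S.Col) (μ : S.TX) (ν : S.TY) (g : ℕ) (f : ℕ × Bool × ℤ) : ℤ :=
  Uz (S.AI T.N c μ ν) (S.BI T.N c μ ν) (aI μ.1) (aI ν.1) T.h g f

private theorem S7B3_congr {R : Type*} [CommRing R] {n i : ℕ} {A B a a' b b' : ℕ → R} (ha : ∀ j, i ≤ j → a j = a' j)
    (hb : ∀ j, i ≤ j → b j = b' j) : Hs n A B a b i = Hs n A B a' b' i := by
  rw [Hs, Hs]
  apply sum_congr rfl
  intro j hj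
  rw [mem_Ico] at hj
  have h1 : ∏ l ∈ Ico i j, a l * A l = ∏ l ∈ Ico i j, a' l * A l := by
    apply prod_congr rfl
    intro l hl
    rw [mem_Ico] at hl
    rw [ha l hl.1]
  have h2 : ∏ l ∈ Ico (j + 1) n, b l * B (l - 1) = ∏ l ∈ Ico (j + 1) n, b' l * B (l - 1) := by
    apply prod_congr rfl
    intro l hl
    rw [mem_Ico] at hl
    rw [hb l (by omega)]
  rw [h1, h2, ha j hj.1, hb j hj.1]

theorem S_modB {n h : ℕ} (hh : h + 1 < n) {A B a b : ℕ → ℤ} {p : ℤ} (hB : p ∣ B h) :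
    p ∣ SmR A B a b n - (∏ l ∈ range (h + 1), a l * A l) * Hs n A B a b (h + 1) := by
  rw [Sm_split A B a b hh.le, add_sub_cancel_right]
  apply Dvd.dvd.mul_left
  apply dvd_trans _ (dvd_prod_of_mem (fun l => b l * B (l - 1)) (mem_Ico.mpr ⟨le_rfl, hh⟩))
  simp only [Nat.add_sub_cancel]
  exact hB.mul_left _

private theorem S7B3_step {n h : ℕ} (hh : h + 1 < n) {A B a a' b b' : ℕ → ℤ} (ha : ∀ j, h < j → a j = a' j)
    (hb : ∀ j, j ≠ h + 1 → b j = b' j) : Hs n A B a b (h + 1) - Hs n A B a' b' (h + 1) =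
    -((b (h + 1) - b' (h + 1)) * ∏ l ∈ Ico (h + 1 + 1) n, b l * B (l - 1)) := by
  have e1 : Hs n A B a' b' (h + 1 + 1) = Hs n A B a b (h + 1 + 1) :=
    S7B3_congr (fun j hj => (ha j (by omega)).symm) (fun j hj => (hb j (by omega)).symm)
  have e2 : ∏ l ∈ Ico (h + 1 + 1) n, b' l * B (l - 1) = ∏ l ∈ Ico (h + 1 + 1) n, b l * B (l - 1) := by
    apply prod_congr rfl
    intro l hl
    rw [mem_Ico] at hl
    rw [hb l (by omega)]
  rw [Hs_step A B a b hh, Hs_step A B a' b' hh, e1, e2, ← ha (h + 1) (by omega)]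
  ring

private theorem S7B3_nd {n h : ℕ} {B b : ℕ → ℤ} {p : ℤ} (hp : Prime p)
    (h3 : ∀ l, h + 1 < l → l < n → ¬ p ∣ b l * B (l - 1)) : ¬ p ∣ ∏ l ∈ Ico (h + 1 + 1) n, b l * B (l - 1) := by
  intro h1
  rw [hp.dvd_finset_prod_iff] at h1
  obtain ⟨l, hl, hl'⟩ := h1
  rw [mem_Ico] at hl
  exact h3 l (by omega) hl.2 hl'

theorem H_unique {n h : ℕ} (hh : h + 1 < n) {A B a a' b b' : ℕ → ℤ} {p : ℤ} (hp : Prime p) (ha : ∀ j, h < j → a j = a' j)
    (hb : ∀ j, j ≠ h + 1 → b j = b' j)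
    (h3 : ∀ l, h + 1 < l → l < n → ¬ p ∣ b l * B (l - 1)) (h1 : p ∣ Hs n A B a b (h + 1)) (h1' : p ∣ Hs n A B a' b' (h + 1)) :
    p ∣ b (h + 1) - b' (h + 1) := by
  have e1 := dvd_sub h1 h1'
  rw [S7B3_step hh ha hb, dvd_neg] at e1
  exact (hp.dvd_or_dvd e1).resolve_right (S7B3_nd hp h3)

theorem U_modB {h i : ℕ} (hh : h < i) {A B a b : ℕ → ℤ} {p : ℤ} (hB : p ∣ B h) :
    p ∣ Us A B a b i - (∏ l ∈ range (h + 1), a l * A l) * Ut A B a b h i := by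
  have e1 : Us A B a b i - (∏ l ∈ range (h + 1), a l * A l) * Ut A B a b h i =
      -(SmR A B a b (h + 1) * (B (i - 1) * ∏ l ∈ Ico (h + 1) i, b l * B (l - 1))) := by
    rw [Us, Ut, Sm_split A B a b (show h + 1 ≤ i from hh),
      ← prod_range_mul_prod_Ico (fun l => a l * A l) (show h + 1 ≤ i from hh)]
    ring
  rw [e1, dvd_neg]
  apply Dvd.dvd.mul_left
  rcases Nat.lt_or_ge (h + 1) i with h0 | h0
  · apply Dvd.dvd.mul_left
    apply dvd_trans _ (dvd_prod_of_mem (fun l => b l * B (l - 1)) (mem_Ico.mpr ⟨le_rfl, h0⟩))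
    simp only [Nat.add_sub_cancel]
    exact hB.mul_left _
  · have e2 : i - 1 = h := by omega
    rw [e2]
    exact hB.mul_right _

theorem Ut_unique {h i : ℕ} (hh : h + 1 < i) {A B a a' b b' : ℕ → ℤ} {p : ℤ} (hp : Prime p) (ha : ∀ j, h < j → a j = a' j)
    (hb : ∀ j, j ≠ h + 1 → b j = b' j)
    (hB : ¬ p ∣ B (i - 1)) (h3 : ∀ l, h + 1 < l → l < i → ¬ p ∣ b l * B (l - 1)) (h1 : p ∣ Ut A B a b h i - Ut A B a' b' h i) :
    p ∣ b (h + 1) - b' (h + 1) := by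
  have e1 := h1
  have e2 : ∏ l ∈ Ico (h + 1) i, a' l * A l = ∏ l ∈ Ico (h + 1) i, a l * A l := by
    apply prod_congr rfl
    intro l hl
    rw [mem_Ico] at hl
    rw [ha l (by omega)]
  have e3 : Ut A B a b h i - Ut A B a' b' h i =
      B (i - 1) * ((b (h + 1) - b' (h + 1)) * ∏ l ∈ Ico (h + 1 + 1) i, b l * B (l - 1)) := by
    rw [Ut, Ut, e2]
    linear_combination (-B (i - 1)) * S7B3_step hh ha hb
  rw [e3] at e1
  have e4 := (hp.dvd_or_dvd e1).resolve_left hB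
  exact (hp.dvd_or_dvd e4).resolve_right (S7B3_nd hp h3)

/-- the form modulo `Y` and modulo a prime dividing `B_g` -/
theorem F_Uz {n g : ℕ} {f : ℕ × Bool × ℤ} (hg : g < f.1) {A B a b : ℕ → ℤ} {p : ℤ} (hB : p ∣ B g) {D h Y : ℤ} (hY : p ∣ Y) :
    p ∣ Fz n A B a b D h Y f -
      D * ((∏ l ∈ range (g + 1), a l * A l) * (((if f.2.1 then b f.1 else 1) * Rt n B b f.1) * Uz A B a b h g f)) := by
  obtain ⟨i, bb, w⟩ := f
  obtain ⟨u, hu⟩ := U_modB hg (a := a) (b := b) (A := A) hB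
  obtain ⟨y, hy⟩ := hY
  have e1 : ∏ l ∈ range i, a l * A l = (∏ l ∈ range (g + 1), a l * A l) * ∏ l ∈ Ico (g + 1) i, a l * A l :=
    (prod_range_mul_prod_Ico _ (show g + 1 ≤ i from hg)).symm
  have e2 : Us A B a b i = (∏ l ∈ range (g + 1), a l * A l) * Ut A B a b g i + p * u := by
    linear_combination hu
  rw [Fz, Pw_eq, Uz]
  simp only [Int.cast_id]
  rw [e1, e2, Rs_eq, hy]
  refine ⟨D * (h * (u * (b i * Rt n B b i))) - y * SmR A B a b n, ?_⟩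
  cases bb
  · simp only [Bool.false_eq_true, if_false]
    ring
  · simp only [if_true]
    ring

theorem Ut_self {R : Type*} [CommRing R] (A B a b : ℕ → R) (h : ℕ) : Ut A B a b h (h + 1) = 1 := by
  rw [Ut, Hs_top, Ico_self, prod_empty, mul_zero, sub_zero]

end Pool.Agent.Lib.TTC
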