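import Pool.Agent.Lib.MP_092512_nt.TT.C.S7A

/-!
# S7B4: positivity, sizes, the cast of `Sm`

* `Sm_cast`: induction on `n` (`Nat.cast_sub`).
* `Hs_nonneg`, `G_pos`: all terms are nonnegative.
-/

set_option autoImplicit false

open Finset

namespace Pool.Agent.Lib.TTC

theorem Sm_cast {n : ℕ} {A B a b : ℕ → ℕ} (h : ∀ i < n, b i ≤ a i) :
    ((Sm A B a b n : ℕ) : ℤ) = SmR (fun i => (A i : ℤ)) (fun i => (B i : ℤ)) (fun i => (a i : ℤ)) (fun i => (b i : ℤ)) n := by
  induction n with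
  | zero => simp [Sm, SmR]
  | succ n ih =>
    rw [Sm, SmR, ← ih (fun i hi => h i (by omega)), Nat.cast_add, Nat.cast_mul, Nat.cast_mul, Nat.cast_mul,
      Nat.cast_sub (h n (by omega)), Nat.cast_prod]
    simp only [Nat.cast_mul]

/-- `SmR n` depends only on `A_l`, `B_l` with `l + 1 < n` and on `a_l`, `b_l` with `l < n` -/
theorem SmR_congr {R : Type*} [CommRing R] {n : ℕ} {A B a b A' B' a' b' : ℕ → R} (hA : ∀ l, l + 1 < n → A l = A' l)
    (hB : ∀ l, l + 1 < n → B l = B' l) (ha : ∀ l < n, a l = a' l) (hb : ∀ l < n, b l = b' l) : SmR A B a b n = SmR A' B' a' b' n := by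
  induction n with
  | zero => rfl
  | succ n ih =>
    rw [SmR, SmR, ih (fun l hl => hA l (by omega)) (fun l hl => hB l (by omega)) (fun l hl => ha l (by omega))
      (fun l hl => hb l (by omega)), ha n (by omega), hb n (by omega)]
    have h1 : ∏ l ∈ range n, a l * A l = ∏ l ∈ range n, a' l * A' l := by
      apply prod_congr rfl
      intro l hl
      rw [mem_range] at hl
      rw [ha l (by omega), hA l (by omega)]
    rw [h1]
    rcases Nat.eq_zero_or_pos n with h0 | h0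
    · subst h0
      rw [SmR, zero_mul, zero_mul]
    · rw [hB (n - 1) (by omega)]

theorem Hs_nonneg {n : ℕ} {A B a b : ℕ → ℤ} (hA : ∀ i, 0 < A i) (hB : ∀ i, 0 < B i) (ha : ∀ i, 0 < a i) (hb : ∀ i, 0 < b i)
    (hab : ∀ i < n, b i < a i) (i : ℕ) : 0 ≤ Hs n A B a b i := by
  rw [Hs]
  apply sum_nonneg
  intro j hj
  rw [mem_Ico] at hj
  have h1 : 0 < a j - b j := by
    have := hab j hj.2
    omega
  have h2 : 0 < ∏ l ∈ Ico i j, a l * A l := prod_pos fun l _ => mul_pos (ha l) (hA l)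
  have h3 : 0 < ∏ l ∈ Ico (j + 1) n, b l * B (l - 1) := prod_pos fun l _ => mul_pos (hb l) (hB _)
  positivity

end Pool.Agent.Lib.TTC
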