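import Mathlib

/-!
# S7C1: sums over product sets with one or two restricted coordinates

* `sep_card`: a set of integers in `(a, a + Z]` any two of which differ by at least `Q` has at most `Z/Q + 1` elements (`x ↦ (x - a - 1) / Q` is injective
  on it, with values `≤ (Z-1)/Q`).
* `pi_one`: sum over the coordinates `≠ i` first (`Fintype.piFinset`; e.g. write `x = Function.update y i t`): for fixed other coordinates the set of the
  `t ∈ W i` with `E` is `Q`-separated, so its weight is `≤ (Z/Q + 1) C/Z = C (1/Q + 1/Z)`; the remaining sum is `∏_{l≠i} ∑ g l`, and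
  `1 ≤ V ∑_{W i} g i`.
* `pi_two`: `i ≠ j`. For fixed coordinates `≠ i, j` let `E_j` be the set of `t ∈ W j` such that `E` holds for some value of the coordinate `i`: it is
  `Q'`-separated (hypothesis `sepj` allows different values of the coordinate `i`), so its weight is `≤ C' (1/Q' + 1/Z')`; and for each `t` the weight of
  the values of the coordinate `i` is `≤ C (1/Q + 1/Z)`.
-/

set_option autoImplicit false

open Finset

namespace Pool.Agent.Lib.TTC

theorem sep_card {E : Finset ℕ} {a Z Q : ℕ} (hQ : 0 < Q) (hE : ∀ x ∈ E, a < x ∧ x ≤ a + Z)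
    (sep : ∀ x ∈ E, ∀ y ∈ E, x < y → x + Q ≤ y) : (E.card : ℝ) ≤ (Z : ℝ) / Q + 1 := by
  have h1 : E.card ≤ (Finset.range (Z / Q + 1)).card := by
    apply Finset.card_le_card_of_injOn (fun x => (x - a - 1) / Q)
    · intro x hx
      have hx' := hE x hx
      rw [Finset.mem_coe, Finset.mem_range]
      apply Nat.lt_succ_of_le
      apply Nat.div_le_div_right
      omega
    · have key : ∀ x ∈ E, ∀ y ∈ E, x < y → (x - a - 1) / Q < (y - a - 1) / Q := by
        intro x hx y hy hxy
        have h1 := hE x hx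
        have h3 := sep x hx y hy hxy
        have h4 : (x - a - 1) / Q + 1 = (x - a - 1 + Q) / Q := by
          rw [Nat.add_div_right _ hQ]
        have h5 : (x - a - 1 + Q) / Q ≤ (y - a - 1) / Q := by
          apply Nat.div_le_div_right
          omega
        omega
      intro x hx y hy hxy
      rcases lt_trichotomy x y with h | h | h
      · have := key x hx y hy h
        simp only at hxy
        omega
      · exact h
      · have := key y hy x hx h
        simp only at hxy
        omega
  rw [Finset.card_range] at h1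
  have h2 : ((Z / Q : ℕ) : ℝ) ≤ (Z : ℝ) / Q := Nat.cast_div_le
  have h3 : (E.card : ℝ) ≤ ((Z / Q + 1 : ℕ) : ℝ) := by exact_mod_cast h1
  push_cast at h3
  linarith

open Classical in
private theorem aux_sum {ι : Type*} [Fintype ι] (W : ι → Finset ℕ) (g : ι → ℕ → ℝ) (hg : ∀ i, ∀ p ∈ W i, 0 ≤ g i p)
    (i : ι) {a Z Q : ℕ} (hZ : 0 < Z) (hQ : 0 < Q) {C V : ℝ} (hC : 0 ≤ C) (hV0 : 0 ≤ V) (hW : ∀ p ∈ W i, a < p ∧ p ≤ a + Z ∧ g i p ≤ C / Z)
    (hV : 1 ≤ V * ∑ p ∈ W i, g i p) (E : (ι → ℕ) → Prop)
    (sep : ∀ x ∈ Fintype.piFinset W, ∀ y ∈ Fintype.piFinset W, E x → E y → (∀ l, l ≠ i → x l = y l) → x i < y i → x i + Q ≤ y i)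
    (P : (ι → ℕ) → Prop) (hP : ∀ y s, s ∈ W i → E (Function.update y i s) → P y) :
    ∑ x ∈ Fintype.piFinset W, (if E x then ∏ l, g l (x l) else 0) ≤ C * V * (1 / Q + 1 / Z) *
      ∑ y ∈ Fintype.piFinset W, (if P y then ∏ l, g l (y l) else 0) := by
  have hZ' : (0 : ℝ) < Z := by exact_mod_cast hZ
  have hQ' : (0 : ℝ) < Q := by exact_mod_cast hQ
  have hpos : ∀ x ∈ Fintype.piFinset W, 0 ≤ ∏ l, g l (x l) := fun x hx =>
    Finset.prod_nonneg fun l _ => hg l _ (Fintype.mem_piFinset.mp hx l)
  have hmem : ∀ x ∈ Fintype.piFinset W, ∀ t ∈ W i, Function.update x i t ∈ Fintype.piFinset W := by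
    intro x hx t ht
    rw [Fintype.mem_piFinset]
    intro l
    by_cases hl : l = i
    · subst hl
      rw [Function.update_self]
      exact ht
    · rw [Function.update_of_ne hl]
      exact Fintype.mem_piFinset.mp hx l
  -- the product with the coordinate `i` replaced
  have hprod : ∀ (x : ι → ℕ) (t : ℕ), (∏ l, g l (x l)) * g i t =
      (∏ l, g l (Function.update x i t l)) * g i (x i) := by
    intro x t
    rw [← Finset.mul_prod_erase Finset.univ (fun l => g l (x l)) (Finset.mem_univ i),
      ← Finset.mul_prod_erase Finset.univ (fun l => g l (Function.update x i t l)) (Finset.mem_univ i)]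
    have h1 : ∏ l ∈ Finset.univ.erase i, g l (Function.update x i t l) =
        ∏ l ∈ Finset.univ.erase i, g l (x l) := by
      apply Finset.prod_congr rfl
      intro l hl
      rw [Function.update_of_ne (Finset.ne_of_mem_erase hl)]
    rw [h1, Function.update_self]
    ring
  -- step 1
  have s1 : ∑ x ∈ Fintype.piFinset W, (if E x then ∏ l, g l (x l) else 0) ≤
      V * ∑ x ∈ Fintype.piFinset W, ∑ t ∈ W i, (if E x then (∏ l, g l (x l)) * g i t else 0) := by
    rw [Finset.mul_sum]
    apply Finset.sum_le_sum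
    intro x hx
    by_cases hEx : E x
    · simp only [if_pos hEx]
      rw [← Finset.mul_sum]
      have h1 := mul_le_mul_of_nonneg_left hV (hpos x hx)
      calc ∏ l, g l (x l) = (∏ l, g l (x l)) * 1 := (mul_one _).symm
        _ ≤ (∏ l, g l (x l)) * (V * ∑ p ∈ W i, g i p) := h1
        _ = V * ((∏ l, g l (x l)) * ∑ p ∈ W i, g i p) := by ring
    · simp only [if_neg hEx, Finset.sum_const_zero, mul_zero, le_refl]
  -- step 2: the involution
  have s2 : ∑ x ∈ Fintype.piFinset W, ∑ t ∈ W i, (if E x then (∏ l, g l (x l)) * g i t else 0) =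
      ∑ y ∈ Fintype.piFinset W, ∑ s ∈ W i,
        (if E (Function.update y i s) then (∏ l, g l (y l)) * g i s else 0) := by
    rw [← Finset.sum_product', ← Finset.sum_product']
    apply Finset.sum_nbij' (fun q => (Function.update q.1 i q.2, q.1 i))
      (fun q => (Function.update q.1 i q.2, q.1 i))
    · intro q hq
      rw [Finset.mem_product] at hq
      exact Finset.mem_product.mpr ⟨hmem _ hq.1 _ hq.2, Fintype.mem_piFinset.mp hq.1 i⟩
    · intro q hq
      rw [Finset.mem_product] at hq
      exact Finset.mem_product.mpr ⟨hmem _ hq.1 _ hq.2, Fintype.mem_piFinset.mp hq.1 i⟩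
    · intro q _
      simp only [Function.update_idem, Function.update_eq_self, Function.update_self]
    · intro q _
      simp only [Function.update_idem, Function.update_eq_self, Function.update_self]
    · intro q _
      simp only [Function.update_idem, Function.update_eq_self]
      rw [hprod]
  -- step 3
  have s3 : ∀ y ∈ Fintype.piFinset W, ∑ s ∈ W i,
      (if E (Function.update y i s) then (∏ l, g l (y l)) * g i s else 0) ≤
      C * (1 / Q + 1 / Z) * (if P y then ∏ l, g l (y l) else 0) := by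
    intro y hy
    by_cases hex : P y
    · rw [if_pos hex, ← Finset.sum_filter]
      have h1 : ((Finset.filter (fun s => E (Function.update y i s)) (W i)).card : ℝ) ≤ (Z : ℝ) / Q + 1 := by
        apply sep_card hQ (a := a)
        · intro s hs
          have := hW s (Finset.mem_filter.mp hs).1
          exact ⟨this.1, this.2.1⟩
        · intro s hs t ht hst
          rw [Finset.mem_filter] at hs ht
          have h2 := sep _ (hmem y hy s hs.1) _ (hmem y hy t ht.1) hs.2 ht.2 (by
            intro l hl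
            rw [Function.update_of_ne hl, Function.update_of_ne hl]) (by
            rw [Function.update_self, Function.update_self]
            exact hst)
          rw [Function.update_self, Function.update_self] at h2
          exact h2
      calc ∑ s ∈ Finset.filter (fun s => E (Function.update y i s)) (W i), (∏ l, g l (y l)) * g i s
          ≤ ∑ s ∈ Finset.filter (fun s => E (Function.update y i s)) (W i), (∏ l, g l (y l)) * (C / Z) := by
            apply Finset.sum_le_sum
            intro s hs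
            exact mul_le_mul_of_nonneg_left (hW s (Finset.mem_filter.mp hs).1).2.2 (hpos y hy)
        _ = ((Finset.filter (fun s => E (Function.update y i s)) (W i)).card : ℝ) *
            ((∏ l, g l (y l)) * (C / Z)) := by rw [Finset.sum_const, nsmul_eq_mul]
        _ ≤ ((Z : ℝ) / Q + 1) * ((∏ l, g l (y l)) * (C / Z)) := by
            apply mul_le_mul_of_nonneg_right h1
            exact mul_nonneg (hpos y hy) (div_nonneg hC hZ'.le)
        _ = C * (1 / Q + 1 / Z) * ∏ l, g l (y l) := by
            field_simp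
    · rw [if_neg hex, mul_zero]
      apply le_of_eq
      apply Finset.sum_eq_zero
      intro s hs
      rw [if_neg]
      intro h
      exact hex (hP y s hs h)
  calc _ ≤ V * ∑ x ∈ Fintype.piFinset W, ∑ t ∈ W i, (if E x then (∏ l, g l (x l)) * g i t else 0) := s1
    _ = V * ∑ y ∈ Fintype.piFinset W, ∑ s ∈ W i,
        (if E (Function.update y i s) then (∏ l, g l (y l)) * g i s else 0) := by rw [s2]
    _ ≤ V * ∑ y ∈ Fintype.piFinset W,
        C * (1 / Q + 1 / Z) * (if P y then ∏ l, g l (y l) else 0) :=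
      mul_le_mul_of_nonneg_left (Finset.sum_le_sum s3) hV0
    _ = _ := by
      rw [← Finset.mul_sum]
      ring

open Classical in
theorem pi_one {ι : Type*} [Fintype ι] (W : ι → Finset ℕ) (g : ι → ℕ → ℝ) (hg : ∀ i, ∀ p ∈ W i, 0 ≤ g i p)
    (i : ι) {a Z Q : ℕ} (hZ : 0 < Z) (hQ : 0 < Q) {C V : ℝ} (hC : 0 ≤ C) (hV0 : 0 ≤ V) (hW : ∀ p ∈ W i, a < p ∧ p ≤ a + Z ∧ g i p ≤ C / Z)
    (hV : 1 ≤ V * ∑ p ∈ W i, g i p) (E : (ι → ℕ) → Prop)
    (sep : ∀ x ∈ Fintype.piFinset W, ∀ y ∈ Fintype.piFinset W, E x → E y → (∀ l, l ≠ i → x l = y l) → x i < y i → x i + Q ≤ y i) :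
    ∑ x ∈ Fintype.piFinset W, (if E x then ∏ l, g l (x l) else 0) ≤ C * V * (1 / Q + 1 / Z) * ∏ l, ∑ p ∈ W l, g l p := by
  refine (aux_sum W g hg i hZ hQ hC hV0 hW hV E sep (fun _ => True) (fun _ _ _ _ => trivial)).trans ?_
  apply mul_le_mul_of_nonneg_left
  · rw [Finset.prod_univ_sum]
    apply Finset.sum_le_sum
    intro y hy
    rw [if_pos trivial]
  · positivity

open Classical in
theorem pi_two {ι : Type*} [Fintype ι] (W : ι → Finset ℕ) (g : ι → ℕ → ℝ) (hg : ∀ i, ∀ p ∈ W i, 0 ≤ g i p)
    {i j : ι} (hij : i ≠ j) {a Z Q a' Z' Q' : ℕ} (hZ : 0 < Z) (hQ : 0 < Q) (hZ' : 0 < Z') (hQ' : 0 < Q') {C C' V : ℝ} (hC : 0 ≤ C)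
    (hC' : 0 ≤ C') (hV0 : 0 ≤ V) (hW : ∀ p ∈ W i, a < p ∧ p ≤ a + Z ∧ g i p ≤ C / Z) (hW' : ∀ p ∈ W j, a' < p ∧ p ≤ a' + Z' ∧ g j p ≤ C' / Z')
    (hV : 1 ≤ V * ∑ p ∈ W i, g i p) (hV' : 1 ≤ V * ∑ p ∈ W j, g j p) (E : (ι → ℕ) → Prop)
    (sep : ∀ x ∈ Fintype.piFinset W, ∀ y ∈ Fintype.piFinset W, E x → E y → (∀ l, l ≠ i → x l = y l) → x i < y i → x i + Q ≤ y i)
    (sepj : ∀ x ∈ Fintype.piFinset W, ∀ y ∈ Fintype.piFinset W, E x → E y → (∀ l, l ≠ i → l ≠ j → x l = y l) → x j < y j → x j + Q' ≤ y j) :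
    ∑ x ∈ Fintype.piFinset W, (if E x then ∏ l, g l (x l) else 0) ≤
      C * C' * V ^ 2 * (1 / Q + 1 / Z) * (1 / Q' + 1 / Z') * ∏ l, ∑ p ∈ W l, g l p := by
  refine (aux_sum W g hg i hZ hQ hC hV0 hW hV E sep (fun y => ∃ s ∈ W i, E (Function.update y i s))
    (fun _ s hs h => ⟨s, hs, h⟩)).trans ?_
  have hmem : ∀ x ∈ Fintype.piFinset W, ∀ t ∈ W i, Function.update x i t ∈ Fintype.piFinset W := by
    intro x hx t ht
    rw [Fintype.mem_piFinset]
    intro l
    by_cases hl : l = i
    · subst hl
      rw [Function.update_self]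
      exact ht
    · rw [Function.update_of_ne hl]
      exact Fintype.mem_piFinset.mp hx l
  have h2 := pi_one W g hg j hZ' hQ' hC' hV0 hW' hV' (fun y => ∃ s ∈ W i, E (Function.update y i s)) (by
    rintro x hx y hy ⟨s, hs, hEs⟩ ⟨t, ht, hEt⟩ hxy hlt
    have h3 := sepj _ (hmem x hx s hs) _ (hmem y hy t ht) hEs hEt (by
      intro l hl hl'
      rw [Function.update_of_ne hl, Function.update_of_ne hl]
      exact hxy l hl') (by
      rw [Function.update_of_ne hij.symm, Function.update_of_ne hij.symm]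
      exact hlt)
    rw [Function.update_of_ne hij.symm, Function.update_of_ne hij.symm] at h3
    exact h3)
  have h0 : 0 ≤ C * V * (1 / (Q : ℝ) + 1 / Z) := by positivity
  refine (mul_le_mul_of_nonneg_left h2 h0).trans (le_of_eq ?_)
  ring

end Pool.Agent.Lib.TTC
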