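import Pool.Agent.Lib.MP_092512_nt.TT.C.S7Def
import Pool.Agent.Lib.MP_092512_nt.TT.C.S7C1

/-!
# S7C2: masses of sets of pairs of tuples with one or two restricted windows

Apply `pi_one`, `pi_two` (S7C1) with `ι = (Fin (k+1) ⊕ Fin n0 ⊕ Fin nX) ⊕ (Fin (k+1) ⊕ Fin n0 ⊕ Fin nY)`, the sets `WX, FX, OX, WY, FY, OY` and the weights
`hX`, `hY`. The map `(μ, ν) ↦` (the function on `ι`) is a bijection of `MX × MY` onto `piFinset` (`Fintype.piFinset` of a `Sum.elim`), `prX`, `prY` are the products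
(`Fintype.prod_sum_type`), and `full` is the product of the sums (`Finset.prod_univ_sum`). Window `i` of `X`: `a = 3 Z i`, length `Z i`, `hX p ≤ 2/p ≤ 1/Z i` (`C = 1`); window
`j` of `Y`: `a = Z j`, length `Z j`, `hY p ≤ 2/Z j` (`C = 2`). `Z i > 0` by `zZ`, `yz`, `y1`, `D0`.
-/

set_option autoImplicit false

open Finset

namespace Pool.Agent.Lib.TTC

variable {S : MS} {T : Dat} {Z : ℕ → ℕ} {hX hY : ℕ → ℝ} {V : ℝ}

end Pool.Agent.Lib.TTC
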