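import Pool.Agent.Lib.MP_092512_nt.TT.C.S7B4

/-!
# S7D1: the integer vectors of a pair of tuples

`μ ∈ MX`, `ν ∈ MY`, `cop μ ν`. All marks are primes `> y0`; the marks of `μ` are distinct (`ix`), those of `ν` too (`iy`), and no prime occurs in both.
For `i < k`, `AA i` is the product of the non-window marks of `X` of colour `i` (PDefs: `fX id * oX id`), `BB i` the same for `Y`; they do not depend on the
windows (`kX`, `kY` use only `μ.2`, `ν.2`).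
* `SI_eq`: `Sm_cast` (`β_i ≤ 2 Z i < 3 Z i < α_i`) and `SmR_congr` (only `A_l`, `B_l` with `l < k` occur).
-/

set_option autoImplicit false

open Finset

namespace Pool.Agent.Lib.TTC

variable {S : MS} {T : Dat} {Z : ℕ → ℕ} {hX hY : ℕ → ℝ} {V : ℝ}

theorem AI_inv (c : S.Col) {μ μ' : S.TX} {ν ν' : S.TY} (h : μ.2 = μ'.2) (h' : ν.2 = ν'.2) : S.AI T.N c μ ν = S.AI T.N c μ' ν' := by
  obtain ⟨μ1, μ2⟩ := μ
  obtain ⟨μ1', μ2'⟩ := μ'
  obtain ⟨ν1, ν2⟩ := ν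
  obtain ⟨ν1', ν2'⟩ := ν'
  obtain rfl : μ2 = μ2' := h
  obtain rfl : ν2 = ν2' := h'
  funext i
  rw [MS.AI, MS.AI]
  by_cases hi : i < S.k
  · rw [if_pos hi, if_pos hi, MS.AA, MS.AA, if_pos hi, if_pos hi]
    rfl
  · rw [if_neg hi, if_neg hi]

theorem BI_inv (c : S.Col) {μ μ' : S.TX} {ν ν' : S.TY} (h : μ.2 = μ'.2) (h' : ν.2 = ν'.2) : S.BI T.N c μ ν = S.BI T.N c μ' ν' := by
  obtain ⟨μ1, μ2⟩ := μ
  obtain ⟨μ1', μ2'⟩ := μ'
  obtain ⟨ν1, ν2⟩ := ν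
  obtain ⟨ν1', ν2'⟩ := ν'
  obtain rfl : μ2 = μ2' := h
  obtain rfl : ν2 = ν2' := h'
  funext i
  rw [MS.BI, MS.BI]
  by_cases hi : i < S.k
  · rw [if_pos hi, if_pos hi, MS.BB, MS.BB, if_pos hi, if_pos hi]
    rfl
  · rw [if_neg hi, if_neg hi]

end Pool.Agent.Lib.TTC
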