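import Pool.Agent.Lib.MP_092512_nt.TT.C.S7D1

/-!
# S7D2: the marks of a pair of coprime tuples

`μ ∈ MX`, `ν ∈ MY`, `cop μ ν`. All marks are primes `> y0`; the marks of `μ` are distinct (`ix`), those of `ν` too (`iy`), and no prime occurs in both
(`cop`). For `i < k`, `AI i` is the product of the non-window marks of `X` of colour `i` (PDefs: `fX id * oX id`), `BI i` the same for `Y`. A prime dividing
`AI i`, `BI i`, `aI μ.1 i`, `aI ν.1 i` is therefore one of these marks (primes); for `i` out of range the values are `1`.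
`Z i ≥ z D ≥ y0` so the windows are `> y0`.
-/

set_option autoImplicit false

open Finset

namespace Pool.Agent.Lib.TTC

variable {S : MS} {T : Dat} {Z : ℕ → ℕ} {hX hY : ℕ → ℝ} {V : ℝ}

/-- `p` is prime to all the vectors -/
def MS.Fr (S : MS) (N : ℕ) (c : S.Col) (μ : S.TX) (ν : S.TY) (p : ℤ) : Prop :=
  (∀ l, ¬ p ∣ S.AI N c μ ν l) ∧ (∀ l, ¬ p ∣ S.BI N c μ ν l) ∧ (∀ l, ¬ p ∣ aI μ.1 l) ∧ ∀ l, ¬ p ∣ aI ν.1 l

/-- a number prime to all `β_l`, `B_l` is prime to `Rs 0` -/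
theorem cop_RI (c : S.Col) {μ : S.TX} {ν : S.TY} {q : ℤ} (h : ∀ p : ℤ, Prime p → p ∣ q →
    (∀ l, ¬ p ∣ S.BI T.N c μ ν l) ∧ ∀ l, ¬ p ∣ aI ν.1 l) (hq : q ≠ 0) : IsCoprime q (S.RI T.N c μ ν 0) := by
  refine isCoprime_of_prime_dvd (fun h' => hq h'.1) fun p hp hpq hpR => ?_
  obtain ⟨h1, h2⟩ := h p hp hpq
  rw [MS.RI, Rs, hp.dvd_mul, hp.dvd_finsetProd_iff] at hpR
  rcases hpR with hpR | ⟨l, -, hl⟩
  · exact h2 0 hpR
  · rcases hp.dvd_mul.1 hl with hl | hl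
    · exact h2 l hl
    · exact h1 (l - 1) hl

end Pool.Agent.Lib.TTC
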