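import Pool.Agent.Lib.MP_092512_nt.TT.C.PDefs

/-!
# S7Def: definitions for section 7 (forbidden primes), TT

Integer forms of the linear forms of a cycle: with `a = α`, `b = β`, `n = k + 1` slots,
`SmR n = ∑_{j<n} (a_j - b_j) ∏_{l<j} a_l A_l ∏_{j<l<n} b_l B_{l-1}` (the number `S`), `Hs n i` the part from slot `i` on,
`Rt n i = ∏_{i<l<n} b_l B_{l-1}`, `Rs n i = b_i Rt n i`, `Gs n i = Rt n i + A_i Hs n (i+1)`, `Us i = ∏_{l<i} a_l A_l - B_{i-1} SmR i`,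
`Pw n bb i = ∏_{l<i} a_l A_l * (Rs n i if bb, else a_i Rt n i)`,
`Fz n D h Y (i, bb, w) = D (h Us_i Rs_i - w Pw n bb i) - Y S`. For a cycle (`Y = X - D h`) `Fz (i, bb, w) = - D Pw (t_i γ + w)`, `γ = a_i` if `bb`, else `γ = b_i`.
-/

set_option autoImplicit false

open Finset

namespace Pool.Agent.Lib.TTC

section forms

variable {R : Type*} [CommRing R]

/-- `∑_{j<n} (a_j - b_j) ∏_{l<j} a_l A_l ∏_{j<l<n} b_l B_{l-1}` -/
def SmR (A B a b : ℕ → R) : ℕ → R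
  | 0 => 0
  | (n + 1) => SmR A B a b n * (b n * B (n - 1)) + (a n - b n) * ∏ l ∈ range n, a l * A l

/-- the part of the sum from slot `i` on -/
def Hs (n : ℕ) (A B a b : ℕ → R) (i : ℕ) : R :=
  ∑ j ∈ Ico i n, (a j - b j) * (∏ l ∈ Ico i j, a l * A l) * ∏ l ∈ Ico (j + 1) n, b l * B (l - 1)

/-- `∏_{i<l<n} b_l B_{l-1}` -/
def Rt (n : ℕ) (B b : ℕ → R) (i : ℕ) : R := ∏ l ∈ Ico (i + 1) n, b l * B (l - 1)

/-- `b_i ∏_{i<l<n} b_l B_{l-1}` -/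
def Rs (n : ℕ) (B b : ℕ → R) (i : ℕ) : R := b i * ∏ l ∈ Ico (i + 1) n, b l * B (l - 1)

/-- `∏_{i<l<n} b_l B_{l-1} + A_i Hs (i+1)` -/
def Gs (n : ℕ) (A B a b : ℕ → R) (i : ℕ) : R := (∏ l ∈ Ico (i + 1) n, b l * B (l - 1)) + A i * Hs n A B a b (i + 1)

/-- `∏_{l<i} a_l A_l - B_{i-1} SmR i` -/
def Us (A B a b : ℕ → R) (i : ℕ) : R := (∏ l ∈ range i, a l * A l) - B (i - 1) * SmR A B a b i

/-- the cofactor of the form `(i, bb, w)` -/
def Pw (n : ℕ) (A B a b : ℕ → R) (bb : Bool) (i : ℕ) : R :=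
  (∏ l ∈ range i, a l * A l) * (if bb then Rs n B b i else a i * Rt n B b i)

/-- the numerator of the form `f = (i, bb, w)` -/
def Fz (n : ℕ) (A B a b : ℕ → R) (D h Y : R) (f : ℕ × Bool × ℤ) : R :=
  D * (h * (Us A B a b f.1 * Rs n B b f.1) - (f.2.2 : R) * Pw n A B a b f.2.1 f.1) - Y * SmR A B a b n

/-- the form `f = (i, bb, w)` for `X ≡ 0` or `S ≡ 0`: `h a_i G_i - w b_i Rt_i` if `bb`, else `h G_i - w Rt_i` -/
def Gz (n : ℕ) (A B a b : ℕ → R) (h : R) (f : ℕ × Bool × ℤ) : R :=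
  h * ((if f.2.1 then a f.1 else 1) * Gs n A B a b f.1) - (f.2.2 : R) * ((if f.2.1 then b f.1 else 1) * Rt n B b f.1)

end forms

/-! ### the integer vectors of a pair of tuples -/

/-- `α` as integers -/
def aI {n : ℕ} (α : Fin n → ℕ) (i : ℕ) : ℤ := (ext1 α i : ℕ)

/-- short cofactors of `X` as integers (`1` from the ground slot on) -/
noncomputable def MS.AI (S : MS) (N : ℕ) (c : S.Col) (μ : S.TX) (ν : S.TY) (i : ℕ) : ℤ :=
  if i < S.k then ((S.AA N c μ ν 0 i : ℕ) : ℤ) else 1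

/-- short cofactors of `Y` as integers -/
noncomputable def MS.BI (S : MS) (N : ℕ) (c : S.Col) (μ : S.TX) (ν : S.TY) (i : ℕ) : ℤ :=
  if i < S.k then ((S.BB N c μ ν 0 i : ℕ) : ℤ) else 1

/-- the numerator of the form `f`, `Y` is an integer (or a class) -/
noncomputable def MS.FI (S : MS) (T : Dat) (c : S.Col) (μ : S.TX) (ν : S.TY) (Y : ℤ) (f : ℕ × Bool × ℤ) : ℤ :=
  Fz (S.k + 1) (S.AI T.N c μ ν) (S.BI T.N c μ ν) (aI μ.1) (aI ν.1) (T.D : ℤ) T.h Y f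

/-- the cofactor of the form `(i, bb, w)` -/
noncomputable def MS.PI (S : MS) (N : ℕ) (c : S.Col) (μ : S.TX) (ν : S.TY) (bb : Bool) (i : ℕ) : ℤ :=
  Pw (S.k + 1) (S.AI N c μ ν) (S.BI N c μ ν) (aI μ.1) (aI ν.1) bb i

noncomputable def MS.GI (S : MS) (N : ℕ) (c : S.Col) (μ : S.TX) (ν : S.TY) (i : ℕ) : ℤ :=
  Gs (S.k + 1) (S.AI N c μ ν) (S.BI N c μ ν) (aI μ.1) (aI ν.1) i

/-- the reduced form for `X ≡ 0` or `S ≡ 0` -/
noncomputable def MS.GzI (S : MS) (T : Dat) (c : S.Col) (μ : S.TX) (ν : S.TY) (f : ℕ × Bool × ℤ) : ℤ :=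
  Gz (S.k + 1) (S.AI T.N c μ ν) (S.BI T.N c μ ν) (aI μ.1) (aI ν.1) T.h f

noncomputable def MS.HI (S : MS) (N : ℕ) (c : S.Col) (μ : S.TX) (ν : S.TY) (i : ℕ) : ℤ :=
  Hs (S.k + 1) (S.AI N c μ ν) (S.BI N c μ ν) (aI μ.1) (aI ν.1) i

noncomputable def MS.UI (S : MS) (N : ℕ) (c : S.Col) (μ : S.TX) (ν : S.TY) (i : ℕ) : ℤ :=
  Us (S.AI N c μ ν) (S.BI N c μ ν) (aI μ.1) (aI ν.1) i

noncomputable def MS.RI (S : MS) (N : ℕ) (c : S.Col) (μ : S.TX) (ν : S.TY) (i : ℕ) : ℤ :=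
  Rs (S.k + 1) (S.BI N c μ ν) (aI ν.1) i

/-! ### indices of the marks -/

/-- indices of the marks of `X` which are not windows -/
abbrev MS.NX (S : MS) := Fin S.n0 ⊕ Fin S.nX

/-- indices of the marks of `Y` which are not windows -/
abbrev MS.NY (S : MS) := Fin S.n0 ⊕ Fin S.nY

/-- the mark -/
def MS.vX (S : MS) (μ : S.TX) : S.NX → ℕ := Sum.elim μ.2.1 μ.2.2

/-- the mark -/
def MS.vY (S : MS) (ν : S.TY) : S.NY → ℕ := Sum.elim ν.2.1 ν.2.2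

/-- its colour -/
noncomputable def MS.lX (S : MS) (N : ℕ) (c : S.Col) (μ : S.TX) (ν : S.TY) : S.NX → ℕ :=
  Sum.elim (fun f => (c (Sum.inl f) : ℕ)) (fun e => (S.kX N c μ ν e : ℕ))

/-- its colour -/
noncomputable def MS.lY (S : MS) (N : ℕ) (c : S.Col) (μ : S.TX) (ν : S.TY) : S.NY → ℕ :=
  Sum.elim (fun f => (c (Sum.inr f) : ℕ)) (fun e => (S.kY N c μ ν e : ℕ))

/-- coprime tuples -/
def MS.cop (S : MS) (μ : S.TX) (ν : S.TY) : Prop := (S.prX id μ).Coprime (S.prY id ν)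

/-- the mass of a set of pairs of tuples -/
noncomputable def MS.mass (S : MS) (hX hY : ℕ → ℝ) (E : S.TX → S.TY → Prop) : ℝ := by
  classical
  exact ∑ μ ∈ S.MX, ∑ ν ∈ S.MY, if E μ ν then S.prX hX μ * S.prY hY ν else 0

/-- the total mass -/
noncomputable def MS.full (S : MS) (hX hY : ℕ → ℝ) : ℝ := (∑ μ ∈ S.MX, S.prX hX μ) * ∑ ν ∈ S.MY, S.prY hY ν

/-- two tuples of `X` which agree except possibly in the window `i` -/
def MS.agX (S : MS) (i : Fin (S.k + 1)) (μ μ' : S.TX) : Prop := μ.2 = μ'.2 ∧ ∀ j, j ≠ i → μ.1 j = μ'.1 j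

/-- two tuples of `Y` which agree except possibly in the window `i` -/
def MS.agY (S : MS) (i : Fin (S.k + 1)) (ν ν' : S.TY) : Prop := ν.2 = ν'.2 ∧ ∀ j, j ≠ i → ν.1 j = ν'.1 j

/-- functions of the non-window marks -/
def MS.Inv (S : MS) (P : S.TX → S.TY → ℕ) : Prop := ∀ μ μ' ν ν', μ.2 = μ'.2 → ν.2 = ν'.2 → P μ ν = P μ' ν'

end Pool.Agent.Lib.TTC
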