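import Pool.Agent.Lib.MP_092512_nt.TT.C.S7B1
import Pool.Agent.Lib.MP_092512_nt.TT.C.S7C2
import Pool.Agent.Lib.MP_092512_nt.TT.C.S7D1

/-!
# S7F1: `q ∣ S` for a modulus `q` which does not depend on the windows; the form `Ff` with `p ∤ X`

* `sepS`: two tuples `μ`, `μ'` which agree except in the window `0`, the same `ν`: `AI`, `BI` agree (`AI_inv`, `BI_inv`), `q ∣ SmR` for both (`SI_eq`), `th_unique`: `q ∣ α_0 - α'_0`,
  so `α_0 < α'_0` gives `α_0 + q ≤ α'_0`.
* `S7F1`: `mass_one` with `i = 0`.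
* `S7F1X`: moreover `X_unique` with `n = k + 1`, `DN = D N`, `Y = Y0`: `p ∣ α_0 - α'_0`; `p` and `q` coprime: `α_0`, `α'_0` differ by at least `p q`.
-/

set_option autoImplicit false

open Finset

namespace Pool.Agent.Lib.TTC

variable {S : MS} {T : Dat} {Z : ℕ → ℕ} {hX hY : ℕ → ℝ} {V : ℝ}

/-- two vectors which agree at the index `j` -/
theorem S7F1_congr {n : ℕ} {α α' : Fin n → ℕ} {j : ℕ} (h : ∀ l : Fin n, (l : ℕ) = j → α l = α' l) : aI α j = aI α' j := by
  rw [aI, aI, ext1, ext1]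
  split_ifs with hj
  · rw [h ⟨j, hj⟩ rfl]
  · rfl

/-- the value at an index in range -/
theorem S7F1_val {n : ℕ} (α : Fin n → ℕ) (j : Fin n) : aI α j = (α j : ℕ) := by
  rw [aI, ext1, dif_pos j.2]

/-- a divisor of a positive difference -/
theorem S7F1_gap {m x y : ℕ} (h : ((m : ℕ) : ℤ) ∣ (x : ℤ) - y) (hxy : x < y) : x + m ≤ y := by
  have h1 : (m : ℤ) ∣ (y : ℤ) - x := by
    rw [← dvd_neg, neg_sub]
    exact h
  have h2 := Int.le_of_dvd (by omega) h1
  omega

end Pool.Agent.Lib.TTC
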