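import Pool.Agent.Lib.MP_092512_nt.TT.C.S7F1
import Pool.Agent.Lib.MP_092512_nt.TT.C.S7B3

/-!
# S7F3: `q ∣ S` and a prime `P ∣ B_h`, `h < k`: windows `0` of `X` and `h + 1` of `Y`

`mass_twoY` with `i := 0`, `j := h + 1`. Separation in the window `0`: `sepS`. Separation in the window `h + 1` of `Y`: for `μ`, `μ'` which agree except in the window `0` and `ν`, `ν'` which
agree except in the window `h + 1`:
* `S7F3`: `P ∣ Hs (h+1)` for both, `H_unique`.
* `S7F4`: `P ∣ Ut h i` for both, `Ut_unique` (`h + 1 < i ≤ k`).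
-/

set_option autoImplicit false

open Finset

namespace Pool.Agent.Lib.TTC

variable {S : MS} {T : Dat} {Z : ℕ → ℕ} {hX hY : ℕ → ℝ} {V : ℝ}

end Pool.Agent.Lib.TTC
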