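import Pool.Agent.Lib.MP_092512_nt.TT.C.S7F1
import Pool.Agent.Lib.MP_092512_nt.TT.C.S7B2
import Pool.Agent.Lib.MP_092512_nt.TT.C.S7D2

/-!
# S7F5: a window prime divides `S`

* `S7F5X`: `p = α_j ∣ S`. `j = 0`: `S = α_0 G - R` (`Sm_Hs`, `Hs_G`), so `α_0 ∣ RI 0`: impossible (`fr_WX`, `RI 0 = β_0 ∏ β_l B_{l-1}`). `j ≥ 1`: for two tuples which agree except in the window
  `0`: `p ∣ α_0 - α'_0` (`th_unique`, `q = α_j`; `IsCoprime` by `cop_RI`, `fr_WX`), and `p > 3 Z_j ≥ 12 Z_0 > α_0, α'_0`: so `α_0 = α'_0`. `mass_one` with `i = 0`, `Q = Z 0` (the separation is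
  vacuous): `≤ 2 V/Z 0`.
* `S7F5Y`: `p = β_j ∣ S`, `U_G` with `i = j`: `β_j ∣ Rs j`, so `p ∣ (∏_{l<j} a_l A_l) a_j Gs j`, `p ∣ Gs j` (`fr_WY`). `j = k`: `Gs k = 1` (`G_top`): impossible. `j < k`: `G_unique` with `h = k`: for two tuples which
  agree except in the window `k` of `X`: `p ∣ α_k - α'_k`: separation `p > Z_j ≥ Z_0`. `mass_one` with `i = k`, `Q = Z 0`: `≤ V (1/Z 0 + 1/Z k) ≤ 2 V/Z 0`.
-/

set_option autoImplicit false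

open Finset

namespace Pool.Agent.Lib.TTC

variable {S : MS} {T : Dat} {Z : ℕ → ℕ} {hX hY : ℕ → ℝ} {V : ℝ}

/-- a prime which divides no `β_l`, `B_l` -/
theorem S7F5_cop (c : S.Col) {μ : S.TX} {ν : S.TY} {P : ℕ} (hP : P.Prime) (h1 : ∀ l, ¬ ((P : ℕ) : ℤ) ∣ S.BI T.N c μ ν l)
    (h2 : ∀ l, ¬ ((P : ℕ) : ℤ) ∣ aI ν.1 l) : IsCoprime (P : ℤ) (S.RI T.N c μ ν 0) := by
  have hP' : Prime (P : ℤ) := Nat.prime_iff_prime_int.mp hP
  apply cop_RI c _ hP'.ne_zero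
  intro p hp hpP
  have h3 := (hp.associated_of_dvd hP' hpP).symm.dvd
  exact ⟨fun l hl => h1 l (h3.trans hl), fun l hl => h2 l (h3.trans hl)⟩

end Pool.Agent.Lib.TTC
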