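import Pool.Agent.Lib.MP_092512_nt.TT.C.S7N
import Pool.Agent.Lib.MP_092512_nt.TT.C.S7D2
import Pool.Agent.Lib.MP_092512_nt.TT.C.S7D1
import Pool.Agent.Lib.MP_092512_nt.TT.C.S7B3

/-!
# S7G0: the standard bound, basic facts about `Bs`

`ub = 8 V²/(y0 D) tot + |MX| |MY| err`. Since `Z i ≥ z D ≥ y0 D`: `1/Z i ≤ 1/(y0 D) ≤ 1/y0, 1/D`. So
* `V (1/(y0 D) + 1/Z i) ≤ 8 V²/(y0 D)` (`inv1`), `V (1/D + 1/Z i) ≤ 2 V/D` (`inv2`), `2 V² (1/D + 1/Z i) (1/y0 + 1/Z j) ≤ 8 V²/(y0 D)` (`inv3`).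
* `Bs_facts`: `Bs` gives `cop`, `D ∣ SI` (`cD`), the divisibilities `μ ∣ X`, `ν ∣ Y = X - D h` (`ok`), and by `tI_facts`: for every form `f`: `fI f` divides `FI (X - D h) f`.
* `FI_Gz`, `FI_Uz`: the reduced forms modulo a prime which divides `X` or `S`, or `Y`.
-/

set_option autoImplicit false

open Finset

namespace Pool.Agent.Lib.TTC

/-- the standard bound -/
noncomputable def Msr.ub {S : MS} (M : Msr S) (T : Dat) (V δ1 : ℝ) : ℝ :=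
  8 * V ^ 2 / (T.y0 * T.D) * M.tot + S.MX.card * S.MY.card * M.err T δ1

variable {S : MS} {T : Dat} {M : Msr S} {W0 : ℕ} {δ0 δ1 : ℝ} {Z : ℕ → ℕ} {V : ℝ} {Cd : S.TX → S.TY → ℕ → Prop}

/-- the form modulo a prime which divides `X = Y + D h` or `S` -/
theorem FI_Gz (c : S.Col) (μ : S.TX) (ν : S.TY) {p Y : ℤ} {f : ℕ × Bool × ℤ} (hi : f.1 < S.k + 1) (hp : Prime p)
    (hX : p ∣ (Y + T.D * T.h) * SmR (S.AI T.N c μ ν) (S.BI T.N c μ ν) (aI μ.1) (aI ν.1) (S.k + 1)) (hD : ¬ p ∣ (T.D : ℤ))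
    (hA : ∀ l < f.1, ¬ p ∣ S.AI T.N c μ ν l) (ha : ∀ l ≤ f.1, ¬ p ∣ aI μ.1 l) (hF : p ∣ S.FI T c μ ν Y f) : p ∣ S.GzI T c μ ν f := by
  unfold MS.FI at hF
  rw [F_Gz _ _ _ _ hi] at hF
  have h1 := dvd_add hF hX
  rw [sub_add_cancel] at h1
  have h2 := (hp.dvd_or_dvd h1).resolve_left hD
  have h3 : ¬ p ∣ ∏ l ∈ range f.1, aI μ.1 l * S.AI T.N c μ ν l := by
    rw [hp.dvd_finsetProd_iff]
    rintro ⟨l, hl, h4⟩
    rw [mem_range] at hl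
    rcases hp.dvd_or_dvd h4 with h5 | h5
    · exact ha l hl.le h5
    · exact hA l hl h5
  have h4 := (hp.dvd_or_dvd h2).resolve_left h3
  refine (hp.dvd_or_dvd h4).resolve_left ?_
  split_ifs
  · exact hp.not_dvd_one
  · exact ha _ le_rfl

/-- the form modulo a prime which divides `Y` and `B_g` -/
theorem FI_Uz (c : S.Col) (μ : S.TX) (ν : S.TY) {p Y : ℤ} {f : ℕ × Bool × ℤ} {g : ℕ} (hg : g < f.1) (hp : Prime p) (hY : p ∣ Y) (hD : ¬ p ∣ (T.D : ℤ))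
    (hB : p ∣ S.BI T.N c μ ν g) (hB' : ∀ l, l ≠ g → ¬ p ∣ S.BI T.N c μ ν l) (hA : ∀ l, ¬ p ∣ S.AI T.N c μ ν l) (ha : ∀ l, ¬ p ∣ aI μ.1 l)
    (hb : ∀ l, ¬ p ∣ aI ν.1 l) (hF : p ∣ S.FI T c μ ν Y f) : p ∣ S.UzI T c μ ν g f := by
  unfold MS.FI at hF
  have h1 := dvd_sub hF (F_Uz (n := S.k + 1) (f := f) hg (A := S.AI T.N c μ ν) (a := aI μ.1) (b := aI ν.1) hB hY (D := (T.D : ℤ)) (h := T.h))
  rw [sub_sub_cancel] at h1
  have h2 := (hp.dvd_or_dvd h1).resolve_left hD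
  have h3 : ¬ p ∣ ∏ l ∈ range (g + 1), aI μ.1 l * S.AI T.N c μ ν l := by
    rw [hp.dvd_finsetProd_iff]
    rintro ⟨l, -, h4⟩
    rcases hp.dvd_or_dvd h4 with h5 | h5
    · exact ha l h5
    · exact hA l h5
  have h4 := (hp.dvd_or_dvd h2).resolve_left h3
  refine (hp.dvd_or_dvd h4).resolve_left ?_
  intro h5
  rcases hp.dvd_or_dvd h5 with h6 | h6
  · split_ifs at h6
    · exact hb _ h6
    · exact hp.not_dvd_one h6
  · rw [Rt, hp.dvd_finsetProd_iff] at h6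
    obtain ⟨l, hl, h7⟩ := h6
    rw [mem_Ico] at hl
    rcases hp.dvd_or_dvd h7 with h8 | h8
    · exact hb l h8
    · exact hB' (l - 1) (by omega) h8

theorem FI_congr (c : S.Col) (μ : S.TX) (ν : S.TY) {p Y Y' : ℤ} {f : ℕ × Bool × ℤ} (h : p ∣ Y - Y') :
    p ∣ S.FI T c μ ν Y f ↔ p ∣ S.FI T c μ ν Y' f := by
  have h1 : S.FI T c μ ν Y f = S.FI T c μ ν Y' f - (Y - Y') * SmR (S.AI T.N c μ ν) (S.BI T.N c μ ν) (aI μ.1) (aI ν.1) (S.k + 1) := by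
    unfold MS.FI Fz
    ring
  rw [h1]
  exact dvd_sub_left (Dvd.dvd.mul_right h _)

end Pool.Agent.Lib.TTC
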