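import Pool.Agent.Lib.MP_092512_nt.TT.C.S7G0
import Pool.Agent.Lib.MP_092512_nt.TT.C.S7F5
import Pool.Agent.Lib.MP_092512_nt.TT.C.S7F3
import Pool.Agent.Lib.MP_092512_nt.TT.C.U15

/-!
# S7G4: imports (see P/S7G4)
-/
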