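import Pool.Agent.Lib.MP_092512_nt.TT.C.S7G0
import Pool.Agent.Lib.MP_092512_nt.TT.C.S7B4
import Pool.Agent.Lib.MP_092512_nt.TT.C.U15
import Pool.Agent.Lib.MP_092512_nt.TT.C.S7F1

/-!
# S7G6: imports (type 2 does not occur in TT)
-/
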