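import Pool.Agent.Lib.MP_092512_nt.TT.C.S7G6
import Pool.Agent.Lib.MP_092512_nt.TT.C.S7F1

/-!
# S7G7: weighted sums over the triples (type 2 does not occur in TT)
-/

set_option autoImplicit false

open Finset

namespace Pool.Agent.Lib.TTC

/-- weighted sum of a function over the triples with `E` -/
noncomputable def Msr.cntf {S : MS} (M : Msr S) (E : S.TX → S.TY → ℕ → Prop) (f : S.TX → S.TY → ℕ → ℝ) : ℝ := by
  classical
  exact ∑ μ ∈ S.MX, ∑ ν ∈ S.MY, ∑ n ∈ range (M.nm + 1), if E μ ν n then M.Om μ ν n * f μ ν n else 0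

end Pool.Agent.Lib.TTC
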