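import Pool.Agent.Lib.MP_092512_nt.TT.C.S7G6

/-!
# S7G8: imports
-/
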