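import Pool.Agent.Lib.MP_092512_nt.TT.C.S7Def

/-!
# S7N: hypotheses of section 7; sums over `n` for a fixed pair of tuples

* `n_all`: `M.OK.eq` with `q = 1`, `r = 0` (`gq 1 = 1`; `n ≡ 0 [MOD 1]` always).
* `n_cls2`: if some `n₀` satisfies `E` with `Om ≠ 0` then all of them are in its class modulo `p` (if `p ∣ tau`) resp. `p ^ 2`: `eq2`.
* `n_cls1`: the same with the class modulo `p`, `p` no mark: `eq` with `q = p`: `gq p = g p ≤ 1/p + 2/p² ≤ 4/p`, unless `t2` and `p ∣ n₀`: then `eq0` with `q = 1`.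
  (`1 ≤ p ≤ z ≤ N^δ0`; `p` is prime to `W0 N`: only needed if `M.OK.eq` asks for it.)
-/

set_option autoImplicit false

open Finset

namespace Pool.Agent.Lib.TTC

/-- the basic condition -/
def Msr.Bs {S : MS} (M : Msr S) (T : Dat) (Cd : S.TX → S.TY → ℕ → Prop) (c : S.Col) (μ : S.TX) (ν : S.TY) (n : ℕ) : Prop :=
  M.adm μ ν ∧ M.Om μ ν n ≠ 0 ∧ Cd μ ν n ∧ S.LL T c μ ν (M.X μ ν n)

/-- weighted number of the triples with `E` -/
noncomputable def Msr.cnt {S : MS} (M : Msr S) (E : S.TX → S.TY → ℕ → Prop) : ℝ := by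
  classical
  exact ∑ μ ∈ S.MX, ∑ ν ∈ S.MY, ∑ n ∈ range (M.nm + 1), if E μ ν n then M.Om μ ν n else 0

/-- the error term -/
noncomputable def Msr.err {S : MS} (M : Msr S) (T : Dat) (δ1 : ℝ) : ℝ := (T.N : ℝ) ^ (-δ1) * M.W

variable {S : MS} {T : Dat} {M : Msr S} {W0 : ℕ} {δ0 δ1 : ℝ} {Z : ℕ → ℕ} {V : ℝ} {Cd : S.TX → S.TY → ℕ → Prop}

end Pool.Agent.Lib.TTC
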