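import Pool.Agent.Lib.MP_092512_nt.TT.C.Loc
import Pool.Agent.Lib.MP_092512_nt.TT.C.T12

/-!
# U06: the primes dividing `D` (3.3)(i)

`R = ZMod (p^(a+1))`, `π : R → ZMod p` the reduction. Two indices `1 ≤ j₁ < j₂ ≤ k` have unit `et`.
* `U06_mod`: `Sg` reduces: `π (Sg (k+1) al be (pp k P)) = et₀ + ∑_{j<k} π(P j) π(et (j+1))` is zero for at least `(p-1)^(k-2) (p-2)` and at most
  `(p-1)^(k-1)` of the tuples of units modulo `p` (`T12_low`, `T12_p`).
* `U06_lift`: every tuple `Q` of units modulo `p` with `Sg = 0` (mod `p`) has exactly `p^(a k)/p^(a-1)` lifts `P` to units modulo `p^(a+1)` with `p^a ∣ Sg`: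
  `p^a ∣ Sg` says that the image in `ZMod (p^a)` vanishes. Fix the lifts `P j`, `j ≠ j₁ - 1` (`p^a` lifts each); the lifts of `Q (j₁-1)` are
  `P₀ + p s`, `s` modulo `p^a`; `Sg = S₀ + p s et(j₁)` with `p ∣ S₀`, and `p^a ∣ S₀ + p s et(j₁)` iff `s = s₀` modulo `p^(a-1)`: `p` values of `s`.
  So `p · p^(a(k-1))` lifts, times `p^(a-1)` is `p^(ak)`.
* `U06`: the number `c` of `P` with `p^a ∣ Sg` is `Z p^(ak-a+1)`, `Z` = number of zeros modulo `p`; `φ(p^(a+1)) = p^a (p-1)`. So `c p^a = Z p^(ak) p`, between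
  `(p-1)^(k-2) (p-2) p · p^(ak)` and `(p-1)^(k-1) p · p^(ak)`; compare with `((p-1) p^a)^k`: `p ≤ 2 (p-1)` and `(p-1)² ≤ 2 p (p-2)` (`p ≥ 5`).
-/

set_option autoImplicit false

open Finset

open Pool.Agent.Lib.TTC.Loc

namespace Pool.Agent.Lib.TTC

/-- reduction modulo `p` -/
noncomputable abbrev rd (p a : ℕ) : ZMod (p ^ (a + 1)) →+* ZMod p := ZMod.castHom (dvd_pow_self p (Nat.succ_ne_zero a)) (ZMod p)

/-- reduction of units modulo `p` -/
noncomputable abbrev rdu (p a : ℕ) : (ZMod (p ^ (a + 1)))ˣ →* (ZMod p)ˣ := Units.map (rd p a : ZMod (p ^ (a + 1)) →* ZMod p)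

private theorem U06_fib (n m : ℕ) [NeZero n] [NeZero m] (h : n ∣ m) (y : ZMod n) :
    ((univ : Finset (ZMod m)).filter fun x => ZMod.castHom h (ZMod n) x = y).card * n = m := by
  classical
  have hs : Function.Surjective (ZMod.castHom h (ZMod n)) := ZMod.castHom_surjective h
  have h1 : ∀ z : ZMod n, ((univ : Finset (ZMod m)).filter fun x => ZMod.castHom h (ZMod n) x = z).card =
      ((univ : Finset (ZMod m)).filter fun x => ZMod.castHom h (ZMod n) x = y).card := by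
    intro z
    exact AddMonoidHom.card_fiber_eq_of_mem_range (ZMod.castHom h (ZMod n)).toAddMonoidHom (hs z) (hs y)
  have h2 := Finset.card_eq_sum_card_fiberwise (s := (univ : Finset (ZMod m))) (t := (univ : Finset (ZMod n)))
    (f := ZMod.castHom h (ZMod n)) (fun _ _ => Finset.mem_coe.2 (mem_univ _))
  rw [sum_congr rfl (fun z _ => h1 z), sum_const, card_univ, card_univ, ZMod.card, ZMod.card, smul_eq_mul] at h2
  rw [mul_comm]
  exact h2.symm

private theorem U06_unit (p a : ℕ) [Fact p.Prime] [NeZero (p ^ (a + 1))] (x : ZMod (p ^ (a + 1)))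
    (h : IsUnit (rd p a x)) : IsUnit x := by
  have h1 : ((x.val : ℕ) : ZMod (p ^ (a + 1))) = x := ZMod.natCast_zmod_val x
  rw [← h1] at h ⊢
  rw [map_natCast, ZMod.isUnit_iff_coprime] at h
  rw [ZMod.isUnit_iff_coprime]
  exact Nat.Coprime.pow_right _ h

private theorem U06_dvd (p a : ℕ) [NeZero (p ^ (a + 1))] (x : ZMod (p ^ (a + 1))) :
    (p : ZMod (p ^ (a + 1))) ^ a ∣ x ↔ ZMod.castHom (pow_dvd_pow p (Nat.le_succ a)) (ZMod (p ^ a)) x = 0 := by
  constructor
  · rintro ⟨c, rfl⟩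
    rw [map_mul, map_pow, map_natCast, ← Nat.cast_pow, ZMod.natCast_self, zero_mul]
  · intro h
    have h1 : ((x.val : ℕ) : ZMod (p ^ (a + 1))) = x := ZMod.natCast_zmod_val x
    rw [← h1, map_natCast, ZMod.natCast_eq_zero_iff] at h
    obtain ⟨c, hc⟩ := h
    refine ⟨(c : ZMod (p ^ (a + 1))), ?_⟩
    rw [← h1, hc]
    push_cast
    ring

private theorem U06_dvd_rd (p a : ℕ) (ha : 1 ≤ a) (x : ZMod (p ^ (a + 1)))
    (h : (p : ZMod (p ^ (a + 1))) ^ a ∣ x) : rd p a x = 0 := by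
  obtain ⟨c, rfl⟩ := h
  rw [map_mul, map_pow, map_natCast, ZMod.natCast_self, zero_pow (by omega), zero_mul]

private theorem U06_cd (p a : ℕ) [Fact p.Prime] [NeZero (p ^ (a + 1))] :
    open Classical in ((univ : Finset (ZMod (p ^ (a + 1)))).filter fun x => (p : ZMod (p ^ (a + 1))) ^ a ∣ x).card = p := by
  classical
  have hp : 0 < p := (Fact.out : p.Prime).pos
  haveI : NeZero (p ^ a) := ⟨(pow_pos hp a).ne'⟩
  have h1 := U06_fib (p ^ a) (p ^ (a + 1)) (pow_dvd_pow p (Nat.le_succ a)) 0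
  have h2 : ((univ : Finset (ZMod (p ^ (a + 1)))).filter fun x => (p : ZMod (p ^ (a + 1))) ^ a ∣ x) =
      ((univ : Finset (ZMod (p ^ (a + 1)))).filter fun x =>
        ZMod.castHom (pow_dvd_pow p (Nat.le_succ a)) (ZMod (p ^ a)) x = 0) := by
    ext x
    simp only [mem_filter, mem_univ, true_and]
    exact U06_dvd p a x
  rw [h2]
  refine Nat.eq_of_mul_eq_mul_right (pow_pos hp a) ?_
  rw [h1, pow_succ]
  ring

private theorem U06_Sg_eq {R : Type*} [CommRing R] (k : ℕ) (al be : ℕ → Rˣ) (P : Fin k → Rˣ) :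
    Sg (k + 1) al be (pp k P) = et al be 0 + ∑ j : Fin k, et al be (j + 1) * (P j : R) := by
  unfold Sg
  rw [sum_range_succ', add_comm]
  congr 1
  · simp [pp]
  · rw [← Fin.sum_univ_eq_sum_range (fun j => ((pp k P (j + 1) : Rˣ) : R) * et al be (j + 1)) k]
    refine sum_congr rfl fun j _ => ?_
    rw [pp_succ P j.2, mul_comm]

theorem U06_Sg (p a k : ℕ) (al be q : ℕ → (ZMod (p ^ (a + 1)))ˣ) :
    rd p a (Sg (k + 1) al be q) = Sg (k + 1) (fun j => rdu p a (al j)) (fun j => rdu p a (be j)) (fun j => rdu p a (q j)) := by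
  unfold Sg et
  rw [map_sum]
  refine sum_congr rfl fun j _ => ?_
  rw [map_mul, map_sub, ← map_inv (rdu p a), ← map_inv (rdu p a)]
  rfl

theorem U06_mod {p k : ℕ} [Fact p.Prime] (al be : ℕ → (ZMod p)ˣ) {j₁ j₂ : ℕ} (h1 : 1 ≤ j₁) (h12 : j₁ < j₂) (h2 : j₂ ≤ k)
    (hu1 : IsUnit (et al be j₁)) (hu2 : IsUnit (et al be j₂)) :
    (p - 1) ^ (k - 2) * (p - 2) ≤ ((univ : Finset (Fin k → (ZMod p)ˣ)).filter fun P => Sg (k + 1) al be (pp k P) = 0).card ∧
    ((univ : Finset (Fin k → (ZMod p)ˣ)).filter fun P => Sg (k + 1) al be (pp k P) = 0).card ≤ (p - 1) ^ (k - 1) := by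
  have h : ((univ : Finset (Fin k → (ZMod p)ˣ)).filter fun P => Sg (k + 1) al be (pp k P) = 0) =
      ((univ : Finset (Fin k → (ZMod p)ˣ)).filter fun P =>
        ∑ j, (fun i : Fin k => et al be (i + 1)) j * (P j : ZMod p) = - et al be 0) := by
    ext P
    simp only [mem_filter, mem_univ, true_and]
    rw [U06_Sg_eq, eq_neg_iff_add_eq_zero, add_comm]
  rw [h]
  have e1 : j₁ - 1 + 1 = j₁ := by omega
  have e2 : j₂ - 1 + 1 = j₂ := by omega
  have c1 : (fun i : Fin k => et al be (i + 1)) (⟨j₁ - 1, by omega⟩ : Fin k) ≠ 0 := by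
    show et al be (j₁ - 1 + 1) ≠ 0
    rw [e1]
    exact hu1.ne_zero
  have c2 : (fun i : Fin k => et al be (i + 1)) (⟨j₂ - 1, by omega⟩ : Fin k) ≠ 0 := by
    show et al be (j₂ - 1 + 1) ≠ 0
    rw [e2]
    exact hu2.ne_zero
  refine ⟨T12_low _ _ _ _ ?_ c1 c2, T12_p _ _ _ c1⟩
  intro hc
  have := congrArg Fin.val hc
  simp only at this
  omega

/-- the number of lifts, in the ring -/
private theorem U06_ring {p a k : ℕ} [Fact p.Prime] [NeZero (p ^ (a + 1))] (ha : 1 ≤ a) (c : Fin k → ZMod (p ^ (a + 1)))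
    (c₀ : ZMod (p ^ (a + 1))) (j₀ : Fin k) (hu : IsUnit (c j₀)) (Q : Fin k → ZMod p)
    (hQ : rd p a c₀ + ∑ j, rd p a (c j) * Q j = 0) :
    open Classical in ((univ : Finset (Fin k → ZMod (p ^ (a + 1)))).filter fun x =>
      (∀ j, rd p a (x j) = Q j) ∧ (p : ZMod (p ^ (a + 1))) ^ a ∣ c₀ + ∑ j, c j * x j).card * p ^ (a - 1) = p ^ (a * k) := by
  classical
  have hp : 0 < p := (Fact.out : p.Prime).pos
  haveI : NeZero p := ⟨hp.ne'⟩
  obtain ⟨ηi, hη⟩ : ∃ ηi, c j₀ * ηi = 1 := hu.exists_right_inv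
  obtain ⟨S, hS⟩ : ∃ S : (Fin k → ZMod (p ^ (a + 1))) → ZMod (p ^ (a + 1)), S = fun x => c₀ + ∑ j, c j * x j := ⟨_, rfl⟩
  obtain ⟨X, hX⟩ : ∃ X : Finset (Fin k → ZMod (p ^ (a + 1))), X = univ.filter (fun x => ∀ j, rd p a (x j) = Q j) := ⟨_, rfl⟩
  have hXc : X.card = p ^ (a * k) := by
    have h1 : X = Fintype.piFinset (fun j => (univ : Finset (ZMod (p ^ (a + 1)))).filter (fun x => rd p a x = Q j)) := by
      ext x
      rw [hX, Fintype.mem_piFinset, mem_filter]
      simp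
    rw [h1, Fintype.card_piFinset]
    have h2 : ∀ j, ((univ : Finset (ZMod (p ^ (a + 1)))).filter (fun x => rd p a x = Q j)).card = p ^ a := by
      intro j
      have h3 := U06_fib p (p ^ (a + 1)) (dvd_pow_self p (Nat.succ_ne_zero a)) (Q j)
      refine Nat.eq_of_mul_eq_mul_right hp ?_
      rw [h3, pow_succ]
    rw [prod_congr rfl (fun j _ => h2 j), prod_const, card_univ, Fintype.card_fin, ← pow_mul]
  have hSX : ∀ x ∈ X, rd p a (S x) = 0 := by
    intro x hx
    rw [hX, mem_filter] at hx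
    rw [hS]
    simp only
    rw [map_add, map_sum, ← hQ]
    congr 1
    refine sum_congr rfl fun j _ => ?_
    rw [map_mul, hx.2 j]
  have hN : ∀ r, rd p a r = 0 → (X.filter (fun x => S x = r)).card = (X.filter (fun x => S x = 0)).card := by
    intro r hr
    refine Finset.card_equiv (Equiv.addRight (Pi.single j₀ (-(r * ηi)))) ?_
    intro x
    have e1 : S (Equiv.addRight (Pi.single j₀ (-(r * ηi))) x) = S x - r := by
      rw [hS]
      simp only [Equiv.coe_addRight, Pi.add_apply]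
      have e2 : ∀ j, c j * (x j + (Pi.single j₀ (-(r * ηi)) : Fin k → ZMod (p ^ (a + 1))) j) =
          c j * x j + (if j = j₀ then -r else 0) := by
        intro j
        by_cases hj : j = j₀
        · subst hj
          rw [Pi.single_eq_same, if_pos rfl, mul_add]
          congr 1
          calc c j * -(r * ηi) = -(r * (c j * ηi)) := by ring
            _ = -r := by rw [hη, mul_one]
        · rw [Pi.single_eq_of_ne hj, if_neg hj, add_zero, add_zero]
      rw [sum_congr rfl (fun j _ => e2 j), sum_add_distrib, sum_ite_eq' univ j₀ (fun _ => -r), if_pos (mem_univ _)]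
      ring
    have e3 : Equiv.addRight (Pi.single j₀ (-(r * ηi))) x ∈ X ↔ x ∈ X := by
      rw [hX, mem_filter, mem_filter]
      refine and_congr (by simp) (forall_congr' fun j => ?_)
      simp only [Equiv.coe_addRight, Pi.add_apply]
      rw [map_add]
      have e4 : rd p a ((Pi.single j₀ (-(r * ηi)) : Fin k → ZMod (p ^ (a + 1))) j) = 0 := by
        by_cases hj : j = j₀
        · subst hj
          rw [Pi.single_eq_same, map_neg, map_mul, hr, zero_mul, neg_zero]
        · rw [Pi.single_eq_of_ne hj, map_zero]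
      rw [e4, add_zero]
    rw [mem_filter, mem_filter, e1, e3, sub_eq_zero]
  obtain ⟨N, hNd⟩ : ∃ N, N = (X.filter (fun x => S x = 0)).card := ⟨_, rfl⟩
  rw [← hNd] at hN
  have hA : X.card = p ^ a * N := by
    have h1 := Finset.card_eq_sum_card_fiberwise (s := X)
      (t := (univ : Finset (ZMod (p ^ (a + 1)))).filter (fun r => rd p a r = 0)) (f := S)
      (fun x hx => by
        rw [Finset.mem_coe, mem_filter]
        exact ⟨mem_univ _, hSX x (Finset.mem_coe.1 hx)⟩)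
    rw [h1, sum_congr rfl (fun r hr => hN r (mem_filter.1 hr).2), sum_const, smul_eq_mul]
    congr 1
    have h3 := U06_fib p (p ^ (a + 1)) (dvd_pow_self p (Nat.succ_ne_zero a)) 0
    refine Nat.eq_of_mul_eq_mul_right hp ?_
    rw [h3, pow_succ]
  have hB : ((univ : Finset (Fin k → ZMod (p ^ (a + 1)))).filter fun x =>
      (∀ j, rd p a (x j) = Q j) ∧ (p : ZMod (p ^ (a + 1))) ^ a ∣ c₀ + ∑ j, c j * x j).card = p * N := by
    have h0 : ((univ : Finset (Fin k → ZMod (p ^ (a + 1)))).filter fun x =>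
        (∀ j, rd p a (x j) = Q j) ∧ (p : ZMod (p ^ (a + 1))) ^ a ∣ c₀ + ∑ j, c j * x j) =
        X.filter (fun x => (p : ZMod (p ^ (a + 1))) ^ a ∣ S x) := by
      rw [hX, hS, filter_filter]
    rw [h0]
    have h1 := Finset.card_eq_sum_card_fiberwise (s := X.filter (fun x => (p : ZMod (p ^ (a + 1))) ^ a ∣ S x))
      (t := (univ : Finset (ZMod (p ^ (a + 1)))).filter (fun r => (p : ZMod (p ^ (a + 1))) ^ a ∣ r)) (f := S)
      (fun x hx => by
        rw [Finset.mem_coe, mem_filter] at hx ⊢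
        exact ⟨mem_univ _, hx.2⟩)
    rw [h1]
    have h2 : ∀ r ∈ (univ : Finset (ZMod (p ^ (a + 1)))).filter (fun r => (p : ZMod (p ^ (a + 1))) ^ a ∣ r),
        ((X.filter (fun x => (p : ZMod (p ^ (a + 1))) ^ a ∣ S x)).filter (fun x => S x = r)).card = N := by
      intro r hr
      rw [mem_filter] at hr
      rw [filter_filter, ← hN r (U06_dvd_rd p a ha r hr.2)]
      congr 1
      refine filter_congr fun x _ => ?_
      constructor
      · exact fun h => h.2
      · intro h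
        rw [h]
        exact ⟨hr.2, rfl⟩
    rw [sum_congr rfl h2, sum_const, smul_eq_mul]
    congr 1
    have := U06_cd p a
    convert this
  rw [hB, ← hXc, hA]
  obtain ⟨b, rfl⟩ : ∃ b, a = b + 1 := ⟨a - 1, by omega⟩
  rw [Nat.add_sub_cancel, pow_succ]
  ring

theorem U06_lift {p a k : ℕ} [Fact p.Prime] [NeZero (p ^ (a + 1))] (ha : 1 ≤ a) (al be : ℕ → (ZMod (p ^ (a + 1)))ˣ) {j₁ : ℕ} (h1 : 1 ≤ j₁) (h2 : j₁ ≤ k)
    (hu1 : IsUnit (et al be j₁)) (Q : Fin k → (ZMod p)ˣ)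
    (hQ : Sg (k + 1) (fun j => rdu p a (al j)) (fun j => rdu p a (be j)) (pp k Q) = 0) :
    open Classical in ((univ : Finset (Fin k → (ZMod (p ^ (a + 1)))ˣ)).filter fun P =>
      (∀ j, rdu p a (P j) = Q j) ∧ (p : ZMod (p ^ (a + 1))) ^ a ∣ Sg (k + 1) al be (pp k P)).card * p ^ (a - 1) = p ^ (a * k) := by
  classical
  have e1 : j₁ - 1 + 1 = j₁ := by omega
  have hu : IsUnit ((fun i : Fin k => et al be (i + 1)) (⟨j₁ - 1, by omega⟩ : Fin k)) := by
    show IsUnit (et al be (j₁ - 1 + 1))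
    rw [e1]
    exact hu1
  have het : ∀ i, rd p a (et al be i) = et (fun j => rdu p a (al j)) (fun j => rdu p a (be j)) i := by
    intro i
    unfold et
    rw [map_sub, ← map_inv (rdu p a), ← map_inv (rdu p a)]
    rfl
  have hQ' : rd p a (et al be 0) + ∑ j : Fin k, rd p a ((fun i : Fin k => et al be (i + 1)) j) * (Q j : ZMod p) = 0 := by
    rw [U06_Sg_eq] at hQ
    rw [← hQ, het]
    congr 1
    refine sum_congr rfl fun j _ => ?_
    simp only
    rw [het]
  rw [← U06_ring ha (fun i : Fin k => et al be (i + 1)) (et al be 0) _ hu (fun j => (Q j : ZMod p)) hQ']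
  congr 1
  refine Finset.card_bij (fun P _ => fun j => ((P j : (ZMod (p ^ (a + 1)))ˣ) : ZMod (p ^ (a + 1)))) ?_ ?_ ?_
  · intro P hP
    rw [mem_filter] at hP ⊢
    refine ⟨mem_univ _, fun j => ?_, ?_⟩
    · rw [← hP.2.1 j]
      rfl
    · have := hP.2.2
      rw [U06_Sg_eq] at this
      exact this
  · intro P _ P' _ h
    funext j
    exact Units.ext (congrFun h j)
  · intro x hx
    rw [mem_filter] at hx
    have hun : ∀ j, IsUnit (x j) := by
      intro j
      apply U06_unit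
      rw [hx.2.1 j]
      exact Units.isUnit _
    refine ⟨fun j => (hun j).unit, ?_, ?_⟩
    · rw [mem_filter]
      refine ⟨mem_univ _, fun j => ?_, ?_⟩
      · apply Units.ext
        exact hx.2.1 j
      · rw [U06_Sg_eq]
        exact hx.2.2
    · funext j
      rfl

private theorem U06_arith (p a k t z : ℕ) (hp : 5 ≤ p) (ha : 1 ≤ a) (hk : 2 ≤ k)
    (hc : t * p ^ (a - 1) = z * p ^ (a * k)) (h1 : (p - 1) ^ (k - 2) * (p - 2) ≤ z) (h2 : z ≤ (p - 1) ^ (k - 1)) :
    (p - 1) ^ k * p ^ (a * k) ≤ 2 * (t * p ^ a) ∧ t * p ^ a ≤ 2 * ((p - 1) ^ k * p ^ (a * k)) := by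
  have h5 : t * p ^ a = z * p * p ^ (a * k) := by
    obtain ⟨b, rfl⟩ : ∃ b, a = b + 1 := ⟨a - 1, by omega⟩
    rw [Nat.add_sub_cancel] at hc
    rw [pow_succ, ← mul_assoc, hc]
    ring
  rw [h5]
  obtain ⟨b, rfl⟩ : ∃ b, p = b + 2 := ⟨p - 2, by omega⟩
  obtain ⟨l, rfl⟩ : ∃ l, k = l + 2 := ⟨k - 2, by omega⟩
  have g1 : b + 2 - 1 = b + 1 := by omega
  have g2 : b + 2 - 2 = b := by omega
  have g3 : l + 2 - 2 = l := by omega
  have g4 : l + 2 - 1 = l + 1 := by omega
  rw [g1, g2, g3] at h1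
  rw [g1, g4] at h2
  rw [g1]
  constructor
  · calc (b + 1) ^ (l + 2) * (b + 2) ^ (a * (l + 2)) = ((b + 1) ^ l * (b + 1) ^ 2) * (b + 2) ^ (a * (l + 2)) := by
          rw [pow_add]
      _ ≤ ((b + 1) ^ l * (2 * (b * (b + 2)))) * (b + 2) ^ (a * (l + 2)) := by
          gcongr
          nlinarith
      _ = 2 * ((b + 1) ^ l * b * (b + 2) * (b + 2) ^ (a * (l + 2))) := by ring
      _ ≤ 2 * (z * (b + 2) * (b + 2) ^ (a * (l + 2))) := by
          gcongr
  · calc z * (b + 2) * (b + 2) ^ (a * (l + 2)) ≤ (b + 1) ^ (l + 1) * (2 * (b + 1)) * (b + 2) ^ (a * (l + 2)) := by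
          gcongr
          omega
      _ = 2 * ((b + 1) ^ (l + 2) * (b + 2) ^ (a * (l + 2))) := by ring

theorem U06 {p a k : ℕ} [Fact p.Prime] [NeZero (p ^ (a + 1))] (hp : 5 ≤ p) (ha : 1 ≤ a) (al be : ℕ → (ZMod (p ^ (a + 1)))ˣ) {j₁ j₂ : ℕ}
    (h1 : 1 ≤ j₁) (h12 : j₁ < j₂) (h2 : j₂ ≤ k) (hu1 : IsUnit (et al be j₁)) (hu2 : IsUnit (et al be j₂)) :
    open Classical in
    (Nat.totient (p ^ (a + 1))) ^ k ≤ 2 * (((univ : Finset (Fin k → (ZMod (p ^ (a + 1)))ˣ)).filter fun P =>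
      (p : ZMod (p ^ (a + 1))) ^ a ∣ Sg (k + 1) al be (pp k P)).card * p ^ a) ∧
    ((univ : Finset (Fin k → (ZMod (p ^ (a + 1)))ˣ)).filter fun P =>
      (p : ZMod (p ^ (a + 1))) ^ a ∣ Sg (k + 1) al be (pp k P)).card * p ^ a ≤ 2 * (Nat.totient (p ^ (a + 1))) ^ k := by
  classical
  obtain ⟨T, hT⟩ : ∃ T : Finset (Fin k → (ZMod (p ^ (a + 1)))ˣ), T = ((univ : Finset (Fin k → (ZMod (p ^ (a + 1)))ˣ)).filter fun P =>
      (p : ZMod (p ^ (a + 1))) ^ a ∣ Sg (k + 1) al be (pp k P)) := ⟨_, rfl⟩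
  obtain ⟨Z, hZ⟩ : ∃ Z : Finset (Fin k → (ZMod p)ˣ), Z = ((univ : Finset (Fin k → (ZMod p)ˣ)).filter fun P =>
      Sg (k + 1) (fun j => rdu p a (al j)) (fun j => rdu p a (be j)) (pp k P) = 0) := ⟨_, rfl⟩
  have hp1 : 0 < p := by omega
  have het : ∀ i, rd p a (et al be i) = et (fun j => rdu p a (al j)) (fun j => rdu p a (be j)) i := by
    intro i
    unfold et
    rw [map_sub, ← map_inv (rdu p a), ← map_inv (rdu p a)]
    rfl
  have hpp : ∀ P : Fin k → (ZMod (p ^ (a + 1)))ˣ, (fun j => rdu p a (pp k P j)) = pp k (fun j => rdu p a (P j)) := by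
    intro P
    funext j
    cases j with
    | zero => simp [pp]
    | succ j =>
      by_cases hj : j < k
      · rw [pp_succ P hj, pp_succ _ hj]
      · simp [pp, ex, hj]
  have hc : T.card * p ^ (a - 1) = Z.card * p ^ (a * k) := by
    have hfb := Finset.card_eq_sum_card_fiberwise (s := T) (t := Z) (f := fun P => fun j => rdu p a (P j))
      (fun P hP => by
        rw [Finset.mem_coe] at hP ⊢
        rw [hT, mem_filter] at hP
        rw [hZ, mem_filter]
        refine ⟨mem_univ _, ?_⟩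
        rw [← hpp, ← U06_Sg]
        exact U06_dvd_rd p a ha _ hP.2)
    rw [hfb, sum_mul, sum_congr rfl (g := fun _ => p ^ (a * k)), sum_const, smul_eq_mul]
    intro Q hQ
    rw [hZ, mem_filter] at hQ
    have h3 := U06_lift ha al be h1 (le_trans h12.le h2) hu1 Q hQ.2
    rw [← h3]
    congr 2
    rw [hT, filter_filter]
    ext P
    simp only [mem_filter, mem_univ, true_and]
    rw [and_comm]
    refine and_congr ?_ Iff.rfl
    constructor
    · intro h j
      exact congrFun h j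
    · intro h
      funext j
      exact h j
  have hu1' : IsUnit (et (fun j => rdu p a (al j)) (fun j => rdu p a (be j)) j₁) := by
    rw [← het]
    exact hu1.map (rd p a)
  have hu2' : IsUnit (et (fun j => rdu p a (al j)) (fun j => rdu p a (be j)) j₂) := by
    rw [← het]
    exact hu2.map (rd p a)
  have hm := U06_mod (fun j => rdu p a (al j)) (fun j => rdu p a (be j)) h1 h12 h2 hu1' hu2'
  have hZc : ((univ : Finset (Fin k → (ZMod p)ˣ)).filter fun P =>
      Sg (k + 1) (fun j => rdu p a (al j)) (fun j => rdu p a (be j)) (pp k P) = 0).card = Z.card := by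
    rw [hZ]
  rw [hZc] at hm
  have hTc : ((univ : Finset (Fin k → (ZMod (p ^ (a + 1)))ˣ)).filter fun P =>
      (p : ZMod (p ^ (a + 1))) ^ a ∣ Sg (k + 1) al be (pp k P)).card = T.card := by
    rw [hT]
  rw [hTc]
  have h6 : Nat.totient (p ^ (a + 1)) ^ k = (p - 1) ^ k * p ^ (a * k) := by
    rw [Nat.totient_prime_pow_succ (Fact.out : p.Prime), mul_pow, ← pow_mul]
    ring
  rw [h6]
  exact U06_arith p a k T.card Z.card (by omega) ha (by omega) hc hm.1 hm.2

end Pool.Agent.Lib.TTC
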